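import Pool.Agent.helper63.NF.Fact

/-!
# The near field of one pair, form independent

`R n`: radius of the state set before the near node `n`, in the `om` plane; `Y n`: its cut;
`δ n`: displacement at the link before the near node `n`.
-/

namespace Pool.Agent.helper63.NF

open Complex
open Pool.Agent.helper12.RS

/-- the near field of the pair `(e, κ)`; `L` near nodes, starts `0 ≤ v ≤ ve` -/
structure NearF (t : Tb) (ht : t.IsReal) (e κ θ A x0 B1 ve : ℝ) (L : ℕ) (δ Y R : ℕ → ℝ) :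
    Prop where
  Lpos : 0 < L
  vpos : 0 < ve
  /-- the radius after the first link -/
  Rz : kk κ + δ 0 ≤ R 0
  Rs : ∀ n, n < L → kk κ * R n + δ (n + 1) ≤ R (n + 1)
  R1 : ∀ n, n < L → R n < 1
  /-- the entry in the far field -/
  ent : R L < Real.exp (-(2 * κ * x0))
  zero : ∀ η : ℝ, 0 ≤ η → |κ * η| < Real.pi / 2 → Tab.vv e κ (Tb.gR e) η ≤ ve →
    ZeroP t e κ θ (δ 0) (Y 0) ((η : ℂ) * I) (((t.lamT ht e κ).toN e κ).l0 ((η : ℂ) * I))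
      (((t.lamT ht e κ).toN e κ).r0 ((η : ℂ) * I)) (((t.lamT ht e κ).toN e κ).M0 ((η : ℂ) * I))
  mid : ∀ n, n + 1 < L → ∀ T : ℂ, T + (Real.sinh κ : ℂ) ≠ 0 → ‖omT κ T‖ ≤ R n →
    ‖T ^ 2 - (Real.sinh κ : ℂ) ^ 2‖ ≤ Real.sinh κ ^ 2 + Y n →
    MidP t e κ θ (δ (n + 1)) (Y (n + 1)) n T
  last : ∀ T : ℂ, T + (Real.sinh κ : ℂ) ≠ 0 → ‖omT κ T‖ ≤ R (L - 1) →
    ‖T ^ 2 - (Real.sinh κ : ℂ) ^ 2‖ ≤ Real.sinh κ ^ 2 + Y (L - 1) →
    LastP t e κ θ (δ L) (Y L) A x0 B1 (L - 1) T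
  test : ∀ η : ℝ, 0 < η → |κ * η| < Real.pi / 2 → Tab.vv e κ (Tb.gR e) η = ve →
    ∀ x : ℂ, ‖x‖ ≤ 1 → (exp (lF (((t.lamT ht e κ).toN e κ).l0 ((η : ℂ) * I))
      (((t.lamT ht e κ).toN e κ).r0 ((η : ℂ) * I) * x) + (e : ℂ) / 2 *
      log (Pool.Agent.helper12.RS.SH e κ (tanh (κ * ((η : ℂ) * I)))
        (((t.lamT ht e κ).toN e κ).l0 ((η : ℂ) * I))
        (((t.lamT ht e κ).toN e κ).r0 ((η : ℂ) * I) * x)))).re < 1 / 2

end Pool.Agent.helper63.NF
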