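import Pool.Agent.helper63.NF.SpecFar

/-!
# Meaning of the program of the last near node
-/

namespace Pool.Agent.helper63.NF

open Complex
open Pool.Agent.helper31.IA (Z get)
open Pool.Agent.helper12.RS

theorem pow_eq {e κ : ℝ} {Q : ℂ} (hQ : Q ≠ 0) :
    (Real.exp (-(e * κ)) : ℂ) * exp (-(log (Q * (Real.exp (-κ) : ℂ)) * e)) = Q ^ (-(e : ℂ)) := by
  rw [log_mul_qi hQ, Complex.cpow_def_of_ne_zero hQ]
  push_cast
  rw [← Complex.exp_add]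
  congr 1
  ring

/-- the statements between the far constant and its displacement -/
def lastM (t : TD) : List St :=
  [.set 72 (.add (.r 58) (.r 23)), .pos (.r 72), .set 73 (.inv (.r 72)), .set 74 (.sub (.r 23) (.r 73)),
   .set 75 (.add (.r 74) (.r 23)), .pos (.r 75), .set 76 (.inv (.r 75)),
   .set 77 (.sub (.r 23) (.r 76)),
   .set 78 (.add (.r 77) (.r 23)), .set 79 (.mul (.r 75) (.r 11)), .pos (.r 79),
   .set 79 (.log (.r 79)),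
   .set 80 (.mul (.r 78) (.r 11)), .pos (.r 80), .set 80 (.log (.r 80)),
   .set 81 (.mul (.r 18) (.exp (.neg (.mul (.r 79) (.r 5))))),
   .set 82 (.mul (.r 18) (.exp (.neg (.mul (.r 80) (.r 5))))),
   .set 83 (.add (.r 82) (.r 22)), .pos (.r 83), .set 83 (.inv (.r 83)),
   .set 84 (.mul (.r 82) (.r 83)),
   .lt (.r 84) t.B1,
   .set 85 (.sc (zi t.C2) (.mul (.mul (.sub (.mul (.r 77) (.r 77)) (.mul (.r 15) (.r 15))) (.r 5))
     (.mul (.mul (.r 84) (.r 83)) (.r 83))))]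

/-- the final statements -/
def lastF (t : TD) (n : ℕ) : List St :=
  [.set 105 (.add (.r 74) (.r 15)), .set 106 (.mul (.r 104) (.r 105)),
   .set 107 (.mul (.r 106) (.r 95)),
   .set 108 (.sub (.add (.r 30) (.r 34)) (.r 59)),
   .set 109 (.add (.sub (.r 82) (.r 81)) (.r 22)), .pos (.r 109),
   .set 109 (.log (.r 109)), .set 110 (.add (.mul (.sub (.r 82) (.r 18)) (.r 20)) (.r 22)),
   .pos (.r 110),
   .set 110 (.log (.r 110)), .set 111 (.exp (.sub (.add (.r 108) (.r 109)) (.r 110))),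
   .set 112 (.mul (.exp (.r 108)) (.r 19)),
   .set 113 (.sc (scZ t n) (.mul (.mul (.r 112) (.r 81)) (.r 94))),
   .set 114 (.add (.mul (.r 3) (.sub (.r 22) (.r 94)))
     (.mul (.r 94) (.mul (.sc (scZ t n) (.sub (.r 22) (.r 111))) (.r 95)))),
   .rball 115 (.c (zi 0)) (.mul (.mul (.r 113) (.r 83)) (.r 107)), .rball 116 (.c (zi 0)) (.r 106),
   .rball 117 (.c (zi 0)) (.mul (.mul (.mul (.r 113) (.r 85)) (.r 95)) (.add (.r 116) (.r 22))),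
   .lt (.add (.add (.r 114) (.r 115)) (.r 117)) TH]

theorem P2l_eq (t : TD) (n : ℕ) : P2l t n = nearS t n ++ (farS t ++ (lastM t ++ (xaS t ++ lastF t n))) := by
  unfold P2l lastM lastF
  simp only [List.append_assoc]

/-- the registers after the middle statements -/
structure FR (t : TD) (e κ : ℝ) (Q1 Q2 q2 q3 : ℂ) (σ : ℕ → ℂ) : Prop where
  f74 : σ 74 = Q1 - (Real.cosh κ : ℂ)
  f81 : σ 81 = q2
  f82 : σ 82 = q3
  f83 : σ 83 = (1 + q3)⁻¹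
  ne : 1 + q3 ≠ 0
  lt : ‖q3 * (1 + q3)⁻¹‖ < (t.B1 : ℝ) / 2 ^ 40
  f85 : σ 85 = (rv t.C2 : ℂ) * (((Q2 - (Real.cosh κ : ℂ)) ^ 2 - (Real.sinh κ : ℂ) ^ 2) * e *
    (q3 * (1 + q3)⁻¹ * (1 + q3)⁻¹ * (1 + q3)⁻¹))

theorem lastM_spec {t : TD} {e κ : ℝ} {σ : ℕ → ℂ} {Q : (ℕ → ℂ) → Prop} {T1 Q' Q1 Q2 q2 q3 : ℂ}
    (hF : HF t e κ σ) (h58 : σ 58 = T1) (hQ' : Q' = (Real.cosh κ : ℂ) + T1)
    (hQ1 : Q1 = 2 * (Real.cosh κ : ℂ) - Q'⁻¹) (hQ2 : Q2 = 2 * (Real.cosh κ : ℂ) - Q1⁻¹)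
    (hq2 : q2 = Q1 ^ (-(e : ℂ))) (hq3 : q3 = Q2 ^ (-(e : ℂ)))
    (h : Sem (lastM t) σ Q) : ∃ τ, Q τ ∧ (∀ i, i < 72 ∨ 86 ≤ i → τ i = σ i) ∧
      0 < Q'.re ∧ FR t e κ Q1 Q2 q2 q3 τ := by
  have e5 := hF.ie
  have e11 := hF.qi
  have e15 := hF.K
  have e18 := hF.Mi
  have e22 := hF.one
  have e23 := hF.c
  obtain ⟨c, hc⟩ : ∃ c, c = (Real.cosh κ : ℂ) := ⟨_, rfl⟩
  obtain ⟨K, hK⟩ : ∃ K, K = (Real.sinh κ : ℂ) := ⟨_, rfl⟩
  rw [← hc] at e23 hQ' hQ1 hQ2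
  rw [← hK] at e15
  obtain ⟨-, h⟩ := sem_set h (x := Q') (by
    show σ 58 + σ 23 = _
    rw [h58, e23, hQ', add_comm])
  obtain ⟨-, p1, h⟩ := h
  have Qre : 0 < Q'.re := p1
  obtain ⟨-, h⟩ := sem_set h (x := Q'⁻¹) (by simp [E.ev, upd])
  obtain ⟨-, h⟩ := sem_set h (x := Q1 - c) (by
    rw [hQ1]
    simp [E.ev, upd, e23]
    ring)
  obtain ⟨-, h⟩ := sem_set h (x := Q1) (by simp [E.ev, upd, e23])
  obtain ⟨-, p2, h⟩ := h
  have Q1re : 0 < Q1.re := p2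
  obtain ⟨-, h⟩ := sem_set h (x := Q1⁻¹) (by simp [E.ev, upd])
  obtain ⟨-, h⟩ := sem_set h (x := Q2 - c) (by
    rw [hQ2]
    simp [E.ev, upd, e23]
    ring)
  obtain ⟨-, h⟩ := sem_set h (x := Q2) (by simp [E.ev, upd, e23])
  obtain ⟨-, h⟩ := sem_set h (x := Q1 * (Real.exp (-κ) : ℂ)) (by simp [E.ev, upd, e11])
  obtain ⟨-, -, h⟩ := h
  obtain ⟨-, h⟩ := sem_set h (x := log (Q1 * (Real.exp (-κ) : ℂ))) (by simp [E.ev, upd])
  obtain ⟨-, h⟩ := sem_set h (x := Q2 * (Real.exp (-κ) : ℂ)) (by simp [E.ev, upd, e11])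
  obtain ⟨-, p3, h⟩ := h
  have Q2re : 0 < (Q2 * (Real.exp (-κ) : ℂ)).re := p3
  have Q1ne := ne_of_re Q1re
  have Q2ne : Q2 ≠ 0 := left_ne_zero_of_mul (ne_of_re Q2re)
  obtain ⟨-, h⟩ := sem_set h (x := log (Q2 * (Real.exp (-κ) : ℂ))) (by simp [E.ev, upd])
  obtain ⟨-, h⟩ := sem_set h (x := q2) (by
    rw [hq2, ← pow_eq Q1ne (e := e) (κ := κ)]
    simp only [E.ev, upd, Nat.reduceEqDiff, reduceIte]
    rw [e18, e5])
  obtain ⟨-, h⟩ := sem_set h (x := q3) (by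
    rw [hq3, ← pow_eq Q2ne (e := e) (κ := κ)]
    simp only [E.ev, upd, Nat.reduceEqDiff, reduceIte]
    rw [e18, e5])
  obtain ⟨-, h⟩ := sem_set h (x := 1 + q3) (by
    simp only [E.ev, upd, Nat.reduceEqDiff, reduceIte]
    rw [e22, add_comm])
  obtain ⟨-, p4, h⟩ := h
  have q3re : 0 < (1 + q3).re := p4
  obtain ⟨-, h⟩ := sem_set h (x := (1 + q3)⁻¹) (by simp [E.ev, upd])
  obtain ⟨-, h⟩ := sem_set h (x := q3 * (1 + q3)⁻¹) (by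
    simp only [E.ev, upd, Nat.reduceEqDiff, reduceIte])
  obtain ⟨-, p5, h⟩ := h
  obtain ⟨-, h⟩ := sem_set h (x := (rv t.C2 : ℂ) * (((Q2 - c) ^ 2 - K ^ 2) * e *
      (q3 * (1 + q3)⁻¹ * (1 + q3)⁻¹ * (1 + q3)⁻¹))) (by
    simp only [E.ev, upd, Nat.reduceEqDiff, reduceIte, zi_val, cv_rv]
    rw [e15, e5]
    ring)
  refine ⟨_, h, ?_, Qre, ?_⟩
  · intro i hi
    repeat rw [upd_ne (by omega)]
  · rw [hc, hK] at *
    refine ⟨?_, ?_, ?_, ?_, ne_of_re q3re, ?_, ?_⟩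
    · simp [upd]
    · simp [upd]
    · simp [upd]
    · simp [upd]
    · exact p5
    · simp [upd]

/-- **The last near node.** -/
theorem last_pt {t : TD} (hok : t.ok = true) (hl : t.Okl) {e κ : ℝ} (he : 0 < e) (hκ : 0 < κ)
    (hst : t.strip = true → κ ≤ 1 / 4) {m : ℕ}
    {σ : ℕ → ℂ} {Q : (ℕ → ℂ) → Prop} {T x : ℂ} (h0 : σ 0 = ((1 / e : ℝ) : ℂ))
    (h1 : σ 1 = ((e * κ / 2 : ℝ) : ℂ)) (h2 : σ 2 = T) (h3 : σ 3 = x)
    (h : Sem (P2l t (m + 1)) σ Q) : ∃ T1 σ1, NR t e κ m T x T1 σ1 ∧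
      StepP t.tb e κ (t.δ (m + 1) e κ) (t.Y (m + 1) e) m T x T1 ∧
      ∀ Q' Q1 Q2 q2 q3 : ℂ, Q' = (Real.cosh κ : ℂ) + T1 →
      Q1 = 2 * (Real.cosh κ : ℂ) - Q'⁻¹ → Q2 = 2 * (Real.cosh κ : ℂ) - Q1⁻¹ →
      q2 = Q1 ^ (-(e : ℂ)) → q3 = Q2 ^ (-(e : ℂ)) →
      ‖q3‖ ≤ (t.B1 : ℝ) / 2 ^ 40 * ‖1 + q3‖ ∧ 1 + q3 ≠ 0 ∧
      ∀ f2 χ : ℂ, ‖f2 - 1 / (1 + q3)‖ ≤
        (1 + 1 / (2 * (t.x0 + 2))) / (1 - (t.B1 : ℝ) / 2 ^ 40 / (t.x0 + 2)) *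
        (e * ‖(Q2 - (Real.cosh κ : ℂ)) ^ 2 - (Real.sinh κ : ℂ) ^ 2‖) * ‖q3‖ / ‖1 + q3‖ ^ 3 →
        ‖χ‖ ≤ t.A e κ * Real.sinh κ * Real.exp (-(κ * t.x0)) / Real.sinh (κ * (t.x0 + 1)) *
          ‖(Q' - (Real.exp (-κ) : ℂ)) / Q'‖ →
        ‖x - t.tb.MT e κ m T * (x - (1 - exp (CL (t.tb.lT e κ T) - (e : ℂ) * log Q') *
          (1 - q2 * f2 * (1 - χ))) / t.tb.rT e κ m T)‖ < θ0 := by
  rw [P2l_eq] at h
  have h := sem_append _ _ _ h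
  obtain ⟨σ1, T1, h, hR⟩ := near_spec hok he hκ h0 h1 h2 h3 h
  have h := sem_append _ _ _ h
  obtain ⟨σ2, h, f2', hA⟩ := far_spec hR.hF h
  have hF2 : HF t e κ σ2 := hR.hF.of_eq (fun i hi _ _ _ => f2' i (by omega)) (fun i j => f2' _ (by
    have := mreg_ge i j
    omega))
  have h := sem_append _ _ _ h
  obtain ⟨Q', hQ'⟩ : ∃ Q, Q = (Real.cosh κ : ℂ) + T1 := ⟨_, rfl⟩
  obtain ⟨Q1, hQ1⟩ : ∃ Q, Q = 2 * (Real.cosh κ : ℂ) - Q'⁻¹ := ⟨_, rfl⟩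
  obtain ⟨Q2, hQ2⟩ : ∃ Q, Q = 2 * (Real.cosh κ : ℂ) - Q1⁻¹ := ⟨_, rfl⟩
  obtain ⟨q2, hq2⟩ : ∃ Q, Q = Q1 ^ (-(e : ℂ)) := ⟨_, rfl⟩
  obtain ⟨q3, hq3⟩ : ∃ Q, Q = Q2 ^ (-(e : ℂ)) := ⟨_, rfl⟩
  obtain ⟨σ3, h, f3, Qre, hFR⟩ := lastM_spec hF2 (by rw [f2' 58 (by omega)]; exact hR.fT1)
    hQ' hQ1 hQ2 hq2 hq3 h
  have hF3 : HF t e κ σ3 := hF2.of_eq (fun i hi _ _ _ => f3 i (by omega)) (fun i j => f3 _ (by
    have := mreg_ge i j
    omega))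
  have h := sem_append _ _ _ h
  obtain ⟨σ4, h, f4, hX⟩ := xa_spec hl he hκ hst hF3 (by rw [f3 99 (by omega)]; exact hA) h
  have hF4 : HF t e κ σ4 := hF3.of_eq (fun i hi _ _ _ => f4 i (by omega)) (fun i j => f4 _ (by
    have := mreg_ge i j
    omega))
  have Qne := ne_of_re Qre
  refine ⟨T1, σ1, hR, hR.stepP (by rw [← hQ']; exact Qre), ?_⟩
  intro Q'a Q1a Q2a q2a q3a ha1 ha2 ha3 ha4 ha5
  rw [← hQ'] at ha1
  subst ha1
  rw [← hQ1] at ha2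
  subst ha2
  rw [← hQ2] at ha3
  subst ha3
  rw [← hq2] at ha4
  subst ha4
  rw [← hq3] at ha5
  subst ha5
  have hne := hFR.ne
  have hnp : 0 < ‖1 + q3a‖ := norm_pos_iff.2 hne
  refine ⟨?_, hne, ?_⟩
  · have h5 := hFR.lt
    rw [norm_mul, norm_inv, ← div_eq_mul_inv, div_lt_iff₀ hnp] at h5
    exact h5.le
  intro f2 χ hf2 hχ
  -- the registers
  have key : ∀ i, i < 72 → σ4 i = σ1 i := fun i hi => by
    rw [f4 i (by omega), f3 i (by omega), f2' i (by omega)]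
  have n30 : σ4 30 = t.tb.lT e κ T - ((e * κ : ℝ) : ℂ) := by rw [key 30 (by omega)]; exact hR.nd.l
  have n34 : σ4 34 = lc (t.tb.lT e κ T) - (LM e κ : ℂ) := by rw [key 34 (by omega)]; exact hR.nd.mm
  have n3 : σ4 3 = x := by rw [key 3 (by omega)]; exact hR.fx
  have n59 := hR.fLQ
  rw [← key 59 (by omega)] at n59
  have n94 : σ4 94 = t.tb.MT e κ m T := by
    rw [f4 94 (by omega), f3 94 (by omega), f2' 94 (by omega)]
    exact hR.fM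
  have n95 := hR.fir
  rw [← f2' 95 (by omega), ← f3 95 (by omega), ← f4 95 (by omega)] at n95
  have n74 : σ4 74 = Q1a - (Real.cosh κ : ℂ) := by rw [f4 74 (by omega)]; exact hFR.f74
  have n81 : σ4 81 = q2a := by rw [f4 81 (by omega)]; exact hFR.f81
  have n82 : σ4 82 = q3a := by rw [f4 82 (by omega)]; exact hFR.f82
  have n83 : σ4 83 = (1 + q3a)⁻¹ := by rw [f4 83 (by omega)]; exact hFR.f83
  have n85 := hFR.f85
  rw [← f4 85 (by omega)] at n85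
  have n15 := hF4.K
  have n18 := hF4.Mi
  have n19 := hF4.Mi1
  have n20 := hF4.iMi
  have n22 := hF4.one
  obtain ⟨s, hs⟩ : ∃ s, s = t.s2 (m + 1) := ⟨_, rfl⟩
  obtain ⟨r, hr⟩ : ∃ r, r = t.tb.rT e κ m T := ⟨_, rfl⟩
  obtain ⟨M, hMd⟩ : ∃ M, M = t.tb.MT e κ m T := ⟨_, rfl⟩
  obtain ⟨l, hld⟩ : ∃ l, l = t.tb.lT e κ T := ⟨_, rfl⟩
  have hsv : (scZ t (m + 1)).val = s := by
    rw [hs]
    exact zn_val _
  have rne : r ≠ 0 := by rw [hr]; exact hR.r_ne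
  rw [← hs, ← hr] at n95
  rw [← hMd] at n94
  rw [← hld] at n30 n34
  rw [← hMd, ← hr, ← hld]
  -- `χ`
  obtain ⟨-, h⟩ := sem_set h (x := (Real.exp κ : ℂ) - Q'a⁻¹) (by
    show σ4 74 + σ4 15 = _
    rw [n74, n15, ← c_K κ, hQ1]
    ring)
  obtain ⟨w, hw⟩ : ∃ w, w = σ4 104 * ((Real.exp κ : ℂ) - Q'a⁻¹) := ⟨_, rfl⟩
  obtain ⟨-, h⟩ := sem_set h (x := w) (by
    show upd σ4 105 _ 104 * upd σ4 105 _ 105 = _
    rw [upd_same, upd_ne (by omega), hw])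
  have hχ' : ‖χ‖ ≤ ‖w‖ := by
    refine hχ.trans ?_
    have hx0 : 2 * (t.x0 + 1) = rv t.x2 := by
      unfold TD.x0
      ring
    have hz : 0 < κ * (t.x0 + 1) := by
      have := hl.x2
      rw [← hx0] at this
      exact mul_pos hκ (by linarith)
    have hsh := Real.sinh_pos_iff.2 hz
    have e1 : Real.exp (rv t.x2 * κ) - 1 = 2 * Real.sinh (κ * (t.x0 + 1)) *
        Real.exp (κ * (t.x0 + 1)) := by
      rw [Real.sinh_eq, ← hx0]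
      have e2 : Real.exp (2 * (t.x0 + 1) * κ) = Real.exp (κ * (t.x0 + 1)) * Real.exp (κ * (t.x0 + 1)) := by
        rw [← Real.exp_add]
        congr 1
        ring
      have e3 : Real.exp (-(κ * (t.x0 + 1))) * Real.exp (κ * (t.x0 + 1)) = 1 := by
        rw [← Real.exp_add, neg_add_cancel, Real.exp_zero]
      rw [e2]
      linear_combination e3
    have e4 : (Real.exp κ : ℂ) - Q'a⁻¹ = (Real.exp κ : ℂ) * ((Q'a - (Real.exp (-κ) : ℂ)) / Q'a) := by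
      have := exp_qi κ
      field_simp
      linear_combination this
    have e5 : t.A e κ * Real.sinh κ * Real.exp (-(κ * t.x0)) / Real.sinh (κ * (t.x0 + 1)) =
        t.A e κ * (2 * Real.sinh κ) / (Real.exp (rv t.x2 * κ) - 1) * Real.exp κ := by
      rw [e1]
      have e6 : Real.exp (-(κ * t.x0)) * Real.exp (κ * (t.x0 + 1)) = Real.exp κ := by
        rw [← Real.exp_add]
        congr 1
        ring
      have h8 := (Real.exp_pos (κ * (t.x0 + 1))).ne'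
      rw [← e6]
      field_simp
    rw [hw, norm_mul, e4, norm_mul, Complex.norm_real, Real.norm_of_nonneg (Real.exp_pos κ).le,
      e5]
    calc _ ≤ ‖σ4 104‖ * Real.exp κ * ‖(Q'a - (Real.exp (-κ) : ℂ)) / Q'a‖ :=
          mul_le_mul_of_nonneg_right (mul_le_mul_of_nonneg_right hX (Real.exp_pos κ).le)
            (norm_nonneg _)
      _ = _ := mul_assoc _ _ _
  obtain ⟨s95, hs95⟩ : ∃ z, z = σ4 95 := ⟨_, rfl⟩
  rw [← hs95] at n95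
  obtain ⟨-, h⟩ := sem_set h (x := w * s95) (by
    simp only [E.ev, upd, Nat.reduceEqDiff, reduceIte, hs95])
  obtain ⟨Lq, hLq⟩ : ∃ L, L = (e : ℂ) * log Q'a := ⟨_, rfl⟩
  rw [← hQ', ← hLq] at n59
  rw [← hLq]
  obtain ⟨-, h⟩ := sem_set h (x := CL l - Lq - (LM e κ : ℂ)) (by
    simp only [E.ev, upd, Nat.reduceEqDiff, reduceIte]
    rw [n30, n34, n59]
    unfold CL
    ring)
  obtain ⟨-, h⟩ := sem_set h (x := q3a - q2a + 1) (by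
    simp only [E.ev, upd, Nat.reduceEqDiff, reduceIte]
    rw [n82, n81, n22])
  obtain ⟨-, p1, h⟩ := h
  have re1 : 0 < (q3a - q2a + 1).re := p1
  obtain ⟨-, h⟩ := sem_set h (x := log (q3a - q2a + 1)) (by simp [E.ev, upd])
  obtain ⟨Mi, hMi⟩ : ∃ z, z = (Real.exp (-(e * κ)) : ℂ) := ⟨_, rfl⟩
  rw [← hMi] at n18 n19 n20
  have hMi0 : Mi + 1 ≠ 0 := by
    rw [hMi]
    have : (0 : ℝ) < Real.exp (-(e * κ)) + 1 := by positivity
    exact_mod_cast this.ne'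
  obtain ⟨-, h⟩ := sem_set h (x := (1 + q3a) / (Mi + 1)) (by
    simp only [E.ev, upd, Nat.reduceEqDiff, reduceIte]
    rw [n82, n18, n20, n22]
    field_simp
    ring)
  obtain ⟨-, p2, h⟩ := h
  have re2 : 0 < ((1 + q3a) / (Mi + 1)).re := p2
  obtain ⟨-, h⟩ := sem_set h (x := log ((1 + q3a) / (Mi + 1))) (by simp [E.ev, upd])
  obtain ⟨W, hW⟩ : ∃ W, W = exp (CL l - Lq) := ⟨_, rfl⟩
  have hLM : exp (-(LM e κ : ℂ)) * (Mi + 1) = 1 := by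
    have h6 : exp ((LM e κ : ℝ) : ℂ) = 1 + Mi := by
      rw [hMi, ← Complex.ofReal_exp]
      unfold LM
      rw [Real.exp_log (by positivity)]
      push_cast
      ring
    rw [add_comm Mi, ← h6, ← Complex.exp_add, neg_add_cancel, Complex.exp_zero]
  obtain ⟨-, h⟩ := sem_set h (x := W * (1 - q2a * (1 + q3a)⁻¹)) (by
    simp only [E.ev, upd, Nat.reduceEqDiff, reduceIte]
    have e7 : CL l - Lq - (LM e κ : ℂ) + log (q3a - q2a + 1) - log ((1 + q3a) / (Mi + 1)) =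
        (CL l - Lq) + -(LM e κ : ℂ) + log (q3a - q2a + 1) + -log ((1 + q3a) / (Mi + 1)) := by ring
    rw [e7, Complex.exp_add, Complex.exp_add, Complex.exp_add, Complex.exp_neg (log _),
      Complex.exp_log (ne_of_re re1), Complex.exp_log (ne_of_re re2), ← hW]
    have e8 : exp (-(LM e κ : ℂ)) = (Mi + 1)⁻¹ := by
      exact eq_inv_of_mul_eq_one_left hLM
    rw [e8]
    field_simp
    ring)
  obtain ⟨-, h⟩ := sem_set h (x := W) (by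
    simp only [E.ev, upd, Nat.reduceEqDiff, reduceIte]
    have e7 : CL l - Lq - (LM e κ : ℂ) = (CL l - Lq) + -(LM e κ : ℂ) := by ring
    rw [n19, e7, Complex.exp_add, mul_assoc, hLM, mul_one, ← hW])
  obtain ⟨-, h⟩ := sem_set h (x := s * (W * q2a * M)) (by
    simp only [E.ev, upd, Nat.reduceEqDiff, reduceIte]
    rw [hsv, n81, n94])
  obtain ⟨-, h⟩ := sem_set h (x := x * (1 - M) + M * (s * (1 - W * (1 - q2a * (1 + q3a)⁻¹)) * s95)) (by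
    simp only [E.ev, upd, Nat.reduceEqDiff, reduceIte]
    rw [hsv, n3, n94, n22, ← hs95])
  obtain ⟨-, -, h⟩ := h
  obtain ⟨b115, hb115⟩ : ∃ z, z = -(s * (W * q2a * M) * (1 + q3a)⁻¹ * (χ * s95)) := ⟨_, rfl⟩
  have h := h b115 (by
    simp only [E.ev, upd, Nat.reduceEqDiff, reduceIte]
    rw [zz_val, sub_zero, n83, hb115, norm_neg, norm_mul, norm_mul _ (w * s95), norm_mul χ,
      norm_mul w]
    exact mul_le_mul_of_nonneg_left (mul_le_mul_of_nonneg_right hχ' (norm_nonneg _)) (norm_nonneg _))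
  obtain ⟨-, -, h⟩ := h
  have h := h (-χ) (by
    simp only [E.ev, upd, Nat.reduceEqDiff, reduceIte]
    rw [zz_val, sub_zero, norm_neg]
    exact hχ')
  obtain ⟨-, -, h⟩ := h
  obtain ⟨z85, hz85⟩ : ∃ z, z = σ4 85 := ⟨_, rfl⟩
  rw [← hz85] at n85
  have hδ : ‖f2 - (1 + q3a)⁻¹‖ ≤ ‖z85‖ := by
    rw [one_div] at hf2
    refine hf2.trans ?_
    rw [n85, norm_mul, norm_mul, norm_mul, Complex.norm_real, Complex.norm_real, norm_mul, norm_mul,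
      norm_mul, norm_inv, Real.norm_of_nonneg he.le]
    have g1 := hl.c2
    have g2 : (1 + 1 / (2 * (t.x0 + 2))) / (1 - (t.B1 : ℝ) / 2 ^ 40 / (t.x0 + 2)) ≤ ‖rv t.C2‖ :=
      g1.trans (le_abs_self _)
    obtain ⟨C, hC⟩ : ∃ C, C = (1 + 1 / (2 * (t.x0 + 2))) / (1 - (t.B1 : ℝ) / 2 ^ 40 / (t.x0 + 2)) :=
      ⟨_, rfl⟩
    rw [← hC] at g2 ⊢
    have e9 : C * (e * ‖(Q2a - (Real.cosh κ : ℂ)) ^ 2 - (Real.sinh κ : ℂ) ^ 2‖) * ‖q3a‖ /
        ‖1 + q3a‖ ^ 3 = C * (‖(Q2a - (Real.cosh κ : ℂ)) ^ 2 - (Real.sinh κ : ℂ) ^ 2‖ * e *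
          (‖q3a‖ * ‖1 + q3a‖⁻¹ * ‖1 + q3a‖⁻¹ * ‖1 + q3a‖⁻¹)) := by
      field_simp
    rw [e9]
    exact mul_le_mul_of_nonneg_right g2 (by positivity)
  have h := h (s * (W * q2a * M) * (f2 - (1 + q3a)⁻¹) * s95 * (-χ + 1)) (by
    simp only [E.ev, upd, Nat.reduceEqDiff, reduceIte]
    rw [zz_val, sub_zero, n22, ← hz85, ← hs95, norm_mul, norm_mul, norm_mul, norm_mul _ (-χ + 1),
      norm_mul _ s95, norm_mul (s * (W * q2a * M)) z85]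
    exact mul_le_mul_of_nonneg_right (mul_le_mul_of_nonneg_right
      (mul_le_mul_of_nonneg_left hδ (norm_nonneg _)) (norm_nonneg _)) (norm_nonneg _))
  obtain ⟨-, p3, -⟩ := h
  simp only [E.ev, upd, Nat.reduceEqDiff, reduceIte] at p3
  have e10 : x - M * (x - (1 - W * (1 - q2a * f2 * (1 - χ))) / r) =
      x * (1 - M) + M * (s * (1 - W * (1 - q2a * (1 + q3a)⁻¹)) * s95) + b115 +
        s * (W * q2a * M) * (f2 - (1 + q3a)⁻¹) * s95 * (-χ + 1) := by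
    rw [hb115, div_eq_mul_inv, ← n95]
    ring
  rw [← hW, e10]
  exact p3

/-- **Last near nodes.** -/
theorem lastP_of {t : TD} (hok : t.ok = true) (hl : t.Okl) {e κ : ℝ} (he : 0 < e) (hκ : 0 < κ)
    (hst : t.strip = true → κ ≤ 1 / 4) {m : ℕ} {T : ℂ}
    (h : ∀ x : ℂ, ‖x‖ ≤ 1 → ∃ σ : ℕ → ℂ, σ 0 = ((1 / e : ℝ) : ℂ) ∧ σ 1 = ((e * κ / 2 : ℝ) : ℂ) ∧
      σ 2 = T ∧ σ 3 = x ∧ Sem (P2l t (m + 1)) σ fun _ => True) :
    LastP t.tb e κ θ0 (t.δ (m + 1) e κ) (t.Y (m + 1) e) (t.A e κ) t.x0 ((t.B1 : ℝ) / 2 ^ 40) m T := by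
  refine ⟨?_, ?_⟩
  · obtain ⟨σ, h0, h1, h2, h3, hs⟩ := h 1 (by simp)
    obtain ⟨T1, σ1, hR, hS, hC⟩ := last_pt hok hl he hκ hst h0 h1 h2 h3 hs
    refine hR.nodeP ?_
    intro hM
    obtain ⟨-, -, h5⟩ := hC _ _ _ _ _ rfl rfl rfl rfl rfl
    have h6 := h5 (1 / (1 + _)) 0 (by
      rw [sub_self, norm_zero]
      have g1 := hl.b1
      have g2 := hl.x2
      have g3 : 0 < t.x0 + 2 := by
        have : t.x0 + 2 = rv t.x2 / 2 + 1 := by unfold TD.x0; ring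
        rw [this]
        positivity
      have g4 : 0 < 1 - (t.B1 : ℝ) / 2 ^ 40 / (t.x0 + 2) := by
        rw [sub_pos, div_lt_one g3]
        exact g1
      positivity) (by
      rw [norm_zero]
      have g2 := hl.x2
      have g3 : 0 < t.x0 + 1 := by
        have : t.x0 + 1 = rv t.x2 / 2 := by unfold TD.x0; ring
        rw [this]
        positivity
      have g4 := Real.sinh_pos_iff.2 (mul_pos hκ g3)
      have g5 := TD.A_nonneg hl he hκ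
      have g6 := Real.sinh_pos_iff.2 hκ
      positivity)
    rw [hM, zero_mul, sub_zero, norm_one] at h6
    exact absurd (h6.trans θ0_lt) (lt_irrefl _)
  · intro x hx
    obtain ⟨σ, h0, h1, h2, h3, hs⟩ := h x hx
    obtain ⟨T1, σ1, hR, hS, hC⟩ := last_pt hok hl he hκ hst h0 h1 h2 h3 hs
    exact ⟨T1, hS, hC⟩

end Pool.Agent.helper63.NF
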