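import Pool.Agent.helper63.NF.SpecP0
import Pool.Agent.helper63.NF.SpecLast
import Pool.Agent.helper63.NF.NearF
import Pool.Agent.helper12.RS.CMD

/-!
# Numbers of the regions
-/

namespace Pool.Agent.helper63.NF

open Complex
open Pool.Agent.helper12.RS

/-- sum of the displacements -/
noncomputable def TD.sR (t : TD) (n : ℕ) (e κ : ℝ) : ℝ := ∑ j ∈ Finset.range n, t.tR j e κ

/-- the radius before the near node `n` (number `1`: the first near node) -/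
noncomputable def TD.RR (t : TD) (n : ℕ) (e κ : ℝ) : ℝ := kk κ ^ n * (1 + t.dK κ * t.sR n e κ)

theorem TD.RR_succ (t : TD) (n : ℕ) (e κ : ℝ) :
    t.RR (n + 1) e κ = kk κ * t.RR n e κ + t.δ n e κ := by
  unfold TD.RR TD.δ TD.sR
  rw [Finset.sum_range_succ]
  ring

theorem TD.RR_zero (t : TD) (e κ : ℝ) : t.RR 0 e κ = 1 := by
  simp [TD.RR, TD.sR]

/-- what the small certificate `S` gives; `x0` the start of the far field -/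
structure SF (t : TD) (N0 : ℕ) (e κ x0 : ℝ) : Prop where
  tp : ∀ n, n < N0 → 0 < t.tR n e κ
  yp : ∀ n, n < N0 → 0 < Real.sinh κ ^ 2 + t.Y n e
  R1 : ∀ n, n < N0 → t.RR (n + 1) e κ < 1
  ent : t.RR N0 e κ < Real.exp (-(2 * κ * x0))

theorem TD.dK_pos (t : TD) {κ : ℝ} (hκ : 0 < κ) : 0 < t.dK κ := by
  unfold TD.dK
  cases t.strip with
  | true => exact Real.sinh_pos_iff.2 hκ
  | false => exact hκ

theorem SF.RR_pos {t : TD} {N0 : ℕ} {e κ x0 : ℝ} (h : SF t N0 e κ x0) (hκ : 0 < κ) {n : ℕ}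
    (hn : n ≤ N0) : 0 < t.RR n e κ := by
  have h1 : 0 ≤ t.sR n e κ := Finset.sum_nonneg fun j hj =>
    (h.tp j ((Finset.mem_range.1 hj).trans_le hn)).le
  have h2 := t.dK_pos hκ
  have h3 := kk_pos κ
  unfold TD.RR
  positivity

/-- **The corner of a strip.** `s1/e` the radius of the corner, `v1` the end of the first starts. -/
structure Corner (t : TD) (N0 : ℕ) (e κ s1 v1 : ℝ) : Prop where
  mid : ∀ n, 1 ≤ n → n + 1 < N0 →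
    (∀ T : ℂ, T + (Real.sinh κ : ℂ) ≠ 0 → ‖T‖ = s1 / e → ‖omT κ T‖ ≤ t.RR n e κ →
      MidQ t.tb e κ θ0 (t.δ n e κ) (t.Y n e) (n - 1) T) →
    ∀ T : ℂ, T + (Real.sinh κ : ℂ) ≠ 0 → ‖T‖ ≤ s1 / e → ‖omT κ T‖ ≤ t.RR n e κ →
      MidQ t.tb e κ θ0 (t.δ n e κ) (t.Y n e) (n - 1) T
  last : ∀ n, 1 ≤ n → n + 1 = N0 →
    (∀ T : ℂ, T + (Real.sinh κ : ℂ) ≠ 0 → ‖T‖ = s1 / e → ‖omT κ T‖ ≤ t.RR n e κ →
      LastP t.tb e κ θ0 (t.δ n e κ) (t.Y n e) (t.A e κ) t.x0 ((t.B1 : ℝ) / 2 ^ 40) (n - 1) T) →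
    ∀ T : ℂ, T + (Real.sinh κ : ℂ) ≠ 0 → ‖T‖ ≤ s1 / e → ‖omT κ T‖ ≤ t.RR n e κ →
      LastP t.tb e κ θ0 (t.δ n e κ) (t.Y n e) (t.A e κ) t.x0 ((t.B1 : ℝ) / 2 ^ 40) (n - 1) T
  zero : ∀ η : ℝ, 0 ≤ η → |κ * η| < Real.pi / 2 → Tab.vv e κ (Tb.gR e) η ≤ v1 →
    ZeroP t.tb e κ θ0 (t.δ 0 e κ) (t.Y 0 e) ((η : ℂ) * I) (t.L0 e κ ((η : ℂ) * I))
      (t.R0 e κ ((η : ℂ) * I)) (t.M0 e κ ((η : ℂ) * I))

/-- the functions of the first node are those of the record -/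
theorem TD.l0_eq (t : TD) (e κ : ℝ) (p : ℂ) :
    ((t.tb.lamT t.isReal e κ).toN e κ).l0 p = t.L0 e κ p := rfl

theorem TD.r0_eq (t : TD) (e κ : ℝ) (p : ℂ) :
    ((t.tb.lamT t.isReal e κ).toN e κ).r0 p = t.R0 e κ p := rfl

theorem TD.M0_eq (t : TD) (e κ : ℝ) (p : ℂ) :
    ((t.tb.lamT t.isReal e κ).toN e κ).M0 p = t.M0 e κ p := rfl

end Pool.Agent.helper63.NF
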