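import Pool.Agent.helper63.NF.Piece20
import Pool.Agent.helper71.FF.Far20

/-!
# The far field data of the pieces, `4 ≤ e ≤ 20`
-/

namespace Pool.Agent.helper63.NF

open Complex
open Pool.Agent.helper12.RP Pool.Agent.helper12.FF Pool.Agent.helper12.RS

theorem farW20 {e κ : ℝ} (h4 : 4 ≤ e) (h20 : e ≤ 20) (hκ : 0 < κ)
    (hk : Pool.Agent.helper12.RS.kfun e κ < 4 ^ (1 / e) - 1) : FarW e κ := by
  refine ⟨Pool.Agent.helper71.FF.far20 h4 h20 hκ hk, ?_, ?_⟩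
  · show Xr κ (2 * Pool.Agent.helper71.FF.Af e κ * Real.sinh κ ^ 2)
      (_ ^ 0 * Real.exp (-(2 * κ * (49 / 10)))) = _
    rw [pow_zero, one_mul]
    rfl
  · show OmR κ (_ ^ 0 * Real.exp (-(2 * κ * (49 / 10)))) Set.univ = _
    rw [pow_zero, one_mul]

end Pool.Agent.helper63.NF
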