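import Pool.Agent.helper63.NF.Reg0

/-!
# Meaning of the common part of the charts
-/

namespace Pool.Agent.helper63.NF

open Complex
open Pool.Agent.helper31.IA (Z get)
open Pool.Agent.helper12.RS

theorem horn_add1 (v : ℂ) : ∀ l m : List ℤ,
    horn ((add1 l m).map cv) v = horn (l.map cv) v + horn (m.map cv) v := by
  intro l
  induction l with
  | nil =>
    intro m
    show horn (m.map cv) v = 0 + _
    rw [zero_add]
  | cons a l ih =>
    intro m
    cases m with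
    | nil =>
      show horn ((a :: l).map cv) v = _ + 0
      rw [add_zero]
    | cons b m =>
      show horn (cv (a + b) :: (add1 l m).map cv) v = horn (cv a :: l.map cv) v + horn (cv b :: m.map cv) v
      rw [horn_cons, horn_cons, horn_cons, ih, cv_add]
      ring

theorem P2_add2 (u v : ℂ) : ∀ l m : List (List ℤ),
    P2 (c2 (add2 l m)) u v = P2 (c2 l) u v + P2 (c2 m) u v := by
  intro l
  induction l with
  | nil =>
    intro m
    show P2 (c2 m) u v = 0 + _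
    rw [zero_add]
  | cons a l ih =>
    intro m
    cases m with
    | nil =>
      show P2 (c2 (a :: l)) u v = _ + 0
      rw [add_zero]
    | cons b m =>
      have h := ih m
      unfold P2 c2 at h ⊢
      show horn (horn ((add1 a b).map cv) v :: _) u = horn (horn (a.map cv) v :: _) u +
        horn (horn (b.map cv) v :: _) u
      rw [horn_cons, horn_cons, horn_cons, horn_add1]
      rw [h]
      ring

theorem sumT_ev (t : TD) (e κ : ℝ) : ∀ n, P2 (c2 (sumT t n)) (t.tb.de e) (t.tb.db e κ) = (t.sR n e κ : ℂ)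
  | 0 => by
    show (0 : ℂ) = _
    simp [TD.sR]
  | n + 1 => by
    show P2 (c2 (add2 (sumT t n) (nth [] t.t n))) _ _ = _
    rw [P2_add2, sumT_ev t e κ n]
    have h := t.tR_eq n e κ
    unfold TD.tt at h
    rw [h]
    unfold TD.sR
    rw [Finset.sum_range_succ]
    push_cast
    rfl

/-! ### the geometric sum -/

theorem gE_ev {σ : ℕ → ℂ} {k : ℂ} (h12 : σ 12 = k) (h22 : σ 22 = 1) :
    ∀ n, (gE n).ev σ = ∑ i ∈ Finset.range n, k ^ i
  | 0 => by
    show (zi 0).val = _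
    rw [zi_val, cv_zero, Finset.sum_range_zero]
  | 1 => by
    show (zi 1099511627776).val = _
    rw [one_val, Finset.sum_range_one, pow_zero]
  | 2 => by
    show (zi 1099511627776).val * σ 12 + σ 22 = _
    rw [one_val, h12, h22, Finset.sum_range_succ, Finset.sum_range_one]
    ring
  | n + 3 => by
    show σ 12 * (gE (n + 2)).ev σ + σ 22 = _
    rw [gE_ev h12 h22 (n + 2), h12, h22, Finset.sum_range_succ' _ (n + 2), Finset.mul_sum]
    congr 1
    apply Finset.sum_congr rfl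
    intro i _
    ring

theorem qgE_ev {σ : ℕ → ℂ} {k ξ : ℂ} (h11 : σ 11 = ξ) (h12 : σ 12 = k) (h22 : σ 22 = 1) :
    ∀ n, (qgE n).ev σ = ξ * ∑ i ∈ Finset.range n, k ^ i
  | 0 => by
    show (zi 0).val = _
    rw [zi_val, cv_zero, Finset.sum_range_zero, mul_zero]
  | 1 => by
    show σ 11 = _
    rw [h11, Finset.sum_range_one, pow_zero, mul_one]
  | n + 2 => by
    show σ 11 * (gE (n + 2)).ev σ = _
    rw [gE_ev h12 h22, h11]

theorem two_qg {κ : ℝ} (n : ℕ) :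
    (Real.sinh κ : ℂ) * (2 * ((Real.exp (-κ) : ℂ) * ∑ i ∈ Finset.range n, (kk κ : ℂ) ^ i)) =
      1 - (kk κ : ℂ) ^ n := by
  have h1 : 2 * Real.sinh κ * Real.exp (-κ) = 1 - kk κ := by
    have h2 : Real.exp κ * Real.exp (-κ) = 1 := by rw [← Real.exp_add, add_neg_cancel, Real.exp_zero]
    have h3 : Real.exp (-κ) * Real.exp (-κ) = kk κ := by
      unfold kk
      rw [← Real.exp_add]
      congr 1
      ring
    rw [Real.sinh_eq]
    linear_combination h2 - h3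
  have h2 : 2 * (Real.sinh κ : ℂ) * (Real.exp (-κ) : ℂ) = 1 - (kk κ : ℂ) := by exact_mod_cast h1
  have h3 := geom_sum_mul (kk κ : ℂ) n
  linear_combination (∑ i ∈ Finset.range n, (kk κ : ℂ) ^ i) * h2 - h3

/-! ### the base -/

/-- the registers after `baseS` -/
structure BF (e κ : ℝ) (σ : ℕ → ℂ) : Prop where
  ep : σ 0 = ((1 / e : ℝ) : ℂ)
  b : σ 4 = ((e * κ / 2 : ℝ) : ℂ)
  k : σ 7 = (κ : ℂ)
  qi : σ 11 = (Real.exp (-κ) : ℂ)
  K : σ 15 = (Real.sinh κ : ℂ)
  Ke : σ 17 = (Real.sinh κ : ℂ) * e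
  one : σ 22 = 1

theorem base_spec {t : TD} {e κ s : ℝ} (he : 0 < e) {σ : ℕ → ℂ} {Q : (ℕ → ℂ) → Prop}
    {B : List St} (h0 : σ 0 = ((1 / e : ℝ) : ℂ)) (h1 : σ 1 = (s : ℂ))
    (hb : t.bv (1 / e) s = e * κ / 2) (h : Sem (baseS t ++ B) σ Q) :
    ∃ τ, Sem B τ Q ∧ BF e κ τ ∧ τ 2 = σ 2 ∧ τ 3 = σ 3 := by
  have he0 : (e : ℂ) ≠ 0 := by exact_mod_cast he.ne'
  have h := sem_append _ _ _ h
  obtain ⟨-, h⟩ := sem_set h (x := ((e * κ / 2 : ℝ) : ℂ)) (by rw [bE_ev h0 h1, hb])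
  obtain ⟨-, h⟩ := sem_set h (x := ((κ / 2 : ℝ) : ℂ)) (by
    simp [E.ev, upd, h0]
    field_simp)
  obtain ⟨-, h⟩ := sem_set h (x := (κ : ℂ)) (by
    simp [E.ev, upd, two_val]
    ring)
  obtain ⟨-, h⟩ := sem_set h (x := (Real.exp (κ / 2) : ℂ)) (by simp [E.ev, upd])
  obtain ⟨-, h⟩ := sem_set h (x := (Real.exp (-(κ / 2)) : ℂ)) (by simp [E.ev, upd])
  obtain ⟨-, h⟩ := sem_set h (x := (Real.exp (-κ) : ℂ)) (by
    simp [E.ev, upd]
    rw [← Complex.exp_add]
    congr 1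
    ring)
  obtain ⟨-, h⟩ := sem_set h (x := (Real.sinh κ : ℂ)) (by
    simp only [E.ev, upd]
    simp [half_val]
    have h2 : Complex.sinh κ = (exp (κ / 2) * exp (κ / 2) - exp (-(κ / 2)) * exp (-(κ / 2))) / 2 := by
      rw [Complex.sinh, ← Complex.exp_add, ← Complex.exp_add]
      congr 3 <;> ring
    rw [h2]
    ring)
  obtain ⟨-, h⟩ := sem_set h (x := (Real.sinh κ : ℂ) * e) (by
    simp [E.ev, upd, h0])
  obtain ⟨-, h⟩ := sem_set h (x := 1) one_val
  refine ⟨_, h, ⟨?_, ?_, ?_, ?_, ?_, ?_, ?_⟩, ?_, ?_⟩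
  all_goals simp [upd, h0]

theorem BF.of_eq {e κ : ℝ} {σ τ : ℕ → ℂ} (h : BF e κ σ) (h0 : τ 0 = σ 0) (h4 : τ 4 = σ 4)
    (h7 : τ 7 = σ 7) (h11 : τ 11 = σ 11) (h15 : τ 15 = σ 15) (h17 : τ 17 = σ 17)
    (h22 : τ 22 = σ 22) : BF e κ τ :=
  ⟨by rw [h0, h.ep], by rw [h4, h.b], by rw [h7, h.k], by rw [h11, h.qi], by rw [h15, h.K],
    by rw [h17, h.Ke], by rw [h22, h.one]⟩

/-- the registers after `geoS` -/
structure GF (t : TD) (n : ℕ) (e κ : ℝ) (σ : ℕ → ℂ) : Prop where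
  bf : BF e κ σ
  mi : MI t.Lt (t.tb.de e) (t.tb.db e κ) σ
  s : σ 16 = (t.sR n e κ : ℂ)
  R : σ 20 = (t.RR n e κ : ℂ)
  rho : σ 21 = (((1 - t.RR n e κ) / Real.sinh κ : ℝ) : ℂ)

/-- the monomials -/
def monS (t : TD) : List St :=
  [St.set (mreg 1 0) ((E.r 0).sub (E.c (zi t.ec))),
    St.set (mreg 0 1) (bif t.bc == 0 then E.r 4 else (E.r 4).sub (E.c (zi t.bc)))] ++ monos [] t.Lt

theorem mon_spec {t : TD} {e κ : ℝ} {σ : ℕ → ℂ} {Q : (ℕ → ℂ) → Prop}
    (hσ : BF e κ σ) (h : Sem (monS t) σ Q) :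
    ∃ τ, Q τ ∧ MI t.Lt (t.tb.de e) (t.tb.db e κ) τ ∧ ∀ i, i < 128 → τ i = σ i := by
  have hm10 : ∀ i, i < 128 → i ≠ mreg 1 0 := fun i hi => mreg_ne_lt hi
  have hm01 : ∀ i, i < 128 → i ≠ mreg 0 1 := fun i hi => mreg_ne_lt hi
  have h := sem_append _ _ _ h
  obtain ⟨-, h⟩ := sem_set h (x := t.tb.de e) (by
    show σ 0 - (zi t.ec).val = _
    rw [hσ.ep, zi_val]
    rfl)
  obtain ⟨-, h⟩ := sem_set h (x := t.tb.db e κ) (by
    by_cases hbc : t.bc = 0
    · have h1 : (t.bc == 0) = true := by simpa using hbc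
      rw [h1, cond_true]
      show upd _ _ _ 4 = _
      rw [upd_ne (hm10 4 (by omega)), hσ.b]
      simp [Tb.db, TD.tb, hbc, cv_zero]
    · have h1 : (t.bc == 0) = false := by simpa using hbc
      rw [h1, cond_false]
      show upd _ _ _ 4 - (zi t.bc).val = _
      rw [upd_ne (hm10 4 (by omega)), hσ.b]
      simp [Tb.db, TD.tb, zi_val])
  obtain ⟨τ, h, hM, hτ⟩ := sem_monos' (u := t.tb.de e) (v := t.tb.db e κ)
    (by rw [upd_ne (by intro hh; have := mreg_inj hh; omega), upd_same]) (upd_same _ _) h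
  exact ⟨τ, h, hM, fun i hi => by
    rw [hτ i (fun a b => mreg_ne_lt hi), upd_ne (hm01 i hi), upd_ne (hm10 i hi)]⟩

theorem MI.upd {L : List (ℕ × ℕ)} {u v : ℂ} {σ : ℕ → ℂ} (h : MI L u v σ) {i : ℕ} (hi : i < 128)
    (x : ℂ) : MI L u v (upd σ i x) := by
  have k : ∀ a b, NF.upd σ i x (mreg a b) = σ (mreg a b) := fun a b =>
    upd_ne (mreg_ne_lt hi).symm _
  exact ⟨by rw [k, h.hu], by rw [k, h.hv], fun a b hab => by rw [k, h.hm a b hab]⟩

theorem geo_spec {t : TD} {e κ : ℝ} (hκ : 0 < κ) {n : ℕ} {σ : ℕ → ℂ} {Q : (ℕ → ℂ) → Prop}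
    {B : List St} (hσ : BF e κ σ) (h : Sem (geoS t n ++ B) σ Q) :
    ∃ τ, Sem B τ Q ∧ GF t n e κ τ ∧ ∀ i, i < 128 → i ≠ 12 → i ≠ 16 → i ≠ 18 → i ≠ 20 → i ≠ 21 →
      τ i = σ i := by
  have hK : (Real.sinh κ : ℂ) ≠ 0 := by
    have := (Real.sinh_pos_iff.2 hκ).ne'
    exact_mod_cast this
  unfold geoS at h
  have h := sem_append _ _ _ h
  have h := sem_append _ _ _ h
  have h := sem_append _ _ _ h
  obtain ⟨τ, h, hM, key⟩ := mon_spec hσ h
  obtain ⟨-, h⟩ := sem_set h (x := (t.sR n e κ : ℂ)) (by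
    rw [p2E_ev hM, cv_zero, zero_add]
    exact sumT_ev t e κ n)
  obtain ⟨-, h⟩ := sem_set h (x := (kk κ : ℂ) ^ n) (by
    show exp (-((zn (2 * n)).val * upd _ _ _ 7)) = _
    rw [zn_val, upd_ne (by omega), key 7 (by omega), hσ.k]
    unfold kk
    rw [Complex.ofReal_exp, ← Complex.exp_nat_mul]
    congr 1
    push_cast
    ring)
  have hq := two_qg (κ := κ) n
  have e15 := hσ.K
  have e7 := hσ.k
  have e22 := hσ.one
  have e11 := hσ.qi
  by_cases hs : t.strip = true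
  · rw [hs, cond_true] at h
    obtain ⟨-, h⟩ := sem_set h (x := (kk κ : ℂ)) (by
      show upd _ _ _ 11 * upd _ _ _ 11 = _
      rw [upd_ne (by omega), upd_ne (by omega), key 11 (by omega), e11]
      unfold kk
      rw [← Complex.ofReal_mul, ← Real.exp_add]
      congr 2
      ring)
    obtain ⟨-, h⟩ := sem_set h (x := (t.RR n e κ : ℂ)) (by
      simp only [E.ev, upd, Nat.reduceEqDiff, reduceIte]
      rw [key 15 (by omega), key 22 (by omega), e15, e22]
      unfold TD.RR TD.dK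
      rw [hs, cond_true]
      push_cast
      ring)
    obtain ⟨-, h⟩ := sem_set h (x := (((1 - t.RR n e κ) / Real.sinh κ : ℝ) : ℂ)) (by
      show (zi 2199023255552).val * (qgE n).ev _ - upd _ _ _ 16 * upd _ _ _ 18 = _
      rw [qgE_ev (k := (kk κ : ℂ)) (ξ := (Real.exp (-κ) : ℂ))
        (by simp only [upd, Nat.reduceEqDiff, reduceIte]; rw [key 11 (by omega), e11])
        (by simp only [upd, Nat.reduceEqDiff, reduceIte])
        (by simp only [upd, Nat.reduceEqDiff, reduceIte]; rw [key 22 (by omega), e22]), two_val]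
      simp only [upd, Nat.reduceEqDiff, reduceIte]
      rw [Complex.ofReal_div, eq_div_iff hK]
      unfold TD.RR TD.dK
      rw [hs, cond_true]
      push_cast
      push_cast at hq
      linear_combination hq)
    refine ⟨_, h, ⟨?_, ?_, ?_, ?_, ?_⟩, ?_⟩
    · refine hσ.of_eq ?_ ?_ ?_ ?_ ?_ ?_ ?_ <;> simp [upd, key]
    · repeat' first | exact hM | refine MI.upd ?_ (by omega) _
    · simp [upd]
    · simp [upd]
    · simp [upd]
    · intro i hi h12 h16 h18 h20 h21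
      rw [upd_ne h21, upd_ne h20, upd_ne h12, upd_ne h18, upd_ne h16, key i hi]
  · have hs' : t.strip = false := by simpa using hs
    rw [hs', cond_false] at h
    obtain ⟨-, h⟩ := sem_set h (x := (t.RR n e κ : ℂ)) (by
      simp only [E.ev, upd, Nat.reduceEqDiff, reduceIte]
      rw [key 7 (by omega), key 22 (by omega), e7, e22]
      unfold TD.RR TD.dK
      rw [hs', cond_false]
      push_cast
      ring)
    obtain ⟨-, h⟩ := sem_set h (x := (((1 - t.RR n e κ) / Real.sinh κ : ℝ) : ℂ)) (by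
      simp only [E.ev, upd, Nat.reduceEqDiff, reduceIte]
      rw [key 22 (by omega), key 15 (by omega), e22, e15]
      push_cast
      rw [div_eq_mul_inv])
    refine ⟨_, h, ⟨?_, ?_, ?_, ?_, ?_⟩, ?_⟩
    · refine hσ.of_eq ?_ ?_ ?_ ?_ ?_ ?_ ?_ <;> simp [upd, key]
    · repeat' first | exact hM | refine MI.upd ?_ (by omega) _
    · simp [upd]
    · simp [upd]
    · simp [upd]
    · intro i hi h12 h16 h18 h20 h21
      rw [upd_ne h21, upd_ne h20, upd_ne h18, upd_ne h16, key i hi]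

end Pool.Agent.helper63.NF
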