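import Pool.Agent.helper63.NF.Poly

/-!
# Values of the polynomial blocks
-/

namespace Pool.Agent.helper63.NF

open Complex
open Pool.Agent.helper31.IA (Z get)
open Pool.Agent.helper12.RS (horn P2 P3)

theorem horn_cons (c : ℂ) (t : List ℂ) (z : ℂ) : horn (c :: t) z = horn t z * z + c := by
  cases t with
  | nil => simp [horn]
  | cons d t => rfl

theorem isZ_val {z : Z} (h : isZ z = true) : z.val = 0 := by
  rw [isZ, Bool.and_eq_true] at h
  rw [Z.val, Nat.eq_of_beq_eq_true h.1, Nat.eq_of_beq_eq_true h.2]
  simp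

/-- the monomial registers are right -/
structure MI (L : List (ℕ × ℕ)) (u v : ℂ) (σ : ℕ → ℂ) : Prop where
  hu : σ (mreg 1 0) = u
  hv : σ (mreg 0 1) = v
  hm : ∀ i j, (i, j) ∈ L → σ (mreg i j) = u ^ i * v ^ j

variable {L : List (ℕ × ℕ)} {u v : ℂ} {σ : ℕ → ℂ}

theorem one_val : (zi 1099511627776).val = 1 := by
  rw [zi_val, cv]
  norm_num

theorem pwE_ev (x : ℕ) : ∀ n, (pwE x n).ev σ = σ x ^ n
  | 0 => by simp [pwE, E.ev, one_val]
  | 1 => by simp [pwE, E.ev]
  | n + 2 => by
    have := pwE_ev x (n + 1)
    show (pwE x (n + 1)).ev σ * σ x = _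
    rw [this]
    ring

theorem mE_ev (h : MI L u v σ) (i j : ℕ) : (mE L i j).ev σ = u ^ i * v ^ j := by
  unfold mE
  cases hb : inL i j L with
  | true => exact h.hm i j (inL_mem hb)
  | false =>
    rw [cond_false]
    cases i with
    | zero =>
      show (pwE (mreg 0 1) j).ev σ = _
      rw [pwE_ev, h.hv, pow_zero, one_mul]
    | succ i =>
      cases j with
      | zero =>
        show (pwE (mreg 1 0) (i + 1)).ev σ = _
        rw [pwE_ev, h.hu, pow_zero, mul_one]
      | succ j =>
        show (pwE (mreg 1 0) (i + 1)).ev σ * (pwE (mreg 0 1) (j + 1)).ev σ = _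
        rw [pwE_ev, pwE_ev, h.hu, h.hv]

theorem stepE_ev (h : MI L u v σ) (i j : ℕ) : (stepE L i j).ev σ = u ^ i * v ^ j := by
  cases i with
  | zero =>
    cases j with
    | zero =>
      show (zi 1099511627776).val = _
      rw [one_val, pow_zero, pow_zero, one_mul]
    | succ j =>
      show (mE L 0 j).ev σ * σ (mreg 0 1) = _
      rw [mE_ev h, h.hv]
      ring
  | succ i =>
    cases j with
    | zero =>
      show (mE L i 0).ev σ * σ (mreg 1 0) = _
      rw [mE_ev h, h.hu]
      ring
    | succ j =>
      show (mE L (i + 1) 0).ev σ * (mE L 0 (j + 1)).ev σ = _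
      rw [mE_ev h, mE_ev h]
      ring

theorem upd_same (i : ℕ) (x : ℂ) : upd σ i x i = x := if_pos rfl

theorem upd_ne {i j : ℕ} (h : j ≠ i) (x : ℂ) : upd σ i x j = σ j := if_neg h

/-- **The monomials.** -/
theorem sem_monos {Q : (ℕ → ℂ) → Prop} : ∀ (T L : List (ℕ × ℕ)) (σ : ℕ → ℂ), MI L u v σ →
    Sem (monos L T) σ Q → ∃ τ, Q τ ∧ (∀ p, p ∈ L ∨ p ∈ T → τ (mreg p.1 p.2) = u ^ p.1 * v ^ p.2) ∧
      τ (mreg 1 0) = u ∧ τ (mreg 0 1) = v ∧
      ∀ i, (∀ a b, i ≠ mreg a b) → τ i = σ i := by
  intro T
  induction T with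
  | nil =>
    intro L σ h hs
    refine ⟨σ, hs, ?_, h.hu, h.hv, fun _ _ => rfl⟩
    rintro ⟨i, j⟩ hp
    rcases hp with hp | hp
    · exact h.hm i j hp
    · simp at hp
  | cons p t ih =>
    obtain ⟨i, j⟩ := p
    intro L σ h hs
    have h1 := hs.2 _ rfl
    have h2 := stepE_ev h i j
    rw [h2] at h1
    have hI : MI ((i, j) :: L) u v (upd σ (mreg i j) (u ^ i * v ^ j)) := by
      have key : ∀ a b, σ (mreg a b) = u ^ a * v ^ b →
          upd σ (mreg i j) (u ^ i * v ^ j) (mreg a b) = u ^ a * v ^ b := by
        intro a b hab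
        unfold upd
        split_ifs with h3
        · obtain ⟨rfl, rfl⟩ := mreg_inj h3
          rfl
        · exact hab
      refine ⟨?_, ?_, ?_⟩
      · have := key 1 0 (by rw [h.hu]; ring)
        rw [this]; ring
      · have := key 0 1 (by rw [h.hv]; ring)
        rw [this]; ring
      · intro a b hab
        rcases List.mem_cons.1 hab with h3 | h3
        · rw [Prod.mk.injEq] at h3
          obtain ⟨rfl, rfl⟩ := h3
          exact upd_same _ _
        · exact key a b (h.hm a b h3)
    obtain ⟨τ, hQ, h4, h5, h6, h7⟩ := ih _ _ hI h1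
    refine ⟨τ, hQ, ?_, h5, h6, ?_⟩
    · intro q hq
      apply h4
      rcases hq with hq | hq
      · exact Or.inl (List.mem_cons_of_mem _ hq)
      · rcases List.mem_cons.1 hq with rfl | hq
        · exact Or.inl List.mem_cons_self
        · exact Or.inr hq
    · intro k hk
      rw [h7 k hk, upd_ne (hk i j)]

/-- the same from the empty list -/
theorem sem_monos' {Q : (ℕ → ℂ) → Prop} {T : List (ℕ × ℕ)} {σ : ℕ → ℂ} (hu : σ (mreg 1 0) = u)
    (hv : σ (mreg 0 1) = v) (h : Sem (monos [] T) σ Q) : ∃ τ, Q τ ∧ MI T u v τ ∧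
      ∀ i, (∀ a b, i ≠ mreg a b) → τ i = σ i := by
  obtain ⟨τ, h1, h2, h3, h4, h5⟩ := sem_monos T [] σ ⟨hu, hv, by simp⟩ h
  exact ⟨τ, h1, ⟨h3, h4, fun i j hij => h2 (i, j) (Or.inr hij)⟩, h5⟩

/-- value of an optional expression -/
noncomputable def oev (σ : ℕ → ℂ) : Option E → ℂ
  | none => 0
  | some e => e.ev σ

theorem addO_ev (t : Option E) (e : E) : oev σ (addO t e) = oev σ t + e.ev σ := by
  cases t with
  | none => exact (zero_add _).symm
  | some t => rfl

theorem rowE_ev (h : MI L u v σ) (i : ℕ) : ∀ (r : List ℤ) (j : ℕ) (t : Option E),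
    oev σ (rowE L i j r t) + (if i = 0 ∧ j = 0 then cv (hd r) else 0) =
      oev σ t + u ^ i * v ^ j * horn (r.map cv) v := by
  intro r
  induction r with
  | nil =>
    intro j t
    show oev σ t + (if i = 0 ∧ j = 0 then cv 0 else 0) = oev σ t + u ^ i * v ^ j * 0
    rw [cv_zero, ite_self, mul_zero]
  | cons a r ih =>
    intro j t
    rw [List.map_cons, horn_cons]
    have h1 := ih (j + 1) (bif (Nat.beq i 0 && Nat.beq j 0) || (a == 0) then t else
      addO t (.sc (zi a) (mE L i j)))
    rw [if_neg (by omega)] at h1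
    show oev σ (rowE L i (j + 1) r _) + (if i = 0 ∧ j = 0 then cv a else 0) = _
    have h2 : oev σ (bif (Nat.beq i 0 && Nat.beq j 0) || (a == 0) then t else
      addO t (.sc (zi a) (mE L i j))) + (if i = 0 ∧ j = 0 then cv a else 0) =
        oev σ t + u ^ i * v ^ j * cv a := by
      by_cases h3 : i = 0 ∧ j = 0
      · obtain ⟨rfl, rfl⟩ := h3
        simp
      · rw [if_neg h3]
        have h4 : (Nat.beq i 0 && Nat.beq j 0) = false := by
          rw [Bool.and_eq_false_iff]
          by_cases hi : i = 0
          · right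
            have : j ≠ 0 := fun hj => h3 ⟨hi, hj⟩
            cases j with
            | zero => exact absurd rfl this
            | succ j => rfl
          · left
            cases i with
            | zero => exact absurd rfl hi
            | succ i => rfl
        rw [h4, Bool.false_or]
        by_cases h5 : a = 0
        · subst h5
          simp [cv_zero]
        · have h6 : (a == 0) = false := by simpa using h5
          rw [h6, cond_false, addO_ev]
          show oev σ t + (zi a).val * (mE L i j).ev σ + 0 = _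
          rw [mE_ev h, zi_val]
          ring
    linear_combination h1 + h2

theorem rowsE_ev (h : MI L u v σ) : ∀ (c : List (List ℤ)) (i : ℕ) (t : Option E),
    oev σ (rowsE L i c t) + (if i = 0 then cv (hd2 c) else 0) =
      oev σ t + u ^ i * horn (c.map (fun r => horn (r.map cv) v)) u := by
  intro c
  induction c with
  | nil =>
    intro i t
    show oev σ t + (if i = 0 then cv 0 else 0) = oev σ t + u ^ i * 0
    rw [cv_zero, ite_self, mul_zero]
  | cons r c ih =>
    intro i t
    rw [List.map_cons, horn_cons]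
    have h1 := ih (i + 1) (rowE L i 0 r t)
    rw [if_neg (by omega)] at h1
    have h2 := rowE_ev h i r 0 t
    show oev σ (rowsE L (i + 1) c (rowE L i 0 r t)) + (if i = 0 then cv (hd r) else 0) = _
    have h3 : (if i = 0 ∧ 0 = 0 then cv (hd r) else 0) = (if i = 0 then cv (hd r) else 0) := by
      simp
    rw [h3] at h2
    linear_combination h1 + h2

theorem p2E_ev (h : MI L u v σ) (a : ℤ) (c : List (List ℤ)) :
    (p2E L a c).ev σ = cv a + P2 (c.map (List.map cv)) u v := by
  have h1 := rowsE_ev h c 0 none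
  rw [if_pos rfl, pow_zero, one_mul] at h1
  have h2 : horn (c.map (fun r => horn (r.map cv) v)) u = P2 (c.map (List.map cv)) u v := by
    unfold P2
    rw [List.map_map]
    rfl
  rw [h2] at h1
  unfold p2E
  cases h3 : rowsE L 0 c none with
  | none =>
    rw [h3] at h1
    show (zi (a + hd2 c)).val = _
    rw [zi_val, cv_add]
    have : oev σ none = 0 := rfl
    rw [this] at h1
    linear_combination h1
  | some t =>
    rw [h3] at h1
    have h4 : oev σ (some t) = t.ev σ := rfl
    have h5 : oev σ none = 0 := rfl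
    rw [h4, h5] at h1
    show (bif (a + hd2 c == 0) then t else .add t (.c (zi (a + hd2 c)))).ev σ = _
    by_cases h6 : a + hd2 c = 0
    · have : (a + hd2 c == 0) = true := by simpa using h6
      rw [this, cond_true]
      have h7 := cv_add a (hd2 c)
      rw [h6, cv_zero] at h7
      linear_combination h1 + h7
    · have : (a + hd2 c == 0) = false := by simpa using h6
      rw [this, cond_false]
      show t.ev σ + (zi (a + hd2 c)).val = _
      rw [zi_val, cv_add]
      linear_combination h1

theorem mulS_ev (y e : E) : (mulS y e).ev σ = y.ev σ * e.ev σ := by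
  unfold mulS
  split
  · show _ * _ = _ * _
    rw [mul_comm]
    rfl
  · rfl

theorem mulR_ev (e y : E) : (mulR e y).ev σ = e.ev σ * y.ev σ := by
  unfold mulR
  split
  · rfl
  · rfl

theorem addS_ev (r e : E) : (addS r e).ev σ = r.ev σ + e.ev σ := by
  unfold addS
  split
  · rename_i z
    cases hz : isZ z with
    | true =>
      rw [cond_true]
      show _ = _ + z.val
      rw [isZ_val hz, add_zero]
    | false => rfl
  · rfl

theorem stepH_ev (y r e : E) : (stepH y r e).ev σ = r.ev σ * y.ev σ + e.ev σ := by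
  unfold stepH
  split
  · rename_i z
    cases hz2 : isZ z with
    | true =>
      rw [cond_true]
      show _ = z.val * _ + _
      rw [isZ_val hz2]
      ring
    | false =>
      rw [cond_false, addS_ev]
      rfl
  · rw [addS_ev]
    show y.ev σ * _ + _ = _
    ring

theorem hornE_ev (y : E) : ∀ l : List E, (hornE y l).ev σ = horn (l.map (E.ev σ)) (y.ev σ) := by
  intro l
  induction l with
  | nil =>
    show (zi 0).val = 0
    rw [zi_val, cv_zero]
  | cons e t ih =>
    rw [List.map_cons, horn_cons, ← ih]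
    exact stepH_ev y _ e

theorem p3E_ev (h : MI L u v σ) (y : E) (c : List (List (List ℤ))) :
    (p3E L y c).ev σ = P3 (c.map (List.map (List.map cv))) (y.ev σ) u v := by
  unfold p3E P3
  rw [hornE_ev, List.map_map, List.map_map]
  congr 1
  apply List.map_congr_left
  intro r _
  show (p2E L 0 r).ev σ = P2 _ u v
  rw [p2E_ev h, cv_zero, zero_add]

/-! ### The coefficients of `H` -/

/-- values of the coefficients of `1/2 + H` -/
noncomputable def hV (u v : ℂ) : ℕ → List (List (List ℤ)) → List ℂ
  | _, [] => []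
  | k, r :: t => ((if k = 0 then 1 / 2 else 0) + P2 (r.map (List.map cv)) u v) :: hV u v (k + 1) t

theorem hcE_ev (h : MI L u v σ) (k : ℕ) (r : List (List ℤ)) :
    (hcE L k r).ev σ = (if k = 0 then 1 / 2 else 0) + P2 (r.map (List.map cv)) u v := by
  unfold hcE
  rw [p2E_ev h]
  cases k with
  | zero =>
    rw [if_pos rfl]
    have h1 : cv 549755813888 = 1 / 2 := by
      rw [cv]
      norm_num
    show cv 549755813888 + _ = _
    rw [h1]
  | succ k =>
    rw [if_neg (by omega)]
    show cv 0 + _ = _
    rw [cv_zero]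

theorem isC_ev {e : E} (h : isC e = true) (σ τ : ℕ → ℂ) : e.ev σ = e.ev τ := by
  cases e with
  | c z => rfl
  | _ => simp [isC] at h

theorem hlE_congr {τ : ℕ → ℂ} (h : ∀ k, τ (hreg k) = σ (hreg k)) :
    ∀ (H : List (List (List ℤ))) (k : ℕ), (hlE L k H).map (E.ev τ) = (hlE L k H).map (E.ev σ) := by
  intro H
  induction H with
  | nil => intro k; rfl
  | cons r t ih =>
    intro k
    rw [hlE, List.map_cons, List.map_cons, ih]
    congr 1
    cases hc : isC (hcE L k r) with
    | true => exact isC_ev hc _ _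
    | false => exact h k

theorem sem_hs {Q : (ℕ → ℂ) → Prop} : ∀ (H : List (List (List ℤ))) (k : ℕ) (σ : ℕ → ℂ),
    MI L u v σ → Sem (hsS L k H) σ Q → ∃ τ, Q τ ∧ (hlE L k H).map (E.ev τ) = hV u v k H ∧
      ∀ i, (∀ m, k ≤ m → i ≠ hreg m) → τ i = σ i := by
  intro H
  induction H with
  | nil =>
    intro k σ _ hs
    exact ⟨σ, hs, rfl, fun _ _ => rfl⟩
  | cons r t ih =>
    intro k σ h hs
    have h1 := hcE_ev h k r
    rw [hlE, hV]
    cases hc : isC (hcE L k r) with
    | true =>
      rw [hsS, hc, cond_true] at hs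
      obtain ⟨τ, h2, h3, h4⟩ := ih (k + 1) σ h hs
      refine ⟨τ, h2, ?_, fun i hi => h4 i fun m hm => hi m (by omega)⟩
      rw [cond_true, List.map_cons, h3, isC_ev hc τ σ, h1]
    | false =>
      rw [hsS, hc, cond_false] at hs
      have h5 := hs.2 _ rfl
      have hI : MI L u v (upd σ (hreg k) ((hcE L k r).ev σ)) :=
        ⟨by rw [upd_ne (mreg_ne 1 0 k), h.hu], by rw [upd_ne (mreg_ne 0 1 k), h.hv], fun i j hij => by
          rw [upd_ne (mreg_ne i j k), h.hm i j hij]⟩
      obtain ⟨τ, h2, h3, h4⟩ := ih (k + 1) _ hI h5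
      refine ⟨τ, h2, ?_, ?_⟩
      · rw [cond_false, List.map_cons, h3]
        congr 1
        show τ (hreg k) = _
        rw [h4 (hreg k) (fun m hm => by unfold hreg; omega), upd_same, h1]
      · intro i hi
        rw [h4 i (fun m hm => hi m (by omega)), upd_ne (hi k le_rfl)]

theorem horn_hV (H : List (List (List ℤ))) (w : ℂ) : ∀ k, 0 < k →
    horn (hV u v k H) w = P3 (H.map (List.map (List.map cv))) w u v := by
  induction H with
  | nil => intro k _; rfl
  | cons r t ih =>
    intro k hk
    have h1 : P3 ((r :: t).map (List.map (List.map cv))) w u v =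
        P3 (t.map (List.map (List.map cv))) w u v * w + P2 (r.map (List.map cv)) u v := by
      unfold P3
      rw [List.map_cons, List.map_cons, horn_cons]
    rw [h1, hV, horn_cons, ih (k + 1) (by omega), if_neg (by omega), zero_add]

/-- value of `1/2 + H + x` -/
theorem horn_ex {H : List (List (List ℤ))} (hH : H ≠ []) {τ : ℕ → ℂ} {x : Option E} {y : E}
    (hl : (hlE L 0 H).map (E.ev τ) = hV u v 0 H) :
    (hornE y (exE x (hlE L 0 H))).ev τ =
      1 / 2 + P3 (H.map (List.map (List.map cv))) (y.ev τ) u v + oev τ x := by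
  cases H with
  | nil => exact absurd rfl hH
  | cons r t =>
    rw [hornE_ev]
    have h1 : P3 ((r :: t).map (List.map (List.map cv))) (y.ev τ) u v =
        P3 (t.map (List.map (List.map cv))) (y.ev τ) u v * (y.ev τ) +
          P2 (r.map (List.map cv)) u v := by
      unfold P3
      rw [List.map_cons, List.map_cons, horn_cons]
    rw [hlE, List.map_cons, hV, if_pos rfl, List.cons.injEq] at hl
    rw [hlE]
    cases x with
    | none =>
      show horn (List.map (E.ev τ) (_ :: _)) _ = _
      rw [List.map_cons, horn_cons, hl.1, hl.2, horn_hV t _ 1 one_pos, h1]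
      show _ = _ + 0
      ring
    | some x =>
      show horn (List.map (E.ev τ) (E.add x _ :: _)) _ = _
      rw [List.map_cons, horn_cons, hl.2, horn_hV t _ 1 one_pos, h1]
      show _ + (x.ev τ + E.ev τ _) = _ + x.ev τ
      rw [hl.1]
      ring

end Pool.Agent.helper63.NF
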