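import Pool.Agent.helper63.NF.Prog

/-!
# The certificates of a piece

Boxes: `be` for ε, `bb` for `b` (or its parameter `t`), `bA` for `s ∈ [0, S]`, `bB` for
`g ∈ [0, 1/S]`, `bC` for `[0, 1]`, `bD` for `[0, π/2]`, `bv` for `v ∈ [v1, 1]`.
-/

namespace Pool.Agent.helper63.NF

open Pool.Agent.helper31.IA (Z)
open Pool.Agent.helper31.IX (Op CovD)

/-- the program of the near node `n` -/
def P2n (t : TD) (N0 n : ℕ) : List St := bif Nat.blt (n + 1) N0 then P2m t n else P2l t n

/-- the outer arc, second half: E if `Y ≥ 0`, F if `Y < 0` -/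
def chEF (t : TD) (n : ℕ) : List St := bif decide (nth 0 t.y (n - 1) < 0) then chF t n else chE t n

def altsA (t : TD) (n : ℕ) : List (List Op) :=
  altP (chA t n) (outCut t n) :: bif t.strip then [altP (chA t n) (outIn t)] else []
def altsB (t : TD) (n : ℕ) : List (List Op) := [altP (chB t n) (outCut t n)]
def altsC (t : TD) (n : ℕ) : List (List Op) := [altP (chC t) (outDisc t n)]
def altsD (t : TD) (n : ℕ) : List (List Op) := [altP (chD t n) (outDisc t n)]
def altsE (t : TD) (n : ℕ) : List (List Op) := [altP (chEF t n) (outDisc t n), altL t n]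

/-- registers of a program with inputs `ε`, `b` -/
def ρ2 : List (ℕ × ℕ) := [(0, 1), (1, 0)]

/-- `t_n > 0`, the radius before node `n + 1` is less than one, `K² + Y_n ε² > 0` -/
def smallS (t : TD) : ℕ → List St
  | 0 => []
  | n + 1 => smallS t n ++ [.pos (p2E t.Lt 0 (nth [] t.t n)),
      .pos (.add (.mul (.r 17) (.r 17)) (.c (zi (nth 0 t.y n))))] ++ geoS t (n + 1) ++ [.pos (.r 21)]

/-- the entry condition, `exp (-2 N0 κ) (1 + ..) exp (39/5 κ) < 1` -/
def entS (t : TD) (N0 : ℕ) : List St :=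
  bif t.strip then
    [St.set 30 (E.sc (zi (↑N0 * 1099511627776 - 4288095348327)) (E.r 7)),
      St.pos
        ((E.sc (zi (2 * (↑N0 * 1099511627776 - 4288095348327)))
            ((E.r 30).exp.mul ((E.sc (zi 183251937962) ((E.r 30).mul (E.r 30))).add (E.r 22)))).sub
          ((E.r 16).mul ((E.sc (zi 184351450112) ((E.r 7).mul (E.r 7))).add (E.r 22))))]
  else
    [St.lt
        ((((E.r 7).mul (E.r 16)).add (E.r 22)).mul (E.sc (zi (8576190696653 - 2 * (↑N0 * 1099511627776))) (E.r 7)).exp)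
        THA]

/-- small conditions, inputs `ε`, `b` -/
def PS (t : TD) (N0 : ℕ) : List Op :=
  comp
    (baseS t ++
            [St.set (mreg 1 0) ((E.r 0).sub (E.c (zi t.ec))),
              St.set (mreg 0 1) (bif t.bc == 0 then E.r 4 else (E.r 4).sub (E.c (zi t.bc)))] ++
          monos [] t.Lt ++
        smallS t N0 ++
      entS t N0)
    ρ2 2

/-- the certificates of the circles and of the cut -/
structure Certs (t : TD) (N0 : ℕ) (be bb bA bB bC bD bv : ℕ × ℕ) : Prop where
  A : ∀ n, 1 ≤ n → n < N0 → CovD 1 (circ (chA t n) (P2n t N0 n) :: altsA t n) [be, bb, bA]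
  B : ∀ n, 1 ≤ n → n < N0 → CovD 1 (circ (chB t n) (P2n t N0 n) :: altsB t n) [be, bb, bB]
  C : t.strip = true → ∀ n, 1 ≤ n → n < N0 →
    CovD 1 (circ (chC t) (P2n t N0 n) :: altsC t n) [be, bb, bC]
  D : ∀ n, 1 ≤ n → n < N0 → CovD 1 (circ (chD t n) (P2n t N0 n) :: altsD t n) [be, bb, bD]
  E : ∀ n, 1 ≤ n → n < N0 → CovD 1 (circ (chEF t n) (P2n t N0 n) :: altsE t n) [be, bb, bD]
  Z : CovD 1 [comp (P0 t) ρ4 4] [be, bb, bv]
  T : CovD 1 [comp (PT t) ρ3 3] [be, bb]
  S : CovD 0 [PS t N0] [be, bb]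

end Pool.Agent.helper63.NF
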