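import Pool.Agent.helper31.EQ.Full
import Pool.Agent.helper31.EQ.R.DataF

/-!
# Assembly of the three ranges of `e ≥ 4`
-/

namespace Pool.Agent.helper63.NF

open Set Metric Pool.Agent.helper31.EQ Pool.Agent.helper31.EQ.R

/-- The complete answer from: `W` (`1 < e ≤ 4`), near fields for `4 ≤ e ≤ 20`, near fields in the
form `S` for `20 ≤ e ≤ 200` and `200 ≤ e ≤ 500`, `e sinh κ ≤ 5`, and the programs for the rest. -/
theorem full_of3
    (HW : ∀ e κ : ℝ, 1 < e → e ≤ 4 → 0 < κ →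
      2 * (Real.cosh κ - 1) / Real.cosh (e * κ / 2) ^ (2 / e) < 4 ^ (1 / e) - 1 →
      Nonempty (WTrap e (Real.exp κ)))
    (H20 : ∀ e κ : ℝ, 4 ≤ e → e ≤ 20 → 0 < κ →
      2 * (Real.cosh κ - 1) / Real.cosh (e * κ / 2) ^ (2 / e) < 4 ^ (1 / e) - 1 →
      Nonempty (RDataF e κ))
    (HS : ∀ e κ : ℝ, 20 ≤ e → (e ≤ 200 ∨ (e ≤ 500 ∧ e * Real.sinh κ ≤ 5)) → 0 < κ →
      2 * (Real.cosh κ - 1) / Real.cosh (e * κ / 2) ^ (2 / e) < 4 ^ (1 / e) - 1 →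
      Nonempty (SeqTrap e (Real.exp κ)))
    (HL : ∀ e κ : ℝ, 200 ≤ e → (e * Real.sinh κ ≤ 5 → 500 ≤ e) → 0 < κ →
      2 * (Real.cosh κ - 1) / Real.cosh (e * κ / 2) ^ (2 / e) < 4 ^ (1 / e) - 1 →
      Nonempty (SeqTrap e (Real.exp κ)))
    {n : ℕ} (hn : 2 ≤ n) {i : ℝ} (hi : i ≠ 1) :
    (∃ L : Set (EuclideanSpace ℝ (Fin n)), IsBody L ∧ ∃ p q, p ≠ q ∧
      IsEquichordalPoint i L p ∧ IsEquichordalPoint i L q) ↔ i < 1 := by
  refine full_of HW ?_ hn hi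
  intro e κ he hκ hb
  rcases le_total e 20 with h | h
  · obtain ⟨D⟩ := H20 e κ he h hκ hb
    exact D.nonempty_seqTrap (by linarith) hκ
  rcases le_total e 200 with h2 | h2
  · exact HS e κ h (Or.inl h2) hκ hb
  rcases le_total (e * Real.sinh κ) 5 with h3 | h3
  · rcases le_total e 500 with h4 | h4
    · exact HS e κ h (Or.inr ⟨h4, h3⟩) hκ hb
    · exact HL e κ h2 (fun _ => h4) hκ hb
  · rcases eq_or_lt_of_le h3 with h4 | h4
    · rcases le_total e 500 with h5 | h5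
      · exact HS e κ h (Or.inr ⟨h5, h4.symm.le⟩) hκ hb
      · exact HL e κ h2 (fun _ => h5) hκ hb
    · exact HL e κ h2 (fun h5 => absurd h4 (not_lt.2 h5)) hκ hb

/-- The part `1 < i ≤ 20`. -/
theorem part20_of
    (HW : ∀ e κ : ℝ, 1 < e → e ≤ 4 → 0 < κ →
      2 * (Real.cosh κ - 1) / Real.cosh (e * κ / 2) ^ (2 / e) < 4 ^ (1 / e) - 1 →
      Nonempty (WTrap e (Real.exp κ)))
    (H20 : ∀ e κ : ℝ, 4 ≤ e → e ≤ 20 → 0 < κ →
      2 * (Real.cosh κ - 1) / Real.cosh (e * κ / 2) ^ (2 / e) < 4 ^ (1 / e) - 1 →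
      Nonempty (RDataF e κ))
    {n : ℕ} (hn : 2 ≤ n) {i : ℝ} (hi : 1 < i) (hi20 : i ≤ 20) :
    ¬ ∃ L : Set (EuclideanSpace ℝ (Fin n)), IsBody L ∧ ∃ p q, p ≠ q ∧
      IsEquichordalPoint i L p ∧ IsEquichordalPoint i L q := by
  rintro ⟨L, _, p, q, hpq, hp, hq⟩
  obtain ⟨w, hw, hvw⟩ := exists_orthogonal hn (q - p)
  obtain ⟨m, hm, g, h, hc⟩ := exists_chordPair hi hpq hp hq hw hvw
  have hm0 : 0 < m := by linarith
  have hlog : Real.exp (Real.log m) = m := Real.exp_log hm0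
  have hκ : 0 < Real.log m := Real.log_pos hm
  have h1 := hc.trivial_exclusion hi hm
  rw [← hlog] at h1
  have h2 := kappa_bound hi hκ h1
  rcases le_total i 4 with h4 | h4
  · obtain ⟨D⟩ := HW i (Real.log m) hi h4 hκ h2
    rw [hlog] at D
    exact D.false hi hm hc
  · obtain ⟨W⟩ := H20 i (Real.log m) h4 hi20 hκ h2
    obtain ⟨D⟩ := W.nonempty_seqTrap hi hκ
    rw [hlog] at D
    exact D.false hi hm hc

end Pool.Agent.helper63.NF
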