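import Pool.Agent.helper12.RS.Tb
import Pool.Agent.helper63.RG.NodesW

/-!
# What the programs of the near field prove

The state is `T = Q - cosh κ`. The node numbers are those of the record: the node `n` comes after
the link `n`, the first node has no number.
-/

namespace Pool.Agent.helper63.NF

open Complex
open Pool.Agent.helper12.RS

noncomputable section

/-- `om` as a function of `T` -/
def omT (κ : ℝ) (T : ℂ) : ℂ := ((Real.sinh κ : ℂ) - T) / ((Real.sinh κ : ℂ) + T)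

/-- a near node: facts which do not depend on the unknown -/
structure NodeP (t : Tb) (e κ : ℝ) (n : ℕ) (T : ℂ) : Prop where
  Q : 0 < ((Real.cosh κ : ℂ) + T).re
  den : ((1 / e : ℝ) : ℂ) + t.c n * T ≠ 0
  pol : podom t.pol (t.de e) (Tb.yT e κ T)
  r : t.rT e κ n T ≠ 0
  M : t.MT e κ n T ≠ 0
  E : 0 < (1 + exp (-(t.lT e κ T))).re

/-- the link after a near node, `x` the unknown of the node, `T'` the next state,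
`δ` bound of the displacement, `Y` the cut -/
structure StepP (t : Tb) (e κ δ Y : ℝ) (n : ℕ) (T x T' : ℂ) : Prop where
  F : 0 < (1 + exp (-(t.lT e κ T)) * (t.rT e κ n T * x)).re
  g : 0 < (1 - t.rT e κ n T * x).re
  S : Sn e κ (Tb.yT e κ T) (t.lT e κ T) (t.rT e κ n T * x) = ((Real.cosh κ : ℂ) + T') ^ 2
  re : 0 < ((Real.cosh κ : ℂ) + T').re
  ne : T' + (Real.sinh κ : ℂ) ≠ 0
  disp : ‖omT κ T' - (kk κ : ℂ) * omT κ T‖ ≤ δ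
  cut : ‖T' ^ 2 - (Real.sinh κ : ℂ) ^ 2‖ ≤ Real.sinh κ ^ 2 + Y

/-- a middle node; the closing may use that the next node is good -/
structure MidP (t : Tb) (e κ θ δ Y : ℝ) (n : ℕ) (T : ℂ) : Prop where
  nd : NodeP t e κ n T
  st : ∀ x : ℂ, ‖x‖ ≤ 1 → ∃ T' : ℂ, StepP t e κ δ Y n T x T' ∧
    ∀ x' : ℂ, ‖x'‖ ≤ 1 → 0 < (1 + exp (-(t.lT e κ T')) * (t.rT e κ (n + 1) T' * x')).re →
      0 < (1 + exp (-(t.lT e κ T'))).re ∧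
      ‖x - t.MT e κ n T * (x - (1 - exp (CL (t.lT e κ T) - (e : ℂ) * log ((Real.cosh κ : ℂ) + T') +
        lF (t.lT e κ T') (t.rT e κ (n + 1) T' * x'))) / t.rT e κ n T)‖ < θ

/-- the last near node -/
structure LastP (t : Tb) (e κ θ δ Y A x0 B1 : ℝ) (n : ℕ) (T : ℂ) : Prop where
  nd : NodeP t e κ n T
  st : ∀ x : ℂ, ‖x‖ ≤ 1 → ∃ T' : ℂ, StepP t e κ δ Y n T x T' ∧
    ∀ Q' Q1 Q2 q2 q3 : ℂ, Q' = (Real.cosh κ : ℂ) + T' →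
    Q1 = 2 * (Real.cosh κ : ℂ) - Q'⁻¹ → Q2 = 2 * (Real.cosh κ : ℂ) - Q1⁻¹ →
    q2 = Q1 ^ (-(e : ℂ)) → q3 = Q2 ^ (-(e : ℂ)) →
    ‖q3‖ ≤ B1 * ‖1 + q3‖ ∧ 1 + q3 ≠ 0 ∧
    ∀ f2 χ : ℂ, ‖f2 - 1 / (1 + q3)‖ ≤
      (1 + 1 / (2 * (x0 + 2))) / (1 - B1 / (x0 + 2)) *
      (e * ‖(Q2 - (Real.cosh κ : ℂ)) ^ 2 - (Real.sinh κ : ℂ) ^ 2‖) * ‖q3‖ / ‖1 + q3‖ ^ 3 →
      ‖χ‖ ≤ A * Real.sinh κ * Real.exp (-(κ * x0)) / Real.sinh (κ * (x0 + 1)) *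
        ‖(Q' - (Real.exp (-κ) : ℂ)) / Q'‖ →
      ‖x - t.MT e κ n T * (x - (1 - exp (CL (t.lT e κ T) - (e : ℂ) * log Q') *
        (1 - q2 * f2 * (1 - χ))) / t.rT e κ n T)‖ < θ

/-- the first node at the start `p`; the functions are those of the record -/
structure ZeroP (t : Tb) (e κ θ δ Y : ℝ) (p : ℂ) (l0 r0 M0 : ℂ) : Prop where
  dom : p ∈ t.DN e κ
  r : r0 ≠ 0
  M : M0 ≠ 0
  E : 0 < (1 + exp (-l0)).re
  st : ∀ x : ℂ, ‖x‖ ≤ 1 → ∃ T' : ℂ,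
    0 < (1 + exp (-l0) * (r0 * x)).re ∧ 1 - r0 * x ∈ slitPlane ∧
    1 - (Hh κ : ℂ) ^ 2 * exp (-(2 * ((LA e κ : ℂ) + lF l0 (r0 * x))) / e) *
        (1 - tanh (κ * p) ^ 2) ∈ slitPlane ∧
    SH e κ (tanh (κ * p)) l0 (r0 * x) ∈ slitPlane ∧
    S0 e κ (tanh (κ * p)) l0 (r0 * x) = ((Real.cosh κ : ℂ) + T') ^ 2 ∧
    0 < ((Real.cosh κ : ℂ) + T').re ∧ T' + (Real.sinh κ : ℂ) ≠ 0 ∧
    ‖omT κ T' - (kk κ : ℂ) * om0 κ p‖ ≤ δ ∧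
    ‖T' ^ 2 - (Real.sinh κ : ℂ) ^ 2‖ ≤ Real.sinh κ ^ 2 + Y ∧
    ∀ x' : ℂ, ‖x'‖ ≤ 1 → 0 < (1 + exp (-(t.lT e κ T')) * (t.rT e κ 0 T' * x')).re →
      0 < (1 + exp (-(t.lT e κ T'))).re ∧
      ‖x - M0 * (x - (1 - exp (CL l0 - (e : ℂ) * log ((Real.cosh κ : ℂ) + T') +
        lF (t.lT e κ T') (t.rT e κ 0 T' * x'))) / r0)‖ < θ

end

end Pool.Agent.helper63.NF
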