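import Pool.Agent.helper63.NF.SpecHead
import Pool.Agent.helper63.NF.Fact

/-!
# Meaning of the block of a node
-/

namespace Pool.Agent.helper63.NF

open Complex
open Pool.Agent.helper31.IA (Z get)
open Pool.Agent.helper12.RS

/-- the pole pair as an optional register -/
def poR (t : TD) (i : ℕ) : Option E := match t.pol with
  | none => none
  | some _ => some (.r i)

theorem ne_of_re {z : ℂ} (h : 0 < z.re) : z ≠ 0 := by
  rintro rfl
  exact lt_irrefl _ h

theorem pole_spec {t : TD} (hok : t.ok = true) {u v : ℂ} {y B : ℕ} (hB : B + 5 ≤ 128)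
    {σ : ℕ → ℂ} {Q : (ℕ → ℂ) → Prop} (hM : MI t.L u v σ) (h : Sem (poleS t y B) σ Q) :
    ∃ τ, Q τ ∧ (∀ i, i < B ∨ B + 5 ≤ i → τ i = σ i) ∧ podom t.tb.pol u (σ y) ∧
      ∀ H, P3 H (σ y) u v + oev τ (poR t (B + 4)) = HP t.tb.pol H (σ y) u v := by
  cases hp : t.pol with
  | none =>
    have h1 : t.tb.pol = none := by
      show t.pol.map PD.po = none
      rw [hp]; rfl
    have h2 : poleS t y B = [] := by
      unfold poleS
      rw [hp]
    rw [h2] at h
    refine ⟨σ, h, fun _ _ => rfl, ?_, ?_⟩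
    · intro p hp'
      rw [h1] at hp'
      cases hp'
    · intro H
      rw [h1]
      unfold poR
      rw [hp]
      exact add_zero _
  | some p =>
    have h1 : t.tb.pol = some p.po := by
      show t.pol.map PD.po = _
      rw [hp]; rfl
    obtain ⟨g1, g2⟩ := TD.ok_pol hok hp
    have h2 : poleS t y B =
      [.set B (.sub (.r y) (bif p.w1 == 0 then .c (zi p.wr) else .add (.sc (zi p.w1) (.r (mreg 1 0)))
        (.c (zi p.wr)))),
     .pos (.r B), .set (B + 1) (.inv (.r B)), .set (B + 2) (.add (.r B) (.sc (zi p.wi2) (.r (B + 1)))),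
     .pos (.r (B + 2)), .set (B + 3) (.inv (.r (B + 2))),
     .set (B + 4) (.mul (.add (p2E t.L 0 p.rho) (mulS (.r (B + 1)) (p2E t.L 0 p.sig))) (.r (B + 3)))] := by
      unfold poleS
      rw [hp]
    rw [h2] at h
    have hm : ∀ i j, MI t.L u v (upd σ i j) ∨ ¬ i < 128 := by
      intro i j
      by_cases hi : i < 128
      · left
        exact ⟨by rw [upd_ne (mreg_ne_lt hi).symm, hM.hu], by rw [upd_ne (mreg_ne_lt hi).symm, hM.hv],
          fun a b hab => by rw [upd_ne (mreg_ne_lt hi).symm, hM.hm a b hab]⟩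
      · exact Or.inr hi
    obtain ⟨-, h⟩ := sem_set h (x := p.po.z u (σ y)) (by
      have hz : p.po.z u (σ y) = σ y - (cv p.w1 * u + cv p.wr) := rfl
      rw [hz]
      by_cases hw : p.w1 = 0
      · have hw' : (p.w1 == 0) = true := by simpa using hw
        rw [hw', cond_true, hw, cv_zero]
        show σ y - (zi p.wr).val = _
        rw [zi_val]
        ring
      · have hw' : (p.w1 == 0) = false := by simpa using hw
        rw [hw', cond_false]
        show σ y - ((zi p.w1).val * σ (mreg 1 0) + (zi p.wr).val) = _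
        rw [zi_val, zi_val, hM.hu])
    obtain ⟨-, p1, h⟩ := h
    have p1' : 0 < (p.po.z u (σ y)).re := by
      have : (E.r B).ev (upd σ B (p.po.z u (σ y))) = p.po.z u (σ y) := upd_same _ _
      rw [this] at p1
      exact p1
    obtain ⟨z, hz⟩ : ∃ z, z = p.po.z u (σ y) := ⟨_, rfl⟩
    rw [← hz] at h p1'
    have hz0 := ne_of_re p1'
    obtain ⟨-, h⟩ := sem_set h (x := z⁻¹) (by
      show (upd σ B z B)⁻¹ = _
      rw [upd_same])
    obtain ⟨-, h⟩ := sem_set h (x := z + cv p.wi * cv p.wi * z⁻¹) (by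
      show upd (upd σ B z) (B + 1) z⁻¹ B + (zi p.wi2).val * upd (upd σ B z) (B + 1) z⁻¹ (B + 1) = _
      rw [upd_same, upd_ne (by omega), upd_same, zi_val, g1])
    obtain ⟨-, p2, h⟩ := h
    obtain ⟨q, hq⟩ : ∃ q, q = z + cv p.wi * cv p.wi * z⁻¹ := ⟨_, rfl⟩
    rw [← hq] at h
    have p2' : 0 < q.re := by
      rw [hq]
      have : ∀ w, (E.r (B + 2)).ev (upd (upd (upd σ B z) (B + 1) z⁻¹) (B + 2) w) = w :=
        fun w => upd_same _ _
      rw [this] at p2
      exact p2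
    have hq0 := ne_of_re p2'
    obtain ⟨-, h⟩ := sem_set h (x := q⁻¹) (by
      show (upd _ (B + 2) q (B + 2))⁻¹ = _
      rw [upd_same])
    have hM4 : MI t.L u v (upd (upd (upd (upd σ B z) (B + 1) z⁻¹) (B + 2) q) (B + 3) q⁻¹) := by
      have k : ∀ a b, upd (upd (upd (upd σ B z) (B + 1) z⁻¹) (B + 2) q) (B + 3) q⁻¹ (mreg a b) =
          σ (mreg a b) := fun a b => by
        rw [upd_ne (mreg_ne_lt (by omega)).symm, upd_ne (mreg_ne_lt (by omega)).symm,
          upd_ne (mreg_ne_lt (by omega)).symm, upd_ne (mreg_ne_lt (by omega)).symm]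
      exact ⟨by rw [k, hM.hu], by rw [k, hM.hv], fun a b hab => by rw [k, hM.hm a b hab]⟩
    obtain ⟨-, h⟩ := sem_set h (x := (P2 (c2 p.rho) u v + z⁻¹ * P2 (c2 p.sig) u v) * q⁻¹) (by
      show ((p2E t.L 0 p.rho).ev _ + (mulS (.r (B + 1)) (p2E t.L 0 p.sig)).ev _) * upd _ (B + 3) _ (B + 3) = _
      rw [mulS_ev, p2E_ev hM4, p2E_ev hM4, cv_zero, zero_add, zero_add, upd_same]
      show (_ + upd (upd (upd (upd σ B z) (B + 1) z⁻¹) (B + 2) q) (B + 3) q⁻¹ (B + 1) * _) * _ = _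
      rw [upd_ne (by omega), upd_ne (by omega), upd_same]
      rfl)
    have hzz : z * q = z * z + cv p.wi * cv p.wi := by
      rw [hq]
      field_simp
    have hne : z * z + cv p.wi * cv p.wi ≠ 0 := by
      rw [← hzz]
      exact mul_ne_zero hz0 hq0
    refine ⟨_, h, ?_, ?_, ?_⟩
    · intro i hi
      rw [upd_ne (by omega), upd_ne (by omega), upd_ne (by omega), upd_ne (by omega),
        upd_ne (by omega)]
    · intro p' hp'
      rw [h1, Option.some.injEq] at hp'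
      rw [← hp']
      show p.po.z u (σ y) * p.po.z u (σ y) + cv p.wi * cv p.wi ≠ 0
      rw [← hz]
      exact hne
    · intro H
      rw [h1]
      show _ = P3 H (σ y) u v + p.po.val u (σ y) v
      rw [po_val g2, ← hz]
      unfold poR
      rw [hp]
      show _ + upd _ (B + 4) _ (B + 4) = _
      rw [upd_same]
      congr 1
      have : (z * z + cv p.wi * cv p.wi)⁻¹ = z⁻¹ * q⁻¹ := by
        rw [← hzz, mul_inv]
      rw [this]
      field_simp

/-- the registers after a node block -/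
structure NO (t : TD) (e κ : ℝ) (B : ℕ) (T : ℂ) (σ : ℕ → ℂ) : Prop where
  Q : σ B = (Real.cosh κ : ℂ) + T
  Qre : 0 < ((Real.cosh κ : ℂ) + T).re
  u : σ (B + 1) = Tb.uT κ T
  ey : σ (B + 3) = 1 - Tb.uT κ T ^ 2
  y : σ (B + 4) = Tb.yT e κ T
  pol : podom t.tb.pol (t.tb.de e) (Tb.yT e κ T)
  l : σ (B + 6) = t.tb.lT e κ T - ((e * κ : ℝ) : ℂ)
  M : σ (B + 8) = exp (-(t.tb.lT e κ T))
  M1 : 0 < (1 + exp (-(t.tb.lT e κ T))).re
  mm : σ (B + 10) = lc (t.tb.lT e κ T) - (Real.log (1 + Real.exp (-(e * κ))) : ℂ)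

theorem NO.of_eq {t : TD} {e κ : ℝ} {B : ℕ} {T : ℂ} {σ τ : ℕ → ℂ} (h : NO t e κ B T σ)
    (h1 : ∀ i, B ≤ i → i < B + 16 → τ i = σ i) : NO t e κ B T τ := by
  refine ⟨?_, h.Qre, ?_, ?_, ?_, h.pol, ?_, ?_, h.M1, ?_⟩
  · rw [h1 _ (by omega) (by omega), h.Q]
  · rw [h1 _ (by omega) (by omega), h.u]
  · rw [h1 _ (by omega) (by omega), h.ey]
  · rw [h1 _ (by omega) (by omega), h.y]
  · rw [h1 _ (by omega) (by omega), h.l]
  · rw [h1 _ (by omega) (by omega), h.M]
  · rw [h1 _ (by omega) (by omega), h.mm]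

theorem log_mm {e κ : ℝ} {l : ℂ} (h : 0 < (exp (-l) + 1).re) :
    log ((exp (-l) + 1) * ((Real.exp (-(e * κ)) : ℂ) + 1)⁻¹) =
      lc l - (Real.log (1 + Real.exp (-(e * κ))) : ℂ) := by
  have h1 : ((Real.exp (-(e * κ)) : ℂ) + 1)⁻¹ = (((1 + Real.exp (-(e * κ)))⁻¹ : ℝ) : ℂ) := by
    push_cast
    rw [add_comm]
  have h2 : 0 < (1 + Real.exp (-(e * κ)))⁻¹ := inv_pos.2 (by positivity)
  rw [h1, mul_comm, Complex.log_ofReal_mul h2 (ne_of_re h), Real.log_inv]
  unfold lc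
  rw [add_comm (exp (-l)) 1]
  push_cast
  ring

/-- **The node block.** -/
theorem node_spec {t : TD} (hok : t.ok = true) {e κ : ℝ} {z B : ℕ} (hB : B = 24 ∨ B = 72)
    {σ : ℕ → ℂ} {Q : (ℕ → ℂ) → Prop} {T : ℂ} (hF : HF t e κ σ)
    (hH : (hlE t.L 0 t.H).map (E.ev σ) = hV (t.tb.de e) (t.tb.db e κ) 0 t.H)
    (hz : σ z = T) (h : Sem (nodeS t z B) σ Q) :
    ∃ τ, Q τ ∧ (∀ i, i < B ∨ B + 16 ≤ i → τ i = σ i) ∧ NO t e κ B T τ := by
  have h := sem_append _ _ _ h
  have h := sem_append _ _ _ h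
  obtain ⟨-, h⟩ := sem_set h (x := (Real.cosh κ : ℂ) + T) (by
    show σ 23 + σ z = _
    rw [hF.c, hz])
  obtain ⟨-, q1, h⟩ := h
  have Qre : 0 < ((Real.cosh κ : ℂ) + T).re := by
    have : ∀ w, (E.r B).ev (upd σ B w) = w := fun w => upd_same _ _
    rwa [this] at q1
  have Q0 := ne_of_re Qre
  obtain ⟨q, hq⟩ : ∃ q, q = (Real.cosh κ : ℂ) + T := ⟨_, rfl⟩
  rw [← hq] at h
  have e5 := hF.ie
  have e12 := hF.kk
  have e18 := hF.Mi
  have e21 := hF.mu
  have e22 := hF.one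
  obtain ⟨u, hu⟩ : ∃ u, u = Tb.uT κ T := ⟨_, rfl⟩
  have hu' : q⁻¹ = u := by
    rw [hq, hu]
    rfl
  obtain ⟨-, h⟩ := sem_set h (x := u) (by
    show (upd σ B q B)⁻¹ = _
    rw [upd_same, hu'])
  obtain ⟨-, h⟩ := sem_set h (x := u ^ 2) (by
    show upd _ (B + 1) u (B + 1) * upd _ (B + 1) u (B + 1) = _
    rw [upd_same]
    ring)
  obtain ⟨-, h⟩ := sem_set h (x := 1 - u ^ 2) (by
    rcases hB with rfl | rfl
    all_goals simp [E.ev, upd, e22])
  obtain ⟨-, h⟩ := sem_set h (x := Tb.yT e κ T) (by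
    have hy : Tb.yT e κ T = (1 - u ^ 2) * e := by
      unfold Tb.yT
      rw [Tb.YT_eq' Q0, hu]
      ring
    rw [hy]
    rcases hB with rfl | rfl
    all_goals simp [E.ev, upd, e5])
  obtain ⟨-, h⟩ := sem_set h (x := Tb.vT e κ T) (by
    have hv : Tb.vT e κ T = ((Real.exp (-κ) : ℂ) ^ 2 - u ^ 2) * e := by
      rw [Tb.vT_eq' Q0, hu]
      ring
    rw [hv]
    rcases hB with rfl | rfl
    all_goals simp [E.ev, upd, e5, e12])
  obtain ⟨σ1, hσ1⟩ : ∃ σ1, σ1 = upd (upd (upd (upd (upd (upd σ B q) (B + 1) u) (B + 2) (u ^ 2))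
    (B + 3) (1 - u ^ 2)) (B + 4) (Tb.yT e κ T)) (B + 5) (Tb.vT e κ T) := ⟨_, rfl⟩
  rw [← hσ1] at h
  have f1 : ∀ i, i < B ∨ B + 6 ≤ i → σ1 i = σ i := by
    intro i hi
    rw [hσ1, upd_ne (by omega), upd_ne (by omega), upd_ne (by omega), upd_ne (by omega),
      upd_ne (by omega), upd_ne (by omega)]
  have B128 : B + 16 ≤ 128 := by omega
  have hM1 : MI t.L (t.tb.de e) (t.tb.db e κ) σ1 := by
    have k : ∀ a b, σ1 (mreg a b) = σ (mreg a b) := fun a b => f1 _ (by
      have := mreg_ge a b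
      omega)
    exact ⟨by rw [k, hF.mi.hu], by rw [k, hF.mi.hv], fun a b hab => by rw [k, hF.mi.hm a b hab]⟩
  have hy1 : σ1 (B + 4) = Tb.yT e κ T := by
    rw [hσ1, upd_ne (by omega), upd_same]
  obtain ⟨σ2, h, f2, hpd, hval⟩ := pole_spec hok (y := B + 4) (B := B + 11) (by omega) hM1 h
  rw [hy1] at hpd hval
  have hH2 : (hlE t.L 0 t.H).map (E.ev σ2) = hV (t.tb.de e) (t.tb.db e κ) 0 t.H := by
    rw [← hH]
    apply hlE_congr
    intro k
    have := hreg_ge k
    rw [f2 _ (by omega), f1 _ (by omega)]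
  have g4 : σ2 (B + 4) = Tb.yT e κ T := by rw [f2 _ (by omega), hy1]
  have g5 : σ2 (B + 5) = Tb.vT e κ T := by rw [f2 _ (by omega), hσ1, upd_same]
  have k18 : σ2 18 = (Real.exp (-(e * κ)) : ℂ) := by rw [f2 _ (by omega), f1 _ (by omega), e18]
  have k21 : σ2 21 = (Real.exp (-(e * κ)) : ℂ) * ((Real.exp (-(e * κ)) : ℂ) + 1)⁻¹ := by
    rw [f2 _ (by omega), f1 _ (by omega), e21]
  have k22 : σ2 22 = 1 := by rw [f2 _ (by omega), f1 _ (by omega), e22]
  obtain ⟨lt, hlt⟩ : ∃ lt, lt = t.tb.lT e κ T - ((e * κ : ℝ) : ℂ) := ⟨_, rfl⟩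
  obtain ⟨-, h⟩ := sem_set h (x := lt) (by
    show σ2 (B + 5) * (HE t (B + 4) (B + 11)).ev σ2 = _
    have h3 : (HE t (B + 4) (B + 11)).ev σ2 = 1 / 2 + HP t.tb.pol t.tb.H (Tb.yT e κ T)
        (t.tb.de e) (t.tb.db e κ) := by
      unfold HE
      have h4 := horn_ex (TD.ok_H hok) (x := poR t (B + 11 + 4)) (y := .r (B + 4)) hH2
      have h5 : (E.r (B + 4)).ev σ2 = Tb.yT e κ T := g4
      rw [h5] at h4
      have h6 := hval (c3 t.H)
      have h7 : t.tb.H = c3 t.H := rfl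
      rw [h7, ← h6]
      refine h4.trans ?_
      show 1 / 2 + P3 (c3 t.H) _ _ _ + _ = _
      ring
    rw [h3, g5, hlt]
    unfold Tb.lT
    ring)
  obtain ⟨-, h⟩ := sem_set h (x := exp (-lt) - 1) (by
    rcases hB with rfl | rfl
    all_goals simp [E.ev, upd, k22])
  have hM : exp (-(t.tb.lT e κ T)) = (Real.exp (-(e * κ)) : ℂ) * exp (-lt) := by
    rw [hlt]
    push_cast
    rw [← Complex.exp_add]
    congr 1
    ring
  obtain ⟨M, hMd⟩ : ∃ M, M = exp (-(t.tb.lT e κ T)) := ⟨_, rfl⟩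
  rw [← hMd] at hM
  obtain ⟨-, h⟩ := sem_set h (x := M) (by
    rw [hM]
    rcases hB with rfl | rfl
    all_goals simp [E.ev, upd, k22, k18])
  obtain ⟨-, q2, h⟩ := h
  have q2' : 0 < (M + 1).re := by
    have : ∀ w : ℕ → ℂ, (E.add (.r (B + 8)) (.r 22)).ev (upd w (B + 8) M) = M + w 22 := fun w => by
      show upd w (B + 8) M (B + 8) + upd w (B + 8) M 22 = _
      rw [upd_same, upd_ne (by omega)]
    rw [this, upd_ne (by omega), upd_ne (by omega), k22] at q2
    exact q2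
  have hMi : (Real.exp (-(e * κ)) : ℂ) + 1 ≠ 0 := by
    have : (0 : ℝ) < Real.exp (-(e * κ)) + 1 := by positivity
    exact_mod_cast this.ne'
  obtain ⟨-, h⟩ := sem_set h (x := (M + 1) * ((Real.exp (-(e * κ)) : ℂ) + 1)⁻¹) (by
    rw [hM]
    rcases hB with rfl | rfl
    all_goals
      simp only [E.ev, upd]
      simp [k22, k21]
      push_cast at hMi
      field_simp
      ring)
  obtain ⟨-, -, h⟩ := h
  obtain ⟨-, h⟩ := sem_set h (x := lc (t.tb.lT e κ T) - (Real.log (1 + Real.exp (-(e * κ))) : ℂ)) (by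
    show log (upd _ (B + 9) _ (B + 9)) = _
    rw [upd_same, hMd]
    rw [hMd] at q2'
    exact log_mm q2')
  refine ⟨_, h, ?_, ?_⟩
  · intro i hi
    rw [upd_ne (by omega), upd_ne (by omega), upd_ne (by omega), upd_ne (by omega),
      upd_ne (by omega), f2 _ (by omega), f1 _ (by omega)]
  · have q3 : 0 < (1 + exp (-(t.tb.lT e κ T))).re := by
      rw [← hMd, add_comm]
      exact q2'
    have w0 : σ2 B = q := by
      rw [f2 _ (by omega), hσ1]
      rw [upd_ne (by omega), upd_ne (by omega), upd_ne (by omega), upd_ne (by omega),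
        upd_ne (by omega), upd_same]
    have w1 : σ2 (B + 1) = u := by
      rw [f2 _ (by omega), hσ1]
      rw [upd_ne (by omega), upd_ne (by omega), upd_ne (by omega), upd_ne (by omega), upd_same]
    have w3 : σ2 (B + 3) = 1 - u ^ 2 := by
      rw [f2 _ (by omega), hσ1]
      rw [upd_ne (by omega), upd_ne (by omega), upd_same]
    refine ⟨?_, Qre, ?_, ?_, ?_, hpd, ?_, ?_, q3, ?_⟩
    · rcases hB with rfl | rfl
      all_goals simp [upd, w0, hq]
    · rw [← hu]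
      rcases hB with rfl | rfl
      all_goals simp [upd, w1]
    · rw [← hu]
      rcases hB with rfl | rfl
      all_goals simp [upd, w3]
    · rcases hB with rfl | rfl
      all_goals simp [upd, g4]
    · rcases hB with rfl | rfl
      all_goals simp [upd, hlt]
    · rcases hB with rfl | rfl
      all_goals simp [upd, hMd]
    · rcases hB with rfl | rfl
      all_goals simp [upd]

end Pool.Agent.helper63.NF
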