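import Pool.Agent.helper63.NF.NearF
import Pool.Agent.helper12.RS.Nodes

/-!
# From the near field facts to the record
-/

namespace Pool.Agent.helper63.NF

open Complex ComplexConjugate Set Filter Topology
open Pool.Agent.helper31.EQ.Y Pool.Agent.helper31.EQ.R
open Pool.Agent.helper12.RP Pool.Agent.helper12.FF Pool.Agent.helper12.RS Pool.Agent.helper63.RG

namespace Glue

variable {e κ θ A x0 B1 ve : ℝ} {t : Tb} {ht : t.IsReal} {L : ℕ} {δ Y R : ℕ → ℝ}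

theorem ne0_of_re {z : ℂ} (h : 0 < z.re) : z ≠ 0 := by
  rintro rfl
  exact lt_irrefl _ h

/-- square root and logarithm of a square -/
theorem sq_root {Q : ℂ} (h : 0 < Q.re) : Q ^ 2 ∈ slitPlane ∧ (Q ^ 2) ^ ((1 / 2 : ℝ) : ℂ) = Q ∧
    log (Q ^ 2) = 2 * log Q := by
  have hQ := ne0_of_re h
  have h1 : |arg Q| < Real.pi / 2 := Complex.abs_arg_lt_pi_div_two_iff.2 (Or.inl h)
  have h2 := abs_lt.1 h1
  have him : (2 * log Q).im = 2 * arg Q := by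
    rw [Complex.mul_im, Complex.log_im]
    simp
  have e1 : log (Q ^ 2) = 2 * log Q := by
    have h3 : Q ^ 2 = exp (2 * log Q) := by rw [two_mul, exp_add, exp_log hQ, sq]
    rw [h3, Complex.log_exp]
    · rw [him]; linarith
    · rw [him]; linarith
  refine ⟨?_, ?_, e1⟩
  · rw [Complex.mem_slitPlane_iff_arg]
    refine ⟨?_, pow_ne_zero 2 hQ⟩
    rw [← Complex.log_im, e1, him]
    intro h3
    linarith
  · rw [cpow_def_of_ne_zero (pow_ne_zero 2 hQ), e1]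
    have : 2 * log Q * ((1 / 2 : ℝ) : ℂ) = log Q := by push_cast; ring
    rw [this, exp_log hQ]

theorem exp_eq (κ : ℝ) : (Real.exp κ : ℂ) = (Real.cosh κ : ℂ) + (Real.sinh κ : ℂ) := by
  rw [← ofReal_add, Real.cosh_add_sinh]

theorem exp_neg_eq (κ : ℝ) : (Real.exp (-κ) : ℂ) = (Real.cosh κ : ℂ) - (Real.sinh κ : ℂ) := by
  rw [← ofReal_sub, Real.cosh_sub_sinh]

theorem om_omT (Q : ℂ) : om κ Q = omT κ (Q - (Real.cosh κ : ℂ)) := by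
  unfold om omT
  rw [exp_eq, exp_neg_eq]
  congr 1 <;> ring

theorem om_add (T : ℂ) : om κ ((Real.cosh κ : ℂ) + T) = omT κ T := by
  rw [om_omT, add_sub_cancel_left]

theorem T_back (hκ : 0 < κ) {T : ℂ} (h : T + (Real.sinh κ : ℂ) ≠ 0) :
    (Real.sinh κ : ℂ) * (1 - omT κ T) / (1 + omT κ T) = T := by
  have hs : (Real.sinh κ : ℂ) ≠ 0 := by exact_mod_cast (Real.sinh_pos_iff.2 hκ).ne'
  obtain ⟨K, hK⟩ : ∃ K, K = (Real.sinh κ : ℂ) := ⟨_, rfl⟩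
  unfold omT
  rw [← hK] at hs h ⊢
  have h' : K + T ≠ 0 := by rwa [add_comm]
  have e1 : 1 - (K - T) / (K + T) = 2 * T / (K + T) := by
    field_simp
    ring
  have e2 : 1 + (K - T) / (K + T) = 2 * K / (K + T) := by
    field_simp
    ring
  rw [e1, e2]
  field_simp

/-- the state sets in the `om` plane -/
def WN (κ : ℝ) (R Y : ℕ → ℝ) (n : ℕ) : Set ℂ :=
  {w | ‖w‖ ≤ R n ∧ ‖((Real.sinh κ : ℂ) * (1 - w) / (1 + w)) ^ 2 - (Real.sinh κ : ℂ) ^ 2‖ ≤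
    Real.sinh κ ^ 2 + Y n}

theorem mem_WN (hκ : 0 < κ) {n : ℕ} {T : ℂ} (hT : T + (Real.sinh κ : ℂ) ≠ 0)
    (h1 : ‖omT κ T‖ ≤ R n)
    (h2 : ‖T ^ 2 - (Real.sinh κ : ℂ) ^ 2‖ ≤ Real.sinh κ ^ 2 + Y n) : omT κ T ∈ WN κ R Y n := by
  refine ⟨h1, ?_⟩
  rw [T_back hκ hT]
  exact h2

theorem sum_ne (hκ : 0 < κ) {Q : ℂ} (hQ : Real.cosh κ < Q.re) :
    Q - (Real.cosh κ : ℂ) + (Real.sinh κ : ℂ) ≠ 0 := by
  have hs := Real.sinh_pos_iff.2 hκ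
  apply ne0_of_re
  rw [add_re, sub_re, ofReal_re, ofReal_re]
  linarith

theorem of_WN (hκ : 0 < κ) {n : ℕ} {Q : ℂ} (hQ : Real.cosh κ < Q.re)
    (h : om κ Q ∈ WN κ R Y n) : ‖omT κ (Q - (Real.cosh κ : ℂ))‖ ≤ R n ∧
      ‖(Q - (Real.cosh κ : ℂ)) ^ 2 - (Real.sinh κ : ℂ) ^ 2‖ ≤ Real.sinh κ ^ 2 + Y n := by
  rw [om_omT] at h
  refine ⟨h.1, ?_⟩
  have h2 := h.2
  rw [T_back hκ (sum_ne hκ hQ)] at h2
  exact h2

theorem y_T {Q : ℂ} (h : 0 < Q.re) :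
    (e : ℂ) * (1 - (Q ^ 2)⁻¹) = Tb.yT e κ (Q - (Real.cosh κ : ℂ)) := by
  have hQ := ne0_of_re h
  have h1 : (Real.cosh κ : ℂ) + (Q - (Real.cosh κ : ℂ)) = Q := by ring
  unfold Tb.yT
  rw [Tb.YT_eq' (by rwa [h1])]
  unfold Tb.uT
  rw [h1, inv_pow]

/-- the facts of the node at all states -/
theorem node_of (H : NearF t ht e κ θ A x0 B1 ve L δ Y R) {n : ℕ} (hn : n < L) {T : ℂ}
    (h0 : T + (Real.sinh κ : ℂ) ≠ 0) (h1 : ‖omT κ T‖ ≤ R n)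
    (h2 : ‖T ^ 2 - (Real.sinh κ : ℂ) ^ 2‖ ≤ Real.sinh κ ^ 2 + Y n) : NodeP t e κ n T := by
  by_cases h : n + 1 < L
  · exact (H.mid n h T h0 h1 h2).nd
  · obtain rfl : n = L - 1 := by omega
    exact (H.last T h0 h1 h2).nd

theorem F_of (H : NearF t ht e κ θ A x0 B1 ve L δ Y R) {n : ℕ} (hn : n < L) {T : ℂ}
    (h0 : T + (Real.sinh κ : ℂ) ≠ 0) (h1 : ‖omT κ T‖ ≤ R n)
    (h2 : ‖T ^ 2 - (Real.sinh κ : ℂ) ^ 2‖ ≤ Real.sinh κ ^ 2 + Y n) {x : ℂ} (hx : ‖x‖ ≤ 1) :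
    0 < (1 + exp (-(t.lT e κ T)) * (t.rT e κ n T * x)).re := by
  by_cases h : n + 1 < L
  · obtain ⟨T', hS, -⟩ := (H.mid n h T h0 h1 h2).st x hx
    exact hS.F
  · obtain rfl : n = L - 1 := by omega
    obtain ⟨T', hS, -⟩ := (H.last T h0 h1 h2).st x hx
    exact hS.F

theorem gslit {z : ℂ} (h : 0 < z.re) : z ∈ slitPlane := by
  rw [Complex.mem_slitPlane_iff]
  exact Or.inl h

/-- what a step gives -/
theorem step_of (_hκ : 0 < κ) {n : ℕ} {T x T' : ℂ} {δ' Y' : ℝ} (hN : NodeP t e κ n T)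
    (hS : StepP t e κ δ' Y' n T x T') {S : ℂ}
    (hSd : S = Sn e κ (Tb.yT e κ T) (t.lT e κ T) (t.rT e κ n T * x)) :
    NC (t.lT e κ T) (t.rT e κ n T) (t.MT e κ n T) S x ∧
    S ^ ((1 / 2 : ℝ) : ℂ) = (Real.cosh κ : ℂ) + T' ∧
    S ^ ((1 / 2 : ℝ) : ℂ) ≠ (Real.exp (-κ) : ℂ) ∧
    om κ (S ^ ((1 / 2 : ℝ) : ℂ)) = omT κ T' ∧
    log S = 2 * log ((Real.cosh κ : ℂ) + T') := by
  rw [hS.S] at hSd
  obtain ⟨g1, g2, g3⟩ := sq_root hS.re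
  rw [← hSd] at g1 g2 g3
  refine ⟨⟨hN.r, hN.M, ⟨hN.E, hS.F, gslit hS.g⟩, g1⟩, g2, ?_, ?_, g3⟩
  · rw [g2, exp_neg_eq]
    intro h
    apply hS.ne
    linear_combination h
  · rw [g2, om_add]

/-- the next state set -/
theorem next_W (_hκ : 0 < κ) (H : NearF t ht e κ θ A x0 B1 ve L δ Y R) {n : ℕ} (hn : n < L)
    {T x T' : ℂ} (h1 : ‖omT κ T‖ ≤ R n) (hS : StepP t e κ (δ (n + 1)) (Y (n + 1)) n T x T') :
    ‖omT κ T'‖ ≤ R (n + 1) := by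
  have hk := kk_pos κ
  have h2 : omT κ T' = (omT κ T' - (kk κ : ℂ) * omT κ T) + (kk κ : ℂ) * omT κ T := by ring
  rw [h2]
  refine (norm_add_le _ _).trans ?_
  rw [norm_mul, Complex.norm_real, Real.norm_of_nonneg hk.le]
  have h3 := mul_le_mul_of_nonneg_left h1 hk.le
  have h4 := H.Rs n hn
  have h5 := hS.disp
  linarith

theorem half_e {S Q : ℂ} (h : log S = 2 * log Q) : (e : ℂ) / 2 * log S = (e : ℂ) * log Q := by
  rw [h]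
  ring

theorem mid_YF (he : 0 < e) (hκ : 0 < κ) (H : NearF t ht e κ θ A x0 B1 ve L δ Y R) {n : ℕ}
    (hn : n + 1 < L) {p Q y : ℂ} (hQ : Real.cosh κ < Q.re) (hw : om κ Q ∈ WN κ R Y n)
    (hy : y = (e : ℂ) * (1 - (Q ^ 2)⁻¹)) :
    YF e κ θ (WN κ R Y (n + 1)) (((t.lamT ht e κ).toN e κ).l n p y)
      (((t.lamT ht e κ).toN e κ).r n p y) (((t.lamT ht e κ).toN e κ).M n p y)
      (fun x => Sn e κ y (((t.lamT ht e κ).toN e κ).l n p y)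
        (((t.lamT ht e κ).toN e κ).r n p y * x))
      (((t.lamT ht e κ).toN e κ).l (n + 1) p) (((t.lamT ht e κ).toN e κ).r (n + 1) p) := by
  have hQ0 : 0 < Q.re := (Real.cosh_pos κ).trans hQ
  obtain ⟨e1, e2, e3⟩ := (t.lamT ht e κ).eval (κ := κ) (n := n) (p := p) he hQ0 hy
  rw [e1, e2, e3]
  have hyT : y = Tb.yT e κ (Q - (Real.cosh κ : ℂ)) := by rw [hy, y_T hQ0]
  obtain ⟨h1, h2⟩ := of_WN hκ hQ hw
  have h0 := sum_ne hκ hQ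
  obtain ⟨T, hT⟩ : ∃ T, T = Q - (Real.cosh κ : ℂ) := ⟨_, rfl⟩
  rw [← hT] at h0 h1 h2 hyT ⊢
  have hM := H.mid n hn T h0 h1 h2
  show YF e κ θ (WN κ R Y (n + 1)) (t.lT e κ T) (t.rT e κ n T) (t.MT e κ n T)
    (fun x => Sn e κ y (t.lT e κ T) (t.rT e κ n T * x)) _ _
  rw [hyT]
  refine ⟨?_, ?_, ?_, ?_⟩
  · intro x hx
    obtain ⟨T', hS, -⟩ := hM.st x hx
    exact (step_of hκ hM.nd hS rfl).1
  · intro x hx
    obtain ⟨T', hS, -⟩ := hM.st x hx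
    exact (step_of hκ hM.nd hS rfl).2.2.1
  · intro x hx
    obtain ⟨T', hS, -⟩ := hM.st x hx
    rw [(step_of hκ hM.nd hS rfl).2.2.2.1]
    exact mem_WN hκ hS.ne (next_W hκ H (by omega) h1 hS) hS.cut
  · intro x x' hx hx'
    obtain ⟨T', hS, hc⟩ := hM.st x hx
    obtain ⟨S, hSd⟩ : ∃ S, S = Sn e κ (Tb.yT e κ T) (t.lT e κ T) (t.rT e κ n T * x) := ⟨_, rfl⟩
    obtain ⟨g1, g2, -, -, g5⟩ := step_of hκ hM.nd hS hSd
    show ‖x - t.MT e κ n T * (x - (1 - exp (CL (t.lT e κ T) - (e : ℂ) / 2 *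
      log (Sn e κ (Tb.yT e κ T) (t.lT e κ T) (t.rT e κ n T * x)) +
      lF (((t.lamT ht e κ).toN e κ).l (n + 1) p
        ((e : ℂ) * (1 - (Sn e κ (Tb.yT e κ T) (t.lT e κ T) (t.rT e κ n T * x))⁻¹)))
      (((t.lamT ht e κ).toN e κ).r (n + 1) p
        ((e : ℂ) * (1 - (Sn e κ (Tb.yT e κ T) (t.lT e κ T) (t.rT e κ n T * x))⁻¹)) * x'))) /
        t.rT e κ n T)‖ < θ
    rw [← hSd]
    obtain ⟨q1, q2, -⟩ := (t.lamT ht e κ).eval_S (κ := κ) (n := n + 1) (p := p) he g1.S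
    rw [q1, q2, g2, add_sub_cancel_left, half_e g5]
    exact (hc x' hx' (F_of H hn hS.ne (next_W hκ H (by omega) h1 hS) hS.cut hx')).2

theorem last_YL (he : 0 < e) (hκ : 0 < κ) (H : NearF t ht e κ θ A x0 B1 ve L δ Y R)
    {p Q y : ℂ} (hQ : Real.cosh κ < Q.re) (hw : om κ Q ∈ WN κ R Y (L - 1))
    (hy : y = (e : ℂ) * (1 - (Q ^ 2)⁻¹)) :
    YL' e κ θ A x0 B1 (WN κ R Y L) (((t.lamT ht e κ).toN e κ).l (L - 1) p y)
      (((t.lamT ht e κ).toN e κ).r (L - 1) p y) (((t.lamT ht e κ).toN e κ).M (L - 1) p y)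
      (fun x => Sn e κ y (((t.lamT ht e κ).toN e κ).l (L - 1) p y)
        (((t.lamT ht e κ).toN e κ).r (L - 1) p y * x)) := by
  have hL := H.Lpos
  obtain ⟨n, hn⟩ : ∃ n, n + 1 = L := ⟨L - 1, by omega⟩
  have hn1 : L - 1 = n := by omega
  have hlast := H.last
  rw [hn1] at hw hlast ⊢
  have hQ0 : 0 < Q.re := (Real.cosh_pos κ).trans hQ
  obtain ⟨e1, e2, e3⟩ := (t.lamT ht e κ).eval (κ := κ) (n := n) (p := p) he hQ0 hy
  rw [e1, e2, e3]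
  have hyT : y = Tb.yT e κ (Q - (Real.cosh κ : ℂ)) := by rw [hy, y_T hQ0]
  obtain ⟨h1, h2⟩ := of_WN hκ hQ hw
  have h0 := sum_ne hκ hQ
  obtain ⟨T, hT⟩ : ∃ T, T = Q - (Real.cosh κ : ℂ) := ⟨_, rfl⟩
  rw [← hT] at h0 h1 h2 hyT ⊢
  have hM := hlast T h0 h1 h2
  rw [← hn] at hM ⊢
  show YL' e κ θ A x0 B1 (WN κ R Y (n + 1)) (t.lT e κ T) (t.rT e κ n T) (t.MT e κ n T)
    (fun x => Sn e κ y (t.lT e κ T) (t.rT e κ n T * x))
  rw [hyT]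
  refine ⟨?_, ?_, ?_, ?_⟩
  · intro x hx
    obtain ⟨T', hS, -⟩ := hM.st x hx
    exact (step_of hκ hM.nd hS rfl).1
  · intro x hx
    obtain ⟨T', hS, -⟩ := hM.st x hx
    exact (step_of hκ hM.nd hS rfl).2.2.1
  · intro x hx
    obtain ⟨T', hS, -⟩ := hM.st x hx
    rw [(step_of hκ hM.nd hS rfl).2.2.2.1]
    exact mem_WN hκ hS.ne (next_W hκ H (by omega) h1 hS) hS.cut
  · intro x hx Q' Q1 Q2 q2 q3 hQ' hQ1 hQ2 hq2 hq3
    obtain ⟨T', hS, hc⟩ := hM.st x hx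
    obtain ⟨-, g2, -, -, g5⟩ := step_of hκ hM.nd hS rfl
    have hQ'' : Q' = (Real.cosh κ : ℂ) + T' := by rw [hQ']; exact g2
    obtain ⟨c1, c2, c3⟩ := hc Q' Q1 Q2 q2 q3 hQ'' hQ1 hQ2 hq2 hq3
    refine ⟨c1, c2, fun f2 χ hf hχ => ?_⟩
    have := c3 f2 χ hf hχ
    show ‖x - t.MT e κ n T * (x - (1 - exp (t.lT e κ T + lc (t.lT e κ T) - (e : ℂ) / 2 *
      log (Sn e κ (Tb.yT e κ T) (t.lT e κ T) (t.rT e κ n T * x))) *
        (1 - q2 * f2 * (1 - χ))) / t.rT e κ n T)‖ < θ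
    rw [half_e g5, ← hQ'']
    exact this

theorem zero_YF (he : 0 < e) (hκ : 0 < κ) (H : NearF t ht e κ θ A x0 B1 ve L δ Y R) {p : ℂ}
    (hp : ‖om0 κ p‖ = 1)
    (hZ : ZeroP t e κ θ (δ 0) (Y 0) p (((t.lamT ht e κ).toN e κ).l0 p)
      (((t.lamT ht e κ).toN e κ).r0 p) (((t.lamT ht e κ).toN e κ).M0 p)) :
    YF e κ θ (WN κ R Y 0) (((t.lamT ht e κ).toN e κ).l0 p)
      (((t.lamT ht e κ).toN e κ).r0 p) (((t.lamT ht e κ).toN e κ).M0 p)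
      (fun x => S0 e κ (tanh (κ * p)) (((t.lamT ht e κ).toN e κ).l0 p)
        (((t.lamT ht e κ).toN e κ).r0 p * x))
      (((t.lamT ht e κ).toN e κ).l 0 p) (((t.lamT ht e κ).toN e κ).r 0 p) := by
  obtain ⟨l0, hl0⟩ : ∃ l0, l0 = ((t.lamT ht e κ).toN e κ).l0 p := ⟨_, rfl⟩
  obtain ⟨r0, hr0⟩ : ∃ r0, r0 = ((t.lamT ht e κ).toN e κ).r0 p := ⟨_, rfl⟩
  obtain ⟨M0, hM0⟩ : ∃ M0, M0 = ((t.lamT ht e κ).toN e κ).M0 p := ⟨_, rfl⟩
  rw [← hl0, ← hr0, ← hM0] at hZ ⊢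
  have key : ∀ x : ℂ, ‖x‖ ≤ 1 → ∃ T' S : ℂ, S = S0 e κ (tanh (κ * p)) l0 (r0 * x) ∧
      NC l0 r0 M0 S x ∧ S ^ ((1 / 2 : ℝ) : ℂ) = (Real.cosh κ : ℂ) + T' ∧
      S ^ ((1 / 2 : ℝ) : ℂ) ≠ (Real.exp (-κ) : ℂ) ∧
      om κ (S ^ ((1 / 2 : ℝ) : ℂ)) = omT κ T' ∧
      log S = 2 * log ((Real.cosh κ : ℂ) + T') ∧ T' + (Real.sinh κ : ℂ) ≠ 0 ∧
      ‖omT κ T'‖ ≤ R 0 ∧ ‖T' ^ 2 - (Real.sinh κ : ℂ) ^ 2‖ ≤ Real.sinh κ ^ 2 + Y 0 ∧
      ∀ x' : ℂ, ‖x'‖ ≤ 1 → 0 < (1 + exp (-(t.lT e κ T')) * (t.rT e κ 0 T' * x')).re →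
      0 < (1 + exp (-(t.lT e κ T'))).re ∧
      ‖x - M0 * (x - (1 - exp (CL l0 - (e : ℂ) * log ((Real.cosh κ : ℂ) + T') +
        lF (t.lT e κ T') (t.rT e κ 0 T' * x'))) / r0)‖ < θ := by
    intro x hx
    obtain ⟨T', hF, hg, -, -, hS, hre, hne, hd, hcut, hcl⟩ := hZ.st x hx
    obtain ⟨g1, g2, g3⟩ := sq_root hre
    rw [← hS] at g1 g2 g3
    refine ⟨T', _, rfl, ⟨hZ.r, hZ.M, ⟨hZ.E, hF, hg⟩, g1⟩, g2, ?_, ?_, g3, hne, ?_, hcut, hcl⟩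
    · rw [g2, exp_neg_eq]
      intro h
      apply hne
      linear_combination h
    · rw [g2, om_add]
    · have hk := kk_pos κ
      have h2 : omT κ T' = (omT κ T' - (kk κ : ℂ) * om0 κ p) + (kk κ : ℂ) * om0 κ p := by ring
      rw [h2]
      refine (norm_add_le _ _).trans ?_
      rw [norm_mul, Complex.norm_real, Real.norm_of_nonneg hk.le, hp, mul_one]
      have h4 := H.Rz
      linarith
  refine ⟨?_, ?_, ?_, ?_⟩
  · intro x hx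
    obtain ⟨T', S, hS, k1, -⟩ := key x hx
    rw [hS] at k1
    exact k1
  · intro x hx
    obtain ⟨T', S, hS, -, -, k1, -⟩ := key x hx
    rw [hS] at k1
    exact k1
  · intro x hx
    obtain ⟨T', S, hS, -, -, -, k4, -, k6, k7, k8, -⟩ := key x hx
    rw [hS] at k4
    show om κ (S0 e κ (tanh (κ * p)) l0 (r0 * x) ^ ((1 / 2 : ℝ) : ℂ)) ∈ _
    rw [k4]
    exact mem_WN hκ k6 k7 k8
  · intro x x' hx hx'
    obtain ⟨T', S, hS, k1, k2, -, -, k5, k6, k7, k8, k9⟩ := key x hx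
    show ‖x - M0 * (x - (1 - exp (CL l0 - (e : ℂ) / 2 *
      log (S0 e κ (tanh (κ * p)) l0 (r0 * x)) +
      lF (((t.lamT ht e κ).toN e κ).l 0 p
        ((e : ℂ) * (1 - (S0 e κ (tanh (κ * p)) l0 (r0 * x))⁻¹)))
      (((t.lamT ht e κ).toN e κ).r 0 p
        ((e : ℂ) * (1 - (S0 e κ (tanh (κ * p)) l0 (r0 * x))⁻¹)) * x'))) / r0)‖ < θ
    rw [← hS]
    obtain ⟨q1, q2, -⟩ := (t.lamT ht e κ).eval_S (κ := κ) (n := 0) (p := p) he k1.S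
    rw [q1, q2, k2, add_sub_cancel_left, half_e k5]
    exact (k9 x' hx' (F_of H H.Lpos k6 k7 k8 hx')).2

/-- at the real start the ratio of the first edge is less than one -/
theorem rho_lt (he : 0 < e) (hκ : 0 < κ) {l0 r0 : ℂ} (hl : conj l0 = l0) (hr : conj r0 = r0)
    (h : ∀ x : ℂ, ‖x‖ ≤ 1 → 0 < (1 + exp (-l0) * (r0 * x)).re ∧
      1 - (Hh κ : ℂ) ^ 2 * exp (-(2 * ((LA e κ : ℂ) + lF l0 (r0 * x))) / e) ∈ slitPlane)
    (x : ℂ) (hx : ‖x‖ ≤ 1) :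
    Hh κ * Real.exp (-(LA e κ + (lF l0 (r0 * x)).re) / e) < 1 := by
  obtain ⟨a, ha⟩ := Complex.conj_eq_iff_real.1 hl
  obtain ⟨b, hb⟩ := Complex.conj_eq_iff_real.1 hr
  have hH : 0 < Hh κ := by
    unfold Hh
    have := Real.sinh_pos_iff.2 (show 0 < κ / 2 by linarith)
    linarith
  obtain ⟨s, hs1, hs2⟩ : ∃ s : ℝ, |s| = ‖x‖ ∧ b * s = -(|b| * ‖x‖) := by
    rcases le_total 0 b with h0 | h0
    · refine ⟨-‖x‖, ?_, ?_⟩
      · rw [abs_neg, abs_norm]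
      · rw [abs_of_nonneg h0]; ring
    · refine ⟨‖x‖, ?_, ?_⟩
      · rw [abs_norm]
      · rw [abs_of_nonpos h0]; ring
  obtain ⟨f1, f2⟩ := h (s : ℂ) (by rw [Complex.norm_real, Real.norm_eq_abs, hs1]; exact hx)
  obtain ⟨u, hu⟩ : ∃ u : ℝ, u = 1 + Real.exp (-a) * (b * s) := ⟨_, rfl⟩
  have hE : exp (-l0) = (Real.exp (-a) : ℂ) := by rw [ha]; push_cast; rfl
  have e1 : 1 + exp (-l0) * (r0 * (s : ℂ)) = (u : ℂ) := by
    rw [hE, hb, hu]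
    push_cast
    ring
  rw [e1, Complex.ofReal_re] at f1
  have hlc : lc l0 = (Real.log (1 + Real.exp (-a)) : ℂ) := by
    unfold lc
    rw [hE, Complex.ofReal_log (by positivity)]
    push_cast
    rfl
  have hf : lF l0 (r0 * (s : ℂ)) = ((Real.log u - Real.log (1 + Real.exp (-a)) : ℝ) : ℂ) := by
    unfold lF
    rw [e1, hlc, ← Complex.ofReal_log f1.le]
    push_cast
    rfl
  have hfx : (lF l0 (r0 * x)).re = Real.log ‖1 + exp (-l0) * (r0 * x)‖ -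
      Real.log (1 + Real.exp (-a)) := by
    unfold lF
    rw [hlc, Complex.sub_re, Complex.log_re, Complex.ofReal_re]
  have hnx : u ≤ ‖1 + exp (-l0) * (r0 * x)‖ := by
    have h1 : ‖exp (-l0) * (r0 * x)‖ = Real.exp (-a) * (|b| * ‖x‖) := by
      rw [hE, hb, norm_mul, norm_mul, Complex.norm_real, Complex.norm_real,
        Real.norm_of_nonneg (Real.exp_pos _).le, Real.norm_eq_abs]
    have h2 := norm_sub_le (1 + exp (-l0) * (r0 * x)) (exp (-l0) * (r0 * x))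
    rw [add_sub_cancel_right, norm_one, h1] at h2
    rw [hu, hs2]
    linarith
  obtain ⟨f, hfd⟩ : ∃ f : ℝ, f = Real.log u - Real.log (1 + Real.exp (-a)) := ⟨_, rfl⟩
  rw [← hfd] at hf
  have hle : f ≤ (lF l0 (r0 * x)).re := by
    rw [hfx, hfd]
    have := Real.log_le_log f1 hnx
    linarith
  rw [hf] at f2
  have e2 : 1 - (Hh κ : ℂ) ^ 2 * exp (-(2 * ((LA e κ : ℂ) + (f : ℂ))) / e) =
      ((1 - (Hh κ * Real.exp (-(LA e κ + f) / e)) ^ 2 : ℝ) : ℂ) := by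
    have h3 : Real.exp (-(LA e κ + f) / e) ^ 2 = Real.exp (-(2 * (LA e κ + f)) / e) := by
      rw [sq, ← Real.exp_add]
      congr 1
      ring
    rw [mul_pow, h3]
    push_cast
    rfl
  rw [e2, Complex.ofReal_mem_slitPlane] at f2
  have h5 : Hh κ * Real.exp (-(LA e κ + f) / e) < 1 := by
    have h6 : 0 ≤ Hh κ * Real.exp (-(LA e κ + f) / e) := by positivity
    by_contra h7
    rw [not_lt] at h7
    have := one_le_pow₀ h7 (n := 2)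
    linarith
  refine lt_of_le_of_lt ?_ h5
  apply mul_le_mul_of_nonneg_left _ hH.le
  apply Real.exp_le_exp.2
  apply div_le_div_of_nonneg_right _ he.le
  linarith

end Glue

open Glue

variable {e κ θ A x0 B1 ve : ℝ} {t : Tb} {ht : t.IsReal} {L : ℕ} {δ Y R : ℕ → ℝ}

/-- **The result for one pair `(e, κ)` from the facts of the near field.** -/
theorem rdataF_of_near (he : 0 < e) (hκ : 0 < κ) (hθ0 : 0 ≤ θ) (hθ1 : θ < 1) (d : FarN e κ θ)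
    (hA : 0 ≤ A) (hx0 : 0 ≤ x0) (hB1 : B1 < x0 + 2)
    (hX : ∀ τ, ‖d.X 0 τ‖ ≤ ‖Xr κ (2 * A * Real.sinh κ ^ 2) (Real.exp (-(2 * κ * (x0 + 1)))) τ‖)
    (hΩ : ∀ Q : ℂ, Real.cosh κ < Q.re → ‖om κ Q‖ ≤ R L →
      ‖(Q - (Real.cosh κ : ℂ)) ^ 2 - (Real.sinh κ : ℂ) ^ 2‖ ≤ Real.sinh κ ^ 2 + Y L →
      tQ κ Q ∈ d.Ω 0)
    (H : NearF t ht e κ θ A x0 B1 ve L δ Y R) : Nonempty (RDataF e κ) := by
  have hs := Real.sinh_pos_iff.2 (show 0 < κ / 2 by linarith)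
  have hg : 0 < Tb.gR e := Tb.gR_pos e
  obtain ⟨c, hc⟩ : ∃ c, c = 1 / e * Tb.gR e * (1 + 3 / 2 * Real.sinh (κ / 2) ^ 2) := ⟨_, rfl⟩
  have hc0 : 0 < c := by rw [hc]; positivity
  have hve := H.vpos
  obtain ⟨η1, hη1⟩ : ∃ η1, η1 = Real.arctan (ve * c / Real.sinh (κ / 2)) / κ := ⟨_, rfl⟩
  have hκη : κ * η1 = Real.arctan (ve * c / Real.sinh (κ / 2)) := by
    rw [hη1]
    field_simp
  have hη0 : 0 < η1 := by
    rw [hη1]
    have : 0 < Real.arctan (ve * c / Real.sinh (κ / 2)) := Real.arctan_pos.2 (by positivity)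
    positivity
  have hlt : κ * η1 < Real.pi / 2 := by
    rw [hκη]
    exact Real.arctan_lt_pi_div_two _
  have hv1 : Tab.vv e κ (Tb.gR e) η1 = ve := by
    unfold Tab.vv
    rw [hκη, Real.tan_arctan, ← hc]
    field_simp
  have hstrip : ∀ y : ℝ, 0 ≤ y → y ≤ η1 → |κ * y| < Real.pi / 2 := by
    intro y h0 h1
    rw [abs_of_nonneg (by positivity)]
    have := mul_le_mul_of_nonneg_left h1 hκ.le
    linarith
  have hvle : ∀ y : ℝ, 0 ≤ y → y ≤ η1 → Tab.vv e κ (Tb.gR e) y ≤ ve := by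
    intro y h0 h1
    rw [← hv1]
    unfold Tab.vv
    rw [← hc]
    apply div_le_div_of_nonneg_right _ hc0.le
    apply mul_le_mul_of_nonneg_left _ hs.le
    have h2 := mul_le_mul_of_nonneg_left h1 hκ.le
    have h3 : 0 ≤ κ * y := by positivity
    have hpi := Real.pi_pos
    rcases eq_or_lt_of_le h2 with h4 | h4
    · rw [h4]
    · exact (Real.tan_lt_tan_of_lt_of_lt_pi_div_two (by linarith) hlt h4).le
  have hZ : ∀ y : ℝ, 0 ≤ y → y ≤ η1 → ZeroP t e κ θ (δ 0) (Y 0) ((y : ℂ) * I)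
      (((t.lamT ht e κ).toN e κ).l0 ((y : ℂ) * I)) (((t.lamT ht e κ).toN e κ).r0 ((y : ℂ) * I))
      (((t.lamT ht e κ).toN e κ).M0 ((y : ℂ) * I)) :=
    fun y h0 h1 => H.zero y h0 (hstrip y h0 h1) (hvle y h0 h1)
  have hnode : ∀ n, n < L → ∀ Q : ℂ, Real.cosh κ < Q.re → om κ Q ∈ WN κ R Y n →
      NodeP t e κ n (Q - (Real.cosh κ : ℂ)) := by
    intro n hn Q hQ hw
    obtain ⟨h1, h2⟩ := of_WN hκ hQ hw
    exact node_of H hn (sum_ne hκ hQ) h1 h2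
  refine rdataF_of_nodes he hκ hθ0 hθ1 d ((t.lamT ht e κ).toN e κ) H.Lpos hη0
    (fun _ => BW e κ (WN κ R Y)) ?_ ?_ ?_
  · intro y hy0 hy1
    have hz := hZ y hy0 hy1
    refine nodesOK_of_W (W := WN κ R Y) he hκ H.Lpos hA hx0 hB1 hX hz.dom (hstrip y hy0 hy1) ?_ ?_
      (zero_YF he hκ H (norm_om0 κ y) hz) ?_ ?_ ?_ ?_ ?_ ?_
    · intro x hx
      obtain ⟨T', -, -, h3, -⟩ := hz.st x hx
      exact h3
    · intro x hx
      obtain ⟨T', -, -, -, h4, -⟩ := hz.st x hx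
      exact h4
    · intro n hn w hw
      exact lt_of_le_of_lt hw.1 (H.R1 n hn)
    · intro w hw
      exact lt_of_le_of_lt hw.1 H.ent
    · intro Q hQ hw
      exact hΩ Q hQ hw.1 (of_WN hκ hQ hw).2
    · intro n hn Q hQ hw
      have hN := hnode n hn Q hQ hw
      have hQ0 : 0 < Q.re := (Real.cosh_pos κ).trans hQ
      exact (t.lamT ht e κ).mem_DY he hQ0 rfl ⟨ne0_of_re hN.Q, hN.den, hN.pol⟩
    · intro n hn Q hQ hw y' hy'
      exact mid_YF he hκ H hn hQ hw hy'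
    · intro Q hQ hw y' hy'
      exact last_YL he hκ H hQ hw hy'
  · intro x hx
    have hz := hZ 0 le_rfl hη0.le
    have e0 : ((0 : ℝ) : ℂ) * I = 0 := by simp
    rw [e0] at hz
    refine rho_lt he hκ ?_ ?_ ?_ x hx
    · have := ((t.lamT ht e κ).toN e κ).l0_conj 0 hz.dom
      rw [map_zero] at this
      exact this.symm
    · have := ((t.lamT ht e κ).toN e κ).r0_conj 0 hz.dom
      rw [map_zero] at this
      exact this.symm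
    · intro x' hx'
      obtain ⟨T', h1, -, h3, -⟩ := hz.st x' hx'
      refine ⟨h1, ?_⟩
      rw [mul_zero, Complex.tanh_zero] at h3
      have e3 : (1 : ℂ) - 0 ^ 2 = 1 := by norm_num
      rw [e3, mul_one] at h3
      exact h3
  · intro x hx
    have := H.test η1 hη0 (hstrip η1 hη0.le le_rfl) hv1 x (hx.le.trans hθ1.le)
    exact this.ne

end Pool.Agent.helper63.NF
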