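import Pool.Agent.helper63.NF.Piece
import Pool.Agent.helper63.NF.Glue

/-!
# The record of a point from the certificates and far field data
-/

namespace Pool.Agent.helper63.NF

open Complex ComplexConjugate Set Filter Topology
open Pool.Agent.helper31.EQ.Y Pool.Agent.helper31.EQ.R
open Pool.Agent.helper12.RP Pool.Agent.helper12.FF Pool.Agent.helper12.RS

variable {t : TD} {N0 : ℕ} {be bb bA bB bC bD bv : ℕ × ℕ} {e κ s' θ : ℝ}

theorem NodeP_mono {t : Tb} {e κ θ θ' δ Y : ℝ} {n : ℕ} {T : ℂ} (h : MidP t e κ θ δ Y n T)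
    (hθ : θ ≤ θ') : MidP t e κ θ' δ Y n T :=
  ⟨h.nd, fun x hx => by
    obtain ⟨T', h1, h2⟩ := h.st x hx
    exact ⟨T', h1, fun x' hx' hF => ⟨(h2 x' hx' hF).1, (h2 x' hx' hF).2.trans_le hθ⟩⟩⟩

theorem LastP_mono {t : Tb} {e κ θ θ' δ Y A x0 B1 : ℝ} {n : ℕ} {T : ℂ}
    (h : LastP t e κ θ δ Y A x0 B1 n T) (hθ : θ ≤ θ') : LastP t e κ θ' δ Y A x0 B1 n T :=
  ⟨h.nd, fun x hx => by
    obtain ⟨T', h1, h2⟩ := h.st x hx
    refine ⟨T', h1, fun Q' Q1 Q2 q2 q3 e1 e2 e3 e4 e5 => ?_⟩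
    obtain ⟨a1, a2, a3⟩ := h2 Q' Q1 Q2 q2 q3 e1 e2 e3 e4 e5
    exact ⟨a1, a2, fun f2 χ g1 g2 => (a3 f2 χ g1 g2).trans_le hθ⟩⟩

theorem ZeroP_mono {t : Tb} {e κ θ θ' δ Y : ℝ} {p l0 r0 M0 : ℂ}
    (h : ZeroP t e κ θ δ Y p l0 r0 M0) (hθ : θ ≤ θ') : ZeroP t e κ θ' δ Y p l0 r0 M0 :=
  ⟨h.dom, h.r, h.M, h.E, fun x hx => by
    obtain ⟨T', a1, a2, a3, a4, a5, a6, a7, a8, a9, a10⟩ := h.st x hx
    exact ⟨T', a1, a2, a3, a4, a5, a6, a7, a8, a9, fun x' hx' hF =>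
      ⟨(a10 x' hx' hF).1, (a10 x' hx' hF).2.trans_le hθ⟩⟩⟩

theorem NearF.mono {t : Tb} {ht : t.IsReal} {e κ θ θ' A x0 B1 ve : ℝ} {L : ℕ} {δ Y R : ℕ → ℝ}
    (h : NearF t ht e κ θ A x0 B1 ve L δ Y R) (hθ : θ ≤ θ') :
    NearF t ht e κ θ' A x0 B1 ve L δ Y R :=
  { Lpos := h.Lpos
    vpos := h.vpos
    Rz := h.Rz
    Rs := h.Rs
    R1 := h.R1
    ent := h.ent
    zero := fun η h0 h1 h2 => ZeroP_mono (h.zero η h0 h1 h2) hθ
    mid := fun n hn T hT h1 h2 => NodeP_mono (h.mid n hn T hT h1 h2) hθ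
    last := fun T hT h1 h2 => LastP_mono (h.last T hT h1 h2) hθ
    test := h.test }

/-- far field data with a larger bound -/
noncomputable def farMono {θ' : ℝ} (d : FarN e κ θ) (h : θ ≤ θ') : FarN e κ θ' :=
  { d with
    close := fun n τ hτ χ χ' h1 h2 => (d.close n τ hτ χ χ' h1 h2).trans
      (mul_le_mul_of_nonneg_right h (norm_nonneg _)) }

theorem Xr_mono {B B' R R' : ℝ} (hB : 0 ≤ B) (hBB : B ≤ B') (hR : 0 ≤ R) (hRR : R ≤ R')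
    (hR1 : R' < 1) (τ : ℂ) : ‖Xr κ B R τ‖ ≤ ‖Xr κ B' R' τ‖ := by
  unfold Xr
  have h1 : 0 < 1 - R' := by linarith
  have h2 : 0 < 1 - R := by linarith
  have h3 : 0 ≤ B' := hB.trans hBB
  have h4 : 0 ≤ R' := hR.trans hRR
  rw [norm_mul, norm_mul, Complex.norm_real, Complex.norm_real, Real.norm_of_nonneg (by positivity),
    Real.norm_of_nonneg (by positivity)]
  apply mul_le_mul_of_nonneg_right _ (norm_nonneg _)
  exact div_le_div₀ (by positivity) (mul_le_mul hBB hRR hR h3) h1 (by linarith)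

/-- the distance of the position in terms of `om` -/
theorem tQ_om (hκ : 0 < κ) {Q : ℂ} (h : Real.cosh κ < Q.re) :
    ‖tQ κ Q - 1‖ = ‖om κ Q‖ * ‖tQ κ Q + 1‖ := by
  have hs : (Real.sinh κ : ℂ) ≠ 0 := by exact_mod_cast (Real.sinh_pos_iff.2 hκ).ne'
  have h1 : Real.exp (-κ) ≤ Real.cosh κ := by
    have := Real.sinh_pos_iff.2 hκ
    have := Real.cosh_sub_sinh κ
    linarith
  have h2 : Q - (Real.exp (-κ) : ℂ) ≠ 0 := by
    intro h0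
    have := congrArg Complex.re h0
    rw [Complex.sub_re, Complex.ofReal_re, Complex.zero_re] at this
    linarith
  rw [tQ_sub hκ, tQ_add hκ, ← norm_mul]
  unfold om
  have e1 : ((Real.exp κ : ℂ) - Q) / (Q - (Real.exp (-κ) : ℂ)) *
      ((Q - (Real.exp (-κ) : ℂ)) / (Real.sinh κ : ℂ)) =
      -((Q - (Real.exp κ : ℂ)) / (Real.sinh κ : ℂ)) := by
    field_simp
    ring
  rw [e1, norm_neg]

/-- **The record of a point of a piece.** -/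
theorem rdataF_of_piece (hC : Certs t N0 be bb bA bB bC bD bv)
    (hk : PieceOk t N0 bA bB bC bD bv) (hP : Pt t N0 be bb e κ s')
    (hst : t.strip = true → κ ≤ 1 / 4 ∧ Corner t N0 e κ (1 / 8) (1 / 20))
    (hθ : θ < 1) (hA : 0 ≤ t.A e κ) (d : FarN e κ θ)
    (hX : ∀ τ, ‖d.X 0 τ‖ ≤ ‖Xr κ (2 * t.A e κ * Real.sinh κ ^ 2)
      (Real.exp (-(2 * κ * (t.x0 + 1)))) τ‖)
    (hΩ : ∀ Q : ℂ, Real.cosh κ < Q.re → ‖om κ Q‖ < Real.exp (-(2 * κ * (39 / 10))) →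
      ‖(Q - (Real.cosh κ : ℂ)) ^ 2 - (Real.sinh κ : ℂ) ^ 2‖ ≤ Real.sinh κ ^ 2 + t.Y (N0 - 1) e →
      tQ κ Q ∈ d.Ω 0) : Nonempty (RDataF e κ) := by
  have hF := nearF_of hC hk hP hst
  have hN := hk.N2
  refine rdataF_of_near (θ := max θ0 θ) hP.he hP.hκ (θ0_pos.le.trans (le_max_left _ _))
    (max_lt θ0_lt hθ) (farMono d (le_max_right _ _)) hA hk.x0 ?_ hX ?_ (hF.mono (le_max_left _ _))
  · exact hk.okl.b1
  · intro Q hQ h1 h2
    refine hΩ Q hQ ?_ h2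
    refine h1.trans_lt ?_
    show t.RR (N0 - 1 + 1) e κ < _
    rw [Nat.sub_add_cancel (by omega)]
    exact hP.sf.ent

end Pool.Agent.helper63.NF
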