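import Pool.Agent.helper63.NF.SpecCh
import Pool.Agent.helper12.RS.MidQP

/-!
# From the certificates to the state regions
-/

namespace Pool.Agent.helper63.NF

open Complex
open Pool.Agent.helper31.IA (Z get InBox)
open Pool.Agent.helper31.IX (Op Asserts CovD)
open Pool.Agent.helper12.RS
open Pool.Agent.helper63.RG

/-- a number in a box -/
def inB (b : ℕ × ℕ) (s : ℝ) : Prop := |s - (b.1 : ℝ) / 2 ^ 40| ≤ (b.2 : ℝ) / 2 ^ 40

theorem inB_of {b : ℕ × ℕ} {s : ℝ} (h : b.1 ≤ b.2) (h0 : 0 ≤ s)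
    (h1 : s ≤ ((b.1 + b.2 : ℕ) : ℝ) / 2 ^ 40) : inB b s := by
  have h2 : (b.1 : ℝ) ≤ b.2 := by exact_mod_cast h
  have h3 : (b.1 : ℝ) / 2 ^ 40 ≤ (b.2 : ℝ) / 2 ^ 40 := by
    apply div_le_div_of_nonneg_right h2 (by positivity)
  unfold inB
  rw [abs_le]
  push_cast at h1
  rw [add_div] at h1
  constructor
  · linarith
  · linarith

/-- checks of the boxes -/
def boxOk (t : TD) (bA bB bC bD : ℕ × ℕ) : Bool :=
  decide (bA.1 ≤ bA.2) && decide (bB.1 ≤ bB.2) && decide (0 < bA.1 + bA.2) &&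
  decide (2 ^ 80 ≤ (bA.1 + bA.2) * (bB.1 + bB.2)) &&
  decide (bD.1 ≤ bD.2) && decide (3141593 * 2 ^ 40 ≤ (bD.1 + bD.2) * 2000000) &&
  (!t.strip || (decide (bC.1 ≤ bC.2) && decide (2 ^ 40 ≤ bC.1 + bC.2) && decide (0 < t.s1) &&
    decide (0 < t.is1) && decide (2 ^ 80 ≤ t.is1 * t.s1)))

structure BoxOk (t : TD) (bA bB bC bD : ℕ × ℕ) : Prop where
  A : bA.1 ≤ bA.2
  B : bB.1 ≤ bB.2
  A0 : 0 < ((bA.1 + bA.2 : ℕ) : ℝ) / 2 ^ 40
  AB : 1 ≤ ((bA.1 + bA.2 : ℕ) : ℝ) / 2 ^ 40 * (((bB.1 + bB.2 : ℕ) : ℝ) / 2 ^ 40)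
  D : bD.1 ≤ bD.2
  Dpi : Real.pi / 2 ≤ ((bD.1 + bD.2 : ℕ) : ℝ) / 2 ^ 40
  C : t.strip = true → bC.1 ≤ bC.2 ∧ 1 ≤ ((bC.1 + bC.2 : ℕ) : ℝ) / 2 ^ 40 ∧ 0 < rv t.s1 ∧
    0 < rv t.is1 ∧ 1 ≤ rv t.is1 * rv t.s1

theorem boxOk_of {t : TD} {bA bB bC bD : ℕ × ℕ} (h : boxOk t bA bB bC bD = true) :
    BoxOk t bA bB bC bD := by
  unfold boxOk at h
  simp only [Bool.and_eq_true, decide_eq_true_eq, Bool.or_eq_true, Bool.not_eq_true'] at h
  obtain ⟨⟨⟨⟨⟨⟨a1, a2⟩, a3⟩, a4⟩, a5⟩, a6⟩, a7⟩ := h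
  refine ⟨a1, a2, ?_, ?_, a5, ?_, ?_⟩
  · have : (0 : ℝ) < ((bA.1 + bA.2 : ℕ) : ℝ) := by exact_mod_cast a3
    positivity
  · have : ((2 ^ 80 : ℕ) : ℝ) ≤ (((bA.1 + bA.2) * (bB.1 + bB.2) : ℕ) : ℝ) := by exact_mod_cast a4
    rw [Nat.cast_mul, Nat.cast_pow] at this
    rw [div_mul_div_comm, le_div_iff₀ (by positivity)]
    norm_num at this ⊢
    linarith
  · have h1 : (((3141593 * 2 ^ 40 : ℕ)) : ℝ) ≤ (((bD.1 + bD.2) * 2000000 : ℕ) : ℝ) := by
      exact_mod_cast a6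
    rw [Nat.cast_mul, Nat.cast_mul, Nat.cast_pow] at h1
    have h2 := Real.pi_lt_d6
    rw [le_div_iff₀ (by positivity)]
    norm_num at h1 ⊢
    nlinarith
  · intro hs
    rcases a7 with h | h
    · rw [hs] at h
      exact absurd h (by simp)
    · obtain ⟨⟨⟨⟨c1, c2⟩, c3⟩, c4⟩, c5⟩ := h
      have d3 : (0 : ℝ) < (t.s1 : ℝ) := by exact_mod_cast c3
      have d4 : (0 : ℝ) < (t.is1 : ℝ) := by exact_mod_cast c4
      have d5 : ((2 ^ 80 : ℤ) : ℝ) ≤ ((t.is1 * t.s1 : ℤ) : ℝ) := by exact_mod_cast c5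
      have d2 : ((2 ^ 40 : ℕ) : ℝ) ≤ ((bC.1 + bC.2 : ℕ) : ℝ) := by exact_mod_cast c2
      refine ⟨c1, ?_, ?_, ?_, ?_⟩
      · rw [le_div_iff₀ (by positivity)]
        rw [Nat.cast_pow] at d2
        norm_num at d2 ⊢
        linarith
      · unfold rv
        positivity
      · unfold rv
        positivity
      · unfold rv
        rw [div_mul_div_comm, le_div_iff₀ (by positivity)]
        push_cast at d5
        norm_num at d5 ⊢
        linarith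

/-- lower bound of the norm of the state -/
noncomputable def TD.lo (t : TD) (e : ℝ) : ℝ := bif t.strip then rv t.s1 / e else -1

/-- a point of a piece -/
structure Pt (t : TD) (N0 : ℕ) (be bb : ℕ × ℕ) (e κ s' : ℝ) : Prop where
  he : 0 < e
  hκ : 0 < κ
  be : inB be (1 / e)
  bb : inB bb s'
  bv : t.bv (1 / e) s' = e * κ / 2
  sf : SF t N0 e κ (39 / 10)

variable {t : TD} {N0 : ℕ} {be bb bA bB bC bD bv : ℕ × ℕ} {e κ s' : ℝ} {n : ℕ}

/-- use of a certificate at a point -/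
theorem cov_pt {L : List (List Op)} {b2 : ℕ × ℕ} (hP : Pt t N0 be bb e κ s')
    (hC : CovD 1 L [be, bb, b2]) {s : ℝ} (hs : inB b2 s) {x : ℂ} (hx : ‖x‖ ≤ 1) :
    ∃ ops ∈ L, Asserts ops [((1 / e : ℝ) : ℂ), (s' : ℂ), (s : ℂ), x] := by
  have := hC [1 / e, s', s] [x] (List.Forall₂.cons hP.be (List.Forall₂.cons hP.bb
    (List.Forall₂.cons hs .nil))) rfl (by
      intro z hz
      rw [List.mem_singleton] at hz
      rw [hz]
      exact hx)
  exact this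

/-- a chart gives the assertions of the node -/
theorem of_circ {P1 P2 : List St} {T : ℂ} {s : ℝ} {x : ℂ}
    (hc : ∀ Q : (ℕ → ℂ) → Prop, Sem P1 (reg4 ((1 / e : ℝ) : ℂ) (s' : ℂ) (s : ℂ) x) Q →
      ∃ τ, Q τ ∧ CF e κ x T τ)
    (h : Asserts (circ P1 P2) [((1 / e : ℝ) : ℂ), (s' : ℂ), (s : ℂ), x]) :
    Asserts (comp P2 ρ4 4) [((1 / e : ℝ) : ℂ), ((e * κ / 2 : ℝ) : ℂ), T, x] := by
  obtain ⟨τ, h1, hF⟩ := hc _ (circ_sound h)
  rw [hF.bf.ep, hF.bf.b, hF.T, hF.x] at h1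
  exact h1

/-- an alternative after a chart -/
theorem of_alt {P1 P2 : List St} {T : ℂ} {s : ℝ} {x : ℂ}
    (hc : ∀ Q : (ℕ → ℂ) → Prop, Sem P1 (reg4 ((1 / e : ℝ) : ℂ) (s' : ℂ) (s : ℂ) x) Q →
      ∃ τ, Q τ ∧ CF e κ x T τ)
    (h : Asserts (altP P1 P2) [((1 / e : ℝ) : ℂ), (s' : ℂ), (s : ℂ), x]) :
    ∃ τ, Sem P2 τ (fun _ => True) ∧ CF e κ x T τ :=
  hc _ (sem_append _ _ _ (comp4 h))

variable {T : ℂ} {x : ℂ}

/-- **The arcs.** -/
theorem arcs (hC : Certs t N0 be bb bA bB bC bD bv) (hb : BoxOk t bA bB bC bD)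
    (hP : Pt t N0 be bb e κ s') (h1 : 1 ≤ n) (h2 : n < N0)
    (hV : T ∈ VV (Real.sinh κ) (t.RR n e κ) (Real.sinh κ ^ 2 + t.Y (n - 1) e) (t.lo e))
    (hor : ‖(Real.sinh κ : ℂ) - T‖ = t.RR n e κ * ‖(Real.sinh κ : ℂ) + T‖ ∨
      ‖T ^ 2 - (Real.sinh κ : ℂ) ^ 2‖ = Real.sinh κ ^ 2 + t.Y (n - 1) e ∨ t.lo e = ‖T‖)
    (him : 0 ≤ T.im) (hx : ‖x‖ ≤ 1) :
    Asserts (comp (P2n t N0 n) ρ4 4) [((1 / e : ℝ) : ℂ), ((e * κ / 2 : ℝ) : ℂ), T, x] := by
  have he := hP.he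
  have hκ := hP.hκ
  have hK := Real.sinh_pos_iff.2 hκ
  have hR0 : 0 < t.RR n e κ := hP.sf.RR_pos hκ h2.le
  have hR1 : t.RR n e κ < 1 := by
    have := hP.sf.R1 (n - 1) (by omega)
    rwa [Nat.sub_add_cancel h1] at this
  have hB0 : 0 < Real.sinh κ ^ 2 + t.Y (n - 1) e := hP.sf.yp (n - 1) (by omega)
  obtain ⟨v1, v2, v3⟩ := hV
  have hre := re_pos_disc hK hR0.le hR1 v1
  have hε : 0 < 1 / e := by positivity
  rcases hor with hor | hor | hor
  · rcases circ_charts hK hR0 hR1 hε hb.A0 hb.AB hor him with ⟨s, s0, s1, hT⟩ | ⟨s, s0, s1, hT⟩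
    · have hc : ∀ Q : (ℕ → ℂ) → Prop, Sem (chA t n) (reg4 ((1 / e : ℝ) : ℂ) (s' : ℂ) (s : ℂ) x) Q →
          ∃ τ, Q τ ∧ CF e κ x T τ := fun Q h => chA_spec he hκ rfl rfl hP.bv rfl hT h
      obtain ⟨ops, ho, ha⟩ := cov_pt hP (hC.A n h1 h2) (inB_of hb.A s0 s1) hx
      rcases List.mem_cons.1 ho with rfl | ho
      · exact of_circ hc ha
      rcases List.mem_cons.1 ho with rfl | ho
      · obtain ⟨τ, h, hF⟩ := of_alt hc ha
        exact (outCut_false he hF v2 h).elim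
      · cases hs : t.strip with
        | false =>
          rw [hs, cond_false] at ho
          exact absurd ho (by simp)
        | true =>
          rw [hs, cond_true, List.mem_singleton] at ho
          subst ho
          obtain ⟨-, -, c3, c4, c5⟩ := hb.C hs
          obtain ⟨τ, h, hF⟩ := of_alt hc ha
          refine (outIn_false he hF c5 c4.le ?_ h).elim
          unfold TD.lo at v3
          rwa [hs, cond_true] at v3
    · have hc : ∀ Q : (ℕ → ℂ) → Prop, Sem (chB t n) (reg4 ((1 / e : ℝ) : ℂ) (s' : ℂ) (s : ℂ) x) Q →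
          ∃ τ, Q τ ∧ CF e κ x T τ := fun Q h => chB_spec he hκ rfl rfl hP.bv rfl hT h
      obtain ⟨ops, ho, ha⟩ := cov_pt hP (hC.B n h1 h2) (inB_of hb.B s0 s1) hx
      rcases List.mem_cons.1 ho with rfl | ho
      · exact of_circ hc ha
      rw [altsB, List.mem_singleton] at ho
      subst ho
      obtain ⟨τ, h, hF⟩ := of_alt hc ha
      exact (outCut_false he hF v2 h).elim
  · rcases outer_arc hB0 hor hre him with ⟨s, s0, s1, hT⟩ | ⟨s, s0, s1, hT⟩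
    · have hc : ∀ Q : (ℕ → ℂ) → Prop, Sem (chD t n) (reg4 ((1 / e : ℝ) : ℂ) (s' : ℂ) (s : ℂ) x) Q →
          ∃ τ, Q τ ∧ CF e κ x T τ := fun Q h => chD_spec he rfl rfl hP.bv rfl hre hT h
      obtain ⟨ops, ho, ha⟩ := cov_pt hP (hC.D n h1 h2) (inB_of hb.D s0 (s1.trans hb.Dpi)) hx
      rcases List.mem_cons.1 ho with rfl | ho
      · exact of_circ hc ha
      rw [altsD, List.mem_singleton] at ho
      subst ho
      obtain ⟨τ, h, hF⟩ := of_alt hc ha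
      exact (outDisc_false hκ hF hR0.le hR1 v1 h).elim
    · have hc : ∀ Q : (ℕ → ℂ) → Prop, Sem (chEF t n) (reg4 ((1 / e : ℝ) : ℂ) (s' : ℂ) (s : ℂ) x) Q →
          ∃ τ, Q τ ∧ CF e κ x T τ := fun Q h => chEF_spec he rfl rfl hP.bv rfl hre him hT h
      obtain ⟨ops, ho, ha⟩ := cov_pt hP (hC.E n h1 h2) (inB_of hb.D s0 (s1.trans hb.Dpi)) hx
      rcases List.mem_cons.1 ho with rfl | ho
      · exact of_circ hc ha
      rw [altsE] at ho
      rcases List.mem_cons.1 ho with rfl | ho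
      · obtain ⟨τ, h, hF⟩ := of_alt hc ha
        exact (outDisc_false hκ hF hR0.le hR1 v1 h).elim
      · rw [List.mem_singleton] at ho
        subst ho
        exact (altL_false he hκ hR0.le hR1 hP.bv v1 hT ha).elim
  · cases hs : t.strip with
    | false =>
      unfold TD.lo at hor
      rw [hs, cond_false] at hor
      have := norm_nonneg T
      linarith
    | true =>
      unfold TD.lo at hor
      rw [hs, cond_true] at hor
      obtain ⟨c1, c2, c3, c4, c5⟩ := hb.C hs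
      obtain ⟨s, s0, s1, hT⟩ := inner_arc (div_pos c3 he) hor.symm hre him
      have hc : ∀ Q : (ℕ → ℂ) → Prop, Sem (chC t) (reg4 ((1 / e : ℝ) : ℂ) (s' : ℂ) (s : ℂ) x) Q →
          ∃ τ, Q τ ∧ CF e κ x T τ := fun Q h => chC_spec he rfl rfl hP.bv rfl hT h
      obtain ⟨ops, ho, ha⟩ := cov_pt hP (hC.C hs n h1 h2) (inB_of c1 s0 (s1.trans c2)) hx
      rcases List.mem_cons.1 ho with rfl | ho
      · exact of_circ hc ha
      rw [altsC, List.mem_singleton] at ho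
      subst ho
      obtain ⟨τ, h, hF⟩ := of_alt hc ha
      exact (outDisc_false hκ hF hR0.le hR1 v1 h).elim

/-- checks of the programs of the near nodes -/
def grOk (t : TD) (N0 : ℕ) : Bool :=
  (List.range (N0 - 1)).all fun k => guard [] [] (comp (P2n t N0 (k + 1)) ρ4 4) &&
    realP (comp (P2n t N0 (k + 1)) ρ4 4)

theorem grOk_of (h : grOk t N0 = true) (h1 : 1 ≤ n) (h2 : n < N0) :
    guard [] [] (comp (P2n t N0 n) ρ4 4) = true ∧ realP (comp (P2n t N0 n) ρ4 4) = true := by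
  unfold grOk at h
  rw [List.all_eq_true] at h
  have := h (n - 1) (List.mem_range.2 (by omega))
  rw [Nat.sub_add_cancel h1, Bool.and_eq_true] at this
  exact this

/-- **The assertions of the near node `n` in its region.** -/
theorem near_all (hC : Certs t N0 be bb bA bB bC bD bv) (hb : BoxOk t bA bB bC bD)
    (hg : grOk t N0 = true) (hP : Pt t N0 be bb e κ s') (h1 : 1 ≤ n) (h2 : n < N0)
    (hV : T ∈ VV (Real.sinh κ) (t.RR n e κ) (Real.sinh κ ^ 2 + t.Y (n - 1) e) (t.lo e))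
    (hx : ‖x‖ ≤ 1) :
    Sem (P2n t N0 n) (reg4 ((1 / e : ℝ) : ℂ) ((e * κ / 2 : ℝ) : ℂ) T x) (fun _ => True) := by
  obtain ⟨g1, g2⟩ := grOk_of hg h1 h2
  have := region_VV (pre := [1 / e, e * κ / 2]) (nd := 1) g1 g2 (K := Real.sinh κ) (R := t.RR n e κ)
    (B := Real.sinh κ ^ 2 + t.Y (n - 1) e) (lo := t.lo e) (by
      intro z hz hor him post hp hp1
      match post, hp, hp1 with
      | [y], _, hp1 => exact arcs hC hb hP h1 h2 hz hor him (hp1 y (by simp))) T hV [x] rfl (by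
      intro z hz
      rw [List.mem_singleton] at hz
      rw [hz]
      exact hx)
  exact comp4 this

end Pool.Agent.helper63.NF
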