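import Pool.Agent.helper63.NF.SpecZero

/-!
# The program of the first node and the test
-/

namespace Pool.Agent.helper63.NF

open Complex
open Pool.Agent.helper31.IA (Z get)
open Pool.Agent.helper12.RS

/-- parts of the program of the first node -/
def p0a (t : TD) : List St :=
  [St.pos ((E.r 50).sub (E.sc two ((E.r 43).mul (E.r 45)))), St.set 56 ((E.r 45).mul (E.r 14)),
    St.set 57 ((E.r 23).add (E.r 56)), St.set 58 ((E.r 23).sub (E.r 57).inv), St.set 59 ((E.r 55).sub (E.r 58)),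
    St.set 60 (p2E t.L 0 (nth [] t.t 0)), St.set 61 (((E.r 56).add (E.r 15)).inv.mul ((E.r 11).mul (E.r 57))),
    St.set 62 ((E.r 61).mul (E.r 59))]

def p0b (t : TD) : List St :=
  bif t.strip then [St.set 67 (E.r 23)] else [St.set 67 ((E.r 15).mul (E.r 7).inv)]

def p0c : List St :=
  [St.lt
    (((E.sc two (E.r 67)).mul (E.r 62)).mul
      (((((E.r 61).mul ((E.r 62).add (E.r 22)).inv).mul (E.r 10)).mul (E.r 10)).mul (E.r 60).inv))
    TH]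

def p0d (t : TD) : List St :=
  [St.set 88 ((E.r 55).add (E.r 15)),
    St.set 93 (((((E.r 26).add (E.r 35)).sub (E.r 41)).sub (E.r 82)).sub ((E.r 52).mul (E.sc half (E.r 5)))).exp,
    St.set 94 (p3E t.L (E.r 25) (nth [] t.M 0)), St.set 95 ((E.r 30).inv.mul (E.r 31)),
    St.set 92 (((E.sc two (aE t 1)).mul (E.r 88)).mul ((E.sc (zi (nth 0 t.c 1)) (E.r 55)).add (E.r 0)).inv),
    St.rball 96 (E.c (zi 0)) (((((E.r 94).mul (E.r 93)).mul (E.r 80)).mul (E.r 92)).mul (E.r 95)),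
    St.lt
      ((((E.r 3).mul ((E.r 22).sub (E.r 94))).add ((E.r 94).mul (((E.r 22).sub (E.r 93)).mul (E.r 95)))).add (E.r 96))
      TH]

theorem P0_eq (t : TD) : P0 t = headH t (bE t) ++ (zeroS t ++ (zlinkS ++ (cutS t 0 55 ++
    (p0a t ++ (p0b t ++ (p0c ++ (nodeS t 55 72 ++ p0d t))))))) := by
  unfold P0 p0a p0b p0c p0d
  simp only [List.append_assoc]

theorem ZR.of_eq {t : TD} {e κ : ℝ} {p x l χ a W Y s sq : ℂ} {σ τ : ℕ → ℂ}
    (h : ZR t e κ p x l χ a W Y s sq σ) (h1 : ∀ i, 24 ≤ i → i < 52 → τ i = σ i) :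
    ZR t e κ p x l χ a W Y s sq τ := by
  refine ⟨?_, h.phd, ?_, ?_, ?_, h.dne, h.hχ, ?_, h.E, h.g, h.F, ?_, h.hs, h.hY, h.ha, h.hW, h.hsq,
    h.hsl, ?_, ?_, ?_, ?_, ?_, ?_, ?_, ?_, ?_, ?_⟩
  · rw [h1 25 (by omega) (by omega), h.f25]
  · rw [h1 26 (by omega) (by omega), h.f26]
  · rw [h1 30 (by omega) (by omega), h.f30]
  · rw [h1 31 (by omega) (by omega), h.f31]
  · rw [h1 35 (by omega) (by omega), h.f35]
  · rw [h1 39 (by omega) (by omega), h.f39]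
  · rw [h1 40 (by omega) (by omega), h.f40]
  · rw [h1 41 (by omega) (by omega), h.f41]
  · rw [h1 43 (by omega) (by omega), h.f43]
  · rw [h1 44 (by omega) (by omega), h.f44]
  · rw [h1 45 (by omega) (by omega), h.f45]
  · rw [h1 46 (by omega) (by omega), h.f46]
  · rw [h1 47 (by omega) (by omega), h.f47]
  · rw [h1 48 (by omega) (by omega), h.f48]
  · rw [h1 50 (by omega) (by omega), h.f50]
  · rw [h1 51 (by omega) (by omega), h.f51]

/-- the first link -/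
theorem zlink_spec {t : TD} {e κ : ℝ} {σ : ℕ → ℂ} {Q : (ℕ → ℂ) → Prop}
    {p x l χ a W Y s sq : ℂ} (hF : HF t e κ σ) (hz : ZR t e κ p x l χ a W Y s sq σ)
    (h : Sem zlinkS σ Q) : ∃ τ T1, Q τ ∧ (∀ i, i < 52 ∨ 56 ≤ i → τ i = σ i) ∧ τ 55 = T1 ∧
      τ 52 = log (S0 e κ (tanh (κ * p)) l χ) ∧
      S0 e κ (tanh (κ * p)) l χ = ((Real.cosh κ : ℂ) + T1) ^ 2 ∧
      (Real.cosh κ : ℂ) + T1 = exp (1 / 2 * log (S0 e κ (tanh (κ * p)) l χ)) := by
  have e22 := hF.one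
  have e23 := hF.c
  have g40 := hz.f40
  have g44 := hz.f44
  have g46 := hz.f46
  have g48 := hz.f48
  have g51 := hz.f51
  obtain ⟨S, hS⟩ : ∃ S, S = S0 e κ (tanh (κ * p)) l χ := ⟨_, rfl⟩
  have hS2 := S0_form (T := tanh (κ * p)) hz.hs hz.hY hz.ha hz.hW hz.hsq
  rw [← hS] at hS2 ⊢
  obtain ⟨o1, h⟩ := sem_set h (x := log S) (by
    show log (four.val * (σ 44 * (σ 48 * (σ 40 * σ 44 + two.val * σ 46) + σ 51)) + σ 22) = _
    rw [four_val, two_val, g44, g48, g40, g46, g51, e22, hS2])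
  have hsl : S ∈ slitPlane := by
    have o2 : four.val * (σ 44 * (σ 48 * (σ 40 * σ 44 + two.val * σ 46) + σ 51)) + σ 22 ∈ slitPlane :=
      o1.2
    rw [four_val, two_val, g44, g48, g40, g46, g51, e22] at o2
    rw [hS2]
    exact o2
  obtain ⟨-, h⟩ := sem_set h (x := 1 / 2 * log S) (by simp [E.ev, upd, half_val])
  obtain ⟨-, h⟩ := sem_set h (x := exp (1 / 2 * log S)) (by simp [E.ev, upd])
  obtain ⟨-, h⟩ := sem_set h (x := exp (1 / 2 * log S) - (Real.cosh κ : ℂ)) (by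
    simp only [E.ev, upd, Nat.reduceEqDiff, reduceIte]
    rw [e23])
  refine ⟨_, exp (1 / 2 * log S) - (Real.cosh κ : ℂ), h, ?_, upd_same _ _, ?_, ?_, ?_⟩
  · intro i hi
    repeat rw [upd_ne (by omega)]
  · simp [upd]
  · have h1 : exp (1 / 2 * log S) ^ 2 = S := by
      rw [← Complex.exp_nat_mul]
      have : ((2 : ℕ) : ℂ) * (1 / 2 * log S) = log S := by push_cast; ring
      rw [this, Complex.exp_log (slitPlane_ne_zero hsl)]
    rw [add_sub_cancel, h1]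
  · ring

theorem om0_eq {κ : ℝ} (hκ : 0 < κ) (p : ℂ) :
    om0 κ p = omT κ ((Real.sinh κ : ℂ) * tanh (κ * p)) := by
  have hs0 : (Real.sinh κ : ℂ) ≠ 0 := by exact_mod_cast (Real.sinh_pos_iff.2 hκ).ne'
  unfold om0 omT
  have e1 : (Real.sinh κ : ℂ) - (Real.sinh κ : ℂ) * tanh (κ * p) =
      (Real.sinh κ : ℂ) * (1 - tanh (κ * p)) := by ring
  have e2 : (Real.sinh κ : ℂ) + (Real.sinh κ : ℂ) * tanh (κ * p) =
      (Real.sinh κ : ℂ) * (1 + tanh (κ * p)) := by ring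
  rw [e1, e2, mul_div_mul_left _ _ hs0]

/-- what the program of the first node gives at one value of the unknown -/
structure ZP (t : TD) (e κ θ : ℝ) (p x T1 : ℂ) : Prop where
  phd : 1 + Tb.iv e κ p / 2 ≠ 0
  dne : 1 + t.tb.c0 * Tb.u0 e κ p ≠ 0
  r : t.R0 e κ p ≠ 0
  E : 0 < (1 + exp (-(t.L0 e κ p))).re
  F : 0 < (1 + exp (-(t.L0 e κ p)) * (t.R0 e κ p * x)).re
  g : 1 - t.R0 e κ p * x ∈ slitPlane
  w0 : 1 - (Hh κ : ℂ) ^ 2 * exp (-(2 * ((LA e κ : ℂ) + lF (t.L0 e κ p) (t.R0 e κ p * x))) / e) *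
        (1 - tanh (κ * p) ^ 2) ∈ slitPlane
  SH : Pool.Agent.helper12.RS.SH e κ (tanh (κ * p)) (t.L0 e κ p) (t.R0 e κ p * x) ∈ slitPlane
  S : S0 e κ (tanh (κ * p)) (t.L0 e κ p) (t.R0 e κ p * x) = ((Real.cosh κ : ℂ) + T1) ^ 2
  re : 0 < ((Real.cosh κ : ℂ) + T1).re
  ne : T1 + (Real.sinh κ : ℂ) ≠ 0
  disp : ‖omT κ T1 - (kk κ : ℂ) * om0 κ p‖ ≤ t.δ 0 e κ
  cut : ‖T1 ^ 2 - (Real.sinh κ : ℂ) ^ 2‖ ≤ Real.sinh κ ^ 2 + t.Y 0 e
  close : ∀ x' : ℂ, ‖x'‖ ≤ 1 →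
    0 < (1 + exp (-(t.tb.lT e κ T1)) * (t.tb.rT e κ 0 T1 * x')).re →
      0 < (1 + exp (-(t.tb.lT e κ T1))).re ∧
      ‖x - t.M0 e κ p * (x - (1 - exp (CL (t.L0 e κ p) - (e : ℂ) * log ((Real.cosh κ : ℂ) + T1) +
        lF (t.tb.lT e κ T1) (t.tb.rT e κ 0 T1 * x'))) / t.R0 e κ p)‖ < θ

/-- **The program of the first node.** -/
theorem zero_pt {t : TD} (hok : t.ok = true) {e κ : ℝ} (he : 0 < e) (hκ : 0 < κ)
    (ht0 : 0 < t.tR 0 e κ) {σ : ℕ → ℂ} {Q : (ℕ → ℂ) → Prop} {v x p : ℂ}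
    (h0 : σ 0 = ((1 / e : ℝ) : ℂ)) (h1 : (bE t).ev σ = ((e * κ / 2 : ℝ) : ℂ)) (h2 : σ 2 = v)
    (h3 : σ 3 = x) (hv : Tb.iv e κ p = I * v) (h : Sem (P0 t) σ Q) :
    ∃ T1, ZP t e κ θ0 p x T1 := by
  rw [P0_eq] at h
  have h := sem_append _ _ _ h
  have h := sem_append _ _ _ h
  obtain ⟨σ1, h, hF1, -, k2, k3⟩ := head_spec he h0 h1 h
  obtain ⟨σ2, h, hH2, f2⟩ := sem_hs t.H 0 σ1 hF1.mi h
  have hF2 : HF t e κ σ2 := hF1.of_eq (fun i hi _ _ _ => f2 i fun a _ => by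
      have := hreg_ge a
      omega) (fun i j => f2 _ fun a _ => mreg_ne i j a)
  have lt2 : ∀ i, i < 128 → σ2 i = σ1 i := fun i hi => f2 i fun a _ => by
      have := hreg_ge a
      omega
  have h := sem_append _ _ _ h
  obtain ⟨σ3, h, f3, l, χ, a, W, Y, s, sq, hl, hz⟩ := zeroS_spec he hF2
    (by rw [lt2 2 (by omega), k2, h2]) (by rw [lt2 3 (by omega), k3, h3]) hv h
  have x3 : σ3 3 = x := by rw [f3 3 (by omega), lt2 3 (by omega), k3, h3]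
  have hF3 : HF t e κ σ3 := hF2.of_eq (fun i hi _ _ _ => f3 i (by omega)) (fun i j => f3 _ (by
    have := mreg_ge i j
    omega))
  have hH3 : (hlE t.L 0 t.H).map (E.ev σ3) = hV (t.tb.de e) (t.tb.db e κ) 0 t.H := by
    rw [← hH2]
    apply hlE_congr
    intro k
    have := hreg_ge k
    exact f3 _ (by omega)
  have h := sem_append _ _ _ h
  obtain ⟨σ4, T1, h, f4, hT4, hS4, hSQ, hSE⟩ := zlink_spec hF3 hz h
  have hF4 : HF t e κ σ4 := hF3.of_eq (fun i hi _ _ _ => f4 i (by omega)) (fun i j => f4 _ (by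
    have := mreg_ge i j
    omega))
  have h := sem_append _ _ _ h
  obtain ⟨σ5, h, f5, hC⟩ := cut_spec he hF4 (z := 55) (by omega) hT4 0 h
  have hF5 : HF t e κ σ5 := hF4.of_eq (fun i hi _ _ _ => f5 i (by omega)) (fun i j => f5 _ (by
    have := mreg_ge i j
    omega))
  have hz5 : ZR t e κ p x l χ a W Y s sq σ5 := hz.of_eq fun i _ _ => by
    rw [f5 i (by omega), f4 i (by omega)]
  have T5 : σ5 55 = T1 := by rw [f5 55 (by omega), hT4]
  have S5 : σ5 52 = log (S0 e κ (tanh (κ * p)) l χ) := by rw [f5 52 (by omega), hS4]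
  have h := sem_append _ _ _ h
  have e7 := hF5.k
  have e10 := hF5.q
  have e11 := hF5.qi
  have e14 := hF5.s2
  have e15 := hF5.K
  have e22 := hF5.one
  have e23 := hF5.c
  have g43 := hz5.f43
  have g45 := hz5.f45
  have g50 := hz5.f50
  obtain ⟨-, p1, h⟩ := h
  have hre : 0 < (sq - 2 * (a * Y)).re := by
    have : (E.ev σ5 (.sub (.r 50) (.sc two (.mul (.r 43) (.r 45))))) = sq - 2 * (a * Y) := by
      show σ5 50 - two.val * (σ5 43 * σ5 45) = _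
      rw [g50, g43, g45, two_val]
    rwa [this] at p1
  have hSHs : Pool.Agent.helper12.RS.SH e κ (tanh (κ * p)) l χ ∈ slitPlane := by
    rw [SH_form hz5.hs hz5.hY hz5.ha hz5.hsq]
    have h5 : sq * sq = 1 - 4 * (a * a * (s - Y * Y)) := by
      rw [hz5.hsq, ← half_pow (slitPlane_ne_zero hz5.hsl), ← Complex.exp_add]
      have : 1 / 2 * log (1 - 4 * (a * a * (s - Y * Y))) + 1 / 2 * log (1 - 4 * (a * a * (s - Y * Y))) =
          log (1 - 4 * (a * a * (s - Y * Y))) := by ring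
      rw [this, Complex.exp_log (slitPlane_ne_zero hz5.hsl)]
    have h6 : 4 * (a * a) * (2 * (Y * Y) - s) + 1 - 4 * (a * Y * sq) =
        (sq - 2 * (a * Y)) * (sq - 2 * (a * Y)) := by
      linear_combination -h5
    rw [h6]
    exact sq_slit hre
  obtain ⟨c, hc⟩ : ∃ c, c = (Real.cosh κ : ℂ) := ⟨_, rfl⟩
  obtain ⟨K, hK⟩ : ∃ K, K = (Real.sinh κ : ℂ) := ⟨_, rfl⟩
  obtain ⟨T0, hT0⟩ : ∃ z, z = K * tanh (κ * p) := ⟨_, rfl⟩
  rw [← hc] at e23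
  rw [← hK] at e15
  obtain ⟨-, h⟩ := sem_set h (x := T0) (by
    show σ5 45 * σ5 14 = _
    rw [g45, e14, hT0, hK]
    have h7 := hz5.hY
    have h8 : (Real.sinh κ : ℂ) = (Hh κ : ℂ) * (Real.cosh (κ / 2) : ℂ) := by
      have : Real.sinh κ = Hh κ * Real.cosh (κ / 2) := by
        unfold Hh
        rw [← Real.sinh_two_mul]
        congr 1
        ring
      rw [this]
      push_cast
      rfl
    rw [h8]
    linear_combination -(Real.cosh (κ / 2) : ℂ) * h7)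
  obtain ⟨-, h⟩ := sem_set h (x := c + T0) (by
    simp only [E.ev, upd, Nat.reduceEqDiff, reduceIte]
    rw [e23])
  obtain ⟨o1, h⟩ := sem_set h (x := c - (c + T0)⁻¹) (by
    simp only [E.ev, upd, Nat.reduceEqDiff, reduceIte]
    rw [e23])
  have Q0ne : c + T0 ≠ 0 := o1.2.2
  obtain ⟨dT, hdT⟩ : ∃ z, z = T1 - (c - (c + T0)⁻¹) := ⟨_, rfl⟩
  obtain ⟨-, h⟩ := sem_set h (x := dT) (by
    simp only [E.ev, upd, Nat.reduceEqDiff, reduceIte]
    rw [T5, hdT])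
  obtain ⟨tr, htr⟩ : ∃ tr, tr = t.tR 0 e κ := ⟨_, rfl⟩
  obtain ⟨-, h⟩ := sem_set h (x := (tr : ℂ)) (by
    have hM : MI t.L (t.tb.de e) (t.tb.db e κ)
        (upd (upd (upd (upd σ5 56 T0) 57 (c + T0)) 58 (c - (c + T0)⁻¹)) 59 dT) :=
      MI_upd (MI_upd (MI_upd (MI_upd hF5.mi (by omega) _) (by omega) _) (by omega) _) (by omega) _
    have h7 := p2E_ev hM 0 (nth [] t.t 0)
    rw [cv_zero, zero_add] at h7
    rw [h7, htr]
    exact t.tR_eq 0 e κ)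
  obtain ⟨pp, hpp⟩ : ∃ z, z = (T0 + K)⁻¹ * ((Real.exp (-κ) : ℂ) * (c + T0)) := ⟨_, rfl⟩
  obtain ⟨o2, h⟩ := sem_set h (x := pp) (by
    simp only [E.ev, upd, Nat.reduceEqDiff, reduceIte]
    rw [e15, e11, hpp])
  have TK0 : T0 + K ≠ 0 := by
    have o3 := o2.1.2
    simp only [E.ev, upd, Nat.reduceEqDiff, reduceIte] at o3
    rwa [e15] at o3
  obtain ⟨-, h⟩ := sem_set h (x := pp * dT) (by simp [E.ev, upd])
  obtain ⟨Kk, hKk⟩ : ∃ Kk, Kk = (bif t.strip then (Real.cosh κ : ℂ) else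
      (Real.sinh κ : ℂ) * (κ : ℂ)⁻¹) := ⟨_, rfl⟩
  obtain ⟨σ6, hσ6⟩ : ∃ τ, τ = upd (upd (upd (upd (upd (upd (upd σ5 56 T0) 57 (c + T0)) 58
    (c - (c + T0)⁻¹)) 59 dT) 60 (tr : ℂ)) 61 pp) 62 (pp * dT) := ⟨_, rfl⟩
  rw [← hσ6] at h
  have f6 : ∀ i, i < 56 ∨ 63 ≤ i → σ6 i = σ5 i := by
    intro i hi
    rw [hσ6]
    repeat rw [upd_ne (by omega)]
  have h' : Sem (p0c ++ (nodeS t 55 72 ++ p0d t)) (upd σ6 67 Kk) Q := by
    have h := sem_append _ _ _ h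
    unfold p0b at h
    cases hst : t.strip with
    | true =>
      rw [hst, cond_true] at h
      rw [hst] at hKk
      obtain ⟨-, h⟩ := sem_set h (x := Kk) (by
        show σ6 23 = _
        rw [f6 23 (by omega), e23, hKk, cond_true, hc])
      exact h
    | false =>
      rw [hst, cond_false] at h
      rw [hst] at hKk
      obtain ⟨-, h⟩ := sem_set h (x := Kk) (by
        show σ6 15 * (σ6 7)⁻¹ = _
        rw [f6 15 (by omega), e15, f6 7 (by omega), e7, hKk, cond_false, hK])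
      exact h
  have h := sem_append _ _ _ h'
  obtain ⟨o4, h4, h⟩ := h
  have v61 : upd σ6 67 Kk 61 = pp := by
    rw [upd_ne (by omega), hσ6, upd_ne (by omega), upd_same]
  have v62 : upd σ6 67 Kk 62 = pp * dT := by
    rw [upd_ne (by omega), hσ6, upd_same]
  have v60 : upd σ6 67 Kk 60 = (tr : ℂ) := by
    rw [upd_ne (by omega), hσ6, upd_ne (by omega), upd_ne (by omega), upd_same]
  have v10 : upd σ6 67 Kk 10 = (Real.exp κ : ℂ) := by
    rw [upd_ne (by omega), f6 10 (by omega), e10]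
  have v22 : upd σ6 67 Kk 22 = 1 := by
    rw [upd_ne (by omega), f6 22 (by omega), e22]
  have v67 : upd σ6 67 Kk 67 = Kk := upd_same _ _
  have sne : pp * dT + 1 ≠ 0 := by
    have o5 : upd σ6 67 Kk 62 + upd σ6 67 Kk 22 ≠ 0 := o4.2.1.1.1.2.2
    rwa [v62, v22] at o5
  have hD : ‖omT κ T1 - (kk κ : ℂ) * omT κ T0‖ ≤ t.δ 0 e κ := by
    have h6 := lt_one h4
    have h7 : E.ev (upd σ6 67 Kk) (.mul (.mul (.sc two (.r 67)) (.r 62))
        (.mul (.mul (.mul (.mul (.r 61) (.inv (.add (.r 62) (.r 22)))) (.r 10)) (.r 10)) (.inv (.r 60)))) =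
      2 * Kk * (pp * dT) * (Real.exp (((0 + 1 : ℕ) : ℝ) * κ) : ℂ) *
        ((pp * (pp * dT + 1)⁻¹) * ((Real.exp (((0 + 1 : ℕ) : ℝ) * κ) : ℂ) * (tr : ℂ)⁻¹)) := by
      show two.val * (upd σ6 67 Kk 67) * (upd σ6 67 Kk 62) * ((upd σ6 67 Kk 61) *
        (upd σ6 67 Kk 62 + upd σ6 67 Kk 22)⁻¹ * (upd σ6 67 Kk 10) * (upd σ6 67 Kk 10) *
        (upd σ6 67 Kk 60)⁻¹) = _
      rw [v61, v62, v60, v10, v22, v67, two_val]
      have h8 : ((0 + 1 : ℕ) : ℝ) * κ = κ := by norm_num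
      rw [h8]
      ring
    rw [h7] at h6
    obtain ⟨b1, b2⟩ := dK_bound (t := t) hκ
    rw [← hKk] at b2
    have hQne : (Real.cosh κ : ℂ) + T0 ≠ 0 := by rw [← hc]; exact Q0ne
    have hTKne : T0 + (Real.sinh κ : ℂ) ≠ 0 := by rw [← hK]; exact TK0
    have hd := omT_diff hQne (u := ((Real.cosh κ : ℂ) + T0)⁻¹) rfl hTKne (p := pp) (dT := dT)
      (by rw [hpp, hK, hc]) sne
    have hT1 : (Real.cosh κ : ℂ) - ((Real.cosh κ : ℂ) + T0)⁻¹ + dT = T1 := by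
      rw [hdT, hc]
      ring
    rw [hT1] at hd
    have := disp_of (κ := κ) (t := tr) (n := 0 + 1) (Kk := Kk) (pd := pp * dT)
      (ps := pp * (pp * dT + 1)⁻¹) (Kc := (Real.sinh κ : ℂ)) (dK := t.dK κ) (by rw [htr]; exact ht0)
      b1 b2 hd h6
    unfold TD.δ
    rw [← htr]
    exact this
  have TK1 : T1 + K ≠ 0 := by
    have hTKne : T0 + (Real.sinh κ : ℂ) ≠ 0 := by rw [← hK]; exact TK0
    have hQne : (Real.cosh κ : ℂ) + T0 ≠ 0 := by rw [← hc]; exact Q0ne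
    have hp1 := p_TsK hQne (u := ((Real.cosh κ : ℂ) + T0)⁻¹) rfl hTKne (p := pp)
      (by rw [hpp, hK, hc])
    rw [← hc, ← hK] at hp1
    intro h0
    apply sne
    rw [hdT]
    linear_combination -hp1 + pp * h0
  have h := sem_append _ _ _ h
  have f7 : ∀ i, i < 56 ∨ 68 ≤ i → upd σ6 67 Kk i = σ5 i := by
    intro i hi
    rw [upd_ne (by omega), f6 i (by omega)]
  have hF7 : HF t e κ (upd σ6 67 Kk) := hF5.of_eq (fun i hi _ _ _ => f7 i (by omega)) (fun i j =>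
    f7 _ (by
      have := mreg_ge i j
      omega))
  have hH7 : (hlE t.L 0 t.H).map (E.ev (upd σ6 67 Kk)) = hV (t.tb.de e) (t.tb.db e κ) 0 t.H := by
    rw [← hH3]
    apply hlE_congr
    intro k
    have := hreg_ge k
    rw [f7 _ (by omega), f5 _ (by omega), f4 _ (by omega)]
  obtain ⟨σ8, h, f8, hN⟩ := node_spec hok (Or.inr rfl) hF7 hH7 (z := 55) (T := T1)
    (by rw [f7 55 (by omega), T5]) h
  have hF8 : HF t e κ σ8 := hF7.of_eq (fun i hi _ _ _ => f8 i (by omega)) (fun i j => f8 _ (by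
    have := mreg_ge i j
    omega))
  have hz8 : ZR t e κ p x l χ a W Y s sq σ8 := hz5.of_eq fun i _ _ => by
    rw [f8 i (by omega), f7 i (by omega)]
  have T8 : σ8 55 = T1 := by rw [f8 55 (by omega), f7 55 (by omega), T5]
  have S8 : σ8 52 = log (S0 e κ (tanh (κ * p)) l χ) := by
    rw [f8 52 (by omega), f7 52 (by omega), S5]
  have x8 : σ8 3 = x := by
    rw [f8 3 (by omega), f7 3 (by omega), f5 3 (by omega), f4 3 (by omega), x3]
  have n5 := hF8.ie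
  have n7 := hF8.k
  have n0 := hF8.ep
  have n15 := hF8.K
  have n22 := hF8.one
  have n82 : σ8 82 = lc (t.tb.lT e κ T1) - (LM e κ : ℂ) := hN.mm
  have n80 : σ8 80 = exp (-(t.tb.lT e κ T1)) := hN.M
  have n26 := hz8.f26
  have n35 := hz8.f35
  have n41 := hz8.f41
  have n30 := hz8.f30
  have n31 := hz8.f31
  have n25 := hz8.f25
  obtain ⟨-, h⟩ := sem_set h (x := T1 + K) (by
    show σ8 55 + σ8 15 = _
    rw [T8, n15, hK])
  obtain ⟨l', hl'⟩ : ∃ l', l' = t.tb.lT e κ T1 := ⟨_, rfl⟩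
  obtain ⟨S, hSd⟩ : ∃ S, S = S0 e κ (tanh (κ * p)) l χ := ⟨_, rfl⟩
  rw [← hl'] at n82 n80
  rw [← hSd] at S8 hSQ hSE
  obtain ⟨Lq, hLq⟩ : ∃ L, L = (e : ℂ) * log ((Real.cosh κ : ℂ) + T1) := ⟨_, rfl⟩
  have hLq2 : Lq = log S * (1 / 2 * e) := by
    rw [hLq, hSE]
    have h9 : (1 / 2 * log S).im = arg S / 2 := by
      have : (1 / 2 : ℂ) * log S = ((1 / 2 : ℝ) : ℂ) * log S := by push_cast; ring
      rw [this, Complex.im_ofReal_mul, Complex.log_im]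
      ring
    have h10 := Complex.neg_pi_lt_arg S
    have h11 := Complex.arg_le_pi S
    have hpi := Real.pi_pos
    rw [Complex.log_exp (by rw [h9]; linarith) (by rw [h9]; linarith)]
    ring
  obtain ⟨E0, hE0⟩ : ∃ E, E = exp (l + lc l - lc l' - Lq) := ⟨_, rfl⟩
  obtain ⟨-, h⟩ := sem_set h (x := E0) (by
    simp only [E.ev, upd, Nat.reduceEqDiff, reduceIte, half_val]
    rw [n26, n35, n41, n82, S8, n5, hE0, hLq2]
    congr 1
    ring)
  obtain ⟨M, hM⟩ : ∃ M, M = t.M0 e κ p := ⟨_, rfl⟩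
  obtain ⟨-, h⟩ := sem_set h (x := M) (by
    have hMI : MI t.L (t.tb.de e) (t.tb.db e κ) (upd (upd σ8 88 (T1 + K)) 93 E0) :=
      MI_upd (MI_upd hF8.mi (by omega) _) (by omega) _
    rw [p3E_ev hMI]
    show P3 (c3 (nth [] t.M 0)) (upd (upd σ8 88 (T1 + K)) 93 E0 25) _ _ = _
    rw [upd_ne (by omega), upd_ne (by omega), n25, hM]
    rfl)
  obtain ⟨A, hA⟩ : ∃ z, z = t.tb.an0 e κ * Tb.u0 e κ p := ⟨_, rfl⟩
  obtain ⟨d, hd⟩ : ∃ z, z = 1 + t.tb.c0 * Tb.u0 e κ p := ⟨_, rfl⟩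
  rw [← hA] at n30
  rw [← hd] at n31
  obtain ⟨r, hr⟩ : ∃ z, z = t.R0 e κ p := ⟨_, rfl⟩
  have hrv : r = A / d := by rw [hr, hA, hd]; rfl
  have dne : d ≠ 0 := by rw [hd]; exact hz8.dne
  obtain ⟨o6, h⟩ := sem_set h (x := r⁻¹) (by
    simp only [E.ev, upd, Nat.reduceEqDiff, reduceIte]
    rw [n30, n31, hrv, inv_div, div_eq_mul_inv, mul_comm])
  have Ane : A ≠ 0 := by
    have o7 := o6.1.2
    simp only [E.ev, upd, Nat.reduceEqDiff, reduceIte] at o7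
    rwa [n30] at o7
  have rne : r ≠ 0 := by
    rw [hrv]
    exact div_ne_zero Ane dne
  obtain ⟨r', hr'⟩ : ∃ z, z = t.tb.rT e κ 0 T1 := ⟨_, rfl⟩
  obtain ⟨-, h⟩ := sem_set h (x := r') (by
    have hMI : MI t.L (t.tb.de e) (t.tb.db e κ)
        (upd (upd (upd (upd σ8 88 (T1 + K)) 93 E0) 94 M) 95 r⁻¹) :=
      MI_upd (MI_upd (MI_upd (MI_upd hF8.mi (by omega) _) (by omega) _) (by omega) _) (by omega) _
    have hav := aE_ev hMI (m := 1) (by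
      rw [upd_ne (by omega), upd_ne (by omega), upd_ne (by omega), upd_ne (by omega), n7])
    show two.val * (aE t 1).ev _ * (upd (upd (upd (upd σ8 88 (T1 + K)) 93 E0) 94 M) 95 r⁻¹ 88) *
      ((zi (nth 0 t.c 1)).val * (upd (upd (upd (upd σ8 88 (T1 + K)) 93 E0) 94 M) 95 r⁻¹ 55) +
        (upd (upd (upd (upd σ8 88 (T1 + K)) 93 E0) 94 M) 95 r⁻¹ 0))⁻¹ = _
    rw [hav, two_val]
    simp only [upd, Nat.reduceEqDiff, reduceIte]
    rw [T8, n0, hr', hK, zi_val]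
    unfold Tb.rT
    rw [add_comm ((1 / e : ℝ) : ℂ), div_eq_mul_inv _ (t.tb.c 0 * T1 + _)]
    have : t.tb.an e κ 0 = P2 (c2 (nth [] t.a 1)) (t.tb.de e) (t.tb.db e κ) *
      exp (-(cv (nth 0 t.j 1) * κ)) := rfl
    rw [this]
    have : t.tb.c 0 = cv (nth 0 t.c 1) := rfl
    rw [this])
  obtain ⟨-, -, h⟩ := h
  refine ⟨T1, ⟨hz8.phd, hz8.dne, by rw [← hr]; exact rne, by rw [← hl]; exact hz8.E, ?_, ?_, ?_, ?_,
    ?_, hN.Qre, by rw [← hK]; exact TK1, ?_, hC, ?_⟩⟩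
  · rw [← hl, ← hz8.hχ]; exact hz8.F
  · rw [← hz8.hχ]; exact hz8.g
  · rw [← hl, ← hz8.hχ]
    have hHT : (Hh κ : ℂ) ^ 2 * tanh (κ * p) ^ 2 = 4 * (Y * Y) := by
      calc (Hh κ : ℂ) ^ 2 * tanh (κ * p) ^ 2 = ((Hh κ : ℂ) * tanh (κ * p)) ^ 2 := by ring
        _ = _ := by rw [hz8.hY]; ring
    have e1 : exp (-(2 * ((LA e κ : ℂ) + lF l χ)) / e) = a * a := by
      rw [hz8.ha, ← Complex.exp_add]
      congr 1
      ring
    have e5 : (1 : ℂ) - (Hh κ : ℂ) ^ 2 * (a * a) * (1 - tanh (κ * p) ^ 2) =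
        1 - 4 * (a * a * (s - Y * Y)) := by
      rw [hz8.hs]
      linear_combination (a * a) * hHT
    rw [e1, e5]
    exact hz8.hsl
  · rw [← hl, ← hz8.hχ]; exact hSHs
  · rw [← hl, ← hz8.hχ, ← hSd]; exact hSQ
  · rw [om0_eq hκ, ← hK, ← hT0]; exact hD
  · intro x' hx' hF'
    refine ⟨hN.M1, ?_⟩
    have h := h (-(M * E0 * exp (-l') * r' * r⁻¹ * x')) (by
      simp only [E.ev, upd, Nat.reduceEqDiff, reduceIte]
      rw [zz_val, sub_zero, norm_neg, n80, norm_mul]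
      calc ‖M * E0 * exp (-l') * r' * r⁻¹‖ * ‖x'‖ ≤ ‖M * E0 * exp (-l') * r' * r⁻¹‖ * 1 :=
            mul_le_mul_of_nonneg_left hx' (norm_nonneg _)
        _ = _ := mul_one _)
    obtain ⟨-, p2, -⟩ := h
    simp only [E.ev, upd, Nat.reduceEqDiff, reduceIte] at p2
    rw [x8, n22] at p2
    rw [← hl', ← hr'] at hF' ⊢
    have hne2 := ne_of_re hF'
    rw [← hl, ← hr, ← hM, ← hLq, exp_close hne2, ← hE0]
    have e2 : x - M * (x - (1 - E0 * (1 + exp (-l') * (r' * x'))) / r) =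
        x * (1 - M) + M * ((1 - E0) * r⁻¹) + -(M * E0 * exp (-l') * r' * r⁻¹ * x') := by
      rw [div_eq_mul_inv]
      ring
    rw [e2]
    exact p2

/-- **The first node.** -/
theorem zeroP_of {t : TD} (hok : t.ok = true) {e κ : ℝ} (he : 0 < e) (hκ : 0 < κ)
    (ht0 : 0 < t.tR 0 e κ) {v p : ℂ} (hc : cosh (κ * p) ≠ 0) (hv : Tb.iv e κ p = I * v)
    (h : ∀ x : ℂ, ‖x‖ ≤ 1 → ∃ σ : ℕ → ℂ, σ 0 = ((1 / e : ℝ) : ℂ) ∧
      (bE t).ev σ = ((e * κ / 2 : ℝ) : ℂ) ∧ σ 2 = v ∧ σ 3 = x ∧ Sem (P0 t) σ fun _ => True) :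
    ZeroP t.tb e κ θ0 (t.δ 0 e κ) (t.Y 0 e) p (t.L0 e κ p) (t.R0 e κ p) (t.M0 e κ p) := by
  obtain ⟨σ, h0, h1, h2, h3, hs⟩ := h 1 (by simp)
  obtain ⟨T1, hZ⟩ := zero_pt hok he hκ ht0 h0 h1 h2 h3 hv hs
  refine ⟨⟨hc, hZ.phd, hZ.dne⟩, hZ.r, ?_, hZ.E, ?_⟩
  · intro hM
    obtain ⟨-, h4⟩ := hZ.close 0 (by simp) (by simp)
    rw [hM, zero_mul, sub_zero, norm_one] at h4
    exact absurd (h4.trans θ0_lt) (lt_irrefl _)
  · intro x hx
    obtain ⟨σ, h0, h1, h2, h3, hs⟩ := h x hx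
    obtain ⟨T1, hZ⟩ := zero_pt hok he hκ ht0 h0 h1 h2 h3 hv hs
    exact ⟨T1, hZ.F, hZ.g, hZ.w0, hZ.SH, hZ.S, hZ.re, hZ.ne, hZ.disp, hZ.cut, hZ.close⟩

/-! ### The test -/

def ptA (t : TD) : List St :=
  [St.set 64 (E.r 63).log, St.pos ((E.c half).sub (((E.r 39).sub (E.r 35)).add ((E.r 64).mul (E.sc half (E.r 5)))).exp)]

theorem PT_eq (t : TD) : PT t = .set 3 (.r 2) :: (head t (bE t) ++ (.set 2 (.r 22) ::
    (zeroS t ++ (shS ++ ptA t)))) := by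
  unfold PT ptA
  simp only [List.append_assoc, List.cons_append, List.nil_append]

/-- value of the parameter `b` -/
noncomputable def TD.bv (t : TD) (ep s : ℝ) : ℝ := match t.bm with
  | none => s
  | some (m2, m1, m0, b1) => s * ((rv m2 * ep + rv m1) * ep + rv m0) + rv b1

theorem bE_ev {t : TD} {σ : ℕ → ℂ} {ep s : ℝ} (h0 : σ 0 = (ep : ℂ)) (h1 : σ 1 = (s : ℂ)) :
    (bE t).ev σ = (t.bv ep s : ℂ) := by
  unfold bE TD.bv
  generalize t.bm = o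
  rcases o with _ | ⟨m2, m1, m0, b1⟩
  · exact h1
  · show σ 1 * (((zi m2).val * σ 0 + (zi m1).val) * σ 0 + (zi m0).val) + (zi b1).val = _
    rw [zi_val, zi_val, zi_val, zi_val, h0, h1, cv_rv, cv_rv, cv_rv, cv_rv]
    push_cast
    rfl

/-- **The test.** -/
theorem test_pt {t : TD} {e κ s : ℝ} (he : 0 < e) {σ : ℕ → ℂ} {Q : (ℕ → ℂ) → Prop} {x p : ℂ}
    (h0 : σ 0 = ((1 / e : ℝ) : ℂ)) (h1 : σ 1 = (s : ℂ)) (hb : t.bv (1 / e) s = e * κ / 2)
    (h2 : σ 2 = x) (hv : Tb.iv e κ p = I) (h : Sem (PT t) σ Q) :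
    (exp (lF (t.L0 e κ p) (t.R0 e κ p * x) + (e : ℂ) / 2 *
      log (Pool.Agent.helper12.RS.SH e κ (tanh (κ * p)) (t.L0 e κ p) (t.R0 e κ p * x)))).re <
        1 / 2 := by
  rw [PT_eq] at h
  obtain ⟨-, h⟩ := sem_set h (x := x) h2
  have h := sem_append _ _ _ h
  obtain ⟨σ1, h, hF1, -, k2, k3⟩ := head_spec (κ := κ) he
    (by rw [upd_ne (by omega), h0]) (b := bE t) (by
      rw [bE_ev (ep := 1 / e) (s := s) (by rw [upd_ne (by omega), h0])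
        (by rw [upd_ne (by omega), h1]), hb]) h
  rw [upd_same] at k3
  have e22 := hF1.one
  obtain ⟨-, h⟩ := sem_set h (x := 1) (by
    show σ1 22 = _
    rw [e22])
  have hF2 : HF t e κ (upd σ1 2 1) := hF1.of_eq (fun i _ _ hi _ => upd_ne hi _) (fun i j =>
    upd_ne (mreg_ne_lt (by omega)).symm _)
  have h := sem_append _ _ _ h
  obtain ⟨σ3, h, f3, l, χ, a, W, Y, s', sq, hl, hz⟩ := zeroS_spec he hF2 (upd_same _ _)
    (by rw [upd_ne (by omega), k3]) (by rw [hv, mul_one]) h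
  have hF3 : HF t e κ σ3 := hF2.of_eq (fun i hi _ _ _ => f3 i (by omega)) (fun i j => f3 _ (by
    have := mreg_ge i j
    omega))
  have n5 := hF3.ie
  have n22 := hF3.one
  have g35 := hz.f35
  have g39 := hz.f39
  have g40 := hz.f40
  have g47 := hz.f47
  have g48 := hz.f48
  have g51 := hz.f51
  have hSH := SH_form hz.hs hz.hY hz.ha hz.hsq
  obtain ⟨S, hS⟩ : ∃ S, S = Pool.Agent.helper12.RS.SH e κ (tanh (κ * p)) l χ := ⟨_, rfl⟩
  rw [← hS] at hSH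
  obtain ⟨-, h⟩ := sem_set h (x := S) (by
    show four.val * σ3 48 * (two.val * σ3 47 - σ3 40) + σ3 22 - four.val * σ3 51 = _
    rw [four_val, two_val, g48, g47, g40, g51, n22, hSH])
  obtain ⟨-, h⟩ := sem_set h (x := log S) (by simp [E.ev, upd])
  obtain ⟨-, p1, -⟩ := h
  have h4 : E.ev (upd (upd σ3 63 S) 64 (log S)) (.sub (.c half) (.exp (.add (.sub (.r 39) (.r 35))
      (.mul (.r 64) (.sc half (.r 5)))))) = 1 / 2 - exp (lF l χ + (e : ℂ) / 2 * log S) := by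
    simp only [E.ev, upd, Nat.reduceEqDiff, reduceIte, half_val]
    rw [g39, g35, n5]
    congr 2
    unfold lF
    ring
  rw [h4, sub_re] at p1
  rw [← hl, ← hz.hχ, ← hS]
  have h5 : ((1 : ℂ) / 2).re = 1 / 2 := by
    rw [show (1 : ℂ) / 2 = ((1 / 2 : ℝ) : ℂ) by push_cast; rfl, ofReal_re]
  rw [h5] at p1
  linarith

end Pool.Agent.helper63.NF
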