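import Pool.Agent.helper63.NF.SpecNear

/-!
# Meaning of the common part of the near nodes
-/

namespace Pool.Agent.helper63.NF

open Complex
open Pool.Agent.helper31.IA (Z get)
open Pool.Agent.helper12.RS

/-- the scale -/
noncomputable def TD.s2 (t : TD) (n : ℕ) : ℂ := ((2 ^ nth 0 t.sc n : ℕ) : ℂ)

theorem TD.s2_ne (t : TD) (n : ℕ) : t.s2 n ≠ 0 := by
  unfold TD.s2
  have : (2 ^ nth 0 t.sc n : ℕ) ≠ 0 := pow_ne_zero _ two_ne_zero
  exact_mod_cast this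

/-- the registers after the common part -/
structure NR (t : TD) (e κ : ℝ) (m : ℕ) (T x T1 : ℂ) (σ : ℕ → ℂ) : Prop where
  hF : HF t e κ σ
  hH : (hlE t.L 0 t.H).map (E.ev σ) = hV (t.tb.de e) (t.tb.db e κ) 0 t.H
  nd : NO t e κ 24 T σ
  fx : σ 3 = x
  fT1 : σ 58 = T1
  fLQ : σ 59 = (e : ℂ) * log ((Real.cosh κ : ℂ) + T1) - ((e * κ : ℝ) : ℂ)
  fden : σ 42 = t.tb.c m * T + ((1 / e : ℝ) : ℂ)
  dne : t.tb.c m * T + ((1 / e : ℝ) : ℂ) ≠ 0
  fTT : σ 64 = (T1 + (Real.sinh κ : ℂ)) * (T + (Real.sinh κ : ℂ))⁻¹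
  fia : σ 91 = (t.s2 (m + 1) * t.tb.an e κ m)⁻¹
  fM : σ 94 = t.tb.MT e κ m T
  fir : σ 95 * t.s2 (m + 1) = (t.tb.rT e κ m T)⁻¹
  TK : T + (Real.sinh κ : ℂ) ≠ 0
  TK1 : T1 + (Real.sinh κ : ℂ) ≠ 0
  ane : t.tb.an e κ m ≠ 0
  F : 0 < (1 + exp (-(t.tb.lT e κ T)) * (t.tb.rT e κ m T * x)).re
  g : 0 < (1 - t.tb.rT e κ m T * x).re
  S : Sn e κ (Tb.yT e κ T) (t.tb.lT e κ T) (t.tb.rT e κ m T * x) = ((Real.cosh κ : ℂ) + T1) ^ 2
  tpos : 0 < t.tR (m + 1) e κ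
  disp : ‖omT κ T1 - (kk κ : ℂ) * omT κ T‖ ≤ t.δ (m + 1) e κ
  cut : ‖T1 ^ 2 - (Real.sinh κ : ℂ) ^ 2‖ ≤ Real.sinh κ ^ 2 + t.Y (m + 1) e

theorem NR.r_ne {t : TD} {e κ : ℝ} {m : ℕ} {T x T1 : ℂ} {σ : ℕ → ℂ} (h : NR t e κ m T x T1 σ) :
    t.tb.rT e κ m T ≠ 0 := by
  unfold Tb.rT
  have h1 := h.dne
  rw [add_comm] at h1
  exact div_ne_zero (mul_ne_zero (mul_ne_zero two_ne_zero h.ane) h.TK) h1

/-- **The common part.** -/
theorem near_spec {t : TD} (hok : t.ok = true) {e κ : ℝ} (he : 0 < e) (hκ : 0 < κ) {m : ℕ}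
    {σ : ℕ → ℂ} {Q : (ℕ → ℂ) → Prop} {T x : ℂ} (h0 : σ 0 = ((1 / e : ℝ) : ℂ))
    (h1 : σ 1 = ((e * κ / 2 : ℝ) : ℂ)) (h2 : σ 2 = T) (h3 : σ 3 = x)
    (h : Sem (nearS t (m + 1)) σ Q) : ∃ τ T1, Q τ ∧ NR t e κ m T x T1 τ := by
  have h := sem_append _ _ _ h
  have h := sem_append _ _ _ h
  have h := sem_append _ _ _ h
  rw [List.append_assoc (headH t (E.r 1) ++ nodeS t 2 24)] at h
  have h := sem_append _ _ _ h
  have h := sem_append _ _ _ h
  have h := sem_append _ _ _ h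
  obtain ⟨σ1, h, hF1, -, k2, k3⟩ := head_spec he h0 (b := .r 1) h1 h
  obtain ⟨σ2, h, hH2, f2⟩ := sem_hs t.H 0 σ1 hF1.mi h
  have hF2 : HF t e κ σ2 := hF1.of_eq (fun i hi _ _ _ => f2 i fun a _ => by
      have := hreg_ge a
      omega) (fun i j => f2 _ fun a _ => mreg_ne i j a)
  have lt2 : ∀ i, i < 128 → σ2 i = σ1 i := fun i hi => f2 i fun a _ => by
      have := hreg_ge a
      omega
  obtain ⟨σ3, h, f3, hN3⟩ := node_spec hok (Or.inl rfl) hF2 hH2 (by rw [lt2 2 (by omega), k2, h2]) h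
  have hF3 : HF t e κ σ3 := hF2.of_eq (fun i hi _ _ _ => f3 i (by omega)) (fun i j => f3 _ (by
    have := mreg_ge i j
    omega))
  have hH3 : (hlE t.L 0 t.H).map (E.ev σ3) = hV (t.tb.de e) (t.tb.db e κ) 0 t.H := by
    rw [← hH2]
    apply hlE_congr
    intro k
    have := hreg_ge k
    exact f3 _ (by omega)
  obtain ⟨σ4, T1, h, f4, hL4⟩ := link_spec he hF3 hN3 (T := T) (x := x)
    (by rw [f3 2 (by omega), lt2 2 (by omega), k2, h2])
    (by rw [f3 3 (by omega), lt2 3 (by omega), k3, h3]) h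
  have hF4 : HF t e κ σ4 := hF3.of_eq (fun i hi _ _ _ => f4 i (by omega)) (fun i j => f4 _ (by
    have := mreg_ge i j
    omega))
  obtain ⟨σ5, h, f5, tpos, hD⟩ := disp_spec hκ hF4 hN3.Qre hL4 (m + 1) h
  have hF5 : HF t e κ σ5 := hF4.of_eq (fun i hi _ _ _ => f5 i (by omega)) (fun i j => f5 _ (by
    have := mreg_ge i j
    omega))
  have hL5 : LKF t e κ m T x T1 σ5 := hL4.of_eq fun i _ _ => f5 i (by omega)
  obtain ⟨σ6, h, f6, hC⟩ := cut_spec he hF5 (z := 58) (by omega) hL5.f58 (m + 1) h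
  have hF6 : HF t e κ σ6 := hF5.of_eq (fun i hi _ _ _ => f6 i (by omega)) (fun i j => f6 _ (by
    have := mreg_ge i j
    omega))
  have hL6 : LKF t e κ m T x T1 σ6 := hL5.of_eq fun i _ _ => f6 i (by omega)
  have hN6 : NO t e κ 24 T σ6 := hN3.of_eq fun i _ _ => by
    rw [f6 i (by omega), f5 i (by omega), f4 i (by omega)]
  have hH6 : (hlE t.L 0 t.H).map (E.ev σ6) = hV (t.tb.de e) (t.tb.db e κ) 0 t.H := by
    rw [← hH3]
    apply hlE_congr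
    intro k
    have := hreg_ge k
    rw [f6 _ (by omega), f5 _ (by omega), f4 _ (by omega)]
  have x6 : σ6 3 = x := by
    rw [f6 3 (by omega), f5 3 (by omega), f4 3 (by omega), f3 3 (by omega), lt2 3 (by omega), k3, h3]
  have g28 : σ6 28 = Tb.yT e κ T := hN6.y
  obtain ⟨a, ha⟩ : ∃ a, a = t.tb.an e κ m := ⟨_, rfl⟩
  obtain ⟨s, hs⟩ : ∃ s, s = t.s2 (m + 1) := ⟨_, rfl⟩
  have hsv : (scZ t (m + 1)).val = s := by
    rw [hs]
    exact zn_val _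
  have g41 := hL6.fa
  rw [← ha] at g41
  obtain ⟨-, h⟩ := sem_set h (x := s * a) (by
    show (scZ t (m + 1)).val * σ6 41 = _
    rw [hsv, g41])
  obtain ⟨-, p1, h⟩ := h
  have sa : 0 < (s * a).re := p1
  have sane := ne_of_re sa
  have ane : a ≠ 0 := right_ne_zero_of_mul sane
  obtain ⟨-, h⟩ := sem_set h (x := (s * a)⁻¹) (by
    show (upd σ6 41 _ 41)⁻¹ = _
    rw [upd_same])
  obtain ⟨-, h⟩ := sem_set h (x := t.tb.MT e κ m T) (by
    have hM : MI t.L (t.tb.de e) (t.tb.db e κ) (upd (upd σ6 41 (s * a)) 91 (s * a)⁻¹) := by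
      have k : ∀ i j, upd (upd σ6 41 (s * a)) 91 (s * a)⁻¹ (mreg i j) = σ6 (mreg i j) := fun i j => by
        have := mreg_ge i j
        rw [upd_ne (by omega), upd_ne (by omega)]
      exact ⟨by rw [k, hF6.mi.hu], by rw [k, hF6.mi.hv], fun i j hij => by rw [k, hF6.mi.hm i j hij]⟩
    rw [p3E_ev hM]
    show P3 (c3 (nth [] t.M (m + 1))) (upd (upd σ6 41 (s * a)) 91 (s * a)⁻¹ 28) _ _ = _
    rw [upd_ne (by omega), upd_ne (by omega), g28]
    rfl)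
  have g42 := hL6.fden
  have g60 := hL6.fiTK
  obtain ⟨-, h⟩ := sem_set h (x := 1 / 2 * ((t.tb.c m * T + ((1 / e : ℝ) : ℂ)) *
      (T + (Real.sinh κ : ℂ))⁻¹ * (s * a)⁻¹)) (by
    simp only [E.ev, upd, Nat.reduceEqDiff, reduceIte, half_val]
    rw [g42, g60])
  refine ⟨_, T1, h, ?_⟩
  have key : ∀ w1 w2 w3 w4 : ℂ, ∀ i, i ≠ 41 → i ≠ 91 → i ≠ 94 → i ≠ 95 →
      upd (upd (upd (upd σ6 41 w1) 91 w2) 94 w3) 95 w4 i = σ6 i := by
    intro w1 w2 w3 w4 i i1 i2 i3 i4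
    rw [upd_ne i4, upd_ne i3, upd_ne i2, upd_ne i1]
  have TKne : T + (Real.sinh κ : ℂ) ≠ 0 := ne_of_re hL6.TKre
  have dne := ne_of_re hL6.dre
  refine ⟨?_, ?_, ?_, ?_, ?_, ?_, ?_, dne, ?_, ?_, ?_, ?_, TKne, ?_, ?_, hL6.F, hL6.g, hL6.S,
    tpos, hD, hC⟩
  · exact hF6.of_eq (fun i hi _ _ _ => key _ _ _ _ i (by omega) (by omega) (by omega) (by omega))
      (fun i j => by
        have := mreg_ge i j
        exact key _ _ _ _ _ (by omega) (by omega) (by omega) (by omega))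
  · rw [← hH6]
    apply hlE_congr
    intro k
    have := hreg_ge k
    exact key _ _ _ _ _ (by omega) (by omega) (by omega) (by omega)
  · exact hN6.of_eq fun i _ _ => key _ _ _ _ i (by omega) (by omega) (by omega) (by omega)
  · rw [key _ _ _ _ 3 (by omega) (by omega) (by omega) (by omega), x6]
  · rw [key _ _ _ _ 58 (by omega) (by omega) (by omega) (by omega), hL6.f58]
  · rw [key _ _ _ _ 59 (by omega) (by omega) (by omega) (by omega), hL6.fLQ]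
  · rw [key _ _ _ _ 42 (by omega) (by omega) (by omega) (by omega), hL6.fden]
  · rw [key _ _ _ _ 64 (by omega) (by omega) (by omega) (by omega), hL6.fTT]
  · rw [upd_ne (by omega), upd_ne (by omega), upd_same, hs, ha]
  · rw [upd_ne (by omega), upd_same]
  · rw [upd_same, ← hs]
    have hsne : s ≠ 0 := left_ne_zero_of_mul sane
    unfold Tb.rT
    rw [← ha, inv_div, add_comm ((1 / e : ℝ) : ℂ)]
    field_simp
  · have Qne := ne_of_re hN3.Qre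
    have hp1 := p_TsK Qne (u := Tb.uT κ T) rfl TKne (p := σ6 61) hL6.fp
    have e62 := hL6.fpd
    have e63 := hL6.fs
    have h63 := ne_of_re hL6.sre
    intro h0
    apply h63
    rw [e63, e62]
    linear_combination -hp1 + σ6 61 * h0
  · rw [← ha]
    exact ane

end Pool.Agent.helper63.NF
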