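import Pool.Agent.helper63.RG.MaxP

/-!
# A small language for the programs of the near field

Expressions over numbered registers, statements, compilation to the operations of the engine, and
the meaning of a program.
-/

namespace Pool.Agent.helper63.NF

open Complex
open Pool.Agent.helper31.IA (Z get)
open Pool.Agent.helper31.IX (Op Asserts)

/-- the real constant `n/2^40` -/
def zi (n : ℤ) : Z := ⟨n.toNat, (-n).toNat, 0, 0⟩

/-- expressions over registers -/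
inductive E where
  | r (i : ℕ)
  | c (z : Z)
  | add (a b : E)
  | sub (a b : E)
  | mul (a b : E)
  | sc (z : Z) (a : E)
  | neg (a : E)
  | inv (a : E)
  | exp (a : E)
  | log (a : E)

/-- value -/
noncomputable def E.ev (σ : ℕ → ℂ) : E → ℂ
  | .r i => σ i
  | .c z => z.val
  | .add a b => a.ev σ + b.ev σ
  | .sub a b => a.ev σ - b.ev σ
  | .mul a b => a.ev σ * b.ev σ
  | .sc z a => z.val * a.ev σ
  | .neg a => -a.ev σ
  | .inv a => (a.ev σ)⁻¹
  | .exp a => Complex.exp (a.ev σ)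
  | .log a => Complex.log (a.ev σ)

/-- side conditions -/
def E.Ok (σ : ℕ → ℂ) : E → Prop
  | .r _ => True
  | .c _ => True
  | .add a b => a.Ok σ ∧ b.Ok σ
  | .sub a b => a.Ok σ ∧ b.Ok σ
  | .mul a b => a.Ok σ ∧ b.Ok σ
  | .sc _ a => a.Ok σ
  | .neg a => a.Ok σ
  | .inv a => a.Ok σ ∧ a.ev σ ≠ 0
  | .exp a => a.Ok σ
  | .log a => a.Ok σ ∧ a.ev σ ∈ slitPlane

/-- compilation of an expression; `N` values have been computed, values are numbered from the first
one; `k` gets the number of the result and the new `N` -/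
def E.cmp (ρ : ℕ → ℕ) : E → ℕ → (ℕ → ℕ → List Op) → List Op
  | .r i, N, k => k (ρ i) N
  | .c z, N, k => Op.const z :: k N (N + 1)
  | .add a b, N, k => a.cmp ρ N fun i M => b.cmp ρ M fun j P =>
      Op.add (P - 1 - i) (P - 1 - j) :: k P (P + 1)
  | .sub a b, N, k => a.cmp ρ N fun i M => b.cmp ρ M fun j P =>
      Op.sub (P - 1 - i) (P - 1 - j) :: k P (P + 1)
  | .mul a b, N, k => a.cmp ρ N fun i M => b.cmp ρ M fun j P =>
      Op.mul (P - 1 - i) (P - 1 - j) :: k P (P + 1)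
  | .sc z a, N, k => a.cmp ρ N fun i M => Op.scale z (M - 1 - i) :: k M (M + 1)
  | .neg a, N, k => a.cmp ρ N fun i M => Op.neg (M - 1 - i) :: k M (M + 1)
  | .inv a, N, k => a.cmp ρ N fun i M => Op.inv (M - 1 - i) :: k M (M + 1)
  | .exp a, N, k => a.cmp ρ N fun i M => Op.exp (M - 1 - i) :: k M (M + 1)
  | .log a, N, k => a.cmp ρ N fun i M => Op.log (M - 1 - i) :: k M (M + 1)

/-- statements -/
inductive St where
  | set (i : ℕ) (e : E)
  | pos (e : E)
  | lt (e : E) (B : ℕ)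
  | rball (i : ℕ) (a b : E)

/-- change of a register -/
def upd (σ : ℕ → ℂ) (i : ℕ) (x : ℂ) : ℕ → ℂ := fun j => if j = i then x else σ j

/-- meaning of a program, `Q` holds at the end -/
def Sem : List St → (ℕ → ℂ) → ((ℕ → ℂ) → Prop) → Prop
  | [], σ, Q => Q σ
  | .set i e :: t, σ, Q => e.Ok σ ∧ ∀ v, v = e.ev σ → Sem t (upd σ i v) Q
  | .pos e :: t, σ, Q => e.Ok σ ∧ 0 < (e.ev σ).re ∧ Sem t σ Q
  | .lt e B :: t, σ, Q => e.Ok σ ∧ ‖e.ev σ‖ < (B : ℝ) / 2 ^ 40 ∧ Sem t σ Q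
  | .rball i a b :: t, σ, Q => a.Ok σ ∧ b.Ok σ ∧
      ∀ v, ‖v - a.ev σ‖ ≤ ‖b.ev σ‖ → Sem t (upd σ i v) Q

theorem sem_append {Q : (ℕ → ℂ) → Prop} (B : List St) : ∀ (A : List St) (σ : ℕ → ℂ),
    Sem (A ++ B) σ Q → Sem A σ (fun τ => Sem B τ Q) := by
  intro A
  induction A with
  | nil => intro σ h; exact h
  | cons s t ih =>
    intro σ h
    cases s with
    | set i e => exact ⟨h.1, fun v hv => ih _ (h.2 v hv)⟩
    | pos e => exact ⟨h.1, h.2.1, ih _ h.2.2⟩
    | lt e B => exact ⟨h.1, h.2.1, ih _ h.2.2⟩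
    | rball i a b => exact ⟨h.1, h.2.1, fun v hv => ih _ (h.2.2 v hv)⟩

theorem sem_mono {Q R : (ℕ → ℂ) → Prop} (hQ : ∀ σ, Q σ → R σ) : ∀ (A : List St) (σ : ℕ → ℂ),
    Sem A σ Q → Sem A σ R := by
  intro A
  induction A with
  | nil => intro σ h; exact hQ _ h
  | cons s t ih =>
    intro σ h
    cases s with
    | set i e => exact ⟨h.1, fun v hv => ih _ (h.2 v hv)⟩
    | pos e => exact ⟨h.1, h.2.1, ih _ h.2.2⟩
    | lt e B => exact ⟨h.1, h.2.1, ih _ h.2.2⟩
    | rball i a b => exact ⟨h.1, h.2.1, fun v hv => ih _ (h.2.2 v hv)⟩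

/-- where a register is -/
def look : List (ℕ × ℕ) → ℕ → ℕ
  | [], _ => 0
  | (a, b) :: t, i => bif Nat.beq i a then b else look t i

/-- compilation -/
def cmpK : List St → List (ℕ × ℕ) → ℕ → (List (ℕ × ℕ) → ℕ → List Op) → List Op
  | [], ρ, N, k => k ρ N
  | .set i e :: t, ρ, N, k => e.cmp (look ρ) N fun l M => cmpK t ((i, l) :: ρ) M k
  | .pos e :: t, ρ, N, k => e.cmp (look ρ) N fun l M => Op.pos (M - 1 - l) :: cmpK t ρ M k
  | .lt e B :: t, ρ, N, k => e.cmp (look ρ) N fun l M => Op.lt (M - 1 - l) B :: cmpK t ρ M k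
  | .rball i a b :: t, ρ, N, k => a.cmp (look ρ) N fun l M => b.cmp (look ρ) M fun m P =>
      Op.rball (P - 1 - l) (P - 1 - m) :: cmpK t ((i, P) :: ρ) (P + 1) k

def comp (P : List St) (ρ : List (ℕ × ℕ)) (N : ℕ) : List Op := cmpK P ρ N fun _ _ => []

/-- value number `l` -/
noncomputable def lev (v : List ℂ) (l : ℕ) : ℂ := get v (v.length - 1 - l)

theorem get_append (v : List ℂ) (k : ℕ) : ∀ ws : List ℂ, get (ws ++ v) (ws.length + k) = get v k
  | [] => by simp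
  | w :: ws => by
    have : (w :: ws).length + k = (ws.length + k) + 1 := by simp; omega
    rw [this]
    show get (ws ++ v) (ws.length + k) = _
    exact get_append v k ws

theorem lev_append {v ws : List ℂ} {l : ℕ} (h : l < v.length) : lev (ws ++ v) l = lev v l := by
  unfold lev
  have h1 : (ws ++ v).length - 1 - l = ws.length + (v.length - 1 - l) := by
    rw [List.length_append]
    omega
  rw [h1, get_append]

theorem lev_cons {v : List ℂ} {w : ℂ} {l : ℕ} (h : l < v.length) : lev (w :: v) l = lev v l :=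
  lev_append (ws := [w]) h

theorem lev_top {v : List ℂ} {w : ℂ} : lev (w :: v) v.length = w := by
  unfold lev
  have : (w :: v).length - 1 - v.length = 0 := by simp
  rw [this]
  rfl

/-- the registers are where `ρ` says -/
structure Rel (ρ : ℕ → ℕ) (v : List ℂ) (σ : ℕ → ℂ) : Prop where
  lt : ∀ i, ρ i < v.length
  eq : ∀ i, lev v (ρ i) = σ i

theorem Rel.app {ρ : ℕ → ℕ} {v : List ℂ} {σ : ℕ → ℂ} (h : Rel ρ v σ) (ws : List ℂ) :
    Rel ρ (ws ++ v) σ :=
  ⟨fun i => (h.lt i).trans_le (by rw [List.length_append]; omega), fun i => by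
    rw [lev_append (h.lt i), h.eq]⟩

theorem Rel.upd {ρ : List (ℕ × ℕ)} {v : List ℂ} {σ : ℕ → ℂ} (h : Rel (look ρ) v σ) {i l : ℕ}
    (hl : l < v.length) : Rel (look ((i, l) :: ρ)) v (upd σ i (lev v l)) := by
  constructor
  · intro j
    show (bif Nat.beq j i then l else look ρ j) < _
    cases hj : Nat.beq j i with
    | true => exact hl
    | false => exact h.lt j
  · intro j
    show lev v (bif Nat.beq j i then l else look ρ j) = if j = i then _ else σ j
    cases hj : Nat.beq j i with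
    | true =>
      rw [if_pos (Nat.eq_of_beq_eq_true hj)]
      rfl
    | false =>
      rw [if_neg (Nat.ne_of_beq_eq_false hj)]
      exact h.eq j

/-- **Soundness of the compilation of expressions.** -/
theorem cmp_sound {ρ : ℕ → ℕ} {σ : ℕ → ℂ} : ∀ (e : E) (k : ℕ → ℕ → List Op) (v : List ℂ),
    Rel ρ v σ → Asserts (e.cmp ρ v.length k) v → e.Ok σ ∧
      ∃ (ws : List ℂ) (l : ℕ), l < (ws ++ v).length ∧ lev (ws ++ v) l = e.ev σ ∧
        Asserts (k l (ws ++ v).length) (ws ++ v) := by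
  intro e
  have key : ∀ (v ws : List ℂ) (i : ℕ) (x : ℂ), i < (ws ++ v).length → lev (ws ++ v) i = x →
      get (ws ++ v) ((ws ++ v).length - 1 - i) = x := fun v ws i x _ h => h
  induction e with
  | r i =>
    intro k v h ha
    exact ⟨trivial, [], ρ i, h.lt i, h.eq i, ha⟩
  | c z =>
    intro k v h ha
    refine ⟨trivial, [z.val], v.length, by simp, lev_top, ?_⟩
    exact ha _ rfl
  | add a b iha ihb =>
    intro k v h ha
    obtain ⟨o1, w1, l1, h1, e1, a1⟩ := iha _ v h ha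
    obtain ⟨o2, w2, l2, h2, e2, a2⟩ := ihb _ (w1 ++ v) (h.app w1) a1
    have h1' : l1 < (w2 ++ (w1 ++ v)).length := h1.trans_le (by simp)
    have e1' : lev (w2 ++ (w1 ++ v)) l1 = a.ev σ := by rw [lev_append h1, e1]
    have a3 := a2 (a.ev σ + b.ev σ) (by
      rw [← e1', ← e2]; rfl)
    refine ⟨⟨o1, o2⟩, (a.ev σ + b.ev σ) :: (w2 ++ w1), (w2 ++ (w1 ++ v)).length, ?_, ?_, ?_⟩
    · simp
    · have : ((a.ev σ + b.ev σ) :: (w2 ++ w1)) ++ v = (a.ev σ + b.ev σ) :: (w2 ++ (w1 ++ v)) := by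
        simp
      rw [this]
      exact lev_top
    · have : ((a.ev σ + b.ev σ) :: (w2 ++ w1)) ++ v = (a.ev σ + b.ev σ) :: (w2 ++ (w1 ++ v)) := by
        simp
      rw [this]
      exact a3
  | sub a b iha ihb =>
    intro k v h ha
    obtain ⟨o1, w1, l1, h1, e1, a1⟩ := iha _ v h ha
    obtain ⟨o2, w2, l2, h2, e2, a2⟩ := ihb _ (w1 ++ v) (h.app w1) a1
    have e1' : lev (w2 ++ (w1 ++ v)) l1 = a.ev σ := by rw [lev_append h1, e1]
    have a3 := a2 (a.ev σ - b.ev σ) (by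
      rw [← e1', ← e2]; rfl)
    have e4 : ((a.ev σ - b.ev σ) :: (w2 ++ w1)) ++ v = (a.ev σ - b.ev σ) :: (w2 ++ (w1 ++ v)) := by
      simp
    refine ⟨⟨o1, o2⟩, (a.ev σ - b.ev σ) :: (w2 ++ w1), (w2 ++ (w1 ++ v)).length, ?_, ?_, ?_⟩
    · simp
    · rw [e4]
      exact lev_top
    · rw [e4]
      exact a3
  | mul a b iha ihb =>
    intro k v h ha
    obtain ⟨o1, w1, l1, h1, e1, a1⟩ := iha _ v h ha
    obtain ⟨o2, w2, l2, h2, e2, a2⟩ := ihb _ (w1 ++ v) (h.app w1) a1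
    have e1' : lev (w2 ++ (w1 ++ v)) l1 = a.ev σ := by rw [lev_append h1, e1]
    have a3 := a2 (a.ev σ * b.ev σ) (by
      rw [← e1', ← e2]; rfl)
    have e4 : ((a.ev σ * b.ev σ) :: (w2 ++ w1)) ++ v = (a.ev σ * b.ev σ) :: (w2 ++ (w1 ++ v)) := by
      simp
    refine ⟨⟨o1, o2⟩, (a.ev σ * b.ev σ) :: (w2 ++ w1), (w2 ++ (w1 ++ v)).length, ?_, ?_, ?_⟩
    · simp
    · rw [e4]
      exact lev_top
    · rw [e4]
      exact a3
  | sc z a iha =>
    intro k v h ha
    obtain ⟨o1, w1, l1, h1, e1, a1⟩ := iha _ v h ha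
    have a3 := a1 (z.val * a.ev σ) (by rw [← e1]; rfl)
    exact ⟨o1, (z.val * a.ev σ) :: w1, (w1 ++ v).length, by simp, lev_top, a3⟩
  | neg a iha =>
    intro k v h ha
    obtain ⟨o1, w1, l1, h1, e1, a1⟩ := iha _ v h ha
    have a3 := a1 (-a.ev σ) (by rw [← e1]; rfl)
    exact ⟨o1, (-a.ev σ) :: w1, (w1 ++ v).length, by simp, lev_top, a3⟩
  | inv a iha =>
    intro k v h ha
    obtain ⟨o1, w1, l1, h1, e1, a1⟩ := iha _ v h ha
    have a3 := a1.2 (a.ev σ)⁻¹ (by rw [← e1]; rfl)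
    have a4 : a.ev σ ≠ 0 := by
      have := a1.1
      rwa [← e1]
    exact ⟨⟨o1, a4⟩, (a.ev σ)⁻¹ :: w1, (w1 ++ v).length, by simp, lev_top, a3⟩
  | exp a iha =>
    intro k v h ha
    obtain ⟨o1, w1, l1, h1, e1, a1⟩ := iha _ v h ha
    have a3 := a1 (Complex.exp (a.ev σ)) (by rw [← e1]; rfl)
    exact ⟨o1, Complex.exp (a.ev σ) :: w1, (w1 ++ v).length, by simp, lev_top, a3⟩
  | log a iha =>
    intro k v h ha
    obtain ⟨o1, w1, l1, h1, e1, a1⟩ := iha _ v h ha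
    have a3 := a1.2 (Complex.log (a.ev σ)) (by rw [← e1]; rfl)
    have a4 : a.ev σ ∈ slitPlane := by
      have := a1.1
      rwa [← e1]
    exact ⟨⟨o1, a4⟩, Complex.log (a.ev σ) :: w1, (w1 ++ v).length, by simp, lev_top, a3⟩

/-- **Soundness of the compilation.** -/
theorem cmpK_sound {k : List (ℕ × ℕ) → ℕ → List Op} : ∀ (P : List St) (ρ : List (ℕ × ℕ))
    (v : List ℂ) (σ : ℕ → ℂ), Rel (look ρ) v σ → Asserts (cmpK P ρ v.length k) v →
    Sem P σ (fun τ => ∃ (ws : List ℂ) (ρ' : List (ℕ × ℕ)), Rel (look ρ') (ws ++ v) τ ∧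
      Asserts (k ρ' (ws ++ v).length) (ws ++ v)) := by
  intro P
  have app : ∀ {v ws : List ℂ} {τ : ℕ → ℂ}, (∃ (us : List ℂ) (ρ' : List (ℕ × ℕ)),
      Rel (look ρ') (us ++ (ws ++ v)) τ ∧ Asserts (k ρ' (us ++ (ws ++ v)).length) (us ++ (ws ++ v))) →
      ∃ (ws : List ℂ) (ρ' : List (ℕ × ℕ)), Rel (look ρ') (ws ++ v) τ ∧
      Asserts (k ρ' (ws ++ v).length) (ws ++ v) := by
    rintro v ws τ ⟨us, ρ', h1, h2⟩
    refine ⟨us ++ ws, ρ', ?_, ?_⟩
    · rw [List.append_assoc]; exact h1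
    · rw [List.append_assoc]; exact h2
  induction P with
  | nil => intro ρ v σ h ha; exact ⟨[], ρ, h, ha⟩
  | cons s t ih =>
    intro ρ v σ h ha
    cases s with
    | set i e =>
      obtain ⟨o1, w1, l1, h1, e1, a1⟩ := cmp_sound e _ v h ha
      refine ⟨o1, ?_⟩
      rintro x rfl
      have h2 := (h.app w1).upd (i := i) h1
      rw [e1] at h2
      exact sem_mono (fun _ => app) _ _ (ih _ _ _ h2 a1)
    | pos e =>
      obtain ⟨o1, w1, l1, h1, e1, a1⟩ := cmp_sound e _ v h ha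
      refine ⟨o1, ?_, sem_mono (fun _ => app) _ _ (ih _ _ _ (h.app w1) a1.2)⟩
      rw [← e1]
      exact a1.1
    | lt e B =>
      obtain ⟨o1, w1, l1, h1, e1, a1⟩ := cmp_sound e _ v h ha
      refine ⟨o1, ?_, sem_mono (fun _ => app) _ _ (ih _ _ _ (h.app w1) a1.2)⟩
      rw [← e1]
      exact a1.1
    | rball i a b =>
      obtain ⟨o1, w1, l1, h1, e1, a1⟩ := cmp_sound a _ v h ha
      obtain ⟨o2, w2, l2, h2, e2, a2⟩ := cmp_sound b _ (w1 ++ v) (h.app w1) a1
      have e1' : lev (w2 ++ (w1 ++ v)) l1 = a.ev σ := by rw [lev_append h1, e1]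
      refine ⟨o1, o2, ?_⟩
      intro x hx
      have a3 := a2 x (by
        have g1 : get (w2 ++ (w1 ++ v)) ((w2 ++ (w1 ++ v)).length - 1 - l1) = a.ev σ := e1'
        have g2 : get (w2 ++ (w1 ++ v)) ((w2 ++ (w1 ++ v)).length - 1 - l2) = b.ev σ := e2
        rw [g1, g2]
        exact hx)
      have h3 := ((((h.app w1).app w2).app [x])).upd (i := i) (l := (w2 ++ (w1 ++ v)).length)
        (by simp)
      have e3 : lev ([x] ++ (w2 ++ (w1 ++ v))) (w2 ++ (w1 ++ v)).length = x := lev_top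
      rw [e3] at h3
      have h4 := ih _ _ _ h3 a3
      refine sem_mono ?_ _ _ h4
      rintro τ ⟨us, ρ', h5, h6⟩
      have e4 : us ++ ([x] ++ (w2 ++ (w1 ++ v))) = (us ++ [x] ++ w2 ++ w1) ++ v := by simp
      rw [e4] at h5 h6
      exact ⟨_, ρ', h5, h6⟩

theorem comp_sound {P : List St} {ρ : List (ℕ × ℕ)} {v : List ℂ} {σ : ℕ → ℂ}
    (h : Rel (look ρ) v σ) (ha : Asserts (comp P ρ v.length) v) : Sem P σ (fun _ => True) :=
  sem_mono (fun _ _ => trivial) _ _ (cmpK_sound P ρ v σ h ha)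

/-- the start: four inputs -/
def ρ4 : List (ℕ × ℕ) := [(0, 3), (1, 2), (2, 1), (3, 0)]

/-- the start: three inputs -/
def ρ3 : List (ℕ × ℕ) := [(0, 2), (1, 1), (2, 0)]

/-- the registers at the start -/
def reg4 (a b c d : ℂ) : ℕ → ℂ
  | 0 => a
  | 1 => b
  | 2 => c
  | _ => d

def reg3 (a b c : ℂ) : ℕ → ℂ
  | 0 => a
  | 1 => b
  | _ => c

theorem rel4 (a b c d : ℂ) : Rel (look ρ4) [a, b, c, d] (reg4 a b c d) := by
  refine ⟨?_, ?_⟩
  · intro i
    match i with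
    | 0 => show (3 : ℕ) < 4; omega
    | 1 => show (2 : ℕ) < 4; omega
    | 2 => show (1 : ℕ) < 4; omega
    | 3 => show (0 : ℕ) < 4; omega
    | n + 4 => show (0 : ℕ) < 4; omega
  · intro i
    match i with
    | 0 | 1 | 2 | 3 => rfl
    | n + 4 => rfl

theorem rel3 (a b c : ℂ) : Rel (look ρ3) [a, b, c] (reg3 a b c) := by
  refine ⟨?_, ?_⟩
  · intro i
    match i with
    | 0 => show (2 : ℕ) < 3; omega
    | 1 => show (1 : ℕ) < 3; omega
    | 2 => show (0 : ℕ) < 3; omega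
    | n + 3 => show (0 : ℕ) < 3; omega
  · intro i
    match i with
    | 0 | 1 | 2 => rfl
    | n + 3 => rfl

theorem comp4 {P : List St} {a b c d : ℂ} (h : Asserts (comp P ρ4 4) [a, b, c, d]) :
    Sem P (reg4 a b c d) (fun _ => True) := comp_sound (rel4 a b c d) h

theorem comp3 {P : List St} {a b c : ℂ} (h : Asserts (comp P ρ3 3) [a, b, c]) :
    Sem P (reg3 a b c) (fun _ => True) := comp_sound (rel3 a b c) h

end Pool.Agent.helper63.NF
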