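import Pool.Agent.helper63.RG.Circ

/-!
# Geometry of the state regions

The region is `‖K - T‖ ≤ R ‖K + T‖` (a disc in the right half plane), `‖T ^ 2 - K ^ 2‖ ≤ B`
(a Cassini region), `lo ≤ ‖T‖`.
-/

namespace Pool.Agent.helper63.NF

open Complex Set Metric ComplexConjugate
open Pool.Agent.helper31.IA (Z get)
open Pool.Agent.helper31.IX (Op Asserts)
open Pool.Agent.helper63.RG

/-- the closed region -/
def VV (K R B lo : ℝ) : Set ℂ :=
  {T | ‖(K : ℂ) - T‖ ≤ R * ‖(K : ℂ) + T‖ ∧ ‖T ^ 2 - (K : ℂ) ^ 2‖ ≤ B ∧ lo ≤ ‖T‖}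

private lemma n1 (K : ℝ) (w : ℂ) : ‖(K : ℂ) - conj w‖ = ‖(K : ℂ) - w‖ := by
  have : (K : ℂ) - conj w = conj ((K : ℂ) - w) := by simp
  rw [this, Complex.norm_conj]

private lemma n2 (K : ℝ) (w : ℂ) : ‖(K : ℂ) + conj w‖ = ‖(K : ℂ) + w‖ := by
  have : (K : ℂ) + conj w = conj ((K : ℂ) + w) := by simp
  rw [this, Complex.norm_conj]

private lemma n3 (K : ℝ) (w : ℂ) : ‖(conj w) ^ 2 - (K : ℂ) ^ 2‖ = ‖w ^ 2 - (K : ℂ) ^ 2‖ := by
  have : (conj w) ^ 2 - (K : ℂ) ^ 2 = conj (w ^ 2 - (K : ℂ) ^ 2) := by simp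
  rw [this, Complex.norm_conj]

/-- **From the upper half of the frontier to the region.** -/
theorem region_VV {P2 : List Op} (hg : guard [] [] P2 = true) (hr : realP P2 = true)
    {K R B lo : ℝ} {pre : List ℝ} {nd : ℕ}
    (h : ∀ z ∈ VV K R B lo, (‖(K : ℂ) - z‖ = R * ‖(K : ℂ) + z‖ ∨ ‖z ^ 2 - (K : ℂ) ^ 2‖ = B ∨
      lo = ‖z‖) → 0 ≤ z.im → ∀ post : List ℂ, post.length = nd → (∀ x ∈ post, ‖x‖ ≤ 1) →
      Asserts P2 (inp pre z post)) :
    ∀ z ∈ VV K R B lo, ∀ post : List ℂ, post.length = nd → (∀ x ∈ post, ‖x‖ ≤ 1) →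
      Asserts P2 (inp pre z post) := by
  intro z hz post hp hp1
  have hcirc : ∀ w ∈ VV K R B lo, (‖(K : ℂ) - w‖ = R * ‖(K : ℂ) + w‖ ∨
      ‖w ^ 2 - (K : ℂ) ^ 2‖ = B ∨ lo = ‖w‖) → Asserts P2 (inp pre w post) := by
    intro w hw hor
    rcases le_total 0 w.im with h1 | h1
    · exact h w hw hor h1 post hp hp1
    · refine asserts_conj P2 _ hr ?_
      rw [inp_conj]
      have hpc : ∀ x ∈ post.map conj, ‖x‖ ≤ 1 := by
        intro x hx
        obtain ⟨y, hy, rfl⟩ := List.mem_map.1 hx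
        rw [Complex.norm_conj]
        exact hp1 y hy
      refine h _ ?_ ?_ ?_ _ (by simpa using hp) hpc
      · show ‖(K : ℂ) - conj w‖ ≤ R * ‖(K : ℂ) + conj w‖ ∧ ‖(conj w) ^ 2 - (K : ℂ) ^ 2‖ ≤ B ∧
          lo ≤ ‖conj w‖
        rw [n1, n2, n3, Complex.norm_conj]
        exact hw
      · rw [n1, n2, n3, Complex.norm_conj]
        exact hor
      · simpa using h1
  by_cases hor : ‖(K : ℂ) - z‖ = R * ‖(K : ℂ) + z‖ ∨ ‖z ^ 2 - (K : ℂ) ^ 2‖ = B ∨ lo = ‖z‖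
  · exact hcirc z hz hor
  push Not at hor
  obtain ⟨ho1, ho2, ho3⟩ := hor
  set U : Set ℂ := {w | ‖(K : ℂ) - w‖ < R * ‖(K : ℂ) + w‖ ∧ ‖w ^ 2 - (K : ℂ) ^ 2‖ < B ∧
    lo < ‖w‖} with hU
  have c1 : Continuous fun w : ℂ => ‖(K : ℂ) - w‖ := by fun_prop
  have c2 : Continuous fun w : ℂ => R * ‖(K : ℂ) + w‖ := by fun_prop
  have c3 : Continuous fun w : ℂ => ‖w ^ 2 - (K : ℂ) ^ 2‖ := by fun_prop
  have c4 : Continuous fun w : ℂ => ‖w‖ := continuous_norm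
  have hUo : IsOpen U := by
    have e1 := isOpen_lt c1 c2
    have e2 := isOpen_lt c3 (continuous_const (y := B))
    have e3 := isOpen_lt (continuous_const (y := lo)) c4
    exact e1.inter (e2.inter e3)
  have hVc : IsClosed (VV K R B lo) := by
    have e1 := isClosed_le c1 c2
    have e2 := isClosed_le c3 (continuous_const (y := B))
    have e3 := isClosed_le (continuous_const (y := lo)) c4
    exact e1.inter (e2.inter e3)
  have hUV : closure U ⊆ VV K R B lo := by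
    refine closure_minimal ?_ hVc
    rintro w ⟨h1, h2, h3⟩
    exact ⟨h1.le, h2.le, h3.le⟩
  have hUb : Bornology.IsBounded U := by
    refine (isBounded_closedBall (x := (0 : ℂ)) (r := 1 + (B + K ^ 2))).subset ?_
    rintro w ⟨-, h2, -⟩
    rw [mem_closedBall, dist_eq_norm, sub_zero]
    have h3 : ‖w‖ ^ 2 ≤ B + K ^ 2 := by
      have e1 : w ^ 2 = (w ^ 2 - (K : ℂ) ^ 2) + (K : ℂ) ^ 2 := by ring
      have e2 : ‖w ^ 2‖ ≤ ‖w ^ 2 - (K : ℂ) ^ 2‖ + ‖(K : ℂ) ^ 2‖ := by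
        conv_lhs => rw [e1]
        exact norm_add_le _ _
      rw [norm_pow, norm_pow, Complex.norm_real, Real.norm_eq_abs, sq_abs] at e2
      linarith
    nlinarith [norm_nonneg w, sq_nonneg (‖w‖ - 1)]
  have hzU : z ∈ U :=
    ⟨lt_of_le_of_ne hz.1 ho1, lt_of_le_of_ne hz.2.1 ho2, lt_of_le_of_ne hz.2.2 ho3⟩
  have hne : U.Nonempty := ⟨z, hzU⟩
  have hfr : ∀ w ∈ frontier U, w ∈ VV K R B lo ∧ (‖(K : ℂ) - w‖ = R * ‖(K : ℂ) + w‖ ∨
      ‖w ^ 2 - (K : ℂ) ^ 2‖ = B ∨ lo = ‖w‖) := by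
    intro w hw
    have hwV := hUV (frontier_subset_closure hw)
    refine ⟨hwV, ?_⟩
    by_contra hcon
    push Not at hcon
    have hmem : w ∈ U := ⟨lt_of_le_of_ne hwV.1 hcon.1, lt_of_le_of_ne hwV.2.1 hcon.2.1,
      lt_of_le_of_ne hwV.2.2 hcon.2.2⟩
    rw [hUo.frontier_eq] at hw
    exact hw.2 hmem
  have key := maxP (U := U) hUb hne P2 [] []
    (pre.map (fun t : ℝ => fun _ : ℂ => (t : ℂ)) ++ (fun w => w) :: post.map (fun t _ => t))
    ⟨?_, by simp, by simp⟩ hg ?_ z (subset_closure hzU)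
  · rwa [inp_at] at key
  · intro f hf
    rw [List.mem_append, List.mem_cons] at hf
    rcases hf with hf | rfl | hf
    · obtain ⟨t, -, rfl⟩ := List.mem_map.1 hf
      exact diffContOnCl_const
    · exact differentiable_id.diffContOnCl
    · obtain ⟨t, -, rfl⟩ := List.mem_map.1 hf
      exact diffContOnCl_const
  · intro w hw
    rw [inp_at]
    have h3 := hfr w hw
    exact hcirc w h3.1 h3.2

private lemma sq_sub (K : ℝ) (T : ℂ) :
    ‖(K : ℂ) - T‖ ^ 2 = T.re ^ 2 + T.im ^ 2 - 2 * K * T.re + K ^ 2 := by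
  rw [← Complex.normSq_eq_norm_sq, Complex.normSq_apply]
  simp
  ring

private lemma sq_add (K : ℝ) (T : ℂ) :
    ‖(K : ℂ) + T‖ ^ 2 = T.re ^ 2 + T.im ^ 2 + 2 * K * T.re + K ^ 2 := by
  rw [← Complex.normSq_eq_norm_sq, Complex.normSq_apply]
  simp
  ring

private lemma sq_T (T : ℂ) : ‖T‖ ^ 2 = T.re ^ 2 + T.im ^ 2 := by
  rw [← Complex.normSq_eq_norm_sq, Complex.normSq_apply]
  ring

private lemma sq_ineq {K R : ℝ} {T : ℂ}
    (h : ‖(K : ℂ) - T‖ ≤ R * ‖(K : ℂ) + T‖) :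
    T.re ^ 2 + T.im ^ 2 - 2 * K * T.re + K ^ 2 ≤
      R ^ 2 * (T.re ^ 2 + T.im ^ 2 + 2 * K * T.re + K ^ 2) := by
  rw [← sq_sub, ← sq_add, ← mul_pow]
  exact pow_le_pow_left₀ (norm_nonneg _) h 2

/-- the disc is in the right half plane -/
theorem re_pos_disc {K R : ℝ} (hK : 0 < K) (hR0 : 0 ≤ R) (hR1 : R < 1) {T : ℂ}
    (h : ‖(K : ℂ) - T‖ ≤ R * ‖(K : ℂ) + T‖) : 0 < T.re := by
  have h1 := sq_ineq h
  by_contra hcon
  push Not at hcon
  have h2 : R ^ 2 < 1 := by nlinarith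
  have h3 : 0 ≤ T.re ^ 2 + T.im ^ 2 + 2 * K * T.re + K ^ 2 := by
    have : T.re ^ 2 + T.im ^ 2 + 2 * K * T.re + K ^ 2 = (T.re + K) ^ 2 + T.im ^ 2 := by ring
    rw [this]; positivity
  have h4 : R ^ 2 * (T.re ^ 2 + T.im ^ 2 + 2 * K * T.re + K ^ 2) ≤
      T.re ^ 2 + T.im ^ 2 + 2 * K * T.re + K ^ 2 := by nlinarith
  have h5 : 0 ≤ 4 * K * T.re := by linarith
  have h6 : T.re = 0 := by
    have : 0 ≤ T.re := by
      by_contra h7
      push Not at h7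
      have : 4 * K * T.re < 0 := by nlinarith [mul_neg_of_pos_of_neg hK h7]
      linarith
    linarith
  rw [h6] at h1
  have h7 : 0 < T.im ^ 2 + K ^ 2 := by positivity
  nlinarith

/-- the left end of the disc -/
theorem left_end {K R : ℝ} (hK : 0 < K) (hR0 : 0 ≤ R) {T : ℂ}
    (h : ‖(K : ℂ) - T‖ ≤ R * ‖(K : ℂ) + T‖) : K * (1 - R) ≤ (1 + R) * ‖T‖ := by
  have hKn : ‖(K : ℂ)‖ = K := by
    rw [Complex.norm_real, Real.norm_eq_abs, abs_of_pos hK]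
  have h1 : K - ‖T‖ ≤ ‖(K : ℂ) - T‖ := by
    have := norm_sub_norm_le (K : ℂ) T
    rwa [hKn] at this
  have h2 : ‖(K : ℂ) + T‖ ≤ K + ‖T‖ := by
    have := norm_add_le (K : ℂ) T
    rwa [hKn] at this
  have h3 := mul_le_mul_of_nonneg_left h2 hR0
  nlinarith

/-- the disc with its centre -/
theorem disc_centre {K R : ℝ} (hK : 0 < K) (hR0 : 0 ≤ R) (hR1 : R < 1) {T : ℂ}
    (h : ‖(K : ℂ) - T‖ ≤ R * ‖(K : ℂ) + T‖) :
    ‖(((1 - R) / K : ℝ) : ℂ) * ((R : ℂ) + 1) * T - ((R : ℂ) * (R : ℂ) + 1)‖ ≤ 2 * R := by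
  have h1 := sq_ineq h
  obtain ⟨W, hW⟩ : ∃ W, W = (1 - R) / K := ⟨_, rfl⟩
  have hWK : W * K = 1 - R := by rw [hW]; field_simp
  rw [← hW]
  refine (pow_le_pow_iff_left₀ (norm_nonneg _) (by positivity) (two_ne_zero)).1 ?_
  have e : ‖((W : ℝ) : ℂ) * ((R : ℂ) + 1) * T - ((R : ℂ) * (R : ℂ) + 1)‖ ^ 2 =
      (W * (R + 1) * T.re - (R * R + 1)) ^ 2 + (W * (R + 1) * T.im) ^ 2 := by
    rw [← Complex.normSq_eq_norm_sq, Complex.normSq_apply]
    simp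
    ring
  rw [e]
  have hR2 : 0 ≤ 1 - R ^ 2 := by nlinarith
  have hK2 : 0 < K ^ 2 := by positivity
  refine le_of_mul_le_mul_left ?_ hK2
  have e2 : K ^ 2 * ((W * (R + 1) * T.re - (R * R + 1)) ^ 2 + (W * (R + 1) * T.im) ^ 2) =
      ((W * K) * (R + 1) * T.re - K * (R * R + 1)) ^ 2 + ((W * K) * (R + 1) * T.im) ^ 2 := by
    ring
  rw [e2, hWK]
  have e3 : ((1 - R) * (R + 1) * T.re - K * (R * R + 1)) ^ 2 + ((1 - R) * (R + 1) * T.im) ^ 2 -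
      K ^ 2 * (2 * R) ^ 2 = (1 - R ^ 2) * ((T.re ^ 2 + T.im ^ 2 - 2 * K * T.re + K ^ 2) -
      R ^ 2 * (T.re ^ 2 + T.im ^ 2 + 2 * K * T.re + K ^ 2)) := by ring
  have e4 := mul_nonneg hR2 (sub_nonneg.2 h1)
  nlinarith

/-- **The upper half of the circle.** -/
theorem circ_upper {K R : ℝ} (hK : 0 < K) (hR0 : 0 < R) (hR1 : R < 1) {T : ℂ}
    (h : ‖(K : ℂ) - T‖ = R * ‖(K : ℂ) + T‖) (him : 0 ≤ T.im) :
    ∃ c s : ℝ, 0 ≤ c ∧ 0 ≤ s ∧ c ^ 2 + s ^ 2 = 1 ∧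
      T * ((1 + (R : ℂ)) * (c : ℂ) + I * (s : ℂ) * (1 - (R : ℂ))) =
        (K : ℂ) * ((1 - (R : ℂ)) * (c : ℂ) + I * (s : ℂ) * (1 + (R : ℂ))) := by
  have hre := re_pos_disc hK hR0.le hR1 h.le
  have hne : (K : ℂ) + T ≠ 0 := by
    intro h0
    have := congrArg Complex.re h0
    simp at this
    linarith
  have hn0 : 0 < ‖(K : ℂ) + T‖ := norm_pos_iff.2 hne
  obtain ⟨w, hw⟩ : ∃ w, w = ((K : ℂ) - T) / ((K : ℂ) + T) := ⟨_, rfl⟩
  have hwn : ‖w‖ = R := by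
    rw [hw, norm_div, h]
    field_simp
  have hwe : w * ((K : ℂ) + T) = (K : ℂ) - T := by
    rw [hw]; field_simp
  -- real and imaginary parts
  obtain ⟨p, hp⟩ : ∃ p, p = w.re / R := ⟨_, rfl⟩
  obtain ⟨r, hr⟩ : ∃ r, r = -w.im / R := ⟨_, rfl⟩
  have hpr : p ^ 2 + r ^ 2 = 1 := by
    have e1 : w.re ^ 2 + w.im ^ 2 = R ^ 2 := by rw [← sq_T, hwn]
    rw [hp, hr]
    field_simp
    linarith
  have hwim : w.im ≤ 0 := by
    have e1 := congrArg Complex.re hwe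
    have e2 := congrArg Complex.im hwe
    simp at e1 e2
    -- w.re*(K+x) - w.im*y = K - x ; w.re*y + w.im*(K+x) = -y
    by_contra hcon
    push Not at hcon
    have hx : 0 < K + T.re := by linarith
    have e3 : w.im * ((K + T.re) ^ 2 + T.im ^ 2) = -(2 * K * T.im) := by
      have : w.im * ((K + T.re) ^ 2 + T.im ^ 2) =
        (w.re * T.im + w.im * (K + T.re)) * (K + T.re) -
        (w.re * (K + T.re) - w.im * T.im) * T.im := by ring
      rw [this, e1, e2]; ring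
    have e4 : 0 < w.im * ((K + T.re) ^ 2 + T.im ^ 2) := by positivity
    have e5 : 0 ≤ 2 * K * T.im := by positivity
    linarith
  have hr0 : 0 ≤ r := by
    rw [hr]
    exact div_nonneg (by linarith) hR0.le
  have hp1 : p ≤ 1 := by nlinarith [sq_nonneg r]
  have hp2 : -1 ≤ p := by nlinarith [sq_nonneg r]
  refine ⟨Real.sqrt ((1 + p) / 2), Real.sqrt ((1 - p) / 2), Real.sqrt_nonneg _,
    Real.sqrt_nonneg _, ?_, ?_⟩
  · rw [Real.sq_sqrt (by linarith), Real.sq_sqrt (by linarith)]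
    ring
  obtain ⟨c, hc⟩ : ∃ c, c = Real.sqrt ((1 + p) / 2) := ⟨_, rfl⟩
  obtain ⟨s, hs⟩ : ∃ s, s = Real.sqrt ((1 - p) / 2) := ⟨_, rfl⟩
  rw [← hc, ← hs]
  have hc2 : c ^ 2 = (1 + p) / 2 := by rw [hc, Real.sq_sqrt (by linarith)]
  have hs2 : s ^ 2 = (1 - p) / 2 := by rw [hs, Real.sq_sqrt (by linarith)]
  have hcs : 2 * (c * s) = r := by
    have e1 : (2 * (c * s)) ^ 2 = r ^ 2 := by
      have : (2 * (c * s)) ^ 2 = 4 * (c ^ 2 * s ^ 2) := by ring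
      rw [this, hc2, hs2]; nlinarith
    have hcn : 0 ≤ c := by rw [hc]; exact Real.sqrt_nonneg _
    have hsn : 0 ≤ s := by rw [hs]; exact Real.sqrt_nonneg _
    exact (pow_left_inj₀ (by positivity) hr0 two_ne_zero).1 e1
  have hwc : w = (R : ℂ) * ((c : ℂ) - I * (s : ℂ)) ^ 2 := by
    apply Complex.ext
    · have : (((R : ℂ) * ((c : ℂ) - I * (s : ℂ)) ^ 2)).re = R * (c ^ 2 - s ^ 2) := by
        simp [pow_two]
      rw [this, hc2, hs2, hp]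
      field_simp
      ring
    · have : (((R : ℂ) * ((c : ℂ) - I * (s : ℂ)) ^ 2)).im = -(R * (2 * (c * s))) := by
        simp [pow_two]
        ring
      rw [this, hcs, hr]
      field_simp
  have hone : ((c : ℂ) + I * (s : ℂ)) * ((c : ℂ) - I * (s : ℂ)) = 1 := by
    have e1 : ((c : ℂ) + I * (s : ℂ)) * ((c : ℂ) - I * (s : ℂ)) = ((c ^ 2 + s ^ 2 : ℝ) : ℂ) := by
      push_cast
      linear_combination (-(s : ℂ) ^ 2) * I_mul_I
    rw [e1, hc2, hs2]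
    push_cast
    ring
  have hkey : ((c : ℂ) + I * (s : ℂ)) * w = (R : ℂ) * ((c : ℂ) - I * (s : ℂ)) := by
    rw [hwc]
    linear_combination (R : ℂ) * ((c : ℂ) - I * (s : ℂ)) * hone
  linear_combination (-((K : ℂ) + T)) * hkey + ((c : ℂ) + I * (s : ℂ)) * hwe

/-- the two charts of the upper half of the circle: `η = ε s`, `s ≤ S`, or `η = ε / g`, `g ≤ G` -/
theorem circ_charts {K R ε S G : ℝ} (hK : 0 < K) (hR0 : 0 < R) (hR1 : R < 1) (hε : 0 < ε)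
    (hS : 0 < S) (hSG : 1 ≤ S * G) {T : ℂ}
    (h : ‖(K : ℂ) - T‖ = R * ‖(K : ℂ) + T‖) (him : 0 ≤ T.im) :
    (∃ s : ℝ, 0 ≤ s ∧ s ≤ S ∧
      T * ((1 + (R : ℂ)) + I * ((ε : ℂ) * (s : ℂ)) * (((1 - R) / K : ℝ) : ℂ)) =
        (K : ℂ) * (K : ℂ) * (((1 - R) / K : ℝ) : ℂ) + I * ((ε : ℂ) * (s : ℂ)) * (1 + (R : ℂ))) ∨
    (∃ g : ℝ, 0 ≤ g ∧ g ≤ G ∧
      T * ((1 + (R : ℂ)) * (g : ℂ) + I * ((ε : ℂ) * (((1 - R) / K : ℝ) : ℂ))) =
        (K : ℂ) * (K : ℂ) * (((1 - R) / K : ℝ) : ℂ) * (g : ℂ) + I * ((ε : ℂ) * (1 + (R : ℂ)))) := by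
  obtain ⟨c, s, hc, hs, hcs, e⟩ := circ_upper hK hR0 hR1 h him
  have hG : 0 < G := by
    by_contra hcon
    push Not at hcon
    nlinarith
  obtain ⟨W, hW⟩ : ∃ W, W = (1 - R) / K := ⟨_, rfl⟩
  have hWK : (W : ℂ) * (K : ℂ) = 1 - (R : ℂ) := by
    have : W * K = 1 - R := by rw [hW]; field_simp
    exact_mod_cast this
  rw [← hW]
  have hKc : (K : ℂ) ≠ 0 := by exact_mod_cast hK.ne'
  have hεc : (ε : ℂ) ≠ 0 := by exact_mod_cast hε.ne'
  by_cases hlt : 0 < c ∧ K * s ≤ S * (c * ε)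
  · left
    obtain ⟨hc0, hle⟩ := hlt
    refine ⟨K * s / (c * ε), by positivity, ?_, ?_⟩
    · rw [div_le_iff₀ (by positivity)]
      exact hle
    · have hcc : (c : ℂ) ≠ 0 := by exact_mod_cast hc0.ne'
      have e1 : (ε : ℂ) * ((K * s / (c * ε) : ℝ) : ℂ) * (c : ℂ) = (K : ℂ) * (s : ℂ) := by
        push_cast
        field_simp
      obtain ⟨σ, hσ⟩ : ∃ σ, σ = (ε : ℂ) * ((K * s / (c * ε) : ℝ) : ℂ) := ⟨_, rfl⟩
      rw [← hσ] at e1 ⊢
      apply mul_right_cancel₀ hcc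
      linear_combination e + (T * I * (W : ℂ) - I * (1 + (R : ℂ))) * e1 +
        (T * I * (s : ℂ) - (K : ℂ) * (c : ℂ)) * hWK
  · right
    have hs0 : 0 < s := by
      rcases hs.eq_or_lt with h0 | h0
      · exfalso
        apply hlt
        rw [← h0] at hcs
        have hc0 : 0 < c := by
          rcases hc.eq_or_lt with h1 | h1
          · rw [← h1] at hcs; norm_num at hcs
          · exact h1
        refine ⟨hc0, ?_⟩
        rw [← h0, mul_zero]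
        positivity
      · exact h0
    refine ⟨ε * c / (K * s), by positivity, ?_, ?_⟩
    · rw [div_le_iff₀ (by positivity)]
      rcases hc.eq_or_lt with h0 | h0
      · rw [← h0, mul_zero]
        positivity
      · have h2 : S * (c * ε) < K * s := by
          by_contra hcon
          push Not at hcon
          exact hlt ⟨h0, hcon⟩
        have h3 : S * G * (ε * c) ≤ G * (K * s) := by nlinarith
        have h4 : ε * c ≤ S * G * (ε * c) := by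
          have : 0 < ε * c := by positivity
          nlinarith
        linarith
    · have hsc : (s : ℂ) ≠ 0 := by exact_mod_cast hs0.ne'
      have e1 : ((ε * c / (K * s) : ℝ) : ℂ) * ((K : ℂ) * (s : ℂ)) = (ε : ℂ) * (c : ℂ) := by
        push_cast
        field_simp
      obtain ⟨σ, hσ⟩ : ∃ σ, σ = ((ε * c / (K * s) : ℝ) : ℂ) := ⟨_, rfl⟩
      rw [← hσ] at e1 ⊢
      have hKs : (K : ℂ) * (s : ℂ) ≠ 0 := mul_ne_zero hKc hsc
      apply mul_right_cancel₀ hKs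
      linear_combination (ε : ℂ) * e + (T * (1 + (R : ℂ)) - (K : ℂ) * (K : ℂ) * (W : ℂ)) * e1 +
        (T * I * (ε : ℂ) * (s : ℂ) - (K : ℂ) * (ε : ℂ) * (c : ℂ)) * hWK

/-- **The inner arc.** -/
theorem inner_arc {r : ℝ} (hr : 0 < r) {T : ℂ} (h : ‖T‖ = r) (hre : 0 < T.re) (him : 0 ≤ T.im) :
    ∃ s : ℝ, 0 ≤ s ∧ s ≤ 1 ∧ T = (r : ℂ) * ((I * (s : ℂ) + 1) * (1 - I * (s : ℂ))⁻¹) := by
  obtain ⟨x, hx⟩ : ∃ x, x = T.re := ⟨_, rfl⟩
  obtain ⟨y, hy⟩ : ∃ y, y = T.im := ⟨_, rfl⟩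
  have hT : T = (x : ℂ) + I * (y : ℂ) := by
    apply Complex.ext
    · simp [hx]
    · simp [hy]
  have hn : x ^ 2 + y ^ 2 = r ^ 2 := by rw [hx, hy, ← sq_T, h]
  rw [← hx] at hre
  rw [← hy] at him
  have hyr : y ≤ r := by nlinarith [sq_nonneg x]
  have hrx : 0 < r + x := by linarith
  refine ⟨y / (r + x), by positivity, ?_, ?_⟩
  · rw [div_le_one hrx]
    linarith
  · have e1 : y / (r + x) * (r + x) = y := by field_simp
    obtain ⟨s, hs⟩ : ∃ s, s = y / (r + x) := ⟨_, rfl⟩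
    rw [← hs] at e1 ⊢
    have hd : 1 - I * (s : ℂ) ≠ 0 := by
      intro h0
      have := congrArg Complex.re h0
      simp at this
    have e1c : (s : ℂ) * ((r : ℂ) + (x : ℂ)) = (y : ℂ) := by exact_mod_cast e1
    have e2c : (x : ℂ) ^ 2 + (y : ℂ) ^ 2 = (r : ℂ) ^ 2 := by exact_mod_cast hn
    have hrc : (r : ℂ) + (x : ℂ) ≠ 0 := by
      have : ((r + x : ℝ) : ℂ) ≠ 0 := by exact_mod_cast hrx.ne'
      simpa using this
    rw [← mul_assoc, eq_mul_inv_iff_mul_eq₀ hd, hT]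
    apply mul_right_cancel₀ hrc
    linear_combination (-I * ((x : ℂ) + I * (y : ℂ)) - (r : ℂ) * I) * e1c + e2c -
      (y : ℂ) ^ 2 * I_mul_I

/-- principal root -/
theorem half_exp {z : ℂ} (hz : z ∈ slitPlane) :
    0 < (exp (1 / 2 * log z)).re ∧ exp (1 / 2 * log z) ^ 2 = z := by
  have hz0 : z ≠ 0 := slitPlane_ne_zero hz
  have harg := mem_slitPlane_iff_arg.1 hz
  constructor
  · rw [exp_re]
    have e1 : (1 / 2 * log z).im = arg z / 2 := by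
      have e2 : (1 / 2 * log z : ℂ) = ((1 / 2 : ℝ) : ℂ) * log z := by push_cast; ring
      rw [e2, im_ofReal_mul, log_im]
      ring
    rw [e1]
    refine mul_pos (Real.exp_pos _) (Real.cos_pos_of_mem_Ioo ⟨?_, ?_⟩)
    · have := neg_pi_lt_arg z
      linarith
    · have := lt_of_le_of_ne (arg_le_pi z) harg.1
      linarith
  · rw [← exp_nat_mul]
    have : ((2 : ℕ) : ℂ) * (1 / 2 * log z) = log z := by push_cast; ring
    rw [this, exp_log hz0]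

/-- **The outer arc.** `T ^ 2 = K ^ 2 + B e^{iφ}`, `φ ≤ π/2` or `T ^ 2 = K ^ 2 - B e^{-iψ}`, `ψ ≤ π/2`. -/
theorem outer_arc {K B : ℝ} (hB : 0 < B) {T : ℂ} (h : ‖T ^ 2 - (K : ℂ) ^ 2‖ = B)
    (hre : 0 < T.re) (him : 0 ≤ T.im) :
    (∃ φ : ℝ, 0 ≤ φ ∧ φ ≤ Real.pi / 2 ∧ T ^ 2 = (K : ℂ) ^ 2 + (B : ℂ) * exp (I * (φ : ℂ))) ∨
    (∃ ψ : ℝ, 0 ≤ ψ ∧ ψ ≤ Real.pi / 2 ∧ T ^ 2 = (K : ℂ) ^ 2 - (B : ℂ) * exp (-I * (ψ : ℂ))) := by
  obtain ⟨w, hw⟩ : ∃ w, w = T ^ 2 - (K : ℂ) ^ 2 := ⟨_, rfl⟩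
  have him' : 0 ≤ w.im := by
    have e1 : w.im = 2 * (T.re * T.im) := by
      rw [hw]
      simp [pow_two]
      ring
    rw [e1]
    positivity
  have harg0 : 0 ≤ arg w := arg_nonneg_iff.2 him'
  have hwe : w = (B : ℂ) * exp ((arg w : ℂ) * I) := by
    have := norm_mul_exp_arg_mul_I w
    rw [hw, h, ← hw] at this
    exact this.symm
  have hT2 : T ^ 2 = (K : ℂ) ^ 2 + w := by rw [hw]; ring
  rcases le_or_gt (arg w) (Real.pi / 2) with h1 | h1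
  · left
    refine ⟨arg w, harg0, h1, ?_⟩
    rw [hT2, mul_comm I]
    congr 1
  · right
    refine ⟨Real.pi - arg w, by linarith [arg_le_pi w], by linarith, ?_⟩
    rw [hT2]
    have e1 : exp (-I * ((Real.pi - arg w : ℝ) : ℂ)) = -exp ((arg w : ℂ) * I) := by
      have : -I * ((Real.pi - arg w : ℝ) : ℂ) = (arg w : ℂ) * I - (Real.pi : ℂ) * I := by
        push_cast; ring
      rw [this, exp_sub, exp_pi_mul_I]
      ring
    rw [e1]
    linear_combination hwe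

theorem root_D {T z : ℂ} (hz : z ∈ slitPlane) (h : T ^ 2 = z) (hre : 0 < T.re) :
    T = exp (1 / 2 * log z) := by
  obtain ⟨h1, h2⟩ := half_exp hz
  have h3 : T ^ 2 = exp (1 / 2 * log z) ^ 2 := by rw [h, h2]
  rcases sq_eq_sq_iff_eq_or_eq_neg.1 h3 with h4 | h4
  · exact h4
  · exfalso
    rw [h4, neg_re] at hre
    linarith

theorem root_E {T z : ℂ} (hz : z ∈ slitPlane) (h : T ^ 2 = -z) (him : 0 ≤ T.im) :
    T = I * exp (1 / 2 * log z) := by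
  obtain ⟨h1, h2⟩ := half_exp hz
  have h3 : T ^ 2 = (I * exp (1 / 2 * log z)) ^ 2 := by rw [mul_pow, h, h2, I_sq]; ring
  rcases sq_eq_sq_iff_eq_or_eq_neg.1 h3 with h4 | h4
  · exact h4
  · exfalso
    rw [h4, neg_im, I_mul_im] at him
    linarith

end Pool.Agent.helper63.NF
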