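import Pool.Agent.helper63.NF.Fact

/-!
# The link in the T form
-/

namespace Pool.Agent.helper63.NF

open Complex
open Pool.Agent.helper12.RS

variable {e κ : ℝ}

/-- `log (1 + exp (-eκ))` -/
noncomputable def LM (e κ : ℝ) : ℝ := Real.log (1 + Real.exp (-(e * κ)))

theorem LA_eq (e κ : ℝ) : LA e κ = e * κ / 2 + LM e κ := by
  unfold LA LM
  have h1 : 2 * Real.cosh (e * κ / 2) = Real.exp (e * κ / 2) * (1 + Real.exp (-(e * κ))) := by
    rw [Real.cosh_eq, mul_add, ← Real.exp_add, mul_one]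
    have : e * κ / 2 + -(e * κ) = -(e * κ / 2) := by ring
    rw [this]
    ring
  rw [h1, Real.log_mul (Real.exp_pos _).ne' (by positivity), Real.log_exp]

/-- **The radicand.** -/
theorem Sn_form (he : 0 < e) {y l χ W A : ℂ}
    (hW : W = exp ((κ : ℂ) + ((l - ((e * κ : ℝ) : ℂ)) + log (1 + exp (-l) * χ) - log (1 - χ)) *
      ((1 / e : ℝ) : ℂ)))
    (hA : A = exp (((l - ((e * κ : ℝ) : ℂ)) - log (1 - χ) - log (1 + exp (-l) * χ) +
      2 * (lc l - (LM e κ : ℂ))) * ((1 / e : ℝ) : ℂ))) :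
    Sn e κ y l χ = 1 + (Hh κ : ℂ) ^ 2 * (W * A + A) + y / e * W := by
  have he0 : (e : ℂ) ≠ 0 := by exact_mod_cast he.ne'
  unfold Sn
  have e1 : exp (-(2 * ((LA e κ : ℂ) + lG l χ)) / e) = W * A := by
    rw [hW, hA, ← Complex.exp_add, LA_eq]
    congr 1
    unfold lG
    push_cast
    field_simp
    ring
  have e2 : exp (-(2 * (LA e κ : ℂ) + lG l χ + lF l χ) / e) = A := by
    rw [hA, LA_eq]
    congr 1
    unfold lG lF
    push_cast
    field_simp
    ring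
  have e3 : exp ((lF l χ - lG l χ) / e) = W := by
    rw [hW]
    congr 1
    unfold lG lF
    push_cast
    field_simp
    ring
  rw [e1, e2, e3]

/-- `exp κ Q - 1 = exp κ (T + K)` -/
theorem q_TK (κ : ℝ) (T : ℂ) : (Real.exp κ : ℂ) * ((Real.cosh κ : ℂ) + T) - 1 =
    (Real.exp κ : ℂ) * (T + (Real.sinh κ : ℂ)) := by
  have h1 : Real.exp κ * (Real.cosh κ - Real.sinh κ) = 1 := by
    rw [Real.cosh_sub_sinh, ← Real.exp_add, add_neg_cancel, Real.exp_zero]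
  have h2 : (Real.exp κ : ℂ) * ((Real.cosh κ : ℂ) - (Real.sinh κ : ℂ)) = 1 := by exact_mod_cast h1
  linear_combination h2

theorem exp_qi (κ : ℝ) : (Real.exp κ : ℂ) * (Real.exp (-κ) : ℂ) = 1 := by
  have : Real.exp κ * Real.exp (-κ) = 1 := by rw [← Real.exp_add, add_neg_cancel, Real.exp_zero]
  exact_mod_cast this

theorem c_K (κ : ℝ) : (Real.cosh κ : ℂ) + (Real.sinh κ : ℂ) = (Real.exp κ : ℂ) := by
  exact_mod_cast Real.cosh_add_sinh κ

/-- the inverse of `Ts + K` -/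
theorem p_TsK {T u p : ℂ} (hQ : (Real.cosh κ : ℂ) + T ≠ 0) (hu : u = ((Real.cosh κ : ℂ) + T)⁻¹)
    (hTK : T + (Real.sinh κ : ℂ) ≠ 0)
    (hp : p = (T + (Real.sinh κ : ℂ))⁻¹ * ((Real.exp (-κ) : ℂ) * ((Real.cosh κ : ℂ) + T))) :
    ((Real.cosh κ : ℂ) - u + (Real.sinh κ : ℂ)) * p = 1 := by
  obtain ⟨Q, hQd⟩ : ∃ Q, Q = (Real.cosh κ : ℂ) + T := ⟨_, rfl⟩
  have h1 := q_TK κ T
  rw [← hQd] at hQ hu hp h1
  have h2 : u * Q = 1 := by rw [hu, inv_mul_cancel₀ hQ]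
  have h3 : (T + (Real.sinh κ : ℂ))⁻¹ * (T + (Real.sinh κ : ℂ)) = 1 := inv_mul_cancel₀ hTK
  have h4 := exp_qi κ
  have h5 := c_K κ
  rw [hp]
  have h6 : ((Real.cosh κ : ℂ) - u + (Real.sinh κ : ℂ)) * Q =
      (Real.exp κ : ℂ) * (T + (Real.sinh κ : ℂ)) := by
    linear_combination h1 - h2 + Q * h5
  calc ((Real.cosh κ : ℂ) - u + (Real.sinh κ : ℂ)) *
        ((T + (Real.sinh κ : ℂ))⁻¹ * ((Real.exp (-κ) : ℂ) * Q)) =
      (((Real.cosh κ : ℂ) - u + (Real.sinh κ : ℂ)) * Q) * (T + (Real.sinh κ : ℂ))⁻¹ *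
        (Real.exp (-κ) : ℂ) := by ring
    _ = (T + (Real.sinh κ : ℂ))⁻¹ * (T + (Real.sinh κ : ℂ)) * ((Real.exp κ : ℂ) *
        (Real.exp (-κ) : ℂ)) := by rw [h6]; ring
    _ = 1 := by rw [h3, h4, one_mul]

/-- logarithm of the product with the root -/
theorem log_root {a S : ℂ} (ha : 0 < a.re) (hS : 0 < S.re) :
    log (a * exp (1 / 2 * log S)) = log a + 1 / 2 * log S ∧
      (a * exp (1 / 2 * log S)) ^ 2 = a ^ 2 * S := by
  have ha0 := ha
  have hane : a ≠ 0 := by rintro rfl; exact lt_irrefl _ ha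
  have hSne : S ≠ 0 := by rintro rfl; exact lt_irrefl _ hS
  have h1 : |arg a| < Real.pi / 2 := Complex.abs_arg_lt_pi_div_two_iff.2 (Or.inl ha)
  have h2 : |arg S| < Real.pi / 2 := Complex.abs_arg_lt_pi_div_two_iff.2 (Or.inl hS)
  have h1' := abs_lt.1 h1
  have h2' := abs_lt.1 h2
  have hpi := Real.pi_pos
  have e1 : a * exp (1 / 2 * log S) = exp (log a + 1 / 2 * log S) := by
    rw [Complex.exp_add, Complex.exp_log hane]
  have him : (log a + 1 / 2 * log S).im = arg a + arg S / 2 := by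
    have : (1 / 2 : ℂ) * log S = ((1 / 2 : ℝ) : ℂ) * log S := by push_cast; ring
    rw [this, Complex.add_im, Complex.im_ofReal_mul, Complex.log_im, Complex.log_im]
    ring
  refine ⟨?_, ?_⟩
  · rw [e1, Complex.log_exp]
    · rw [him]; linarith
    · rw [him]; linarith
  · have : exp (1 / 2 * log S) ^ 2 = S := by
      rw [← Complex.exp_nat_mul]
      have : ((2 : ℕ) : ℂ) * (1 / 2 * log S) = log S := by push_cast; ring
      rw [this, Complex.exp_log hSne]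
    rw [mul_pow, this]

theorem log_mul_qi {a : ℂ} (ha : a ≠ 0) :
    log (a * (Real.exp (-κ) : ℂ)) = log a - (κ : ℂ) := by
  rw [mul_comm, Complex.log_ofReal_mul (Real.exp_pos _) ha, Real.log_exp]
  push_cast
  ring

/-- the displacement in terms of `p` and `dT` -/
theorem omT_diff {T u p dT : ℂ} (hQ : (Real.cosh κ : ℂ) + T ≠ 0)
    (hu : u = ((Real.cosh κ : ℂ) + T)⁻¹) (hTK : T + (Real.sinh κ : ℂ) ≠ 0)
    (hp : p = (T + (Real.sinh κ : ℂ))⁻¹ * ((Real.exp (-κ) : ℂ) * ((Real.cosh κ : ℂ) + T)))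
    (hs : p * dT + 1 ≠ 0) :
    omT κ ((Real.cosh κ : ℂ) - u + dT) - (kk κ : ℂ) * omT κ T =
      -(2 * (Real.sinh κ : ℂ) * (p * dT) * (p * (p * dT + 1)⁻¹)) := by
  obtain ⟨K, hK⟩ : ∃ K, K = (Real.sinh κ : ℂ) := ⟨_, rfl⟩
  obtain ⟨Ts, hTs⟩ : ∃ Ts, Ts = (Real.cosh κ : ℂ) - u := ⟨_, rfl⟩
  have h1 := p_TsK hQ hu hTK hp
  rw [← hTs, ← hK] at h1
  have hTsK : Ts + K ≠ 0 := by
    intro h0
    rw [h0, zero_mul] at h1
    exact zero_ne_one h1
  have hpe : p = (Ts + K)⁻¹ := by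
    field_simp
    linear_combination h1
  have hT1 : (Ts + K) * (p * dT + 1) = Ts + dT + K := by linear_combination dT * h1
  have hT1K : Ts + dT + K ≠ 0 := by
    rw [← hT1]
    exact mul_ne_zero hTsK hs
  -- `k om T = om Ts`
  have h2 : (kk κ : ℂ) * omT κ T = (K - Ts) / (K + Ts) := by
    unfold omT
    rw [← hK]
    have g1 := q_TK κ T
    rw [← hK] at g1
    obtain ⟨Q, hQd⟩ : ∃ Q, Q = (Real.cosh κ : ℂ) + T := ⟨_, rfl⟩
    rw [← hQd] at hQ hu g1
    have g2 : u * Q = 1 := by rw [hu, inv_mul_cancel₀ hQ]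
    have g4 := exp_qi κ
    have g5 := c_K κ
    rw [← hK] at g5 hTK
    have g6 : (Ts + K) * Q = (Real.exp κ : ℂ) * (T + K) := by
      rw [hTs]
      linear_combination g1 - g2 + Q * g5
    have g7 : (K - Ts) * Q = (Real.exp (-κ) : ℂ) * (K - T) := by
      have g8 : (Real.cosh κ : ℂ) - K = (Real.exp (-κ) : ℂ) := by
        rw [hK]
        exact_mod_cast Real.cosh_sub_sinh κ
      have g9 : (Real.exp (-κ) : ℂ) * ((Real.cosh κ : ℂ) + K) = 1 := by
        rw [g5, mul_comm]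
        exact g4
      rw [hTs]
      linear_combination g2 - g9 - ((Real.exp (-κ) : ℂ)) * hQd - Q * g8
    have g10 : (kk κ : ℂ) = (Real.exp (-κ) : ℂ) * (Real.exp (-κ) : ℂ) := by
      unfold kk
      rw [← ofReal_mul, ← Real.exp_add]
      congr 2
      ring
    rw [g10]
    have hKT : K + T ≠ 0 := by rw [add_comm]; exact hTK
    have hKTs : K + Ts ≠ 0 := by rw [add_comm]; exact hTsK
    rw [mul_div_assoc', div_eq_div_iff hKT hKTs]
    have hQe : Q ≠ 0 := hQ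
    apply mul_right_cancel₀ hQe
    linear_combination (Real.exp (-κ) : ℂ) * (Real.exp (-κ) : ℂ) * (K - T) * g6 -
      (K + T) * g7 + (Real.exp (-κ) : ℂ) * (K - T) * (T + K) * g4
  have h3 : omT κ (Ts + dT) = (K - (Ts + dT)) / (K + (Ts + dT)) := by
    unfold omT
    rw [hK]
  rw [← hTs, ← hK, h2, h3, hpe]
  have hKT1 : K + (Ts + dT) ≠ 0 := by
    rw [show K + (Ts + dT) = Ts + dT + K by ring]
    exact hT1K
  have hKTs : K + Ts ≠ 0 := by rw [add_comm]; exact hTsK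
  have h4 : (Ts + K)⁻¹ * dT + 1 = (Ts + dT + K) / (Ts + K) := by
    field_simp
    ring
  rw [h4]
  field_simp
  ring

end Pool.Agent.helper63.NF
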