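import Pool.Agent.helper63.NF.Region

/-!
# The near field of a point from the certificates
-/

namespace Pool.Agent.helper63.NF

open Complex
open Pool.Agent.helper31.IA (Z get InBox)
open Pool.Agent.helper31.IX (Op Asserts CovD)
open Pool.Agent.helper12.RS
open Pool.Agent.helper63.RG

variable {t : TD} {N0 : ℕ} {be bb bA bB bC bD bv : ℕ × ℕ} {e κ s' : ℝ} {n : ℕ} {T : ℂ}

theorem mem_VV_of {K R B lo : ℝ} (hK : T + (K : ℂ) ≠ 0)
    (h1 : ‖((K : ℂ) - T) / ((K : ℂ) + T)‖ ≤ R) (h2 : ‖T ^ 2 - (K : ℂ) ^ 2‖ ≤ B) (h3 : lo ≤ ‖T‖) :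
    T ∈ VV K R B lo := by
  refine ⟨?_, h2, h3⟩
  rw [add_comm] at hK
  rw [norm_div, div_le_iff₀ (norm_pos_iff.2 hK)] at h1
  exact h1

/-- a middle node in its region -/
theorem near_mid (hok : t.ok = true) (hC : Certs t N0 be bb bA bB bC bD bv)
    (hb : BoxOk t bA bB bC bD) (hg : grOk t N0 = true) (hP : Pt t N0 be bb e κ s')
    (h1 : 1 ≤ n) (h2 : n + 1 < N0)
    (hV : T ∈ VV (Real.sinh κ) (t.RR n e κ) (Real.sinh κ ^ 2 + t.Y (n - 1) e) (t.lo e)) :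
    MidQ t.tb e κ θ0 (t.δ n e κ) (t.Y n e) (n - 1) T := by
  have hk : MidQ t.tb e κ θ0 (t.δ (n - 1 + 1) e κ) (t.Y (n - 1 + 1) e) (n - 1) T :=
    midQ_of' hok hP.he hP.hκ (fun x hx => by
      refine ⟨reg4 ((1 / e : ℝ) : ℂ) ((e * κ / 2 : ℝ) : ℂ) T x, rfl, rfl, rfl, rfl, ?_⟩
      have h := near_all hC hb hg hP h1 (by omega) hV hx
      have e1 : P2n t N0 n = P2m t (n - 1 + 1) := by
        have : Nat.blt (n + 1) N0 = true := Nat.ble_eq_true_of_le h2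
        rw [P2n, this, cond_true, Nat.sub_add_cancel h1]
      rwa [e1] at h)
  rwa [Nat.sub_add_cancel h1] at hk

/-- the last near node in its region -/
theorem near_last (hok : t.ok = true) (hl : t.Okl) (hC : Certs t N0 be bb bA bB bC bD bv)
    (hb : BoxOk t bA bB bC bD) (hg : grOk t N0 = true) (hP : Pt t N0 be bb e κ s')
    (hst : t.strip = true → κ ≤ 1 / 4) (h1 : 1 ≤ n) (h2 : n + 1 = N0)
    (hV : T ∈ VV (Real.sinh κ) (t.RR n e κ) (Real.sinh κ ^ 2 + t.Y (n - 1) e) (t.lo e)) :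
    LastP t.tb e κ θ0 (t.δ n e κ) (t.Y n e) (t.A e κ) t.x0 ((t.B1 : ℝ) / 2 ^ 40) (n - 1) T := by
  have hk : LastP t.tb e κ θ0 (t.δ (n - 1 + 1) e κ) (t.Y (n - 1 + 1) e) (t.A e κ) t.x0
      ((t.B1 : ℝ) / 2 ^ 40) (n - 1) T :=
    lastP_of hok hl hP.he hP.hκ hst (fun x hx => by
      refine ⟨reg4 ((1 / e : ℝ) : ℂ) ((e * κ / 2 : ℝ) : ℂ) T x, rfl, rfl, rfl, rfl, ?_⟩
      have h := near_all hC hb hg hP h1 (by omega) hV hx
      have e1 : P2n t N0 n = P2l t (n - 1 + 1) := by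
        have : Nat.blt (n + 1) N0 = false := by
          rw [← Bool.not_eq_true]
          intro hc
          have := Nat.le_of_ble_eq_true hc
          omega
        rw [P2n, this, cond_false, Nat.sub_add_cancel h1]
      rwa [e1] at h)
  rwa [Nat.sub_add_cancel h1] at hk

/-- the checks of a piece; in a strip `s1 = 1/8`, `v1 = 1/20` -/
def pieceOk (t : TD) (N0 : ℕ) (bA bB bC bD bv : ℕ × ℕ) : Bool :=
  t.ok && t.okl && boxOk t bA bB bC bD && grOk t N0 && decide (2 ≤ N0) &&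
  decide (2 ^ 40 ≤ bv.1 + bv.2) && decide (5 * t.x2 ≤ 49 * 2 ^ 40) && decide (2 ^ 41 ≤ t.x2) &&
  (bif t.strip then decide (4 ≤ N0) && decide (8 * t.s1 = 2 ^ 40) &&
      decide (20 * bv.1 ≤ 20 * bv.2 + 2 ^ 40) &&
      (List.range N0).all (fun n => decide (t.s1 * t.s1 ≤ nth 0 t.y n * 2 ^ 40))
    else decide (bv.1 ≤ bv.2))

structure PieceOk (t : TD) (N0 : ℕ) (bA bB bC bD bv : ℕ × ℕ) : Prop where
  ok : t.ok = true
  okl : t.Okl
  box : BoxOk t bA bB bC bD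
  gr : grOk t N0 = true
  N2 : 2 ≤ N0
  x2 : t.x0 ≤ 39 / 10
  x0 : 0 ≤ t.x0
  v : ∀ v : ℝ, (t.strip = true → 1 / 20 ≤ v) → 0 ≤ v → v ≤ 1 → inB bv v
  st : t.strip = true → 4 ≤ N0 ∧ rv t.s1 = 1 / 8 ∧ ∀ n, n < N0 → 1 / 64 ≤ rv (nth 0 t.y n)

theorem pieceOk_of (h : pieceOk t N0 bA bB bC bD bv = true) : PieceOk t N0 bA bB bC bD bv := by
  unfold pieceOk at h
  simp only [Bool.and_eq_true, decide_eq_true_eq] at h
  obtain ⟨⟨⟨⟨⟨⟨⟨⟨a1, a2⟩, a3⟩, a4⟩, a5⟩, a6⟩, a7⟩, a8⟩, a9⟩ := h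
  have k2 : ((5 * t.x2 : ℤ) : ℝ) ≤ ((49 * 2 ^ 40 : ℤ) : ℝ) := by exact_mod_cast a7
  have k3 : ((2 ^ 41 : ℤ) : ℝ) ≤ ((t.x2 : ℤ) : ℝ) := by exact_mod_cast a8
  push_cast at k2 k3
  have k6 : (2 : ℝ) ^ 40 ≤ (bv.1 : ℝ) + (bv.2 : ℝ) := by exact_mod_cast a6
  refine ⟨a1, TD.okl_of a2, boxOk_of a3, a4, a5, ?_, ?_, ?_, ?_⟩
  · unfold TD.x0 rv
    norm_num at k2 ⊢
    linarith
  · unfold TD.x0 rv
    norm_num at k3 ⊢
    linarith
  · intro v hv hv0 hv1
    unfold inB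
    rw [abs_le]
    norm_num at k6 ⊢
    cases hs : t.strip with
    | true =>
      rw [hs, cond_true] at a9
      simp only [Bool.and_eq_true, decide_eq_true_eq] at a9
      obtain ⟨⟨⟨-, -⟩, c3⟩, -⟩ := a9
      have c3' : (20 : ℝ) * (bv.1 : ℝ) ≤ 20 * (bv.2 : ℝ) + 2 ^ 40 := by exact_mod_cast c3
      norm_num at c3'
      have := hv hs
      constructor <;> linarith
    | false =>
      rw [hs, cond_false, decide_eq_true_eq] at a9
      have c3' : (bv.1 : ℝ) ≤ (bv.2 : ℝ) := by exact_mod_cast a9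
      constructor <;> linarith
  · intro hs
    rw [hs, cond_true] at a9
    simp only [Bool.and_eq_true, decide_eq_true_eq, List.all_eq_true, List.mem_range] at a9
    obtain ⟨⟨⟨c1, c2⟩, -⟩, c4⟩ := a9
    have c2' : (8 : ℝ) * (t.s1 : ℝ) = 2 ^ 40 := by exact_mod_cast c2
    have e1 : rv t.s1 = 1 / 8 := by
      unfold rv
      norm_num at c2' ⊢
      linarith
    refine ⟨c1, e1, ?_⟩
    intro n hn
    have c4' : (t.s1 : ℝ) * (t.s1 : ℝ) ≤ ((nth 0 t.y n : ℤ) : ℝ) * 2 ^ 40 := by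
      exact_mod_cast c4 n hn
    unfold rv at e1 ⊢
    have e2 : (t.s1 : ℝ) = 1 / 8 * 2 ^ 40 := by
      field_simp at e1
      linarith
    rw [e2] at c4'
    norm_num at c4' ⊢
    linarith

theorem cosh_I_ne {κ η : ℝ} (h : |κ * η| < Real.pi / 2) :
    cosh ((κ : ℂ) * ((η : ℂ) * I)) ≠ 0 := by
  have e1 : (κ : ℂ) * ((η : ℂ) * I) = ((κ * η : ℝ) : ℂ) * I := by
    push_cast
    ring
  rw [e1, Complex.cosh_mul_I, ← Complex.ofReal_cos]
  have := Real.cos_pos_of_mem_Ioo (abs_lt.1 h)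
  exact_mod_cast this.ne'

theorem iv_I (he : 0 < e) (κ η : ℝ) :
    Tb.iv e κ ((η : ℂ) * I) = I * ((Tab.vv e κ (Tb.gR e) η : ℝ) : ℂ) := by
  have hg := Tb.gR_pos e
  unfold Tb.iv Tab.vv
  rw [tanh_I]
  have hg0 : (Tb.gR e : ℂ) ≠ 0 := by exact_mod_cast hg.ne'
  have he0 : (e : ℂ) ≠ 0 := by exact_mod_cast he.ne'
  push_cast
  ring

theorem vv_nn (he : 0 < e) (hκ : 0 < κ) {η : ℝ} (h0 : 0 ≤ η) (h1 : κ * η ≤ Real.pi / 2) :
    0 ≤ Tab.vv e κ (Tb.gR e) η := by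
  have hs : 0 < Real.sinh (κ / 2) := Real.sinh_pos_iff.2 (by linarith)
  have hg := Tb.gR_pos e
  have ht : 0 ≤ Real.tan (κ * η) := Real.tan_nonneg_of_nonneg_of_le_pi_div_two (by positivity) h1
  unfold Tab.vv
  positivity

/-- **The near field of a point.** -/
theorem nearF_of (hC : Certs t N0 be bb bA bB bC bD bv)
    (hk : PieceOk t N0 bA bB bC bD bv) (hP : Pt t N0 be bb e κ s')
    (hst : t.strip = true → κ ≤ 1 / 4 ∧ Corner t N0 e κ (1 / 8) (1 / 20)) :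
    NearF t.tb t.isReal e κ θ0 (t.A e κ) t.x0 ((t.B1 : ℝ) / 2 ^ 40) 1 (N0 - 1)
      (fun n => t.δ n e κ) (fun n => t.Y n e) (fun n => t.RR (n + 1) e κ) := by
  have he := hP.he
  have hκ := hP.hκ
  have hN := hk.N2
  have hsf := hP.sf
  have hst1 : t.strip = true → κ ≤ 1 / 4 := fun h => (hst h).1
  -- the arc of a strip
  have harc : ∀ n, 1 ≤ n → n < N0 → t.strip = true → ∀ T : ℂ, T + (Real.sinh κ : ℂ) ≠ 0 →
      ‖T‖ = 1 / 8 / e → ‖omT κ T‖ ≤ t.RR n e κ →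
      T ∈ VV (Real.sinh κ) (t.RR n e κ) (Real.sinh κ ^ 2 + t.Y (n - 1) e) (t.lo e) := by
    intro n h1 h2 hs T hT hn ho
    obtain ⟨-, s1, sy⟩ := hk.st hs
    refine mem_VV_of hT ho ?_ ?_
    · have h3 : ‖T ^ 2 - (Real.sinh κ : ℂ) ^ 2‖ ≤ ‖T‖ ^ 2 + Real.sinh κ ^ 2 := by
        refine (norm_sub_le _ _).trans ?_
        rw [norm_pow, norm_pow, Complex.norm_real, Real.norm_eq_abs, sq_abs]
      have h4 : (1 : ℝ) / 64 / e ^ 2 ≤ t.Y (n - 1) e := by
        unfold TD.Y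
        apply div_le_div_of_nonneg_right _ (by positivity)
        exact sy (n - 1) (by omega)
      have h5 : ‖T‖ ^ 2 = 1 / 64 / e ^ 2 := by
        rw [hn]
        field_simp
        norm_num
      linarith
    · unfold TD.lo
      rw [hs, cond_true, s1, hn]
  have hlo : ∀ T : ℂ, (t.strip = true → 1 / 8 / e ≤ ‖T‖) → t.lo e ≤ ‖T‖ := by
    intro T h
    unfold TD.lo
    cases hs : t.strip with
    | true =>
      rw [cond_true, (hk.st hs).2.1]
      exact h hs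
    | false =>
      rw [cond_false]
      have := norm_nonneg T
      linarith
  refine
    { Lpos := by omega
      vpos := one_pos
      Rz := ?_
      Rs := ?_
      R1 := ?_
      ent := ?_
      zero := ?_
      mid := ?_
      last := ?_
      test := ?_ }
  · have h1 := t.RR_succ 0 e κ
    rw [t.RR_zero, mul_one] at h1
    show kk κ + t.δ 0 e κ ≤ t.RR (0 + 1) e κ
    rw [h1]
  · intro n _
    exact (t.RR_succ (n + 1) e κ).ge
  · intro n hn
    exact hsf.R1 n (by omega)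
  · show t.RR (N0 - 1 + 1) e κ < _
    rw [Nat.sub_add_cancel (by omega)]
    refine hsf.ent.trans_le ?_
    rw [Real.exp_le_exp]
    have := mul_le_mul_of_nonneg_left hk.x2 (show 0 ≤ 2 * κ by positivity)
    linarith
  · intro η h0 h1 h2
    rw [t.l0_eq, t.r0_eq, t.M0_eq]
    by_cases hv : t.strip = true ∧ Tab.vv e κ (Tb.gR e) η < 1 / 20
    · exact (hst hv.1).2.zero η h0 h1 hv.2.le
    · have hv0 : 0 ≤ Tab.vv e κ (Tb.gR e) η :=
        vv_nn he hκ h0 ((le_abs_self _).trans h1.le)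
      refine zeroP_of hk.ok he hκ (hsf.tp 0 (by omega)) (cosh_I_ne h1) (iv_I he κ η) ?_
      intro x hx
      obtain ⟨ops, ho, ha⟩ := cov_pt hP hC.Z (hk.v _ (fun hs => by
        by_contra hc
        exact hv ⟨hs, not_le.1 hc⟩) hv0 h2) hx
      rw [List.mem_singleton] at ho
      subst ho
      refine ⟨reg4 ((1 / e : ℝ) : ℂ) (s' : ℂ) ((Tab.vv e κ (Tb.gR e) η : ℝ) : ℂ) x, rfl, ?_, rfl, rfl,
        comp4 ha⟩
      rw [bE_ev (ep := 1 / e) (s := s') rfl rfl, hP.bv]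
  · intro n hn T hT h1 h2
    have h4 : n + 1 < N0 := by omega
    by_cases hc : t.strip = true ∧ ‖T‖ < 1 / 8 / e
    · obtain ⟨hs, hc⟩ := hc
      have := (hst hs).2.mid (n + 1) (by omega) (by omega)
        (fun T' hT' hn' ho' => near_mid hk.ok hC hk.box hk.gr hP (by omega) (by omega)
          (harc (n + 1) (by omega) h4 hs T' hT' hn' ho')) T hT hc.le h1
      exact midP_of_midQ this
    · have := near_mid (n := n + 1) hk.ok hC hk.box hk.gr hP (by omega) (by omega)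
        (mem_VV_of (B := Real.sinh κ ^ 2 + t.Y (n + 1 - 1) e) hT h1 h2 (hlo T (fun hs => by
          by_contra hc'
          exact hc ⟨hs, not_le.1 hc'⟩)))
      exact midP_of_midQ this
  · intro T hT h1 h2
    obtain ⟨m, rfl⟩ : ∃ m, N0 = m + 2 := ⟨N0 - 2, by omega⟩
    have e1 : m + 2 - 1 - 1 = m := by omega
    have e2 : m + 2 - 1 = m + 1 := by omega
    rw [e1] at h1 h2 ⊢
    rw [e2]
    by_cases hc : t.strip = true ∧ ‖T‖ < 1 / 8 / e
    · obtain ⟨hs, hc⟩ := hc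
      exact (hst hs).2.last (m + 1) (by omega) (by omega)
        (fun T' hT' hn' ho' => near_last hk.ok hk.okl hC hk.box hk.gr hP hst1 (by omega) (by omega)
          (harc (m + 1) (by omega) (by omega) hs T' hT' hn' ho')) T hT hc.le h1
    · exact near_last (n := m + 1) hk.ok hk.okl hC hk.box hk.gr hP hst1 (by omega) (by omega)
        (mem_VV_of (B := Real.sinh κ ^ 2 + t.Y (m + 1 - 1) e) hT h1 h2 (hlo T (fun hs => by
          by_contra hc'
          exact hc ⟨hs, not_le.1 hc'⟩)))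
  · intro η _ h1 h2 x hx
    rw [t.l0_eq, t.r0_eq]
    obtain ⟨ops, ho, ha⟩ := hC.T [1 / e, s'] [x]
      (List.Forall₂.cons hP.be (List.Forall₂.cons hP.bb .nil)) rfl (by
        intro z hz
        rw [List.mem_singleton] at hz
        rw [hz]
        exact hx)
    rw [List.mem_singleton] at ho
    subst ho
    have hv : Tb.iv e κ ((η : ℂ) * I) = I := by
      rw [iv_I he, h2]
      simp
    exact test_pt he (σ := reg3 ((1 / e : ℝ) : ℂ) (s' : ℂ) x) rfl rfl hP.bv rfl hv (comp3 ha)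

end Pool.Agent.helper63.NF
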