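import Pool.Agent.helper63.NF.PieceD

/-!
# The pieces for `4 ≤ e ≤ 20`
-/

namespace Pool.Agent.helper63.NF

open Complex ComplexConjugate Set Filter Topology
open Pool.Agent.helper31.EQ.Y Pool.Agent.helper31.EQ.R
open Pool.Agent.helper12.RP Pool.Agent.helper12.FF Pool.Agent.helper12.RS

variable {t : TD} {N0 : ℕ} {be bb bA bB bC bD bv : ℕ × ℕ} {e κ s' : ℝ}

/-- the constant of the radii of the far field, `4 ≤ e ≤ 20` -/
noncomputable def Af20 (e κ : ℝ) : ℝ := if e * κ ≤ 1 / 2 then 21 / 10 + e / 12 else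
  (2 + e / 4) ^ 3 / ((2 + e / 4) ^ 2 + 7 / 10 * (e * Real.sinh κ) ^ 2)

/-- the far field data which the pieces use -/
def FarW (e κ : ℝ) : Prop :=
  ∃ d : FarN e κ (1 - Real.sinh κ / 1024),
    d.X 0 = Xr κ (2 * Af20 e κ * Real.sinh κ ^ 2) (Real.exp (-(2 * κ * (49 / 10)))) ∧
    d.Ω 0 = OmR κ (Real.exp (-(2 * κ * (49 / 10)))) Set.univ

/-- check of the constants of the far field -/
def farOk20 (t : TD) (bb : ℕ × ℕ) : Bool :=
  (Nat.beq t.far 0 && (match t.bm with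
      | none => true
      | some _ => false) && decide (bb.1 + bb.2 ≤ 2 ^ 38) &&
    decide (2 ^ 40 ≤ 12 * t.f1) && decide (21 * 2 ^ 40 ≤ 10 * t.f2)) ||
  (Nat.beq t.far 1 && !t.strip && decide (0 ≤ t.f1) && decide (10 * t.f1 ≤ 7 * 2 ^ 40))

theorem Af20_pos (he : 0 < e) : 0 < Af20 e κ := by
  unfold Af20
  split_ifs <;> positivity

/-- the constant for small `b` is smaller -/
theorem AS_le_AG (h4 : 4 ≤ e) (hκ : 0 < κ) (hs : e * κ ≤ 1 / 2) {f : ℝ} (hf0 : 0 ≤ f)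
    (hf : f ≤ 7 / 10) : 21 / 10 + e / 12 ≤
    (e / 4 + 2) ^ 2 * (e / 4 + 2) * ((e / 4 + 2) ^ 2 + f * (Real.sinh κ * e) ^ 2)⁻¹ := by
  have hκ8 : κ ≤ 1 / 8 := by nlinarith
  have h1 := sinh_le hκ (by linarith : κ ≤ 1 / 4)
  have h2 : Real.sinh κ ≤ κ * (1003 / 1000) := by
    refine h1.trans (mul_le_mul_of_nonneg_left ?_ hκ.le)
    have : κ ^ 2 ≤ (1 / 8) ^ 2 := pow_le_pow_left₀ hκ.le hκ8 2
    norm_num at this ⊢
    nlinarith
  have hK := Real.sinh_pos_iff.2 hκ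
  have h3 : Real.sinh κ * e ≤ 1003 / 2000 := by
    have := mul_le_mul_of_nonneg_right h2 (by linarith : 0 ≤ e)
    nlinarith
  have h4' : (Real.sinh κ * e) ^ 2 ≤ (1003 / 2000) ^ 2 :=
    pow_le_pow_left₀ (by positivity) h3 2
  have h5 : f * (Real.sinh κ * e) ^ 2 ≤ 7 / 10 * (1003 / 2000) ^ 2 :=
    mul_le_mul hf h4' (by positivity) (by norm_num)
  rw [← div_eq_mul_inv, le_div_iff₀ (by positivity)]
  have h6 : 0 ≤ f * (Real.sinh κ * e) ^ 2 := by positivity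
  have h7 : (21 / 10 + e / 12) * ((e / 4 + 2) ^ 2 + f * (Real.sinh κ * e) ^ 2) ≤
      (21 / 10 + e / 12) * ((e / 4 + 2) ^ 2 + 7 / 10 * (1003 / 2000) ^ 2) :=
    mul_le_mul_of_nonneg_left (by linarith) (by linarith)
  refine h7.trans ?_
  norm_num
  nlinarith [mul_nonneg (by linarith : (0 : ℝ) ≤ e - 4) (by linarith : (0 : ℝ) ≤ e),
    mul_nonneg (mul_nonneg (by linarith : (0 : ℝ) ≤ e - 4) (by linarith : (0 : ℝ) ≤ e))
      (by linarith : (0 : ℝ) ≤ e)]

theorem inB_le {b : ℕ × ℕ} {s : ℝ} (h : inB b s) : s ≤ ((b.1 + b.2 : ℕ) : ℝ) / 2 ^ 40 := by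
  unfold inB at h
  have := (abs_le.1 h).2
  push_cast
  rw [add_div]
  linarith

theorem far_cases (hf : farOk20 t bb = true) (h4 : 4 ≤ e) (hκ : 0 < κ) (hbb : inB bb s')
    (hbv : t.bv (1 / e) s' = e * κ / 2) :
    Af20 e κ ≤ t.A e κ ∧ (t.strip = true → κ ≤ 1 / 4) := by
  unfold farOk20 at hf
  simp only [Bool.or_eq_true, Bool.and_eq_true, decide_eq_true_eq] at hf
  rcases hf with ⟨⟨⟨⟨a1, a2⟩, a3⟩, a4⟩, a5⟩ | ⟨⟨⟨a1, a2⟩, a3⟩, a4⟩
  · have e1 : t.far = 0 := Nat.eq_of_beq_eq_true a1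
    have e2 : t.bm = none := by
      cases hb : t.bm with
      | none => rfl
      | some v => rw [hb] at a2; simp at a2
    have e3 : s' = e * κ / 2 := by
      unfold TD.bv at hbv
      rw [e2] at hbv
      exact hbv
    have e4 : s' ≤ 1 / 4 := by
      refine (inB_le hbb).trans ?_
      have : ((bb.1 + bb.2 : ℕ) : ℝ) ≤ ((2 ^ 38 : ℕ) : ℝ) := by exact_mod_cast a3
      rw [Nat.cast_pow] at this
      rw [div_le_iff₀ (by positivity)]
      norm_num at this ⊢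
      linarith
    have e5 : e * κ ≤ 1 / 2 := by linarith
    have b1 : (2 : ℝ) ^ 40 ≤ 12 * (t.f1 : ℝ) := by exact_mod_cast a4
    have b2 : (21 : ℝ) * 2 ^ 40 ≤ 10 * (t.f2 : ℝ) := by exact_mod_cast a5
    have c1 : 1 / 12 ≤ rv t.f1 := by
      unfold rv
      rw [le_div_iff₀ (by positivity)]
      linarith
    have c2 : 21 / 10 ≤ rv t.f2 := by
      unfold rv
      rw [le_div_iff₀ (by positivity)]
      linarith
    refine ⟨?_, fun _ => by nlinarith⟩
    unfold Af20 TD.A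
    rw [if_pos e5, e1]
    show 21 / 10 + e / 12 ≤ rv t.f1 * e + rv t.f2
    have := mul_le_mul_of_nonneg_right c1 (by linarith : 0 ≤ e)
    linarith
  · have e1 : t.far = 1 := Nat.eq_of_beq_eq_true a1
    have b3 : (0 : ℝ) ≤ (t.f1 : ℝ) := by exact_mod_cast a3
    have b4 : 10 * (t.f1 : ℝ) ≤ 7 * 2 ^ 40 := by exact_mod_cast a4
    have c3 : 0 ≤ rv t.f1 := by
      unfold rv
      positivity
    have c4 : rv t.f1 ≤ 7 / 10 := by
      unfold rv
      rw [div_le_iff₀ (by positivity)]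
      linarith
    refine ⟨?_, fun hs => by rw [hs] at a2; exact absurd a2 (by simp)⟩
    unfold Af20 TD.A
    rw [e1]
    show _ ≤ (e / 4 + 2) ^ 2 * (e / 4 + 2) * ((e / 4 + 2) ^ 2 + rv t.f1 * (Real.sinh κ * e) ^ 2)⁻¹
    split_ifs with hs
    · exact AS_le_AG h4 hκ hs c3 c4
    · rw [← div_eq_mul_inv]
      have hK := Real.sinh_pos_iff.2 hκ
      have e2 : (2 + e / 4) ^ 3 = (e / 4 + 2) ^ 2 * (e / 4 + 2) := by ring
      rw [e2]
      apply div_le_div_of_nonneg_left (by positivity) (by positivity)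
      have : rv t.f1 * (Real.sinh κ * e) ^ 2 ≤ 7 / 10 * (Real.sinh κ * e) ^ 2 :=
        mul_le_mul_of_nonneg_right c4 (by positivity)
      have e3 : (e * Real.sinh κ) ^ 2 = (Real.sinh κ * e) ^ 2 := by ring
      have e4 : (2 + e / 4) ^ 2 = (e / 4 + 2) ^ 2 := by ring
      rw [e3, e4]
      linarith

/-- **A piece, `4 ≤ e ≤ 20`.** -/
theorem piece20 (hC : Certs t N0 be bb bA bB bC bD bv)
    (hk : pieceOk t N0 bA bB bC bD bv = true) (hf : farOk20 t bb = true) (h4 : 4 ≤ e) (hκ : 0 < κ)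
    (hbe : inB be (1 / e)) (hbb : inB bb s') (hbv : t.bv (1 / e) s' = e * κ / 2)
    (hcor : t.strip = true → SF t N0 e κ (39 / 10) → Corner t N0 e κ (1 / 8) (1 / 20))
    (far : FarW e κ) : Nonempty (RDataF e κ) := by
  have hk := pieceOk_of hk
  obtain ⟨fA, fs⟩ := far_cases hf h4 hκ hbb hbv
  have he : 0 < e := by linarith
  have sf : SF t N0 e κ (39 / 10) := sf_of hC.S he hκ (by have := hk.N2; omega)
    (fun hs => ⟨fs hs, (hk.st hs).1⟩) hbe hbb hbv
  obtain ⟨d, dX, dΩ⟩ := far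
  have hA0 := Af20_pos (κ := κ) he
  have hK := Real.sinh_pos_iff.2 hκ
  refine rdataF_of_piece hC hk ⟨he, hκ, hbe, hbb, hbv, sf⟩ (fun hs => ⟨fs hs, hcor hs sf⟩)
    (by linarith) (hA0.le.trans fA) d ?_ ?_
  · intro τ
    rw [dX]
    apply Xr_mono (by positivity) _ (Real.exp_pos _).le
    · rw [Real.exp_le_exp]
      have := mul_le_mul_of_nonneg_left hk.x2 (show 0 ≤ 2 * κ by positivity)
      linarith
    · rw [Real.exp_lt_one_iff]
      have := hk.x0
      have : 0 < 2 * κ * (t.x0 + 1) := by positivity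
      linarith
    · apply mul_le_mul_of_nonneg_right _ (by positivity)
      linarith
  · intro Q hQ h1 _
    rw [dΩ]
    refine ⟨?_, Set.mem_univ _⟩
    rw [tQ_om hκ hQ]
    have h2 : 0 < ‖tQ κ Q + 1‖ := by
      have := tQ_re hκ hQ
      refine lt_of_lt_of_le ?_ (Complex.re_le_norm _)
      rw [Complex.add_re, Complex.one_re]
      linarith
    apply mul_lt_mul_of_pos_right _ h2
    refine h1.trans_le ?_
    rw [← Real.exp_add, Real.exp_le_exp]
    linarith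

end Pool.Agent.helper63.NF
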