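import Pool.Agent.helper63.NF.Dsl
import Pool.Agent.helper12.RS.Tb

/-!
# Polynomial blocks
-/

namespace Pool.Agent.helper63.NF

open Complex
open Pool.Agent.helper31.IA (Z get)
open Pool.Agent.helper12.RS (horn P2 P3)

/-- the number `n/2^40` -/
noncomputable def cv (n : ℤ) : ℂ := (((n : ℝ) / 2 ^ 40 : ℝ) : ℂ)

theorem zi_val (n : ℤ) : (zi n).val = cv n := by
  unfold zi cv Z.val
  have h : ((n.toNat : ℝ) - ((-n).toNat : ℝ)) = (n : ℝ) := by
    have h1 : ((n.toNat : ℤ) - ((-n).toNat : ℤ)) = n := by omega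
    exact_mod_cast congrArg (fun z : ℤ => (z : ℝ)) h1
  show (((((n.toNat : ℕ) : ℝ) - (((-n).toNat : ℕ) : ℝ)) / 2 ^ 40 : ℝ) : ℂ) +
    (((((0 : ℕ) : ℝ) - ((0 : ℕ) : ℝ)) / 2 ^ 40 : ℝ) : ℂ) * I = _
  rw [h]
  simp

theorem cv_zero : cv 0 = 0 := by simp [cv]

theorem cv_add (m n : ℤ) : cv (m + n) = cv m + cv n := by
  unfold cv
  push_cast
  ring

theorem cv_conj (n : ℤ) : (starRingEnd ℂ) (cv n) = cv n := Complex.conj_ofReal _

/-- register of a monomial -/
def mreg (i j : ℕ) : ℕ := 128 + 2 * Nat.pair i j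

/-- register of a coefficient of `H` -/
def hreg (k : ℕ) : ℕ := 129 + 2 * k

theorem mreg_inj {i j k l : ℕ} (h : mreg i j = mreg k l) : i = k ∧ j = l := by
  unfold mreg at h
  exact Nat.pair_eq_pair.1 (by omega)

theorem mreg_ge (i j : ℕ) : 128 ≤ mreg i j := by unfold mreg; omega

theorem hreg_ge (k : ℕ) : 128 ≤ hreg k := by unfold hreg; omega

theorem mreg_ne (i j k : ℕ) : mreg i j ≠ hreg k := by unfold mreg hreg; omega

/-- power of a register -/
def pwE (x : ℕ) : ℕ → E
  | 0 => .c (zi 1099511627776)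
  | 1 => .r x
  | n + 2 => .mul (pwE x (n + 1)) (.r x)

def inL (i j : ℕ) : List (ℕ × ℕ) → Bool
  | [] => false
  | (a, b) :: t => (Nat.beq i a && Nat.beq j b) || inL i j t

theorem inL_mem {i j : ℕ} : ∀ {l : List (ℕ × ℕ)}, inL i j l = true → (i, j) ∈ l := by
  intro l
  induction l with
  | nil => intro h; simp [inL] at h
  | cons a t ih =>
    intro h
    obtain ⟨a, b⟩ := a
    rw [inL, Bool.or_eq_true, Bool.and_eq_true] at h
    rcases h with h | h
    · rw [Nat.eq_of_beq_eq_true h.1, Nat.eq_of_beq_eq_true h.2]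
      exact List.mem_cons_self
    · exact List.mem_cons_of_mem _ (ih h)

/-- monomial `de^i db^j` -/
def mE (L : List (ℕ × ℕ)) (i j : ℕ) : E :=
  bif inL i j L then .r (mreg i j) else
    match i, j with
    | 0, j => pwE (mreg 0 1) j
    | i + 1, 0 => pwE (mreg 1 0) (i + 1)
    | i + 1, j + 1 => .mul (pwE (mreg 1 0) (i + 1)) (pwE (mreg 0 1) (j + 1))

/-- one more monomial -/
def stepE (L : List (ℕ × ℕ)) (i j : ℕ) : E :=
  match i, j with
  | 0, 0 => .c (zi 1099511627776)
  | 0, j + 1 => .mul (mE L 0 j) (.r (mreg 0 1))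
  | i + 1, 0 => .mul (mE L i 0) (.r (mreg 1 0))
  | i + 1, j + 1 => .mul (mE L (i + 1) 0) (mE L 0 (j + 1))

/-- the statements for the monomials of a list -/
def monos : List (ℕ × ℕ) → List (ℕ × ℕ) → List St
  | _, [] => []
  | L, (i, j) :: t => .set (mreg i j) (stepE L i j) :: monos ((i, j) :: L) t

/-- one more term -/
def addO (t : Option E) (e : E) : Option E := match t with
  | none => some e
  | some t => some (.add t e)

/-- the terms of a row -/
def rowE (L : List (ℕ × ℕ)) (i : ℕ) : ℕ → List ℤ → Option E → Option E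
  | _, [], t => t
  | j, a :: r, t => rowE L i (j + 1) r (bif (Nat.beq i 0 && Nat.beq j 0) || (a == 0) then t else
      addO t (.sc (zi a) (mE L i j)))

def rowsE (L : List (ℕ × ℕ)) : ℕ → List (List ℤ) → Option E → Option E
  | _, [], t => t
  | i, r :: s, t => rowsE L (i + 1) s (rowE L i 0 r t)

def hd (l : List ℤ) : ℤ := match l with
  | [] => 0
  | a :: _ => a

def hd2 (l : List (List ℤ)) : ℤ := match l with
  | [] => 0
  | r :: _ => hd r

/-- `a + ∑ c_ij de^i db^j` -/
def p2E (L : List (ℕ × ℕ)) (a : ℤ) (c : List (List ℤ)) : E :=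
  match rowsE L 0 c none with
  | none => .c (zi (a + hd2 c))
  | some t => bif (a + hd2 c == 0) then t else .add t (.c (zi (a + hd2 c)))

def isZ (z : Z) : Bool := Nat.beq z.a z.b && Nat.beq z.c z.d

/-- product of `y` and an expression which can be constant -/
def mulS (y : E) : E → E
  | .c z => .sc z y
  | e => .mul y e

/-- the same, the other factor second -/
def mulR : E → E → E
  | .c z, y => .sc z y
  | e, y => .mul e y

/-- sum with an expression which can be constant -/
def addS (r : E) : E → E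
  | .c z => bif isZ z then r else .add r (.c z)
  | e => .add r e

/-- one step of the Horner scheme -/
def stepH (y r e : E) : E := match r with
  | .c z => bif isZ z then e else addS (.sc z y) e
  | r => addS (.mul y r) e

/-- Horner scheme -/
def hornE (y : E) : List E → E
  | [] => .c (zi 0)
  | e :: t => stepH y (hornE y t) e

/-- `∑ y^k (∑ c_kij de^i db^j)` -/
def p3E (L : List (ℕ × ℕ)) (y : E) (c : List (List (List ℤ))) : E := hornE y (c.map (p2E L 0))

/-- the coefficients of `1/2 + H` -/
def hcE (L : List (ℕ × ℕ)) (k : ℕ) (r : List (List ℤ)) : E :=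
  p2E L (bif Nat.beq k 0 then 549755813888 else 0) r

/-- is it a constant -/
def isC : E → Bool
  | .c _ => true
  | _ => false

/-- statements for the coefficients -/
def hsS (L : List (ℕ × ℕ)) : ℕ → List (List (List ℤ)) → List St
  | _, [] => []
  | k, r :: t => bif isC (hcE L k r) then hsS L (k + 1) t else
      .set (hreg k) (hcE L k r) :: hsS L (k + 1) t

/-- the coefficients, in registers if they are not constant -/
def hlE (L : List (ℕ × ℕ)) : ℕ → List (List (List ℤ)) → List E
  | _, [] => []
  | k, r :: t => (bif isC (hcE L k r) then hcE L k r else .r (hreg k)) :: hlE L (k + 1) t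

/-- an extra term in the first coefficient -/
def exE (x : Option E) : List E → List E
  | [] => []
  | e :: t => (match x with
    | none => e
    | some x => .add x e) :: t

end Pool.Agent.helper63.NF
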