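import Pool.Agent.helper63.NF.Poly

/-!
# The programs of the near field

Registers: `0` ε, `1` b or its parameter, `2` the variable, `3` x, `4` b, `5` 1/ε, `6` κ/2, `7` κ,
`8` exp (κ/2), `9` exp (-κ/2), `10` exp κ, `11` exp (-κ), `12` exp (-2κ), `13` 2 sinh (κ/2),
`14` 2 cosh (κ/2), `15` sinh κ, `16` 4 sinh² (κ/2), `17` sinh κ/ε, `18` exp (-2b), `19` 1 + exp (-2b),
`20` its inverse, `21` their quotient, `22` 1, `23` cosh κ; `128 + ..` monomials.
-/

namespace Pool.Agent.helper63.NF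

open Pool.Agent.helper31.IA (Z)
open Pool.Agent.helper31.IX (Op)

/-- a pair of poles: `wi2 = wi²`, `rho = 2 ρ`, `sig = -2 wi σ` -/
structure PD where
  wr : ℤ
  w1 : ℤ
  wi : ℤ
  wi2 : ℤ
  rho : List (List ℤ)
  sig : List (List ℤ)

/-- tables, all numbers times `2^40` -/
structure TD where
  strip : Bool
  bm : Option (ℤ × ℤ × ℤ × ℤ)
  ec : ℤ
  bc : ℤ
  H : List (List (List ℤ))
  pol : Option PD
  a : List (List (List ℤ))
  j : List ℤ
  c : List ℤ
  M : List (List (List (List ℤ)))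
  l0 : List (List (List ℤ))
  q0 : List (List ℤ)
  t : List (List (List ℤ))
  y : List ℤ
  sc : List ℕ
  L : List (ℕ × ℕ)
  Lt : List (ℕ × ℕ)
  far : ℕ
  x2 : ℤ
  B1 : ℕ
  C2 : ℤ
  f1 : ℤ
  f2 : ℤ
  f3 : ℤ
  is1 : ℤ
  s1 : ℤ

/-- entry of a list -/
def nth {α : Type} (d : α) : List α → ℕ → α
  | [], _ => d
  | a :: _, 0 => a
  | _ :: t, n + 1 => nth d t n

/-- `1 - 2^-20` -/
def TH : ℕ := 1099510579200

/-- `1 - 2^-32`, for the alternatives -/
def THA : ℕ := 1099511627520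

abbrev one : Z := zi 1099511627776
abbrev two : Z := zi 2199023255552
abbrev four : Z := zi 4398046511104
abbrev half : Z := zi 549755813888
abbrev quart : Z := zi 274877906944
/-- the imaginary unit -/
abbrev zI : Z := ⟨0, 0, 1099511627776, 0⟩
abbrev zmI : Z := ⟨0, 0, 0, 1099511627776⟩

/-- `n` as a constant -/
def zn (n : ℕ) : Z := zi ((n : ℤ) * 1099511627776)

/-- `b` from the parameter -/
def bE (t : TD) : E :=
  match t.bm with
  | none => E.r 1
  | some (m2, m1, m0, b1) =>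
    ((E.r 1).mul ((((E.sc (zi m2) (E.r 0)).add (E.c (zi m1))).mul (E.r 0)).add (E.c (zi m0)))).add (E.c (zi b1))

/-- the head -/
def head (t : TD) (b : E) : List St :=
  [St.pos (E.r 0), St.set 4 b, St.set 5 (E.r 0).inv, St.set 6 ((E.r 0).mul (E.r 4)), St.set 7 (E.sc two (E.r 6)),
      St.set 8 (E.r 6).exp, St.set 9 (E.r 6).neg.exp, St.set 10 ((E.r 8).mul (E.r 8)), St.set 11 ((E.r 9).mul (E.r 9)),
      St.set 12 ((E.r 11).mul (E.r 11)), St.set 13 ((E.r 8).sub (E.r 9)), St.set 14 ((E.r 8).add (E.r 9)),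
      St.set 15 (E.sc half ((E.r 13).mul (E.r 14))), St.set 16 ((E.r 13).mul (E.r 13)),
      St.set 17 ((E.r 15).mul (E.r 5)), St.set 18 (E.sc two (E.r 4)).neg.exp, St.set 22 (E.c one),
      St.set 19 ((E.r 18).add (E.r 22)), St.pos (E.r 19), St.set 20 (E.r 19).inv, St.set 21 ((E.r 18).mul (E.r 20)),
      St.set 23 (E.sc half ((E.r 10).add (E.r 11))), St.set (mreg 1 0) ((E.r 0).sub (E.c (zi t.ec))),
      St.set (mreg 0 1) (bif t.bc == 0 then E.r 4 else (E.r 4).sub (E.c (zi t.bc)))] ++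
    monos [] t.L

/-- the head with the coefficients of `H` -/
def headH (t : TD) (b : E) : List St := head t b ++ hsS t.L 0 t.H

/-- the pole pair, `y` in register `y` -/
def poleS (t : TD) (y : ℕ) (B : ℕ) : List St :=
  match t.pol with
  | none => []
  | some p =>
    [St.set B
        ((E.r y).sub (bif p.w1 == 0 then E.c (zi p.wr) else (E.sc (zi p.w1) (E.r (mreg 1 0))).add (E.c (zi p.wr)))),
      St.pos (E.r B), St.set (B + 1) (E.r B).inv, St.set (B + 2) ((E.r B).add (E.sc (zi p.wi2) (E.r (B + 1)))),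
      St.pos (E.r (B + 2)), St.set (B + 3) (E.r (B + 2)).inv,
      St.set (B + 4) (((p2E t.L 0 p.rho).add (mulS (E.r (B + 1)) (p2E t.L 0 p.sig))).mul (E.r (B + 3)))]

/-- `1/2 + H` -/
def HE (t : TD) (y : ℕ) (B : ℕ) : E :=
  hornE (E.r y)
    (exE
      (match t.pol with
      | none => none
      | some val => some (E.r (B + 4)))
      (hlE t.L 0 t.H))

/-- a node; `T` in register `z`, values in `B ..`: `0` Q, `1` u, `2` u², `3` 1 - u², `4` y, `5` f,
`6` l - 2b, `7` exp (-(l - 2b)) - 1, `8` exp (-l), `9` argument, `10` log (1 + exp (-l)) - log (1 + Mi),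
`11..` the pole pair -/
def nodeS (t : TD) (z : ℕ) (B : ℕ) : List St :=
  [St.set B ((E.r 23).add (E.r z)), St.pos (E.r B), St.set (B + 1) (E.r B).inv,
        St.set (B + 2) ((E.r (B + 1)).mul (E.r (B + 1))), St.set (B + 3) ((E.r 22).sub (E.r (B + 2))),
        St.set (B + 4) ((E.r (B + 3)).mul (E.r 5)), St.set (B + 5) (((E.r 12).sub (E.r (B + 2))).mul (E.r 5))] ++
      poleS t (B + 4) (B + 11) ++
    [St.set (B + 6) ((E.r (B + 5)).mul (HE t (B + 4) (B + 11))), St.set (B + 7) ((E.r (B + 6)).neg.exp.sub (E.r 22)),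
      St.set (B + 8) ((E.r 18).mul ((E.r (B + 7)).add (E.r 22))), St.pos ((E.r (B + 8)).add (E.r 22)),
      St.set (B + 9) (((E.r 21).mul (E.r (B + 7))).add (E.r 22)), St.pos (E.r (B + 9)),
      St.set (B + 10) (E.r (B + 9)).log]

/-- `a_n` -/
def aE (t : TD) (n : ℕ) : E :=
  have p := p2E t.L 0 (nth [] t.a n);
  bif nth 0 t.j n == 0 then p else mulR p (E.sc (zi (nth 0 t.j n)) (E.r 7)).neg.exp

/-- the link after node `n`, `T` in register `2`: `40` T + K, `41` a, `42` den, `43` 1/den, `44` r,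
`45` r x, `46` g1, `47` M r x + 1, `48` g2, `49` Ts, `50` Qs, `51` W - 1, `52` EA, `53` 1/Qs,
`54` S/Qs², `55` its logarithm, `56` half of it, `57` dT, `58` T', `59` LQ -/
def linkS (t : TD) (n : ℕ) : List St :=
  [St.set 40 ((E.r 2).add (E.r 15)), St.set 41 (aE t n), St.set 42 ((E.sc (zi (nth 0 t.c n)) (E.r 2)).add (E.r 0)),
    St.pos (E.r 42), St.set 43 (E.r 42).inv, St.set 44 ((E.sc two ((E.r 40).mul (E.r 41))).mul (E.r 43)),
    St.set 45 ((E.r 44).mul (E.r 3)), St.set 47 ((E.r 22).sub (E.r 45)), St.pos (E.r 47), St.set 46 (E.r 47).log,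
    St.set 47 (((E.r 32).mul (E.r 45)).add (E.r 22)), St.pos (E.r 47), St.set 48 (E.r 47).log,
    St.set 49 ((E.r 23).sub (E.r 25)), St.set 50 ((E.r 49).add (E.r 23)),
    St.set 51 (((E.r 7).add ((((E.r 30).add (E.r 48)).sub (E.r 46)).mul (E.r 0))).exp.sub (E.r 22)),
    St.set 52 ((((((E.r 30).sub (E.r 46)).sub (E.r 48)).add (E.sc two (E.r 34))).mul (E.r 0)).exp.sub (E.r 22)),
    St.set 54
      (((((E.r 51).mul ((E.r 27).add (E.r 16))).sub (E.sc two ((E.r 49).mul (E.r 49)))).sub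
            (E.sc half ((E.r 16).mul (E.r 16)))).add
        (((E.r 16).mul (E.r 52)).mul ((E.r 51).add (E.c two)))),
    St.pos (E.r 50), St.set 53 (E.r 50).inv, St.set 54 ((((E.r 54).mul (E.r 53)).mul (E.r 53)).add (E.r 22)),
    St.pos (E.r 54), St.set 55 (E.r 54).log, St.set 56 (E.sc half (E.r 55)),
    St.set 57 ((E.r 50).mul ((E.r 56).exp.sub (E.r 22))), St.set 58 ((E.r 49).add (E.r 57)),
    St.set 59 ((E.r 50).mul (E.r 11)), St.pos (E.r 59), St.set 59 (((E.r 59).log.add (E.r 56)).mul (E.r 5))]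

/-- `60` 1/(T + K), `61` p, `62` p dT, `63` 1 + p dT, `64` (T' + K)/(T + K) -/
def linkT : List St :=
  [St.pos (E.r 40), St.set 60 (E.r 40).inv, St.set 61 ((E.r 60).mul ((E.r 11).mul (E.r 24))),
  St.set 62 ((E.r 61).mul (E.r 57)), St.set 63 ((E.r 62).add (E.r 22)), St.pos (E.r 63),
  St.set 64 (((E.r 10).mul (E.r 25)).mul (E.r 63))]

/-- displacement -/
def dispS (t : TD) (n : ℕ) : List St :=
  ([St.set 65 (p2E t.L 0 (nth [] t.t n)), St.set 66 (E.sc (zn (n + 1)) (E.r 7)).exp, St.pos (E.r 65)] ++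
      bif t.strip then [St.set 67 (E.r 23)] else [St.pos (E.r 7), St.set 67 ((E.r 15).mul (E.r 7).inv)]) ++
    [St.lt
        ((((E.sc two (E.r 67)).mul (E.r 62)).mul (E.r 66)).mul
          (((E.r 61).mul (E.r 63).inv).mul ((E.r 66).mul (E.r 65).inv)))
        TH]

/-- cut, `T'` in register `z` -/
def cutS (t : TD) (n : ℕ) (z : ℕ) : List St :=
  [St.set 68 ((E.r 17).mul (E.r 17)), St.set 69 ((E.r 68).add (E.c (zi (nth 0 t.y n)))), St.pos (E.r 69),
    St.set 70 (E.r 69).inv, St.set 71 ((E.r z).mul (E.r 5)),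
    St.lt ((((E.r 71).mul (E.r 71)).sub (E.r 68)).mul (E.r 70)) TH]

/-- the scale `2^sc` -/
def scZ (t : TD) (n : ℕ) : Z := zn (2 ^ nth 0 t.sc n)

/-- the part common to all near nodes -/
def nearS (t : TD) (n : ℕ) : List St :=
  headH t (E.r 1) ++ nodeS t 2 24 ++ linkS t n ++ linkT ++ dispS t n ++ cutS t n 58 ++
    [St.set 41 (E.sc (scZ t n) (E.r 41)), St.pos (E.r 41), St.set 91 (E.r 41).inv,
      St.set 94 (p3E t.L (E.r 28) (nth [] t.M n)), St.set 95 (E.sc half (((E.r 42).mul (E.r 60)).mul (E.r 91)))]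

/-- middle node -/
def P2m (t : TD) (n : ℕ) : List St :=
  nearS t n ++ nodeS t 58 72 ++
    [St.set 89 ((E.sc (zi (nth 0 t.c (n + 1))) (E.r 58)).add (E.r 0)), St.pos (E.r 89), St.set 90 (E.r 89).inv,
      St.set 92 ((((E.sc (scZ t n) (aE t (n + 1))).mul (E.r 91)).mul (E.r 64)).mul ((E.r 42).mul (E.r 90))),
      St.set 93 ((((E.r 30).add (E.r 34)).sub (E.r 82)).sub (E.r 59)).exp,
      St.rball 96 (E.c (zi 0)) ((((E.r 94).mul (E.r 93)).mul (E.r 80)).mul (E.r 92)),
      St.lt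
        ((((E.r 3).mul ((E.r 22).sub (E.r 94))).add
              ((E.r 94).mul ((E.sc (scZ t n) ((E.r 22).sub (E.r 93))).mul (E.r 95)))).add
          (E.r 96))
        TH]

/-- the constant of the far field -/
def farS (t : TD) : List St :=
  match t.far with
  | 0 => [St.set 99 ((E.sc (zi t.f1) (E.r 5)).add (E.c (zi t.f2)))]
  | 1 =>
    [St.set 97 ((E.sc quart (E.r 5)).add (E.c two)), St.set 98 ((E.r 97).mul (E.r 97)),
      St.set 99 ((E.r 98).add (E.sc (zi t.f1) ((E.r 17).mul (E.r 17)))), St.pos (E.r 99),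
      St.set 99 (((E.r 98).mul (E.r 97)).mul (E.r 99).inv)]
  | 2 => [St.set 99 (E.sc (zi t.f1) (E.r 5))]
  | 3 => [St.set 98 ((E.r 17).add (E.c four)), St.pos (E.r 98), St.set 99 ((E.sc two (E.r 5)).mul (E.r 98).inv)]
  | x => [St.set 98 ((E.r 17).add (E.c four)), St.pos (E.r 98), St.set 99 ((E.r 5).mul (E.r 98).inv)]

/-- `2 A K R/(1 - R)` -/
def xaS (t : TD) : List St :=
  bif t.strip then
    [St.set 100 ((E.r 7).mul (E.r 7)), St.set 101 (E.sc (zi t.x2) (E.r 7)),
      St.set 102 (E.sc (zi t.f3) ((E.sc (zi 184351450112) (E.r 100)).add (E.r 22))),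
      St.set 103 ((((E.sc (zi 183251937280) (E.r 101)).add (E.c half)).mul (E.r 101)).add (E.r 22)), St.pos (E.r 103),
      St.set 104 (((E.r 99).mul (E.r 102)).mul (E.r 103).inv)]
  else
    [St.set 103 ((E.sc (zi t.x2) (E.r 7)).exp.sub (E.r 22)), St.pos (E.r 103),
      St.set 104 (((E.r 99).mul (E.sc two (E.r 15))).mul (E.r 103).inv)]

/-- the last near node -/
def P2l (t : TD) (n : ℕ) : List St :=
  nearS t n ++ farS t ++
        [St.set 72 ((E.r 58).add (E.r 23)), St.pos (E.r 72), St.set 73 (E.r 72).inv, St.set 74 ((E.r 23).sub (E.r 73)),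
          St.set 75 ((E.r 74).add (E.r 23)), St.pos (E.r 75), St.set 76 (E.r 75).inv, St.set 77 ((E.r 23).sub (E.r 76)),
          St.set 78 ((E.r 77).add (E.r 23)), St.set 79 ((E.r 75).mul (E.r 11)), St.pos (E.r 79), St.set 79 (E.r 79).log,
          St.set 80 ((E.r 78).mul (E.r 11)), St.pos (E.r 80), St.set 80 (E.r 80).log,
          St.set 81 ((E.r 18).mul ((E.r 79).mul (E.r 5)).neg.exp),
          St.set 82 ((E.r 18).mul ((E.r 80).mul (E.r 5)).neg.exp), St.set 83 ((E.r 82).add (E.r 22)), St.pos (E.r 83),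
          St.set 83 (E.r 83).inv, St.set 84 ((E.r 82).mul (E.r 83)), St.lt (E.r 84) t.B1,
          St.set 85
            (E.sc (zi t.C2)
              (((((E.r 77).mul (E.r 77)).sub ((E.r 15).mul (E.r 15))).mul (E.r 5)).mul
                (((E.r 84).mul (E.r 83)).mul (E.r 83))))] ++
      xaS t ++
    [St.set 105 ((E.r 74).add (E.r 15)), St.set 106 ((E.r 104).mul (E.r 105)), St.set 107 ((E.r 106).mul (E.r 95)),
      St.set 108 (((E.r 30).add (E.r 34)).sub (E.r 59)), St.set 109 (((E.r 82).sub (E.r 81)).add (E.r 22)),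
      St.pos (E.r 109), St.set 109 (E.r 109).log, St.set 110 ((((E.r 82).sub (E.r 18)).mul (E.r 20)).add (E.r 22)),
      St.pos (E.r 110), St.set 110 (E.r 110).log, St.set 111 (((E.r 108).add (E.r 109)).sub (E.r 110)).exp,
      St.set 112 ((E.r 108).exp.mul (E.r 19)), St.set 113 (E.sc (scZ t n) (((E.r 112).mul (E.r 81)).mul (E.r 94))),
      St.set 114
        (((E.r 3).mul ((E.r 22).sub (E.r 94))).add
          ((E.r 94).mul ((E.sc (scZ t n) ((E.r 22).sub (E.r 111))).mul (E.r 95)))),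
      St.rball 115 (E.c (zi 0)) (((E.r 113).mul (E.r 83)).mul (E.r 107)), St.rball 116 (E.c (zi 0)) (E.r 106),
      St.rball 117 (E.c (zi 0)) ((((E.r 113).mul (E.r 85)).mul (E.r 95)).mul ((E.r 116).add (E.r 22))),
      St.lt (((E.r 114).add (E.r 115)).add (E.r 117)) TH]

/-- the first node, `v` in register `2`: `25` φ, `26` l, `27` g, `28` u, `30` a u, `31` 1 + c u,
`32` r, `33` exp (-l), `35` log (1 + exp (-l)), `36` r x, `37` `39` logarithms, `40` sinh² (κ/2),
`41` log (1 + Mi), `43` exp (-(LA + lF)/e), `44` exp ((lF - lG)/e), `45` sinh (κ/2) tanh (κ p),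
`47` its square, `50` root -/
def zeroS (t : TD) : List St :=
  [St.set 24 (E.sc zI (E.r 2)), St.set 25 ((E.r 24).mul ((E.sc half (E.r 24)).add (E.r 22)).inv),
    St.set 26 (hornE (E.r 25) ((p2E t.L 0 t.q0).mul (E.r 4) :: List.map (p2E t.L 0) t.l0)),
    St.set 27 ((E.sc (zi 5703716569088) ((E.r 0).mul (E.r 0))).add (E.c (zi 1726576852992))),
    St.set 28 ((E.sc four (E.r 4)).add (E.sc four ((E.r 25).mul (E.r 27)))), St.set 29 (aE t 0),
    St.set 30 ((E.r 29).mul (E.r 28)), St.set 31 ((E.sc (zi (nth 0 t.c 0)) (E.r 28)).add (E.r 22)), St.pos (E.r 31),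
    St.set 32 ((E.r 30).mul (E.r 31).inv), St.set 33 (E.r 26).neg.exp, St.set 34 ((E.r 33).add (E.r 22)),
    St.pos (E.r 34), St.set 35 (E.r 34).log, St.set 36 ((E.r 32).mul (E.r 3)), St.set 37 ((E.r 22).sub (E.r 36)).log,
    St.set 38 (((E.r 33).mul (E.r 36)).add (E.r 22)), St.pos (E.r 38), St.set 39 (E.r 38).log,
    St.set 40 (E.sc quart (E.r 16)), St.set 41 (E.r 19).log, St.set 42 ((E.r 4).add (E.r 41)),
    St.set 43 ((((E.r 35).sub (E.r 39)).sub (E.r 42)).mul (E.r 0)).exp,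
    St.set 44 ((((E.r 39).sub (E.r 37)).add (E.r 26)).mul (E.r 0)).exp,
    St.set 45 (E.sc zI ((E.r 2).mul (((E.r 0).mul (E.r 27)).mul ((E.sc (zi 1649267441664) (E.r 40)).add (E.r 22))))),
    St.set 47 ((E.r 45).mul (E.r 45)), St.set 46 ((E.r 40).sub (E.r 47)), St.set 48 ((E.r 43).mul (E.r 43)),
    St.set 49 ((E.r 22).sub (E.sc four ((E.r 48).mul (E.r 46)))).log, St.set 50 (E.sc half (E.r 49)).exp,
    St.set 51 (((E.r 43).mul (E.r 45)).mul (E.r 50))]

/-- `52` logarithm of the radicand, `54` the ratio, `55` T' -/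
def zlinkS : List St :=
  [St.set 52
    ((E.sc four ((E.r 44).mul (((E.r 48).mul (((E.r 40).mul (E.r 44)).add (E.sc two (E.r 46)))).add (E.r 51)))).add
        (E.r 22)).log,
  St.set 53 (E.sc half (E.r 52)), St.set 54 (E.r 53).exp, St.set 55 ((E.r 54).sub (E.r 23))]

/-- `63` the radicand of `E0²/E1²` -/
def shS : List St :=
  [St.set 63 ((((E.sc four (E.r 48)).mul ((E.sc two (E.r 47)).sub (E.r 40))).add (E.r 22)).sub (E.sc four (E.r 51)))]

/-- the first node -/
def P0 (t : TD) : List St :=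
  (headH t (bE t) ++ zeroS t ++ zlinkS ++ cutS t 0 55 ++
            [St.pos ((E.r 50).sub (E.sc two ((E.r 43).mul (E.r 45)))), St.set 56 ((E.r 45).mul (E.r 14)),
              St.set 57 ((E.r 23).add (E.r 56)), St.set 58 ((E.r 23).sub (E.r 57).inv),
              St.set 59 ((E.r 55).sub (E.r 58)), St.set 60 (p2E t.L 0 (nth [] t.t 0)),
              St.set 61 (((E.r 56).add (E.r 15)).inv.mul ((E.r 11).mul (E.r 57))), St.set 62 ((E.r 61).mul (E.r 59))] ++
          bif t.strip then [St.set 67 (E.r 23)] else [St.set 67 ((E.r 15).mul (E.r 7).inv)]) ++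
        [St.lt
            (((E.sc two (E.r 67)).mul (E.r 62)).mul
              (((((E.r 61).mul ((E.r 62).add (E.r 22)).inv).mul (E.r 10)).mul (E.r 10)).mul (E.r 60).inv))
            TH] ++
      nodeS t 55 72 ++
    [St.set 88 ((E.r 55).add (E.r 15)),
      St.set 93 (((((E.r 26).add (E.r 35)).sub (E.r 41)).sub (E.r 82)).sub ((E.r 52).mul (E.sc half (E.r 5)))).exp,
      St.set 94 (p3E t.L (E.r 25) (nth [] t.M 0)), St.set 95 ((E.r 30).inv.mul (E.r 31)),
      St.set 92 (((E.sc two (aE t 1)).mul (E.r 88)).mul ((E.sc (zi (nth 0 t.c 1)) (E.r 55)).add (E.r 0)).inv),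
      St.rball 96 (E.c (zi 0)) (((((E.r 94).mul (E.r 93)).mul (E.r 80)).mul (E.r 92)).mul (E.r 95)),
      St.lt
        ((((E.r 3).mul ((E.r 22).sub (E.r 94))).add ((E.r 94).mul (((E.r 22).sub (E.r 93)).mul (E.r 95)))).add (E.r 96))
        TH]

/-- the test at `v = 1`; inputs `ε`, `b`, `x` -/
def PT (t : TD) : List St :=
  [St.set 3 (E.r 2)] ++ head t (bE t) ++ [St.set 2 (E.r 22)] ++ zeroS t ++ shS ++
    [St.set 64 (E.r 63).log,
      St.pos ((E.c half).sub (((E.r 39).sub (E.r 35)).add ((E.r 64).mul (E.sc half (E.r 5)))).exp)]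

/-! ### Charts -/

/-- sum of coefficient lists -/
def add1 : List ℤ → List ℤ → List ℤ
  | [], m => m
  | l, [] => l
  | a :: l, b :: m => (a + b) :: add1 l m

def add2 : List (List ℤ) → List (List ℤ) → List (List ℤ)
  | [], m => m
  | l, [] => l
  | a :: l, b :: m => add1 a b :: add2 l m

/-- `s_n` -/
def sumT (t : TD) : ℕ → List (List ℤ)
  | 0 => []
  | n + 1 => add2 (sumT t n) (nth [] t.t n)

/-- common part of the charts: `4` b, `7` κ, `10` exp κ, `11` exp (-κ), `15` K, `17` K/ε -/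
def baseS (t : TD) : List St :=
  [St.set 4 (bE t), St.set 6 ((E.r 0).mul (E.r 4)), St.set 7 (E.sc two (E.r 6)), St.set 8 (E.r 6).exp,
    St.set 9 (E.r 6).neg.exp, St.set 11 ((E.r 9).mul (E.r 9)),
    St.set 15 (E.sc half (((E.r 8).sub (E.r 9)).mul ((E.r 8).add (E.r 9)))), St.set 17 ((E.r 15).mul (E.r 0).inv),
    St.set 22 (E.c one)]

def gE : ℕ → E
  | 0 => .c (zi 0)
  | 1 => .c one
  | 2 => .add (.sc one (.r 12)) (.r 22)
  | n + 3 => .add (.mul (.r 12) (gE (n + 2))) (.r 22)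

/-- `exp (-κ) (1 + k + ... + k^(n-1))` -/
def qgE : ℕ → E
  | 0 => .c (zi 0)
  | 1 => .r 11
  | n + 2 => .mul (.r 11) (gE (n + 2))

/-- radius `20` and `21` (1 - radius)/K -/
def geoS (t : TD) (n : ℕ) : List St :=
  [St.set (mreg 1 0) ((E.r 0).sub (E.c (zi t.ec))),
          St.set (mreg 0 1) (bif t.bc == 0 then E.r 4 else (E.r 4).sub (E.c (zi t.bc)))] ++
        monos [] t.Lt ++
      [St.set 16 (p2E t.Lt 0 (sumT t n)), St.set 18 (E.sc (zn (2 * n)) (E.r 7)).neg.exp] ++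
    bif t.strip then
      [St.set 12 ((E.r 11).mul (E.r 11)), St.set 20 ((E.r 18).mul (((E.r 15).mul (E.r 16)).add (E.r 22))),
        St.set 21 ((E.sc two (qgE n)).sub ((E.r 16).mul (E.r 18)))]
    else
      [St.set 20 ((E.r 18).mul (((E.r 7).mul (E.r 16)).add (E.r 22))),
        St.set 21 (((E.r 22).sub (E.r 20)).mul (E.r 15).inv)]

/-- the circle, `T` in register `5` -/
def chA (t : TD) (n : ℕ) : List St :=
  baseS t ++ geoS t n ++
    [St.set 25 (((E.r 15).mul (E.r 15)).mul (E.r 21)), St.set 23 ((E.r 20).add (E.r 22)),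
      St.set 24 (E.sc zI ((E.r 0).mul (E.r 2))),
      St.set 5 (((E.r 25).add ((E.r 24).mul (E.r 23))).mul ((E.r 23).add ((E.r 24).mul (E.r 21))).inv)]

def chB (t : TD) (n : ℕ) : List St :=
  baseS t ++ geoS t n ++
    [St.set 25 (((E.r 15).mul (E.r 15)).mul (E.r 21)), St.set 23 ((E.r 20).add (E.r 22)),
      St.set 5
        ((((E.r 25).mul (E.r 2)).add (E.sc zI ((E.r 0).mul (E.r 23)))).mul
          (((E.r 23).mul (E.r 2)).add (E.sc zI ((E.r 0).mul (E.r 21)))).inv)]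

/-- the inner arc -/
def chC (t : TD) : List St :=
  baseS t ++
    [St.set 24 (E.sc zI (E.r 2)),
      St.set 5 ((E.sc (zi t.s1) (E.r 0)).mul (((E.r 24).add (E.r 22)).mul ((E.r 22).sub (E.r 24)).inv))]

/-- the outer arc -/
def chD (t : TD) (n : ℕ) : List St :=
  baseS t ++
    [St.set 25 ((E.r 17).mul (E.r 17)), St.set 26 ((E.r 25).add (E.c (zi (nth 0 t.y (n - 1))))),
      St.set 27 (E.sc zI (E.r 2)).exp, St.set 28 (E.sc half ((E.r 25).add ((E.r 26).mul (E.r 27))).log).exp,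
      St.set 5 ((E.r 28).mul (E.r 0))]

def chE (t : TD) (n : ℕ) : List St :=
  baseS t ++
    [St.set 25 ((E.r 17).mul (E.r 17)), St.set 26 ((E.r 25).add (E.c (zi (nth 0 t.y (n - 1))))),
      St.set 27 (E.sc zmI (E.r 2)).exp, St.set 28 (E.sc zI (E.sc half (((E.r 26).mul (E.r 27)).sub (E.r 25)).log).exp),
      St.set 5 ((E.r 28).mul (E.r 0))]

def chF (t : TD) (n : ℕ) : List St :=
  baseS t ++
    [St.set 25 ((E.r 17).mul (E.r 17)), St.set 26 ((E.r 25).add (E.c (zi (nth 0 t.y (n - 1))))),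
      St.set 27 (E.sc zmI (E.r 2)).exp, St.set 28 (E.sc half ((E.r 25).sub ((E.r 26).mul (E.r 27))).log).exp,
      St.set 5 ((E.r 28).mul (E.r 0))]

/-- `|T²| < τ²`, `τ` the left end of the disc (arcs E, F) -/
def altL (t : TD) (n : ℕ) : List Op :=
  comp
    (baseS t ++ geoS t n ++
      [St.set 25 ((E.r 17).mul (E.r 17)), St.set 26 ((E.r 25).add (E.c (zi (nth 0 t.y (n - 1))))),
        St.set 27 (E.sc zmI (E.r 2)).exp, St.set 28 ((E.r 25).sub ((E.r 26).mul (E.r 27))),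
        St.set 29 (((E.r 20).add (E.r 22)).mul (((E.r 25).mul (E.r 21)).mul (E.r 0)).inv),
        St.lt ((E.r 28).mul ((E.r 29).mul (E.r 29))) THA])
    ρ4 4

/-- the point is outside the cut -/
def outCut (t : TD) (n : ℕ) : List St :=
  [St.set 29 ((E.r 15).mul (E.r 15)),
    St.lt
      (((E.r 29).add (E.sc (zi (nth 0 t.y (n - 1))) ((E.r 0).mul (E.r 0)))).mul
        (((E.r 5).mul (E.r 5)).sub (E.r 29)).inv)
      THA]

/-- the point is inside the inner circle -/
def outIn (t : TD) : List St :=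
  [St.lt (E.sc (zi t.is1) ((E.r 5).mul (E.r 0).inv)) THA]

/-- the point is outside the disc -/
def outDisc (t : TD) (n : ℕ) : List St :=
  geoS t n ++
    [St.lt
        ((E.sc two (E.r 20)).mul
          ((((E.r 21).mul ((E.r 20).add (E.r 22))).mul (E.r 5)).sub (((E.r 20).mul (E.r 20)).add (E.r 22))).inv)
        THA]

/-- chart and program -/
def circ (P1 P2 : List St) : List Op :=
  cmpK P1 ρ4 4 fun ρ N => Pool.Agent.helper63.RG.reloc
    [N - 1 - look ρ 0, N - 1 - look ρ 4, N - 1 - look ρ 5, N - 1 - look ρ 3] N 0 (comp P2 ρ4 4)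

/-- an alternative -/
def altP (P1 P2 : List St) : List Op := comp (P1 ++ P2) ρ4 4

end Pool.Agent.helper63.NF
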