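import Pool.Agent.helper63.NF.SpecS
import Pool.Agent.helper63.NF.Geo

/-!
# Meaning of the charts and of the alternatives
-/

namespace Pool.Agent.helper63.NF

open Complex
open Pool.Agent.helper31.IA (Z get InBox)
open Pool.Agent.helper31.IX (Op Asserts CovD)
open Pool.Agent.helper12.RS

/-- **A chart followed by a program.** -/
theorem circ_sound {P1 P2 : List St} {a b c d : ℂ} (h : Asserts (circ P1 P2) [a, b, c, d]) :
    Sem P1 (reg4 a b c d) (fun τ => Asserts (comp P2 ρ4 4) [τ 0, τ 4, τ 5, τ 3]) := by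
  refine sem_mono ?_ _ _ (cmpK_sound P1 ρ4 [a, b, c, d] (reg4 a b c d) (rel4 a b c d) h)
  rintro τ ⟨ws, ρ', hR, hA⟩
  have h1 := Pool.Agent.helper63.RG.asserts_reloc (le_refl _) _ [] hA
  have e1 : ∀ i, get (ws ++ [a, b, c, d]) ((ws ++ [a, b, c, d]).length - 1 - look ρ' i) = τ i :=
    fun i => hR.eq i
  simpa only [List.nil_append, List.map_cons, List.map_nil, e1] using h1

/-- the registers after a chart -/
structure CF (e κ : ℝ) (x T : ℂ) (τ : ℕ → ℂ) : Prop where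
  bf : BF e κ τ
  x : τ 3 = x
  T : τ 5 = T

/-- `c + Y e²` -/
theorem y_val (t : TD) {e κ : ℝ} (he : 0 < e) (m : ℕ) :
    (Real.sinh κ : ℂ) * e * ((Real.sinh κ : ℂ) * e) + (zi (nth 0 t.y m)).val =
      (e : ℂ) ^ 2 * ((Real.sinh κ ^ 2 + t.Y m e : ℝ) : ℂ) := by
  rw [zi_val, cv_rv]
  unfold TD.Y rv
  have he0 : (e : ℂ) ≠ 0 := by exact_mod_cast he.ne'
  push_cast
  field_simp

variable {t : TD} {e κ : ℝ} {n : ℕ} {σ : ℕ → ℂ} {Q : (ℕ → ℂ) → Prop} {T : ℂ} {s' s : ℝ}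

theorem chA_spec (he : 0 < e) (hκ : 0 < κ) (h0 : σ 0 = ((1 / e : ℝ) : ℂ)) (h1 : σ 1 = (s' : ℂ))
    (hb : t.bv (1 / e) s' = e * κ / 2) (h2 : σ 2 = (s : ℂ))
    (hT : T * ((1 + (t.RR n e κ : ℂ)) + I * (((1 / e : ℝ) : ℂ) * (s : ℂ)) *
      (((1 - t.RR n e κ) / Real.sinh κ : ℝ) : ℂ)) =
        (Real.sinh κ : ℂ) * (Real.sinh κ : ℂ) * (((1 - t.RR n e κ) / Real.sinh κ : ℝ) : ℂ) +
          I * (((1 / e : ℝ) : ℂ) * (s : ℂ)) * (1 + (t.RR n e κ : ℂ)))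
    (h : Sem (chA t n) σ Q) : ∃ τ, Q τ ∧ CF e κ (σ 3) T τ := by
  unfold chA at h
  rw [List.append_assoc] at h
  obtain ⟨τ, h, hB, g2, g3⟩ := base_spec he h0 h1 hb h
  obtain ⟨τ1, h, hG, f1⟩ := geo_spec hκ hB h
  have e15 := hG.bf.K
  have e20 := hG.R
  have e21 := hG.rho
  have e22 := hG.bf.one
  have e0 := hG.bf.ep
  have e2 : τ1 2 = (s : ℂ) := by
    rw [f1 2 (by omega) (by omega) (by omega) (by omega) (by omega) (by omega), g2, h2]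
  have e3 : τ1 3 = σ 3 := by
    rw [f1 3 (by omega) (by omega) (by omega) (by omega) (by omega) (by omega), g3]
  obtain ⟨ρ, hρ⟩ : ∃ ρ : ℂ, ρ = (((1 - t.RR n e κ) / Real.sinh κ : ℝ) : ℂ) := ⟨_, rfl⟩
  rw [← hρ] at e21 hT
  obtain ⟨-, h⟩ := sem_set h (x := (Real.sinh κ : ℂ) * (Real.sinh κ : ℂ) * ρ) (by
    simp only [E.ev]
    rw [e15, e21])
  obtain ⟨-, h⟩ := sem_set h (x := (t.RR n e κ : ℂ) + 1) (by
    simp only [E.ev, upd, Nat.reduceEqDiff, reduceIte]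
    rw [e20, e22])
  obtain ⟨-, h⟩ := sem_set h (x := I * (((1 / e : ℝ) : ℂ) * (s : ℂ))) (by
    simp only [E.ev, upd, Nat.reduceEqDiff, reduceIte]
    rw [zI_val, e0, e2])
  have hne := h.1.2.2
  simp only [E.ev, upd, Nat.reduceEqDiff, reduceIte] at hne
  rw [e21] at hne
  obtain ⟨-, h⟩ := sem_set h (x := T) (by
    simp only [E.ev, upd, Nat.reduceEqDiff, reduceIte]
    rw [e21, ← div_eq_mul_inv, div_eq_iff hne]
    linear_combination -hT)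
  refine ⟨_, h, ⟨?_, ?_, ?_⟩⟩
  · refine hG.bf.of_eq ?_ ?_ ?_ ?_ ?_ ?_ ?_ <;> simp [upd]
  · simp [upd, e3]
  · simp [upd]

theorem chB_spec (he : 0 < e) (hκ : 0 < κ) (h0 : σ 0 = ((1 / e : ℝ) : ℂ)) (h1 : σ 1 = (s' : ℂ))
    (hb : t.bv (1 / e) s' = e * κ / 2) (h2 : σ 2 = (s : ℂ))
    (hT : T * ((1 + (t.RR n e κ : ℂ)) * (s : ℂ) + I * (((1 / e : ℝ) : ℂ) *
      (((1 - t.RR n e κ) / Real.sinh κ : ℝ) : ℂ))) =
        (Real.sinh κ : ℂ) * (Real.sinh κ : ℂ) * (((1 - t.RR n e κ) / Real.sinh κ : ℝ) : ℂ) * (s : ℂ) +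
          I * (((1 / e : ℝ) : ℂ) * (1 + (t.RR n e κ : ℂ))))
    (h : Sem (chB t n) σ Q) : ∃ τ, Q τ ∧ CF e κ (σ 3) T τ := by
  unfold chB at h
  rw [List.append_assoc] at h
  obtain ⟨τ, h, hB, g2, g3⟩ := base_spec he h0 h1 hb h
  obtain ⟨τ1, h, hG, f1⟩ := geo_spec hκ hB h
  have e15 := hG.bf.K
  have e20 := hG.R
  have e21 := hG.rho
  have e22 := hG.bf.one
  have e0 := hG.bf.ep
  have e2 : τ1 2 = (s : ℂ) := by
    rw [f1 2 (by omega) (by omega) (by omega) (by omega) (by omega) (by omega), g2, h2]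
  have e3 : τ1 3 = σ 3 := by
    rw [f1 3 (by omega) (by omega) (by omega) (by omega) (by omega) (by omega), g3]
  obtain ⟨ρ, hρ⟩ : ∃ ρ : ℂ, ρ = (((1 - t.RR n e κ) / Real.sinh κ : ℝ) : ℂ) := ⟨_, rfl⟩
  rw [← hρ] at e21 hT
  obtain ⟨-, h⟩ := sem_set h (x := (Real.sinh κ : ℂ) * (Real.sinh κ : ℂ) * ρ) (by
    simp only [E.ev]
    rw [e15, e21])
  obtain ⟨-, h⟩ := sem_set h (x := (t.RR n e κ : ℂ) + 1) (by
    simp only [E.ev, upd, Nat.reduceEqDiff, reduceIte]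
    rw [e20, e22])
  have hne := h.1.2.2
  simp only [E.ev, upd, Nat.reduceEqDiff, reduceIte] at hne
  rw [e21, zI_val, e0, e2] at hne
  obtain ⟨-, h⟩ := sem_set h (x := T) (by
    simp only [E.ev, upd, Nat.reduceEqDiff, reduceIte]
    rw [e21, zI_val, e0, e2, ← div_eq_mul_inv, div_eq_iff hne]
    linear_combination -hT)
  refine ⟨_, h, ⟨?_, ?_, ?_⟩⟩
  · refine hG.bf.of_eq ?_ ?_ ?_ ?_ ?_ ?_ ?_ <;> simp [upd]
  · simp [upd, e3]
  · simp [upd]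

theorem chC_spec (he : 0 < e) (h0 : σ 0 = ((1 / e : ℝ) : ℂ)) (h1 : σ 1 = (s' : ℂ))
    (hb : t.bv (1 / e) s' = e * κ / 2) (h2 : σ 2 = (s : ℂ))
    (hT : T = ((rv t.s1 / e : ℝ) : ℂ) * ((I * (s : ℂ) + 1) * (1 - I * (s : ℂ))⁻¹))
    (h : Sem (chC t) σ Q) : ∃ τ, Q τ ∧ CF e κ (σ 3) T τ := by
  unfold chC at h
  obtain ⟨τ, h, hB, g2, g3⟩ := base_spec he h0 h1 hb h
  have e22 := hB.one
  have e0 := hB.ep
  obtain ⟨-, h⟩ := sem_set h (x := I * (s : ℂ)) (by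
    simp only [E.ev]
    rw [zI_val, g2, h2])
  obtain ⟨-, h⟩ := sem_set h (x := T) (by
    simp only [E.ev, upd, Nat.reduceEqDiff, reduceIte]
    rw [e22, e0, zi_val, cv_rv, hT]
    push_cast
    ring)
  refine ⟨_, h, ⟨?_, ?_, ?_⟩⟩
  · refine hB.of_eq ?_ ?_ ?_ ?_ ?_ ?_ ?_ <;> simp [upd]
  · simp [upd, g3]
  · simp [upd]

/-- the state from its square -/
theorem sq_e {z : ℂ} (he : 0 < e) (hT : T ^ 2 = z) : (T * e) ^ 2 = (e : ℂ) ^ 2 * z := by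
  rw [← hT]
  ring

theorem te_inv (he : 0 < e) : T * e * ((1 / e : ℝ) : ℂ) = T := by
  have he0 : (e : ℂ) ≠ 0 := by exact_mod_cast he.ne'
  push_cast
  field_simp

theorem te_re (he : 0 < e) (h : 0 < T.re) : 0 < (T * e).re := by
  rw [Complex.re_mul_ofReal]
  exact mul_pos h he

theorem te_im (he : 0 < e) (h : 0 ≤ T.im) : 0 ≤ (T * e).im := by
  rw [Complex.im_mul_ofReal]
  exact mul_nonneg h he.le

theorem chD_spec (he : 0 < e) (h0 : σ 0 = ((1 / e : ℝ) : ℂ)) (h1 : σ 1 = (s' : ℂ))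
    (hb : t.bv (1 / e) s' = e * κ / 2) (h2 : σ 2 = (s : ℂ)) (hre : 0 < T.re)
    (hT : T ^ 2 = (Real.sinh κ : ℂ) ^ 2 +
      ((Real.sinh κ ^ 2 + t.Y (n - 1) e : ℝ) : ℂ) * exp (I * (s : ℂ)))
    (h : Sem (chD t n) σ Q) : ∃ τ, Q τ ∧ CF e κ (σ 3) T τ := by
  unfold chD at h
  obtain ⟨τ, h, hB, g2, g3⟩ := base_spec he h0 h1 hb h
  have e22 := hB.one
  have e0 := hB.ep
  have e17 := hB.Ke
  have hy := y_val t (κ := κ) he (n - 1)
  obtain ⟨B, hBd⟩ : ∃ B : ℂ, B = ((Real.sinh κ ^ 2 + t.Y (n - 1) e : ℝ) : ℂ) := ⟨_, rfl⟩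
  rw [← hBd] at hT hy
  obtain ⟨-, h⟩ := sem_set h (x := (Real.sinh κ : ℂ) * e * ((Real.sinh κ : ℂ) * e)) (by
    simp only [E.ev]
    rw [e17])
  obtain ⟨-, h⟩ := sem_set h (x := (e : ℂ) ^ 2 * B) (by
    simp only [E.ev, upd, Nat.reduceEqDiff, reduceIte]
    rw [hy])
  obtain ⟨-, h⟩ := sem_set h (x := exp (I * (s : ℂ))) (by
    simp only [E.ev, upd, Nat.reduceEqDiff, reduceIte]
    rw [zI_val, g2, h2])
  have hz := h.1.2
  simp only [E.ev, upd, Nat.reduceEqDiff, reduceIte] at hz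
  obtain ⟨-, h⟩ := sem_set h (x := T * e) (by
    simp only [E.ev, upd, Nat.reduceEqDiff, reduceIte]
    rw [half_val]
    refine (root_D hz ?_ (te_re he hre)).symm
    rw [sq_e he hT]
    ring)
  obtain ⟨-, h⟩ := sem_set h (x := T) (by
    simp only [E.ev, upd, Nat.reduceEqDiff, reduceIte]
    rw [e0, te_inv he])
  refine ⟨_, h, ⟨?_, ?_, ?_⟩⟩
  · refine hB.of_eq ?_ ?_ ?_ ?_ ?_ ?_ ?_ <;> simp [upd]
  · simp [upd, g3]
  · simp [upd]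

theorem chF_spec (he : 0 < e) (h0 : σ 0 = ((1 / e : ℝ) : ℂ)) (h1 : σ 1 = (s' : ℂ))
    (hb : t.bv (1 / e) s' = e * κ / 2) (h2 : σ 2 = (s : ℂ)) (hre : 0 < T.re)
    (hT : T ^ 2 = (Real.sinh κ : ℂ) ^ 2 -
      ((Real.sinh κ ^ 2 + t.Y (n - 1) e : ℝ) : ℂ) * exp (-I * (s : ℂ)))
    (h : Sem (chF t n) σ Q) : ∃ τ, Q τ ∧ CF e κ (σ 3) T τ := by
  unfold chF at h
  obtain ⟨τ, h, hB, g2, g3⟩ := base_spec he h0 h1 hb h
  have e22 := hB.one
  have e0 := hB.ep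
  have e17 := hB.Ke
  have hy := y_val t (κ := κ) he (n - 1)
  obtain ⟨B, hBd⟩ : ∃ B : ℂ, B = ((Real.sinh κ ^ 2 + t.Y (n - 1) e : ℝ) : ℂ) := ⟨_, rfl⟩
  rw [← hBd] at hT hy
  obtain ⟨-, h⟩ := sem_set h (x := (Real.sinh κ : ℂ) * e * ((Real.sinh κ : ℂ) * e)) (by
    simp only [E.ev]
    rw [e17])
  obtain ⟨-, h⟩ := sem_set h (x := (e : ℂ) ^ 2 * B) (by
    simp only [E.ev, upd, Nat.reduceEqDiff, reduceIte]
    rw [hy])
  obtain ⟨-, h⟩ := sem_set h (x := exp (-I * (s : ℂ))) (by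
    simp only [E.ev, upd, Nat.reduceEqDiff, reduceIte]
    rw [zmI_val, g2, h2])
  have hz := h.1.2
  simp only [E.ev, upd, Nat.reduceEqDiff, reduceIte] at hz
  obtain ⟨-, h⟩ := sem_set h (x := T * e) (by
    simp only [E.ev, upd, Nat.reduceEqDiff, reduceIte]
    rw [half_val]
    refine (root_D hz ?_ (te_re he hre)).symm
    rw [sq_e he hT]
    ring)
  obtain ⟨-, h⟩ := sem_set h (x := T) (by
    simp only [E.ev, upd, Nat.reduceEqDiff, reduceIte]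
    rw [e0, te_inv he])
  refine ⟨_, h, ⟨?_, ?_, ?_⟩⟩
  · refine hB.of_eq ?_ ?_ ?_ ?_ ?_ ?_ ?_ <;> simp [upd]
  · simp [upd, g3]
  · simp [upd]

theorem chE_spec (he : 0 < e) (h0 : σ 0 = ((1 / e : ℝ) : ℂ)) (h1 : σ 1 = (s' : ℂ))
    (hb : t.bv (1 / e) s' = e * κ / 2) (h2 : σ 2 = (s : ℂ)) (him : 0 ≤ T.im)
    (hT : T ^ 2 = (Real.sinh κ : ℂ) ^ 2 -
      ((Real.sinh κ ^ 2 + t.Y (n - 1) e : ℝ) : ℂ) * exp (-I * (s : ℂ)))
    (h : Sem (chE t n) σ Q) : ∃ τ, Q τ ∧ CF e κ (σ 3) T τ := by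
  unfold chE at h
  obtain ⟨τ, h, hB, g2, g3⟩ := base_spec he h0 h1 hb h
  have e22 := hB.one
  have e0 := hB.ep
  have e17 := hB.Ke
  have hy := y_val t (κ := κ) he (n - 1)
  obtain ⟨B, hBd⟩ : ∃ B : ℂ, B = ((Real.sinh κ ^ 2 + t.Y (n - 1) e : ℝ) : ℂ) := ⟨_, rfl⟩
  rw [← hBd] at hT hy
  obtain ⟨-, h⟩ := sem_set h (x := (Real.sinh κ : ℂ) * e * ((Real.sinh κ : ℂ) * e)) (by
    simp only [E.ev]
    rw [e17])
  obtain ⟨-, h⟩ := sem_set h (x := (e : ℂ) ^ 2 * B) (by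
    simp only [E.ev, upd, Nat.reduceEqDiff, reduceIte]
    rw [hy])
  obtain ⟨-, h⟩ := sem_set h (x := exp (-I * (s : ℂ))) (by
    simp only [E.ev, upd, Nat.reduceEqDiff, reduceIte]
    rw [zmI_val, g2, h2])
  have hz := h.1.2
  simp only [E.ev, upd, Nat.reduceEqDiff, reduceIte] at hz
  obtain ⟨-, h⟩ := sem_set h (x := T * e) (by
    simp only [E.ev, upd, Nat.reduceEqDiff, reduceIte]
    rw [half_val, zI_val]
    refine (root_E hz ?_ (te_im he him)).symm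
    rw [sq_e he hT]
    ring)
  obtain ⟨-, h⟩ := sem_set h (x := T) (by
    simp only [E.ev, upd, Nat.reduceEqDiff, reduceIte]
    rw [e0, te_inv he])
  refine ⟨_, h, ⟨?_, ?_, ?_⟩⟩
  · refine hB.of_eq ?_ ?_ ?_ ?_ ?_ ?_ ?_ <;> simp [upd]
  · simp [upd, g3]
  · simp [upd]

theorem chEF_spec (he : 0 < e) (h0 : σ 0 = ((1 / e : ℝ) : ℂ)) (h1 : σ 1 = (s' : ℂ))
    (hb : t.bv (1 / e) s' = e * κ / 2) (h2 : σ 2 = (s : ℂ)) (hre : 0 < T.re) (him : 0 ≤ T.im)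
    (hT : T ^ 2 = (Real.sinh κ : ℂ) ^ 2 -
      ((Real.sinh κ ^ 2 + t.Y (n - 1) e : ℝ) : ℂ) * exp (-I * (s : ℂ)))
    (h : Sem (chEF t n) σ Q) : ∃ τ, Q τ ∧ CF e κ (σ 3) T τ := by
  unfold chEF at h
  by_cases hy : nth 0 t.y (n - 1) < 0
  · rw [decide_eq_true hy, cond_true] at h
    exact chF_spec he h0 h1 hb h2 hre hT h
  · rw [decide_eq_false hy, cond_false] at h
    exact chE_spec he h0 h1 hb h2 him hT h

/-! ### the alternatives -/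

theorem lt_one_mul_inv {a b : ℂ} (hb : b ≠ 0) (h : ‖a * b⁻¹‖ < 1) : ‖a‖ < ‖b‖ := by
  rw [norm_mul, norm_inv, ← div_eq_mul_inv, div_lt_one (norm_pos_iff.2 hb)] at h
  exact h

/-- the point is in the cut -/
theorem outCut_false (he : 0 < e) {x : ℂ} (hC : CF e κ x T σ)
    (hT : ‖T ^ 2 - (Real.sinh κ : ℂ) ^ 2‖ ≤ Real.sinh κ ^ 2 + t.Y (n - 1) e)
    (h : Sem (outCut t n) σ Q) : False := by
  have e15 := hC.bf.K
  have e0 := hC.bf.ep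
  have e5 := hC.T
  obtain ⟨-, h⟩ := sem_set h (x := (Real.sinh κ : ℂ) ^ 2) (by
    simp only [E.ev]
    rw [e15]
    ring)
  obtain ⟨ho, h, -⟩ := h
  have hne := ho.2.2
  simp only [E.ev, upd, Nat.reduceEqDiff, reduceIte] at hne h
  have h1 := lt_one_mul_inv hne (h.trans THA_lt)
  rw [e5, e0] at h1
  have e1 : (Real.sinh κ : ℂ) ^ 2 + (zi (nth 0 t.y (n - 1))).val *
      (((1 / e : ℝ) : ℂ) * ((1 / e : ℝ) : ℂ)) = ((Real.sinh κ ^ 2 + t.Y (n - 1) e : ℝ) : ℂ) := by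
    rw [zi_val, cv_rv]
    unfold TD.Y rv
    have he0 : (e : ℂ) ≠ 0 := by exact_mod_cast he.ne'
    push_cast
    field_simp
  rw [e1, Complex.norm_real] at h1
  have h2 : T * T - (Real.sinh κ : ℂ) ^ 2 = T ^ 2 - (Real.sinh κ : ℂ) ^ 2 := by ring
  rw [h2] at h1
  have h3 := le_abs_self (Real.sinh κ ^ 2 + t.Y (n - 1) e)
  rw [Real.norm_eq_abs] at h1
  linarith

/-- the point is outside the inner circle -/
theorem outIn_false (he : 0 < e) {x : ℂ} (hC : CF e κ x T σ) (h1 : 1 ≤ rv t.is1 * rv t.s1)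
    (hp : 0 ≤ rv t.is1) (hT : rv t.s1 / e ≤ ‖T‖) (h : Sem (outIn t) σ Q) : False := by
  have e0 := hC.bf.ep
  have e5 := hC.T
  obtain ⟨-, h, -⟩ := h
  simp only [E.ev] at h
  rw [e0, e5, zi_val, cv_rv] at h
  have h2 := h.trans THA_lt
  rw [norm_mul, norm_mul, norm_inv, Complex.norm_real, Complex.norm_real,
    Real.norm_of_nonneg hp, Real.norm_of_nonneg (by positivity), one_div, inv_inv] at h2
  have h3 : rv t.is1 * rv t.s1 ≤ rv t.is1 * (‖T‖ * e) := by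
    apply mul_le_mul_of_nonneg_left _ hp
    rwa [div_le_iff₀ he] at hT
  linarith

/-- the point is in the disc -/
theorem outDisc_false (hκ : 0 < κ) {x : ℂ} (hC : CF e κ x T σ) (h0 : 0 ≤ t.RR n e κ)
    (h1 : t.RR n e κ < 1)
    (hT : ‖(Real.sinh κ : ℂ) - T‖ ≤ t.RR n e κ * ‖(Real.sinh κ : ℂ) + T‖)
    (h : Sem (outDisc t n) σ Q) : False := by
  obtain ⟨τ, h, hG, f1⟩ := geo_spec hκ hC.bf h
  have e20 := hG.R
  have e21 := hG.rho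
  have e22 := hG.bf.one
  have e5 : τ 5 = T := by
    rw [f1 5 (by omega) (by omega) (by omega) (by omega) (by omega) (by omega), hC.T]
  obtain ⟨ho, h, -⟩ := h
  have hne := ho.2.2
  simp only [E.ev] at hne h
  have h2 := lt_one_mul_inv hne (h.trans THA_lt)
  rw [e5, e20, e21, e22, two_val] at h2
  have h3 := disc_centre (Real.sinh_pos_iff.2 hκ) h0 h1 hT
  rw [norm_mul, Complex.norm_real, Real.norm_of_nonneg h0] at h2
  have h4 : ‖(2 : ℂ)‖ = 2 := by norm_num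
  rw [h4] at h2
  linarith

/-- the point is not left of the disc -/
theorem altL_false (he : 0 < e) (hκ : 0 < κ) (h0 : 0 ≤ t.RR n e κ)
    (h1 : t.RR n e κ < 1) {x : ℂ} (hb : t.bv (1 / e) s' = e * κ / 2)
    (hTd : ‖(Real.sinh κ : ℂ) - T‖ ≤ t.RR n e κ * ‖(Real.sinh κ : ℂ) + T‖)
    (hT : T ^ 2 = (Real.sinh κ : ℂ) ^ 2 -
      ((Real.sinh κ ^ 2 + t.Y (n - 1) e : ℝ) : ℂ) * exp (-I * (s : ℂ)))
    (h : Asserts (altL t n) [((1 / e : ℝ) : ℂ), (s' : ℂ), (s : ℂ), x]) : False := by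
  have hK := Real.sinh_pos_iff.2 hκ
  have h := comp4 h
  rw [List.append_assoc] at h
  obtain ⟨τ, h, hB, g2, g3⟩ := base_spec he rfl rfl hb h
  obtain ⟨τ1, h, hG, f1⟩ := geo_spec hκ hB h
  have e20 := hG.R
  have e21 := hG.rho
  have e22 := hG.bf.one
  have e17 := hG.bf.Ke
  have e0 := hG.bf.ep
  have e2 : τ1 2 = (s : ℂ) := by
    rw [f1 2 (by omega) (by omega) (by omega) (by omega) (by omega) (by omega), g2]
    rfl
  have hy := y_val t (κ := κ) he (n - 1)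
  obtain ⟨B, hBd⟩ : ∃ B : ℂ, B = ((Real.sinh κ ^ 2 + t.Y (n - 1) e : ℝ) : ℂ) := ⟨_, rfl⟩
  rw [← hBd] at hT hy
  obtain ⟨-, h⟩ := sem_set h (x := (Real.sinh κ : ℂ) * e * ((Real.sinh κ : ℂ) * e)) (by
    simp only [E.ev]
    rw [e17])
  obtain ⟨-, h⟩ := sem_set h (x := (e : ℂ) ^ 2 * B) (by
    simp only [E.ev, upd, Nat.reduceEqDiff, reduceIte]
    rw [hy])
  obtain ⟨-, h⟩ := sem_set h (x := exp (-I * (s : ℂ))) (by
    simp only [E.ev, upd, Nat.reduceEqDiff, reduceIte]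
    rw [zmI_val, e2])
  obtain ⟨-, h⟩ := sem_set h (x := (T * e) ^ 2) (by
    simp only [E.ev, upd, Nat.reduceEqDiff, reduceIte]
    rw [sq_e he hT]
    ring)
  have hne := h.1.2.2
  simp only [E.ev, upd, Nat.reduceEqDiff, reduceIte] at hne
  obtain ⟨D, hD⟩ : ∃ D : ℂ, D = (Real.sinh κ : ℂ) * e * ((Real.sinh κ : ℂ) * e) * τ1 21 * τ1 0 :=
    ⟨_, rfl⟩
  rw [← hD] at hne
  obtain ⟨-, h⟩ := sem_set h (x := ((t.RR n e κ : ℂ) + 1) * D⁻¹) (by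
    simp only [E.ev, upd, Nat.reduceEqDiff, reduceIte]
    rw [e20, e22, ← hD])
  obtain ⟨-, h, -⟩ := h
  simp only [E.ev, upd, Nat.reduceEqDiff, reduceIte] at h
  have h2 := h.trans THA_lt
  have e1 : (T * e) ^ 2 * (((t.RR n e κ : ℂ) + 1) * D⁻¹ * (((t.RR n e κ : ℂ) + 1) * D⁻¹)) =
      (T * e * ((t.RR n e κ : ℂ) + 1) * D⁻¹) ^ 2 := by ring
  rw [e1, norm_pow] at h2
  have h3 : ‖T * e * ((t.RR n e κ : ℂ) + 1) * D⁻¹‖ < 1 := by
    by_contra hc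
    push Not at hc
    have := one_le_pow₀ hc (n := 2)
    linarith
  have h4 := lt_one_mul_inv hne h3
  have he0 : (e : ℂ) ≠ 0 := by exact_mod_cast he.ne'
  have hK0 : (Real.sinh κ : ℂ) ≠ 0 := by exact_mod_cast hK.ne'
  have e3 : D = ((e * (Real.sinh κ * (1 - t.RR n e κ)) : ℝ) : ℂ) := by
    rw [hD, e21, e0]
    push_cast
    field_simp
  have e4 : ((t.RR n e κ : ℂ) + 1) = ((t.RR n e κ + 1 : ℝ) : ℂ) := by push_cast; rfl
  rw [e3, e4, norm_mul, norm_mul, Complex.norm_real, Complex.norm_real, Complex.norm_real,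
    Real.norm_of_nonneg he.le, Real.norm_of_nonneg (by linarith),
    Real.norm_of_nonneg (mul_nonneg he.le (mul_nonneg hK.le (by linarith)))] at h4
  have h5 := left_end hK h0 hTd
  have h6 : e * (Real.sinh κ * (1 - t.RR n e κ)) ≤ e * ((1 + t.RR n e κ) * ‖T‖) :=
    mul_le_mul_of_nonneg_left h5 he.le
  linarith

end Pool.Agent.helper63.NF
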