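import Pool.Agent.helper63.NF.SpecMid

/-!
# Meaning of the far constants in the program of the last near node
-/

namespace Pool.Agent.helper63.NF

open Complex
open Pool.Agent.helper31.IA (Z get)
open Pool.Agent.helper12.RS

/-- real value -/
noncomputable def rv (n : ℤ) : ℝ := (n : ℝ) / 2 ^ 40

theorem cv_rv (n : ℤ) : cv n = (rv n : ℂ) := by
  unfold cv rv
  norm_num

/-- the constant of the far field -/
noncomputable def TD.A (t : TD) (e κ : ℝ) : ℝ :=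
  match t.far with
  | 0 => rv t.f1 * e + rv t.f2
  | 1 => (e / 4 + 2) ^ 2 * (e / 4 + 2) * ((e / 4 + 2) ^ 2 + rv t.f1 * (Real.sinh κ * e) ^ 2)⁻¹
  | 2 => rv t.f1 * e
  | 3 => 2 * e * (Real.sinh κ * e + 4)⁻¹
  | _ => e * (Real.sinh κ * e + 4)⁻¹

/-- `2 (x0 + 1)` -/
noncomputable def TD.X2 (t : TD) : ℝ := rv t.x2

/-- the start of the far field -/
noncomputable def TD.x0 (t : TD) : ℝ := rv t.x2 / 2 - 1

/-- checks for the last near node -/
def TD.okl (t : TD) : Bool :=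
  decide (0 < t.x2) && (!t.strip || decide (2 ^ 81 ≤ t.f3 * t.x2)) &&
  decide (0 ≤ t.f1) && decide (0 ≤ t.f2) && decide (2 * (t.B1 : ℤ) < t.x2 + 2 ^ 41) &&
  decide ((t.x2 + 2 ^ 41 + 2 ^ 40) * 2 ^ 40 ≤ t.C2 * (t.x2 + 2 ^ 41 - 2 * (t.B1 : ℤ)))

structure TD.Okl (t : TD) : Prop where
  x2 : 0 < rv t.x2
  f3 : t.strip = true → 2 ≤ rv t.f3 * rv t.x2
  f1 : 0 ≤ rv t.f1
  f2 : 0 ≤ rv t.f2
  b1 : (t.B1 : ℝ) / 2 ^ 40 < t.x0 + 2
  c2 : (1 + 1 / (2 * (t.x0 + 2))) / (1 - (t.B1 : ℝ) / 2 ^ 40 / (t.x0 + 2)) ≤ rv t.C2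

theorem TD.okl_of {t : TD} (h : t.okl = true) : t.Okl := by
  simp only [TD.okl, Bool.and_eq_true, Bool.or_eq_true, Bool.not_eq_true', decide_eq_true_eq] at h
  obtain ⟨⟨⟨⟨⟨h1, h2⟩, h3⟩, h4⟩, h5⟩, h6⟩ := h
  have h1' : (0 : ℝ) < t.x2 := by exact_mod_cast h1
  have h5' : 2 * (t.B1 : ℝ) < t.x2 + 2 ^ 41 := by exact_mod_cast h5
  have h6' : ((t.x2 : ℝ) + 2 ^ 41 + 2 ^ 40) * 2 ^ 40 ≤ t.C2 * (t.x2 + 2 ^ 41 - 2 * (t.B1 : ℝ)) := by
    exact_mod_cast h6
  have hx : t.x0 + 2 = ((t.x2 : ℝ) + 2 ^ 41) / 2 ^ 41 := by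
    unfold TD.x0 rv
    ring
  have hx0 : (0 : ℝ) < t.x2 + 2 ^ 41 := by positivity
  refine ⟨by unfold rv; positivity, ?_, ?_, ?_, ?_, ?_⟩
  · intro hs
    rcases h2 with h2 | h2
    · rw [hs] at h2
      cases h2
    · have h2' : (2 : ℝ) ^ 81 ≤ t.f3 * t.x2 := by exact_mod_cast h2
      unfold rv
      rw [div_mul_div_comm, le_div_iff₀ (by positivity)]
      calc (2 : ℝ) * (2 ^ 40 * 2 ^ 40) = 2 ^ 81 := by norm_num
        _ ≤ _ := h2'
  · unfold rv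
    have : (0 : ℝ) ≤ t.f1 := by exact_mod_cast h3
    positivity
  · unfold rv
    have : (0 : ℝ) ≤ t.f2 := by exact_mod_cast h4
    positivity
  · rw [hx, div_lt_div_iff₀ (by positivity) (by positivity)]
    nlinarith
  · rw [hx]
    have e1 : 1 - (t.B1 : ℝ) / 2 ^ 40 / (((t.x2 : ℝ) + 2 ^ 41) / 2 ^ 41) =
        ((t.x2 : ℝ) + 2 ^ 41 - 2 * (t.B1 : ℝ)) / (t.x2 + 2 ^ 41) := by
      field_simp
    have e2 : 1 + 1 / (2 * (((t.x2 : ℝ) + 2 ^ 41) / 2 ^ 41)) =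
        ((t.x2 : ℝ) + 2 ^ 41 + 2 ^ 40) / (t.x2 + 2 ^ 41) := by
      field_simp
    have hp : (0 : ℝ) < t.x2 + 2 ^ 41 - 2 * (t.B1 : ℝ) := by linarith
    rw [e1, e2, div_div_div_cancel_right₀ hx0.ne']
    unfold rv
    rw [div_le_div_iff₀ hp (by positivity)]
    exact h6'

theorem TD.A_nonneg {t : TD} (h : t.Okl) {e κ : ℝ} (he : 0 < e) (hκ : 0 < κ) : 0 ≤ t.A e κ := by
  have h1 := h.f1
  have h2 := h.f2
  have hs := Real.sinh_pos_iff.2 hκ
  unfold TD.A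
  split <;> positivity

/-- **The far constant.** -/
theorem far_spec {t : TD} {e κ : ℝ} {σ : ℕ → ℂ} {Q : (ℕ → ℂ) → Prop}
    (hF : HF t e κ σ) (h : Sem (farS t) σ Q) : ∃ τ, Q τ ∧ (∀ i, i < 97 ∨ 100 ≤ i → τ i = σ i) ∧
      τ 99 = (t.A e κ : ℂ) := by
  have e5 := hF.ie
  have e17 := hF.Ke
  unfold farS at h
  unfold TD.A
  generalize t.far = k at h ⊢
  rcases k with _ | _ | _ | _ | _
  · obtain ⟨-, h⟩ := sem_set h (x := ((rv t.f1 * e + rv t.f2 : ℝ) : ℂ)) (by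
      simp only [E.ev, zi_val, cv_rv, e5]
      push_cast
      rfl)
    exact ⟨_, h, fun i hi => upd_ne (by omega) _, upd_same _ _⟩
  · obtain ⟨-, h⟩ := sem_set h (x := ((e / 4 + 2 : ℝ) : ℂ)) (by
      simp only [E.ev, quart_val, two_val, e5]
      push_cast
      ring)
    obtain ⟨-, h⟩ := sem_set h (x := (((e / 4 + 2) ^ 2 : ℝ) : ℂ)) (by
      simp only [E.ev, upd, reduceIte]
      push_cast
      ring)
    obtain ⟨-, h⟩ := sem_set h
      (x := (((e / 4 + 2) ^ 2 + rv t.f1 * (Real.sinh κ * e) ^ 2 : ℝ) : ℂ)) (by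
      simp only [E.ev, upd, Nat.reduceEqDiff, reduceIte, zi_val, cv_rv, e17]
      push_cast
      ring)
    obtain ⟨-, -, h⟩ := h
    obtain ⟨-, h⟩ := sem_set h (x := (((e / 4 + 2) ^ 2 * (e / 4 + 2) *
        ((e / 4 + 2) ^ 2 + rv t.f1 * (Real.sinh κ * e) ^ 2)⁻¹ : ℝ) : ℂ)) (by
      simp only [E.ev, upd, Nat.reduceEqDiff, reduceIte]
      push_cast
      ring)
    exact ⟨_, h, fun i hi => by
      rw [upd_ne (by omega), upd_ne (by omega), upd_ne (by omega), upd_ne (by omega)], upd_same _ _⟩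
  · obtain ⟨-, h⟩ := sem_set h (x := ((rv t.f1 * e : ℝ) : ℂ)) (by
      simp only [E.ev, zi_val, cv_rv, e5]
      push_cast
      rfl)
    exact ⟨_, h, fun i hi => upd_ne (by omega) _, upd_same _ _⟩
  · obtain ⟨-, h⟩ := sem_set h (x := ((Real.sinh κ * e + 4 : ℝ) : ℂ)) (by
      simp only [E.ev, four_val, e17]
      push_cast
      ring)
    obtain ⟨-, -, h⟩ := h
    obtain ⟨-, h⟩ := sem_set h (x := ((2 * e * (Real.sinh κ * e + 4)⁻¹ : ℝ) : ℂ)) (by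
      simp only [E.ev, upd, Nat.reduceEqDiff, reduceIte, two_val, e5]
      push_cast
      ring)
    exact ⟨_, h, fun i hi => by rw [upd_ne (by omega), upd_ne (by omega)], upd_same _ _⟩
  · obtain ⟨-, h⟩ := sem_set h (x := ((Real.sinh κ * e + 4 : ℝ) : ℂ)) (by
      simp only [E.ev, four_val, e17]
      push_cast
      ring)
    obtain ⟨-, -, h⟩ := h
    obtain ⟨-, h⟩ := sem_set h (x := ((e * (Real.sinh κ * e + 4)⁻¹ : ℝ) : ℂ)) (by
      simp only [E.ev, upd, Nat.reduceEqDiff, reduceIte, e5]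
      push_cast
      ring)
    exact ⟨_, h, fun i hi => by rw [upd_ne (by omega), upd_ne (by omega)], upd_same _ _⟩

/-- `sinh κ ≤ κ (1 + c κ²)` -/
theorem sinh_le {κ : ℝ} (h0 : 0 < κ) (h1 : κ ≤ 1 / 4) :
    Real.sinh κ ≤ κ * (184351450112 / 2 ^ 40 * κ ^ 2 + 1) := by
  have hb : |κ| ≤ 1 := by rw [abs_of_pos h0]; linarith
  have hb' : |-κ| ≤ 1 := by rw [abs_neg]; exact hb
  have e1 := (abs_le.1 (Real.exp_bound hb (n := 6) (by norm_num))).2
  have e2 := (abs_le.1 (Real.exp_bound hb' (n := 6) (by norm_num))).1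
  rw [abs_neg] at e2
  rw [abs_of_pos h0] at e1 e2
  simp only [Finset.sum_range_succ, Finset.sum_range_zero, Nat.factorial] at e1 e2
  rw [Real.sinh_eq]
  norm_num at e1 e2 ⊢
  have h2 : κ ^ 2 ≤ 1 / 16 := by nlinarith
  have h3 : κ ^ 5 ≤ 1 / 16 * κ ^ 3 := by
    have : κ ^ 5 = κ ^ 2 * κ ^ 3 := by ring
    rw [this]
    exact mul_le_mul_of_nonneg_right h2 (by positivity)
  have h4 : κ ^ 6 ≤ 1 / 64 * κ ^ 3 := by
    have : κ ^ 6 = κ ^ 3 * κ ^ 3 := by ring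
    rw [this]
    have h5 : κ ^ 3 ≤ 1 / 64 := by
      calc κ ^ 3 = κ * κ ^ 2 := by ring
        _ ≤ 1 / 4 * (1 / 16) := mul_le_mul h1 h2 (by positivity) (by norm_num)
        _ = _ := by norm_num
    exact mul_le_mul_of_nonneg_right h5 (by positivity)
  have h6 : 0 < κ ^ 3 := by positivity
  nlinarith [e1, e2, h3, h4, h6]

theorem exp_ge {z : ℝ} (h : 0 < z) :
    z * ((183251937280 / 2 ^ 40 * z + 1 / 2) * z + 1) ≤ Real.exp z - 1 := by
  have h1 := Real.sum_le_exp_of_nonneg h.le 4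
  simp only [Finset.sum_range_succ, Finset.sum_range_zero, Nat.factorial] at h1
  norm_num at h1 ⊢
  have : 0 < z ^ 3 := by positivity
  nlinarith [this]

/-- **The displacement of the far field.** -/
theorem xa_spec {t : TD} (ht : t.Okl) {e κ : ℝ} (he : 0 < e) (hκ : 0 < κ)
    (hst : t.strip = true → κ ≤ 1 / 4) {σ : ℕ → ℂ} {Q : (ℕ → ℂ) → Prop}
    (hF : HF t e κ σ) (hA : σ 99 = (t.A e κ : ℂ)) (h : Sem (xaS t) σ Q) :
    ∃ τ, Q τ ∧ (∀ i, i < 100 ∨ 105 ≤ i → τ i = σ i) ∧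
      t.A e κ * (2 * Real.sinh κ) / (Real.exp (rv t.x2 * κ) - 1) ≤ ‖τ 104‖ := by
  have e7 := hF.k
  have e15 := hF.K
  have e22 := hF.one
  have hA0 := TD.A_nonneg ht he hκ
  have hx := ht.x2
  obtain ⟨A, hAd⟩ : ∃ A, A = t.A e κ := ⟨_, rfl⟩
  rw [← hAd] at hA hA0 ⊢
  have hz : 0 < rv t.x2 * κ := mul_pos hx hκ
  unfold xaS at h
  cases hs : t.strip with
  | false =>
    rw [hs, cond_false] at h
    obtain ⟨-, h⟩ := sem_set h (x := ((Real.exp (rv t.x2 * κ) - 1 : ℝ) : ℂ)) (by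
      simp only [E.ev, zi_val, cv_rv, e7, e22]
      push_cast
      rfl)
    obtain ⟨-, -, h⟩ := h
    obtain ⟨-, h⟩ := sem_set h
        (x := ((A * (2 * Real.sinh κ) / (Real.exp (rv t.x2 * κ) - 1) : ℝ) : ℂ)) (by
      simp only [E.ev, upd, Nat.reduceEqDiff, reduceIte, two_val, e15, hA]
      push_cast
      ring)
    refine ⟨_, h, fun i hi => by rw [upd_ne (by omega), upd_ne (by omega)], ?_⟩
    rw [upd_same, Complex.norm_real]
    exact le_abs_self _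
  | true =>
    rw [hs, cond_true] at h
    obtain ⟨-, h⟩ := sem_set h (x := ((κ ^ 2 : ℝ) : ℂ)) (by
      simp only [E.ev, e7]
      push_cast
      ring)
    obtain ⟨-, h⟩ := sem_set h (x := ((rv t.x2 * κ : ℝ) : ℂ)) (by
      simp only [E.ev, upd, Nat.reduceEqDiff, reduceIte, zi_val, cv_rv, e7]
      push_cast
      rfl)
    obtain ⟨z, hzd⟩ : ∃ z, z = rv t.x2 * κ := ⟨_, rfl⟩
    rw [← hzd] at h hz ⊢
    obtain ⟨-, h⟩ := sem_set h
        (x := ((rv t.f3 * (184351450112 / 2 ^ 40 * κ ^ 2 + 1) : ℝ) : ℂ)) (by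
      simp only [E.ev, upd, Nat.reduceEqDiff, reduceIte, zi_val, e22]
      rw [cv_rv t.f3, cv]
      push_cast
      ring)
    obtain ⟨-, h⟩ := sem_set h
        (x := ((((183251937280 / 2 ^ 40 * z + 1 / 2) * z + 1 : ℝ)) : ℂ)) (by
      simp only [E.ev, upd, Nat.reduceEqDiff, reduceIte, zi_val, e22]
      rw [show cv 549755813888 = 1 / 2 by rw [cv]; norm_num, cv]
      push_cast
      ring)
    obtain ⟨D, hD⟩ : ∃ D, D = (183251937280 / 2 ^ 40 * z + 1 / 2) * z + 1 := ⟨_, rfl⟩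
    rw [← hD] at h
    obtain ⟨-, p1, h⟩ := h
    have Dpos : 0 < D := by
      rw [hD]
      positivity
    obtain ⟨-, h⟩ := sem_set h
        (x := ((A * (rv t.f3 * (184351450112 / 2 ^ 40 * κ ^ 2 + 1)) * D⁻¹ : ℝ) : ℂ)) (by
      simp only [E.ev, upd, Nat.reduceEqDiff, reduceIte, hA]
      push_cast
      ring)
    refine ⟨_, h, fun i hi => by
      rw [upd_ne (by omega), upd_ne (by omega), upd_ne (by omega), upd_ne (by omega),
        upd_ne (by omega)], ?_⟩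
    rw [upd_same, Complex.norm_real]
    refine le_trans ?_ (le_abs_self _)
    have g1 := sinh_le hκ (hst hs)
    have g2 := exp_ge hz
    rw [← hD] at g2
    have g3 := ht.f3 hs
    have hc : 0 < 184351450112 / 2 ^ 40 * κ ^ 2 + 1 := by positivity
    obtain ⟨c, hcd⟩ : ∃ c, c = 184351450112 / 2 ^ 40 * κ ^ 2 + 1 := ⟨_, rfl⟩
    rw [← hcd] at g1 hc ⊢
    have hzD : 0 < z * D := mul_pos hz Dpos
    calc A * (2 * Real.sinh κ) / (Real.exp z - 1) ≤ A * (2 * (κ * c)) / (z * D) := by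
          apply div_le_div₀ (by positivity) _ hzD g2
          exact mul_le_mul_of_nonneg_left (mul_le_mul_of_nonneg_left g1 zero_le_two) hA0
      _ ≤ A * (rv t.f3 * c) * D⁻¹ := by
          rw [div_le_iff₀ hzD]
          have e1 : A * (rv t.f3 * c) * D⁻¹ * (z * D) = A * (rv t.f3 * rv t.x2) * (c * κ) := by
            rw [hzd]
            field_simp
          rw [e1]
          have : A * (2 * (κ * c)) = A * 2 * (c * κ) := by ring
          rw [this]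
          exact mul_le_mul_of_nonneg_right (mul_le_mul_of_nonneg_left g3 hA0) (by positivity)

end Pool.Agent.helper63.NF
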