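import Pool.Agent.helper63.NF.TbOf

/-!
# Meaning of the head of the programs
-/

namespace Pool.Agent.helper63.NF

open Complex
open Pool.Agent.helper31.IA (Z get)
open Pool.Agent.helper12.RS

/-- use of a `set` statement -/
theorem sem_set {i : ℕ} {e : E} {t : List St} {σ : ℕ → ℂ} {Q : (ℕ → ℂ) → Prop}
    (h : Sem (.set i e :: t) σ Q) {x : ℂ} (hx : e.ev σ = x) : e.Ok σ ∧ Sem t (upd σ i x) Q := by
  refine ⟨h.1, ?_⟩
  rw [← hx]
  exact h.2 _ rfl

theorem half_val : (zi 549755813888).val = 1 / 2 := by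
  rw [zi_val, cv]
  norm_num

theorem two_val : (zi 2199023255552).val = 2 := by
  rw [zi_val, cv]
  norm_num

theorem four_val : (zi 4398046511104).val = 4 := by
  rw [zi_val, cv]
  norm_num

theorem quart_val : (zi 274877906944).val = 1 / 4 := by
  rw [zi_val, cv]
  norm_num

theorem zn_val (n : ℕ) : (zn n).val = n := by
  unfold zn
  rw [zi_val, cv]
  push_cast
  field_simp
  norm_num

theorem zI_val : (⟨0, 0, 1099511627776, 0⟩ : Z).val = I := by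
  unfold Z.val
  norm_num

theorem zmI_val : (⟨0, 0, 0, 1099511627776⟩ : Z).val = -I := by
  unfold Z.val
  norm_num

/-- the registers after the head -/
structure HF (t : TD) (e κ : ℝ) (σ : ℕ → ℂ) : Prop where
  ep : σ 0 = ((1 / e : ℝ) : ℂ)
  b : σ 4 = ((e * κ / 2 : ℝ) : ℂ)
  ie : σ 5 = (e : ℂ)
  k : σ 7 = (κ : ℂ)
  q : σ 10 = (Real.exp κ : ℂ)
  qi : σ 11 = (Real.exp (-κ) : ℂ)
  kk : σ 12 = (Real.exp (-κ) : ℂ) ^ 2
  s2 : σ 14 = 2 * (Real.cosh (κ / 2) : ℂ)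
  K : σ 15 = (Real.sinh κ : ℂ)
  z4 : σ 16 = (Hh κ : ℂ) ^ 2
  Ke : σ 17 = (Real.sinh κ : ℂ) * e
  Mi : σ 18 = (Real.exp (-(e * κ)) : ℂ)
  Mi1 : σ 19 = (Real.exp (-(e * κ)) : ℂ) + 1
  iMi : σ 20 = ((Real.exp (-(e * κ)) : ℂ) + 1)⁻¹
  mu : σ 21 = (Real.exp (-(e * κ)) : ℂ) * ((Real.exp (-(e * κ)) : ℂ) + 1)⁻¹
  one : σ 22 = 1
  c : σ 23 = (Real.cosh κ : ℂ)
  mi : MI t.L (t.tb.de e) (t.tb.db e κ) σ

theorem HF.of_eq {t : TD} {e κ : ℝ} {σ τ : ℕ → ℂ} (h : HF t e κ σ)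
    (h1 : ∀ i, i < 24 → i ≠ 1 → i ≠ 2 → i ≠ 3 → τ i = σ i) (h2 : ∀ i j, τ (mreg i j) = σ (mreg i j)) :
    HF t e κ τ := by
  refine ⟨?_, ?_, ?_, ?_, ?_, ?_, ?_, ?_, ?_, ?_, ?_, ?_, ?_, ?_, ?_, ?_, ?_, ?_⟩
  · rw [h1 0 (by omega) (by omega) (by omega) (by omega), h.ep]
  · rw [h1 4 (by omega) (by omega) (by omega) (by omega), h.b]
  · rw [h1 5 (by omega) (by omega) (by omega) (by omega), h.ie]
  · rw [h1 7 (by omega) (by omega) (by omega) (by omega), h.k]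
  · rw [h1 10 (by omega) (by omega) (by omega) (by omega), h.q]
  · rw [h1 11 (by omega) (by omega) (by omega) (by omega), h.qi]
  · rw [h1 12 (by omega) (by omega) (by omega) (by omega), h.kk]
  · rw [h1 14 (by omega) (by omega) (by omega) (by omega), h.s2]
  · rw [h1 15 (by omega) (by omega) (by omega) (by omega), h.K]
  · rw [h1 16 (by omega) (by omega) (by omega) (by omega), h.z4]
  · rw [h1 17 (by omega) (by omega) (by omega) (by omega), h.Ke]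
  · rw [h1 18 (by omega) (by omega) (by omega) (by omega), h.Mi]
  · rw [h1 19 (by omega) (by omega) (by omega) (by omega), h.Mi1]
  · rw [h1 20 (by omega) (by omega) (by omega) (by omega), h.iMi]
  · rw [h1 21 (by omega) (by omega) (by omega) (by omega), h.mu]
  · rw [h1 22 (by omega) (by omega) (by omega) (by omega), h.one]
  · rw [h1 23 (by omega) (by omega) (by omega) (by omega), h.c]
  · exact ⟨by rw [h2, h.mi.hu], by rw [h2, h.mi.hv], fun i j hij => by rw [h2, h.mi.hm i j hij]⟩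

theorem mreg_ne_lt {i a b : ℕ} (h : i < 128) : i ≠ mreg a b := by
  have := mreg_ge a b
  omega

/-- **The head.** -/
theorem head_spec {t : TD} {e κ : ℝ} (he : 0 < e) {b : E} {σ : ℕ → ℂ}
    {Q : (ℕ → ℂ) → Prop} (h0 : σ 0 = ((1 / e : ℝ) : ℂ)) (hb : b.ev σ = ((e * κ / 2 : ℝ) : ℂ))
    (h : Sem (head t b) σ Q) : ∃ τ, Q τ ∧ HF t e κ τ ∧ τ 1 = σ 1 ∧ τ 2 = σ 2 ∧ τ 3 = σ 3 := by
  have he0 : (e : ℂ) ≠ 0 := by exact_mod_cast he.ne'
  have h := sem_append _ _ _ h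
  obtain ⟨-, -, h⟩ := h
  obtain ⟨-, h⟩ := sem_set h hb
  obtain ⟨-, h⟩ := sem_set h (x := (e : ℂ)) (by
    simp only [E.ev, upd, OfNat.zero_ne_ofNat, if_false, h0]
    push_cast
    rw [one_div, inv_inv])
  obtain ⟨-, h⟩ := sem_set h (x := ((κ / 2 : ℝ) : ℂ)) (by
    simp [E.ev, upd, h0]
    field_simp)
  obtain ⟨-, h⟩ := sem_set h (x := (κ : ℂ)) (by
    simp [E.ev, upd, two_val]
    ring)
  obtain ⟨-, h⟩ := sem_set h (x := (Real.exp (κ / 2) : ℂ)) (by simp [E.ev, upd])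
  obtain ⟨-, h⟩ := sem_set h (x := (Real.exp (-(κ / 2)) : ℂ)) (by simp [E.ev, upd])
  obtain ⟨-, h⟩ := sem_set h (x := (Real.exp κ : ℂ)) (by
    simp only [E.ev, upd, ite_true]
    simp
    rw [← Complex.exp_add]
    congr 1
    ring)
  obtain ⟨-, h⟩ := sem_set h (x := (Real.exp (-κ) : ℂ)) (by
    simp [E.ev, upd]
    rw [← Complex.exp_add]
    congr 1
    ring)
  obtain ⟨-, h⟩ := sem_set h (x := (Real.exp (-κ) : ℂ) ^ 2) (by
    simp [E.ev, upd]
    ring)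
  obtain ⟨-, h⟩ := sem_set h (x := (Hh κ : ℂ)) (by
    simp only [E.ev, upd]
    simp
    unfold Hh
    rw [Real.sinh_eq]
    push_cast
    ring)
  obtain ⟨-, h⟩ := sem_set h (x := 2 * (Real.cosh (κ / 2) : ℂ)) (by
    simp only [E.ev, upd]
    simp
    rw [Complex.cosh]
    ring)
  obtain ⟨-, h⟩ := sem_set h (x := (Real.sinh κ : ℂ)) (by
    simp only [E.ev, upd]
    simp [half_val]
    unfold Hh
    have : Real.sinh κ = 2 * Real.sinh (κ / 2) * Real.cosh (κ / 2) := by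
      rw [← Real.sinh_two_mul]
      congr 1
      ring
    have h2 := congrArg (fun x : ℝ => (x : ℂ)) this
    push_cast at h2 ⊢
    rw [h2]
    ring)
  obtain ⟨-, h⟩ := sem_set h (x := (Hh κ : ℂ) ^ 2) (by
    simp [E.ev, upd]
    ring)
  obtain ⟨-, h⟩ := sem_set h (x := (Real.sinh κ : ℂ) * e) (by simp [E.ev, upd])
  obtain ⟨-, h⟩ := sem_set h (x := (Real.exp (-(e * κ)) : ℂ)) (by
    simp [E.ev, upd, two_val]
    ring)
  obtain ⟨-, h⟩ := sem_set h (x := 1) one_val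
  obtain ⟨-, h⟩ := sem_set h (x := (Real.exp (-(e * κ)) : ℂ) + 1) (by simp [E.ev, upd])
  obtain ⟨-, -, h⟩ := h
  obtain ⟨-, h⟩ := sem_set h (x := ((Real.exp (-(e * κ)) : ℂ) + 1)⁻¹) (by simp [E.ev, upd])
  obtain ⟨-, h⟩ := sem_set h (x := (Real.exp (-(e * κ)) : ℂ) * ((Real.exp (-(e * κ)) : ℂ) + 1)⁻¹)
    (by simp [E.ev, upd])
  obtain ⟨-, h⟩ := sem_set h (x := (Real.cosh κ : ℂ)) (by
    simp only [E.ev, upd]
    simp [half_val]
    rw [Complex.cosh]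
    ring)
  obtain ⟨-, h⟩ := sem_set h (x := t.tb.de e) (by
    simp [E.ev, upd, h0, zi_val, Tb.de, TD.tb])
  have hm10 : ∀ i, i < 128 → i ≠ mreg 1 0 := fun i hi => mreg_ne_lt hi
  have hm01 : ∀ i, i < 128 → i ≠ mreg 0 1 := fun i hi => mreg_ne_lt hi
  obtain ⟨-, h⟩ := sem_set h (x := t.tb.db e κ) (by
    by_cases hbc : t.bc = 0
    · have h1 : (t.bc == 0) = true := by simpa using hbc
      rw [h1, cond_true]
      show upd _ _ _ 4 = _
      rw [upd_ne (hm10 4 (by omega))]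
      simp [upd, Tb.db, TD.tb, hbc, cv_zero]
    · have h1 : (t.bc == 0) = false := by simpa using hbc
      rw [h1, cond_false]
      show upd _ _ _ 4 - (zi t.bc).val = _
      rw [upd_ne (hm10 4 (by omega))]
      simp [upd, Tb.db, TD.tb, zi_val])
  obtain ⟨τ, hQ, hM, hτ⟩ := sem_monos' (u := t.tb.de e) (v := t.tb.db e κ)
    (by rw [upd_ne (by intro hh; have := mreg_inj hh; omega), upd_same]) (upd_same _ _) h
  have key : ∀ i, i < 128 → τ i = _ := fun i hi => by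
    rw [hτ i (fun a b => mreg_ne_lt hi), upd_ne (hm01 i hi), upd_ne (hm10 i hi)]
  refine ⟨τ, hQ, ⟨?_, ?_, ?_, ?_, ?_, ?_, ?_, ?_, ?_, ?_, ?_, ?_, ?_, ?_, ?_, ?_, ?_, hM⟩, ?_, ?_, ?_⟩
  · rw [key 0 (by omega)]; simp [upd, h0]
  · rw [key 4 (by omega)]; simp [upd]
  · rw [key 5 (by omega)]; simp [upd]
  · rw [key 7 (by omega)]; simp [upd]
  · rw [key 10 (by omega)]; simp [upd]
  · rw [key 11 (by omega)]; simp [upd]
  · rw [key 12 (by omega)]; simp [upd]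
  · rw [key 14 (by omega)]; simp [upd]
  · rw [key 15 (by omega)]; simp [upd]
  · rw [key 16 (by omega)]; simp [upd]
  · rw [key 17 (by omega)]; simp [upd]
  · rw [key 18 (by omega)]; simp [upd]
  · rw [key 19 (by omega)]; simp [upd]
  · rw [key 20 (by omega)]; simp [upd]
  · rw [key 21 (by omega)]; simp [upd]
  · rw [key 22 (by omega)]; simp [upd]
  · rw [key 23 (by omega)]; simp [upd]
  · rw [key 1 (by omega)]; simp [upd]
  · rw [key 2 (by omega)]; simp [upd]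
  · rw [key 3 (by omega)]; simp [upd]

end Pool.Agent.helper63.NF
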