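import Pool.Agent.helper63.NF.SpecNode
import Pool.Agent.helper63.NF.Link

/-!
# Meaning of the block of a link
-/

namespace Pool.Agent.helper63.NF

open Complex
open Pool.Agent.helper31.IA (Z get)
open Pool.Agent.helper12.RS

theorem aE_ev {t : TD} {e κ : ℝ} {σ : ℕ → ℂ} (hM : MI t.L (t.tb.de e) (t.tb.db e κ) σ)
    (hk : σ 7 = (κ : ℂ)) (m : ℕ) : (aE t m).ev σ =
      P2 (c2 (nth [] t.a m)) (t.tb.de e) (t.tb.db e κ) * exp (-(cv (nth 0 t.j m) * κ)) := by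
  unfold aE
  have h1 := p2E_ev hM 0 (nth [] t.a m)
  rw [cv_zero, zero_add] at h1
  by_cases hj : nth 0 t.j m = 0
  · have h2 : (nth 0 t.j m == 0) = true := by simpa using hj
    simp only [h2, cond_true]
    rw [h1, hj, cv_zero, zero_mul, neg_zero, Complex.exp_zero, mul_one]
    rfl
  · have h2 : (nth 0 t.j m == 0) = false := by simpa using hj
    simp only [h2, cond_false]
    rw [mulR_ev, h1]
    show _ * exp (-((zi (nth 0 t.j m)).val * σ 7)) = _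
    rw [zi_val, hk]
    rfl

/-- the registers after the blocks of a link -/
structure LKF (t : TD) (e κ : ℝ) (m : ℕ) (T x T1 : ℂ) (σ : ℕ → ℂ) : Prop where
  fTK : σ 40 = T + (Real.sinh κ : ℂ)
  TKre : 0 < (T + (Real.sinh κ : ℂ)).re
  fa : σ 41 = t.tb.an e κ m
  fden : σ 42 = t.tb.c m * T + ((1 / e : ℝ) : ℂ)
  dre : 0 < (t.tb.c m * T + ((1 / e : ℝ) : ℂ)).re
  F : 0 < (1 + exp (-(t.tb.lT e κ T)) * (t.tb.rT e κ m T * x)).re
  g : 0 < (1 - t.tb.rT e κ m T * x).re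
  S : Sn e κ (Tb.yT e κ T) (t.tb.lT e κ T) (t.tb.rT e κ m T * x) = ((Real.cosh κ : ℂ) + T1) ^ 2
  f58 : σ 58 = T1
  fLQ : σ 59 = (e : ℂ) * log ((Real.cosh κ : ℂ) + T1) - ((e * κ : ℝ) : ℂ)
  fiTK : σ 60 = (T + (Real.sinh κ : ℂ))⁻¹
  fp : σ 61 = (T + (Real.sinh κ : ℂ))⁻¹ * ((Real.exp (-κ) : ℂ) * ((Real.cosh κ : ℂ) + T))
  fpd : σ 62 = σ 61 * (T1 - ((Real.cosh κ : ℂ) - Tb.uT κ T))
  fs : σ 63 = σ 62 + 1
  sre : 0 < (σ 63).re
  fTT : σ 64 = (T1 + (Real.sinh κ : ℂ)) * (T + (Real.sinh κ : ℂ))⁻¹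

theorem LKF.of_eq {t : TD} {e κ : ℝ} {m : ℕ} {T x T1 : ℂ} {σ τ : ℕ → ℂ}
    (h : LKF t e κ m T x T1 σ) (h1 : ∀ i, 40 ≤ i → i < 65 → τ i = σ i) :
    LKF t e κ m T x T1 τ := by
  refine ⟨?_, h.TKre, ?_, ?_, h.dre, h.F, h.g, h.S, ?_, ?_, ?_, ?_, ?_, ?_, ?_, ?_⟩
  · rw [h1 _ (by omega) (by omega), h.fTK]
  · rw [h1 _ (by omega) (by omega), h.fa]
  · rw [h1 _ (by omega) (by omega), h.fden]
  · rw [h1 _ (by omega) (by omega), h.f58]
  · rw [h1 _ (by omega) (by omega), h.fLQ]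
  · rw [h1 _ (by omega) (by omega), h.fiTK]
  · rw [h1 _ (by omega) (by omega), h.fp]
  · rw [h1 62 (by omega) (by omega), h1 61 (by omega) (by omega), h.fpd]
  · rw [h1 63 (by omega) (by omega), h1 62 (by omega) (by omega), h.fs]
  · rw [h1 63 (by omega) (by omega)]; exact h.sre
  · rw [h1 _ (by omega) (by omega), h.fTT]

/-- **The link blocks.** -/
theorem link_spec {t : TD} {e κ : ℝ} (he : 0 < e) {m : ℕ} {σ : ℕ → ℂ} {Q : (ℕ → ℂ) → Prop}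
    {T x : ℂ} (hF : HF t e κ σ) (hN : NO t e κ 24 T σ) (hT : σ 2 = T) (hx : σ 3 = x)
    (h : Sem (linkS t (m + 1) ++ linkT) σ Q) :
    ∃ τ T1, Q τ ∧ (∀ i, i < 40 ∨ 65 ≤ i → τ i = σ i) ∧ LKF t e κ m T x T1 τ := by
  have he0 : (e : ℂ) ≠ 0 := by exact_mod_cast he.ne'
  have h := sem_append _ _ _ h
  have n24 : σ 24 = (Real.cosh κ : ℂ) + T := hN.Q
  have n25 : σ 25 = Tb.uT κ T := hN.u
  have n27 : σ 27 = 1 - Tb.uT κ T ^ 2 := hN.ey
  have n30 : σ 30 = t.tb.lT e κ T - ((e * κ : ℝ) : ℂ) := hN.l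
  have n32 : σ 32 = exp (-(t.tb.lT e κ T)) := hN.M
  have n34 : σ 34 = lc (t.tb.lT e κ T) - (LM e κ : ℂ) := hN.mm
  have e0 := hF.ep
  have e5 := hF.ie
  have e7 := hF.k
  have e10 := hF.q
  have e11 := hF.qi
  have e15 := hF.K
  have e16 := hF.z4
  have e22 := hF.one
  have e23 := hF.c
  obtain ⟨u, hu⟩ : ∃ u, u = Tb.uT κ T := ⟨_, rfl⟩
  obtain ⟨K, hK⟩ : ∃ K, K = (Real.sinh κ : ℂ) := ⟨_, rfl⟩
  obtain ⟨c, hc⟩ : ∃ c, c = (Real.cosh κ : ℂ) := ⟨_, rfl⟩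
  obtain ⟨a, ha⟩ : ∃ a, a = t.tb.an e κ m := ⟨_, rfl⟩
  obtain ⟨den, hden⟩ : ∃ den, den = t.tb.c m * T + ((1 / e : ℝ) : ℂ) := ⟨_, rfl⟩
  obtain ⟨r, hr⟩ : ∃ r, r = t.tb.rT e κ m T := ⟨_, rfl⟩
  obtain ⟨l, hl⟩ : ∃ l, l = t.tb.lT e κ T := ⟨_, rfl⟩
  obtain ⟨g1, hg1⟩ : ∃ g1, g1 = log (1 - r * x) := ⟨_, rfl⟩
  obtain ⟨g2, hg2⟩ : ∃ g2, g2 = log (1 + exp (-l) * (r * x)) := ⟨_, rfl⟩
  rw [← hu] at n25 n27
  rw [← hK] at e15
  rw [← hc] at e23 n24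
  rw [← hl] at n30 n32 n34
  obtain ⟨-, h⟩ := sem_set h (x := T + K) (by
    show σ 2 + σ 15 = _
    rw [hT, e15])
  obtain ⟨-, h⟩ := sem_set h (x := a) (by
    have hM : MI t.L (t.tb.de e) (t.tb.db e κ) (upd σ 40 (T + K)) :=
      ⟨by rw [upd_ne (mreg_ne_lt (by omega)).symm, hF.mi.hu],
        by rw [upd_ne (mreg_ne_lt (by omega)).symm, hF.mi.hv],
        fun i j hij => by rw [upd_ne (mreg_ne_lt (by omega)).symm, hF.mi.hm i j hij]⟩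
    rw [aE_ev hM (by rw [upd_ne (by omega), e7]), ha]
    rfl)
  obtain ⟨-, h⟩ := sem_set h (x := den) (by
    rw [hden]
    simp only [E.ev, upd]
    simp [e0, hT, zi_val]
    exact Or.inl rfl)
  obtain ⟨-, p1, h⟩ := h
  have dre : 0 < den.re := p1
  have dne := ne_of_re dre
  obtain ⟨-, h⟩ := sem_set h (x := den⁻¹) (by simp [E.ev, upd])
  obtain ⟨-, h⟩ := sem_set h (x := r) (by
    have : r = 2 * ((T + K) * a) * den⁻¹ := by
      rw [hr, ha, hK, hden]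
      unfold Tb.rT
      rw [div_eq_mul_inv, add_comm (t.tb.c m * T)]
      ring
    rw [this]
    simp [E.ev, upd, two_val])
  obtain ⟨-, h⟩ := sem_set h (x := r * x) (by simp [E.ev, upd, hx])
  obtain ⟨-, h⟩ := sem_set h (x := 1 - r * x) (by simp [E.ev, upd, e22])
  obtain ⟨-, p2, h⟩ := h
  have gre : 0 < (1 - r * x).re := p2
  obtain ⟨-, h⟩ := sem_set h (x := g1) (by simp [E.ev, upd, hg1])
  obtain ⟨-, h⟩ := sem_set h (x := 1 + exp (-l) * (r * x)) (by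
    simp [E.ev, upd, e22, n32]
    ring)
  obtain ⟨-, p3, h⟩ := h
  have fre : 0 < (1 + exp (-l) * (r * x)).re := p3
  obtain ⟨-, h⟩ := sem_set h (x := g2) (by simp [E.ev, upd, hg2])
  obtain ⟨-, h⟩ := sem_set h (x := c - u) (by simp [E.ev, upd, e23, n25])
  obtain ⟨-, h⟩ := sem_set h (x := c - u + c) (by simp [E.ev, upd, e23])
  obtain ⟨W, hW⟩ : ∃ W, W = exp ((κ : ℂ) + ((l - ((e * κ : ℝ) : ℂ)) + g2 - g1) *
      ((1 / e : ℝ) : ℂ)) := ⟨_, rfl⟩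
  obtain ⟨A, hA⟩ : ∃ A, A = exp (((l - ((e * κ : ℝ) : ℂ)) - g1 - g2 +
      2 * (lc l - (LM e κ : ℂ))) * ((1 / e : ℝ) : ℂ)) := ⟨_, rfl⟩
  obtain ⟨-, h⟩ := sem_set h (x := W - 1) (by
    rw [hW]
    simp [E.ev, upd, e22, e7, e0, n30])
  obtain ⟨-, h⟩ := sem_set h (x := A - 1) (by
    rw [hA]
    simp [E.ev, upd, e22, e0, n30, n34, two_val])
  obtain ⟨z, hz⟩ : ∃ z, z = (Hh κ : ℂ) ^ 2 := ⟨_, rfl⟩
  rw [← hz] at e16
  obtain ⟨Num, hNum⟩ : ∃ Num, Num = (W - 1) * (1 - u ^ 2 + z) - 2 * ((c - u) * (c - u)) -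
    1 / 2 * (z * z) + z * (A - 1) * (W - 1 + 2) := ⟨_, rfl⟩
  obtain ⟨-, h⟩ := sem_set h (x := Num) (by
    rw [hNum]
    simp [E.ev, upd, n27, e16, two_val, half_val])
  obtain ⟨-, p4, h⟩ := h
  have qre : 0 < (c - u + c).re := p4
  obtain ⟨Qs, hQs⟩ : ∃ Qs, Qs = c - u + c := ⟨_, rfl⟩
  rw [← hQs] at h qre
  have qne := ne_of_re qre
  obtain ⟨-, h⟩ := sem_set h (x := Qs⁻¹) (by simp [E.ev, upd])
  obtain ⟨S1, hS1⟩ : ∃ S1, S1 = Num * Qs⁻¹ * Qs⁻¹ + 1 := ⟨_, rfl⟩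
  obtain ⟨-, h⟩ := sem_set h (x := S1) (by
    rw [hS1]
    simp [E.ev, upd, e22])
  obtain ⟨-, p5, h⟩ := h
  have sre : 0 < S1.re := p5
  obtain ⟨-, h⟩ := sem_set h (x := log S1) (by simp [E.ev, upd])
  obtain ⟨-, h⟩ := sem_set h (x := 1 / 2 * log S1) (by simp [E.ev, upd, half_val])
  obtain ⟨dT, hdT⟩ : ∃ dT, dT = Qs * (exp (1 / 2 * log S1) - 1) := ⟨_, rfl⟩
  obtain ⟨-, h⟩ := sem_set h (x := dT) (by
    rw [hdT]
    simp [E.ev, upd, e22])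
  obtain ⟨T1, hT1⟩ : ∃ T1, T1 = c - u + dT := ⟨_, rfl⟩
  obtain ⟨-, h⟩ := sem_set h (x := T1) (by
    rw [hT1]
    simp [E.ev, upd])
  obtain ⟨-, h⟩ := sem_set h (x := Qs * (Real.exp (-κ) : ℂ)) (by simp [E.ev, upd, e11])
  obtain ⟨-, -, h⟩ := h
  obtain ⟨hl1, hl2⟩ := log_root qre sre
  have hQ1 : c + T1 = Qs * exp (1 / 2 * log S1) := by
    rw [hT1, hdT, hQs]
    ring
  obtain ⟨-, h⟩ := sem_set h (x := (e : ℂ) * log (c + T1) - ((e * κ : ℝ) : ℂ)) (by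
    rw [hQ1, hl1]
    have h5 := log_mul_qi (κ := κ) qne
    simp only [E.ev, upd, Nat.reduceEqDiff, reduceIte, e5]
    rw [h5]
    push_cast
    ring)
  -- linkT
  have h : Sem linkT _ Q := h
  obtain ⟨-, p6, h⟩ := h
  have tkre : 0 < (T + K).re := p6
  obtain ⟨-, h⟩ := sem_set h (x := (T + K)⁻¹) (by simp [E.ev, upd])
  obtain ⟨p, hp⟩ : ∃ p, p = (T + K)⁻¹ * ((Real.exp (-κ) : ℂ) * (c + T)) := ⟨_, rfl⟩
  obtain ⟨-, h⟩ := sem_set h (x := p) (by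
    rw [hp]
    simp [E.ev, upd, e11, n24])
  obtain ⟨-, h⟩ := sem_set h (x := p * dT) (by simp [E.ev, upd])
  obtain ⟨-, h⟩ := sem_set h (x := p * dT + 1) (by simp [E.ev, upd, e22])
  obtain ⟨-, p7, h⟩ := h
  have sre2 : 0 < (p * dT + 1).re := p7
  have sne := ne_of_re sre2
  have Qne : (Real.cosh κ : ℂ) + T ≠ 0 := ne_of_re hN.Qre
  have hTKne : T + (Real.sinh κ : ℂ) ≠ 0 := by
    rw [← hK]
    exact ne_of_re tkre
  have hp1 := p_TsK Qne (u := u) (by rw [hu]; rfl) hTKne (p := p) (by rw [hp, hK, hc])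
  rw [← hc, ← hK] at hp1
  obtain ⟨-, h⟩ := sem_set h (x := (T1 + K) * (T + K)⁻¹) (by
    have h6 : p * dT + 1 = (T1 + K) * p := by
      rw [hT1]
      linear_combination -hp1
    have h7 : (Real.exp κ : ℂ) * u * ((Real.exp (-κ) : ℂ) * (c + T)) = 1 := by
      have h8 : u * (c + T) = 1 := by
        rw [hu, hc]
        exact inv_mul_cancel₀ Qne
      linear_combination exp_qi κ + (Real.exp κ : ℂ) * (Real.exp (-κ) : ℂ) * h8
    have h9 : (Real.exp κ : ℂ) * u * (p * dT + 1) = (T1 + K) * (T + K)⁻¹ := by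
      rw [h6, hp]
      linear_combination (T1 + K) * (T + K)⁻¹ * h7
    rw [← h9]
    simp [E.ev, upd, e10, n25])
  refine ⟨_, T1, h, ?_, ?_⟩
  · intro i hi
    repeat rw [upd_ne (by omega)]
  · have hSn : Sn e κ (Tb.yT e κ T) l (r * x) = (c + T1) ^ 2 := by
      have h10 := Sn_form he (κ := κ) (y := Tb.yT e κ T) (l := l) (χ := r * x) (W := W) (A := A)
        (by rw [hW, hg1, hg2]) (by rw [hA, hg1, hg2])
      rw [h10, hQ1, hl2, hS1, ← hz]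
      have h11 : Tb.yT e κ T / e = 1 - u ^ 2 := by
        unfold Tb.yT
        rw [Tb.YT_eq' Qne, hu]
        field_simp
      have h12 : z = 2 * (c - 1) := by
        rw [hz, hc]
        have := Hh_sq κ
        exact_mod_cast this
      rw [h11]
      have h13 : Qs ^ 2 * (Num * Qs⁻¹ * Qs⁻¹ + 1) = Num + Qs ^ 2 := by
        field_simp
      rw [h13, hNum, hQs, h12]
      ring
    rw [hK, hc] at *
    refine ⟨?_, tkre, ?_, ?_, ?_, ?_, ?_, ?_, ?_, ?_, ?_, ?_, ?_, ?_, ?_, ?_⟩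
    · simp [upd]
    · simp [upd, ha]
    · simp [upd, hden]
    · rw [← hden]; exact dre
    · rw [← hl, ← hr]; exact fre
    · rw [← hr]; exact gre
    · rw [← hl, ← hr]; exact hSn
    · simp [upd]
    · simp [upd]
    · simp [upd]
    · simp [upd, hp]
    · have : dT = T1 - ((Real.cosh κ : ℂ) - Tb.uT κ T) := by
        rw [hT1, hu]
        ring
      rw [← this]
      simp [upd]
    · simp [upd]
    · simp only [upd]
      simpa using sre2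
    · simp [upd]

end Pool.Agent.helper63.NF
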