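import Pool.Agent.helper63.NF.SpecLink

/-!
# Meaning of the displacement, the cut and the common part of the near nodes
-/

namespace Pool.Agent.helper63.NF

open Complex
open Pool.Agent.helper31.IA (Z get)
open Pool.Agent.helper12.RS

/-- the bound of the programs -/
noncomputable def θ0 : ℝ := (TH : ℝ) / 2 ^ 40

theorem θ0_lt : θ0 < 1 := by
  unfold θ0 TH
  norm_num

theorem θ0_pos : 0 < θ0 := by
  unfold θ0 TH
  norm_num

/-- `t_n` -/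
noncomputable def TD.tR (t : TD) (n : ℕ) (e κ : ℝ) : ℝ :=
  (P2 (t.tt n) (t.tb.de e) (t.tb.db e κ)).re

theorem TD.tR_eq (t : TD) (n : ℕ) (e κ : ℝ) :
    P2 (t.tt n) (t.tb.de e) (t.tb.db e κ) = (t.tR n e κ : ℂ) := by
  have h := P2_real (R2_c (nth [] t.t n)) (Tb.conj_de (e := e) t.isReal)
    (Tb.conj_db (e := e) (κ := κ) t.isReal)
  exact (Complex.conj_eq_iff_re.1 h).symm

/-- the factor of the displacement -/
noncomputable def TD.dK (t : TD) (κ : ℝ) : ℝ := bif t.strip then Real.sinh κ else κ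

/-- bound of the displacement after node `n` (number `0`: the first node) -/
noncomputable def TD.δ (t : TD) (n : ℕ) (e κ : ℝ) : ℝ := t.dK κ * (t.tR n e κ * kk κ ^ (n + 1))

/-- the cut after node `n` -/
noncomputable def TD.Y (t : TD) (n : ℕ) (e : ℝ) : ℝ := ((nth 0 t.y n : ℤ) : ℝ) / 2 ^ 40 / e ^ 2

theorem kk_pow (κ : ℝ) (n : ℕ) : kk κ ^ n * (Real.exp (n * κ) * Real.exp (n * κ)) = 1 := by
  unfold kk
  rw [← Real.exp_nat_mul, ← Real.exp_add, ← Real.exp_add]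
  have : (n : ℝ) * -(2 * κ) + (n * κ + n * κ) = 0 := by ring
  rw [this, Real.exp_zero]

/-- the displacement from the assertion -/
theorem disp_of {κ t : ℝ} {n : ℕ} {Kk pd ps Kc D : ℂ} {dK : ℝ} (ht : 0 < t)
    (hdK : 0 ≤ dK) (hK : ‖Kc‖ ≤ dK * ‖Kk‖)
    (hD : D = -(2 * Kc * pd * ps))
    (h : ‖2 * Kk * pd * (Real.exp (n * κ) : ℂ) * (ps * ((Real.exp (n * κ) : ℂ) * (t : ℂ)⁻¹))‖ < 1) :
    ‖D‖ ≤ dK * (t * kk κ ^ n) := by
  obtain ⟨E, hE⟩ : ∃ E, E = Real.exp (n * κ) := ⟨_, rfl⟩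
  have hE0 : 0 < E := by rw [hE]; exact Real.exp_pos _
  have h1 := kk_pow κ n
  rw [← hE] at h h1
  have h2 : 2 * Kk * pd * (E : ℂ) * (ps * ((E : ℂ) * (t : ℂ)⁻¹)) =
      (2 * Kk * pd * ps) * ((E * E * t⁻¹ : ℝ) : ℂ) := by
    push_cast
    ring
  rw [h2, norm_mul, Complex.norm_real, Real.norm_of_nonneg (by positivity)] at h
  have h3 : ‖2 * Kk * pd * ps‖ * (E * E) < t := by
    have h4 := mul_lt_mul_of_pos_right h ht
    rw [one_mul] at h4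
    have h5 : ‖2 * Kk * pd * ps‖ * (E * E * t⁻¹) * t = ‖2 * Kk * pd * ps‖ * (E * E) := by
      field_simp
    rwa [h5] at h4
  have hk : 0 < kk κ ^ n := pow_pos (kk_pos κ) n
  have h6 : ‖2 * Kk * pd * ps‖ ≤ t * kk κ ^ n := by
    have h7 := mul_le_mul_of_nonneg_left h3.le hk.le
    have h8 : kk κ ^ n * (‖2 * Kk * pd * ps‖ * (E * E)) = ‖2 * Kk * pd * ps‖ := by
      calc kk κ ^ n * (‖2 * Kk * pd * ps‖ * (E * E)) =
          (kk κ ^ n * (E * E)) * ‖2 * Kk * pd * ps‖ := by ring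
        _ = _ := by rw [h1, one_mul]
    rw [h8] at h7
    linarith
  have h9 : ‖D‖ = ‖Kc‖ * ‖2 * pd * ps‖ := by
    rw [hD, norm_neg, ← norm_mul]
    congr 1
    ring
  have h10 : ‖2 * Kk * pd * ps‖ = ‖Kk‖ * ‖2 * pd * ps‖ := by
    rw [← norm_mul]
    congr 1
    ring
  rw [h10] at h6
  rw [h9]
  calc ‖Kc‖ * ‖2 * pd * ps‖ ≤ (dK * ‖Kk‖) * ‖2 * pd * ps‖ :=
        mul_le_mul_of_nonneg_right hK (norm_nonneg _)
    _ = dK * (‖Kk‖ * ‖2 * pd * ps‖) := by ring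
    _ ≤ _ := mul_le_mul_of_nonneg_left h6 hdK

theorem lt_one {w : ℂ} (h : ‖w‖ < (TH : ℝ) / 2 ^ 40) : ‖w‖ < 1 := h.trans θ0_lt

/-- values of the constants of the displacement -/
theorem dK_bound {t : TD} {κ : ℝ} (hκ : 0 < κ) : 0 ≤ t.dK κ ∧
    ‖(Real.sinh κ : ℂ)‖ ≤ t.dK κ * ‖(bif t.strip then (Real.cosh κ : ℂ) else
      (Real.sinh κ : ℂ) * (κ : ℂ)⁻¹)‖ := by
  have hs := Real.sinh_pos_iff.2 hκ
  unfold TD.dK
  cases t.strip with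
  | true =>
    refine ⟨hs.le, ?_⟩
    rw [cond_true, cond_true, Complex.norm_real, Complex.norm_real,
      Real.norm_of_nonneg hs.le, Real.norm_of_nonneg (Real.cosh_pos κ).le]
    have := Real.one_le_cosh κ
    nlinarith
  | false =>
    refine ⟨hκ.le, ?_⟩
    rw [cond_false, cond_false, norm_mul, norm_inv, Complex.norm_real, Complex.norm_real,
      Real.norm_of_nonneg hs.le, Real.norm_of_nonneg hκ.le]
    have : κ * (Real.sinh κ * κ⁻¹) = Real.sinh κ := by field_simp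
    rw [this]

/-- **The displacement.** -/
theorem disp_spec {t : TD} {e κ : ℝ} (hκ : 0 < κ) {m : ℕ} {σ : ℕ → ℂ} {Q : (ℕ → ℂ) → Prop}
    {T x T1 : ℂ} (hF : HF t e κ σ) (hQ : 0 < ((Real.cosh κ : ℂ) + T).re)
    (hL : LKF t e κ m T x T1 σ) (n : ℕ) (h : Sem (dispS t n) σ Q) :
    ∃ τ, Q τ ∧ (∀ i, i < 65 ∨ 68 ≤ i → τ i = σ i) ∧ 0 < t.tR n e κ ∧
      ‖omT κ T1 - (kk κ : ℂ) * omT κ T‖ ≤ t.δ n e κ := by
  have h := sem_append _ _ _ h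
  have h := sem_append _ _ _ h
  have e7 := hF.k
  have e15 := hF.K
  have e23 := hF.c
  have g61 := hL.fp
  have g62 := hL.fpd
  have g63 := hL.fs
  have gs := hL.sre
  obtain ⟨p, hp⟩ : ∃ p, p = σ 61 := ⟨_, rfl⟩
  obtain ⟨dT, hdT⟩ : ∃ dT, dT = T1 - ((Real.cosh κ : ℂ) - Tb.uT κ T) := ⟨_, rfl⟩
  rw [← hdT, ← hp] at g62
  rw [← hp] at g61
  rw [g62] at g63
  rw [g63] at gs
  obtain ⟨tr, htr⟩ : ∃ tr, tr = t.tR n e κ := ⟨_, rfl⟩
  obtain ⟨-, h⟩ := sem_set h (x := (tr : ℂ)) (by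
    have h1 := p2E_ev hF.mi 0 (nth [] t.t n)
    rw [cv_zero, zero_add] at h1
    rw [h1, htr]
    exact t.tR_eq n e κ)
  obtain ⟨-, h⟩ := sem_set h (x := (Real.exp (((n + 1 : ℕ) : ℝ) * κ) : ℂ)) (by
    show exp ((zn (n + 1)).val * upd σ 65 _ 7) = _
    rw [upd_ne (by omega), e7, zn_val]
    push_cast
    rfl)
  obtain ⟨-, p1, h⟩ := h
  have tpos : 0 < tr := by
    have h2 : (upd (upd σ 65 (tr : ℂ)) 66 (Real.exp (((n + 1 : ℕ) : ℝ) * κ) : ℂ) 65) = (tr : ℂ) := by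
      rw [upd_ne (by omega), upd_same]
    have h3 : 0 < (upd (upd σ 65 (tr : ℂ)) 66 (Real.exp (((n + 1 : ℕ) : ℝ) * κ) : ℂ) 65).re := p1
    rwa [h2, ofReal_re] at h3
  obtain ⟨Ek, hE⟩ : ∃ Ek, Ek = (Real.exp (((n + 1 : ℕ) : ℝ) * κ) : ℂ) := ⟨_, rfl⟩
  rw [← hE] at h
  obtain ⟨Kk, hKk⟩ : ∃ Kk, Kk = (bif t.strip then (Real.cosh κ : ℂ) else
      (Real.sinh κ : ℂ) * (κ : ℂ)⁻¹) := ⟨_, rfl⟩
  have h' : Sem [.lt (((E.sc two (.r 67)).mul (.r 62)).mul (.r 66) |>.mul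
      (((E.r 61).mul (.inv (.r 63))).mul ((E.r 66).mul (.inv (.r 65))))) TH]
      (upd (upd (upd σ 65 (tr : ℂ)) 66 Ek) 67 Kk) Q := by
    cases hst : t.strip with
    | true =>
      rw [hst] at h hKk
      obtain ⟨-, h⟩ := sem_set h (x := Kk) (by
        show upd _ 66 _ 23 = _
        rw [upd_ne (by omega), upd_ne (by omega), e23, hKk]
        rfl)
      exact h
    | false =>
      rw [hst] at h hKk
      obtain ⟨-, -, h⟩ := h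
      obtain ⟨-, h⟩ := sem_set h (x := Kk) (by
        show upd _ 66 _ 15 * (upd _ 66 _ 7)⁻¹ = _
        rw [upd_ne (by omega), upd_ne (by omega), e15, upd_ne (by omega), upd_ne (by omega), e7, hKk]
        rfl)
      exact h
  obtain ⟨-, h4, h5⟩ := h'
  refine ⟨_, h5, ?_, by rw [← htr]; exact tpos, ?_⟩
  · intro i hi
    rw [upd_ne (by omega), upd_ne (by omega), upd_ne (by omega)]
  · have h6 := lt_one h4
    have h7 : E.ev (upd (upd (upd σ 65 (tr : ℂ)) 66 Ek) 67 Kk) (((E.sc two (.r 67)).mul (.r 62)).mul (.r 66) |>.mul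
      (((E.r 61).mul (.inv (.r 63))).mul ((E.r 66).mul (.inv (.r 65))))) =
      2 * Kk * (p * dT) * Ek * ((p * (p * dT + 1)⁻¹) * (Ek * (tr : ℂ)⁻¹)) := by
      simp only [E.ev, upd, Nat.reduceEqDiff, reduceIte, two_val]
      rw [g62, g63, ← hp]
    rw [h7, hE] at h6
    obtain ⟨b1, b2⟩ := dK_bound (t := t) hκ
    rw [← hKk] at b2
    have hQne := ne_of_re hQ
    have hd := omT_diff hQne (u := Tb.uT κ T) rfl (ne_of_re hL.TKre) (p := p) (dT := dT) g61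
      (ne_of_re gs)
    have hT1 : (Real.cosh κ : ℂ) - Tb.uT κ T + dT = T1 := by
      rw [hdT]
      ring
    rw [hT1] at hd
    have := disp_of (κ := κ) (t := tr) (n := n + 1) (Kk := Kk) (pd := p * dT)
      (ps := p * (p * dT + 1)⁻¹) (Kc := (Real.sinh κ : ℂ)) (dK := t.dK κ) tpos b1 b2 hd h6
    unfold TD.δ
    rw [← htr]
    exact this

/-- **The cut.** -/
theorem cut_spec {t : TD} {e κ : ℝ} (he : 0 < e) {σ : ℕ → ℂ} {Q : (ℕ → ℂ) → Prop} {T1 : ℂ}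
    (hF : HF t e κ σ) {z : ℕ} (hz : z < 68) (hT : σ z = T1) (n : ℕ) (h : Sem (cutS t n z) σ Q) :
    ∃ τ, Q τ ∧ (∀ i, i < 68 ∨ 72 ≤ i → τ i = σ i) ∧
      ‖T1 ^ 2 - (Real.sinh κ : ℂ) ^ 2‖ ≤ Real.sinh κ ^ 2 + t.Y n e := by
  have e5 := hF.ie
  have e17 := hF.Ke
  obtain ⟨y, hy⟩ : ∃ y, y = ((nth 0 t.y n : ℤ) : ℝ) / 2 ^ 40 := ⟨_, rfl⟩
  have hyc : (zi (nth 0 t.y n)).val = (y : ℂ) := by rw [zi_val, hy, cv]
  obtain ⟨K, hK⟩ : ∃ K, K = Real.sinh κ := ⟨_, rfl⟩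
  rw [← hK] at e17
  obtain ⟨-, h⟩ := sem_set h (x := ((K ^ 2 * e ^ 2 : ℝ) : ℂ)) (by
    show σ 17 * σ 17 = _
    rw [e17]
    push_cast
    ring)
  obtain ⟨-, h⟩ := sem_set h (x := ((K ^ 2 * e ^ 2 + y : ℝ) : ℂ)) (by
    show upd σ 68 _ 68 + (zi (nth 0 t.y n)).val = _
    rw [upd_same, hyc]
    push_cast
    ring)
  obtain ⟨-, p1, h⟩ := h
  have Bpos : 0 < K ^ 2 * e ^ 2 + y := by
    have h3 : 0 < (upd (upd σ 68 ((K ^ 2 * e ^ 2 : ℝ) : ℂ)) 69 ((K ^ 2 * e ^ 2 + y : ℝ) : ℂ) 69).re := p1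
    rwa [upd_same, ofReal_re] at h3
  obtain ⟨-, h⟩ := sem_set h (x := ((K ^ 2 * e ^ 2 + y : ℝ) : ℂ)⁻¹) (by
    show (upd _ 69 _ 69)⁻¹ = _
    rw [upd_same])
  obtain ⟨-, h⟩ := sem_set h (x := T1 * e) (by
    show upd _ 70 _ z * upd _ 70 _ 5 = _
    rw [upd_ne (by omega), upd_ne (by omega), upd_ne (by omega), hT, upd_ne (by omega),
      upd_ne (by omega), upd_ne (by omega), e5])
  obtain ⟨-, h4, h5⟩ := h
  refine ⟨_, h5, ?_, ?_⟩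
  · intro i hi
    rw [upd_ne (by omega), upd_ne (by omega), upd_ne (by omega), upd_ne (by omega)]
  · have h6 := lt_one h4
    simp only [E.ev, upd, Nat.reduceEqDiff, reduceIte] at h6
    have h7 : (T1 * (e : ℂ) * (T1 * e) - ((K ^ 2 * e ^ 2 : ℝ) : ℂ)) * ((K ^ 2 * e ^ 2 + y : ℝ) : ℂ)⁻¹ =
        (T1 ^ 2 - (K : ℂ) ^ 2) * ((e ^ 2 * (K ^ 2 * e ^ 2 + y)⁻¹ : ℝ) : ℂ) := by
      push_cast
      ring
    rw [h7, norm_mul, Complex.norm_real, Real.norm_of_nonneg (by positivity)] at h6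
    have h8 : ‖T1 ^ 2 - (K : ℂ) ^ 2‖ * e ^ 2 < K ^ 2 * e ^ 2 + y := by
      have h9 := mul_lt_mul_of_pos_right h6 Bpos
      rw [one_mul] at h9
      have h10 : ‖T1 ^ 2 - (K : ℂ) ^ 2‖ * (e ^ 2 * (K ^ 2 * e ^ 2 + y)⁻¹) * (K ^ 2 * e ^ 2 + y) =
          ‖T1 ^ 2 - (K : ℂ) ^ 2‖ * e ^ 2 := by
        rw [mul_assoc, mul_assoc, inv_mul_cancel₀ Bpos.ne', mul_one]
      rwa [h10] at h9
    unfold TD.Y
    rw [← hy, ← hK]
    have he2 : 0 < e ^ 2 := by positivity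
    have h11 : K ^ 2 + y / e ^ 2 = (K ^ 2 * e ^ 2 + y) / e ^ 2 := by
      field_simp
    rw [h11, le_div_iff₀ he2]
    exact h8.le

end Pool.Agent.helper63.NF
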