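import Pool.Agent.helper63.NF.SpecGeo
import Pool.Agent.helper63.NF.Cert

/-!
# Meaning of the small certificate
-/

namespace Pool.Agent.helper63.NF

open Complex
open Pool.Agent.helper31.IA (Z get InBox)
open Pool.Agent.helper31.IX (Op Asserts CovD)
open Pool.Agent.helper12.RS

/-- the registers at the start, two inputs -/
def reg2 (a b : ℂ) : ℕ → ℂ
  | 0 => a
  | _ => b

theorem rel2 (a b : ℂ) : Rel (look ρ2) [a, b] (reg2 a b) := by
  refine ⟨?_, ?_⟩
  · intro i
    match i with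
    | 0 => show (1 : ℕ) < 2; omega
    | 1 => show (0 : ℕ) < 2; omega
    | n + 2 => show (0 : ℕ) < 2; omega
  · intro i
    match i with
    | 0 | 1 => rfl
    | n + 2 => rfl

theorem comp2 {P : List St} {a b : ℂ} (h : Asserts (comp P ρ2 2) [a, b]) :
    Sem P (reg2 a b) (fun _ => True) := comp_sound (rel2 a b) h

theorem THA_lt : (THA : ℝ) / 2 ^ 40 < 1 := by
  unfold THA
  norm_num

/-- the conditions for the nodes before `n` -/
structure SN (t : TD) (n : ℕ) (e κ : ℝ) : Prop where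
  tp : ∀ j, j < n → 0 < t.tR j e κ
  yp : ∀ j, j < n → 0 < Real.sinh κ ^ 2 + t.Y j e
  R1 : ∀ j, j < n → t.RR (j + 1) e κ < 1

theorem small_spec {t : TD} {e κ : ℝ} (he : 0 < e) (hκ : 0 < κ) : ∀ (n : ℕ) {σ : ℕ → ℂ}
    {Q : (ℕ → ℂ) → Prop}, BF e κ σ → MI t.Lt (t.tb.de e) (t.tb.db e κ) σ → Sem (smallS t n) σ Q →
    ∃ τ, Q τ ∧ BF e κ τ ∧ MI t.Lt (t.tb.de e) (t.tb.db e κ) τ ∧ (0 < n → GF t n e κ τ) ∧
      SN t n e κ := by
  intro n
  induction n with
  | zero =>
    intro σ Q hB hM h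
    exact ⟨σ, h, hB, hM, fun h0 => absurd h0 (lt_irrefl _), ⟨fun j hj => by omega, fun j hj => by omega,
      fun j hj => by omega⟩⟩
  | succ n ih =>
    intro σ Q hB hM h
    have h := sem_append _ _ _ h
    have h := sem_append _ _ _ h
    have h := sem_append _ _ _ h
    obtain ⟨τ, h, hB1, hM1, -, hS⟩ := ih hB hM h
    obtain ⟨-, p1, -, p2, h⟩ := h
    have h : Sem (geoS t (n + 1) ++ [.pos (.r 21)]) τ Q := by
      have key : ∀ (A B : List St) (σ : ℕ → ℂ), Sem A σ (fun τ => Sem B τ Q) → Sem (A ++ B) σ Q := by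
        intro A
        induction A with
        | nil => intro B σ h; exact h
        | cons s t ih =>
          intro B σ h
          cases s with
          | set i e => exact ⟨h.1, fun v hv => ih _ _ (h.2 v hv)⟩
          | pos e => exact ⟨h.1, h.2.1, ih _ _ h.2.2⟩
          | lt e B => exact ⟨h.1, h.2.1, ih _ _ h.2.2⟩
          | rball i a b => exact ⟨h.1, h.2.1, fun v hv => ih _ _ (h.2.2 v hv)⟩
      exact key _ _ _ h
    obtain ⟨τ', h, hG, hf⟩ := geo_spec hκ hB1 h
    obtain ⟨-, p3, h⟩ := h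
    refine ⟨τ', h, hG.bf, hG.mi, fun _ => hG, ?_, ?_, ?_⟩
    · intro j hj
      rcases Nat.lt_succ_iff_lt_or_eq.1 hj with h1 | rfl
      · exact hS.tp j h1
      · rw [p2E_ev hM1, cv_zero, zero_add] at p1
        exact p1
    · intro j hj
      rcases Nat.lt_succ_iff_lt_or_eq.1 hj with h1 | rfl
      · exact hS.yp j h1
      · have p2' : 0 < (τ 17 * τ 17 + (zi (nth 0 t.y j)).val).re := p2
        rw [hB1.Ke, zi_val, cv_rv] at p2'
        have e1 : (Real.sinh κ : ℂ) * e * ((Real.sinh κ : ℂ) * e) + (rv (nth 0 t.y j) : ℂ) =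
            ((e ^ 2 * (Real.sinh κ ^ 2 + t.Y j e) : ℝ) : ℂ) := by
          unfold TD.Y rv
          push_cast
          have he0 : (e : ℂ) ≠ 0 := by exact_mod_cast he.ne'
          field_simp
        rw [e1, Complex.ofReal_re] at p2'
        exact pos_of_mul_pos_right p2' (by positivity)
    · intro j hj
      rcases Nat.lt_succ_iff_lt_or_eq.1 hj with h1 | rfl
      · exact hS.R1 j h1
      · have p3' : 0 < (τ' 21).re := p3
        rw [hG.rho, Complex.ofReal_re] at p3'
        have hs := Real.sinh_pos_iff.2 hκ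
        have := (div_pos_iff_of_pos_right hs).1 p3'
        linarith

/-- `2 y exp y (1 + c y²) ≤ exp (2 y) - 1` -/
theorem two_sinh_ge {y : ℝ} (hy : 0 ≤ y) :
    2 * y * (Real.exp y * (183251937962 / 2 ^ 40 * (y * y) + 1)) ≤ Real.exp (2 * y) - 1 := by
  have h1 : y + y ^ 3 / 6 ≤ Real.sinh y := by
    have key : ∀ z : ℝ, 0 ≤ z → 0 ≤ Real.sinh z - z - z ^ 3 / 6 := by
      have hc : ∀ z : ℝ, 0 ≤ z → 0 ≤ Real.cosh z - 1 - z ^ 2 / 2 := by
        have hs : ∀ z : ℝ, 0 ≤ z → 0 ≤ Real.sinh z - z := fun z hz => by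
          have := Real.self_le_sinh_iff.2 hz
          linarith
        intro z hz
        have := monotoneOn_of_deriv_nonneg (D := Set.Ici (0 : ℝ)) (convex_Ici 0)
          (f := fun z => Real.cosh z - 1 - z ^ 2 / 2)
          (by fun_prop) (by fun_prop) (by
            intro x hx
            rw [interior_Ici] at hx
            have : deriv (fun z : ℝ => Real.cosh z - 1 - z ^ 2 / 2) x = Real.sinh x - x := by
              have h : HasDerivAt (fun z : ℝ => Real.cosh z - 1 - z ^ 2 / 2) _ x :=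
                ((Real.hasDerivAt_cosh x).sub_const 1).sub ((hasDerivAt_pow 2 x).div_const 2)
              rw [h.deriv]
              norm_num
            rw [this]
            exact hs x (le_of_lt hx)) (Set.mem_Ici.2 le_rfl) (Set.mem_Ici.2 hz) hz
        simpa using this
      intro z hz
      have := monotoneOn_of_deriv_nonneg (D := Set.Ici (0 : ℝ)) (convex_Ici 0)
        (f := fun z => Real.sinh z - z - z ^ 3 / 6)
        (by fun_prop) (by fun_prop) (by
          intro x hx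
          rw [interior_Ici] at hx
          have : deriv (fun z : ℝ => Real.sinh z - z - z ^ 3 / 6) x = Real.cosh x - 1 - x ^ 2 / 2 := by
            have h : HasDerivAt (fun z : ℝ => Real.sinh z - z - z ^ 3 / 6) _ x :=
              ((Real.hasDerivAt_sinh x).sub (hasDerivAt_id x)).sub ((hasDerivAt_pow 3 x).div_const 6)
            rw [h.deriv]
            norm_num
            ring
          rw [this]
          exact hc x (le_of_lt hx)) (Set.mem_Ici.2 le_rfl) (Set.mem_Ici.2 hz) hz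
      simpa using this
    have := key y hy
    linarith
  have h2 : Real.exp (2 * y) - 1 = Real.exp y * (2 * Real.sinh y) := by
    rw [Real.sinh_eq, mul_div_cancel₀ _ (two_ne_zero), mul_sub, ← Real.exp_add, ← Real.exp_add,
      add_neg_cancel, Real.exp_zero]
    congr 2
    ring
  rw [h2]
  have h3 := Real.exp_pos y
  have h4 : y * (183251937962 / 2 ^ 40 * (y * y) + 1) ≤ y + y ^ 3 / 6 := by
    have : 0 ≤ y ^ 3 := by positivity
    nlinarith
  calc 2 * y * (Real.exp y * (183251937962 / 2 ^ 40 * (y * y) + 1)) =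
        Real.exp y * (2 * (y * (183251937962 / 2 ^ 40 * (y * y) + 1))) := by ring
    _ ≤ Real.exp y * (2 * Real.sinh y) := by
        apply mul_le_mul_of_nonneg_left _ h3.le
        linarith

theorem kk_exp (κ : ℝ) (n : ℕ) : kk κ ^ n = Real.exp (-(2 * κ * n)) := by
  unfold kk
  rw [← Real.exp_nat_mul]
  congr 1
  ring

theorem ent_spec {t : TD} {N0 : ℕ} {e κ : ℝ} (hκ : 0 < κ)
    (hst : t.strip = true → κ ≤ 1 / 4 ∧ 4 ≤ N0) {σ : ℕ → ℂ} {Q : (ℕ → ℂ) → Prop}
    (hG : GF t N0 e κ σ) (hs : 0 ≤ t.sR N0 e κ) (h : Sem (entS t N0) σ Q) :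
    t.RR N0 e κ < Real.exp (-(2 * κ * (39 / 10))) := by
  have e7 := hG.bf.k
  have e22 := hG.bf.one
  have e16 := hG.s
  unfold entS at h
  by_cases hb : t.strip = true
  · rw [hb, cond_true] at h
    obtain ⟨k1, k2⟩ := hst hb
    obtain ⟨a, ha⟩ : ∃ a : ℝ, a = (N0 : ℝ) - 4288095348327 / 2 ^ 40 := ⟨_, rfl⟩
    have ha0 : 0 ≤ a := by
      have : (4 : ℝ) ≤ N0 := by exact_mod_cast k2
      rw [ha]
      norm_num
      linarith
    have v1 : (zi (↑N0 * 1099511627776 - 4288095348327)).val = (a : ℂ) := by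
      rw [zi_val, cv_rv, ha]
      unfold rv
      push_cast
      norm_num
      ring
    have v2 : (zi (2 * (↑N0 * 1099511627776 - 4288095348327))).val = ((2 * a : ℝ) : ℂ) := by
      rw [zi_val, cv_rv, ha]
      unfold rv
      push_cast
      norm_num
      ring
    have v3 : (zi 183251937962).val = ((183251937962 / 2 ^ 40 : ℝ) : ℂ) := by
      rw [zi_val, cv_rv]
      unfold rv
      norm_num
    have v4 : (zi 184351450112).val = ((184351450112 / 2 ^ 40 : ℝ) : ℂ) := by
      rw [zi_val, cv_rv]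
      unfold rv
      norm_num
    obtain ⟨-, h⟩ := sem_set h (x := ((a * κ : ℝ) : ℂ)) (by
      show (zi (↑N0 * 1099511627776 - 4288095348327)).val * σ 7 = _
      rw [v1, e7]
      push_cast
      rfl)
    obtain ⟨-, p, -⟩ := h
    simp only [E.ev, upd, Nat.reduceEqDiff, reduceIte] at p
    rw [v2, v3, v4, e7, e22, e16, ← Complex.ofReal_exp] at p
    have p' : 0 < 2 * a * (Real.exp (a * κ) * (183251937962 / 2 ^ 40 * (a * κ * (a * κ)) + 1)) -
        t.sR N0 e κ * (184351450112 / 2 ^ 40 * (κ * κ) + 1) := by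
      have : (((2 * a : ℝ) : ℂ) * ((Real.exp (a * κ) : ℂ) * (((183251937962 / 2 ^ 40 : ℝ) : ℂ) *
          (((a * κ : ℝ) : ℂ) * ((a * κ : ℝ) : ℂ)) + 1)) -
          (t.sR N0 e κ : ℂ) * (((184351450112 / 2 ^ 40 : ℝ) : ℂ) * ((κ : ℂ) * (κ : ℂ)) + 1)) =
          ((2 * a * (Real.exp (a * κ) * (183251937962 / 2 ^ 40 * (a * κ * (a * κ)) + 1)) -
        t.sR N0 e κ * (184351450112 / 2 ^ 40 * (κ * κ) + 1) : ℝ) : ℂ) := by
        push_cast
        ring
      rw [this, Complex.ofReal_re] at p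
      exact p
    have g1 := two_sinh_ge (y := a * κ) (by positivity)
    have g2 := sinh_le hκ k1
    have g3 : Real.sinh κ * t.sR N0 e κ < Real.exp (2 * (a * κ)) - 1 := by
      calc Real.sinh κ * t.sR N0 e κ ≤ κ * (184351450112 / 2 ^ 40 * κ ^ 2 + 1) * t.sR N0 e κ :=
            mul_le_mul_of_nonneg_right g2 hs
        _ = κ * (t.sR N0 e κ * (184351450112 / 2 ^ 40 * (κ * κ) + 1)) := by ring
        _ < κ * (2 * a * (Real.exp (a * κ) * (183251937962 / 2 ^ 40 * (a * κ * (a * κ)) + 1))) :=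
            mul_lt_mul_of_pos_left (by linarith) hκ
        _ = 2 * (a * κ) * (Real.exp (a * κ) * (183251937962 / 2 ^ 40 * (a * κ * (a * κ)) + 1)) := by
            ring
        _ ≤ _ := g1
    unfold TD.RR TD.dK
    rw [hb, cond_true, kk_exp]
    calc Real.exp (-(2 * κ * N0)) * (1 + Real.sinh κ * t.sR N0 e κ) <
          Real.exp (-(2 * κ * N0)) * Real.exp (2 * (a * κ)) :=
          mul_lt_mul_of_pos_left (by linarith) (Real.exp_pos _)
      _ = Real.exp (-(2 * κ * N0) + 2 * (a * κ)) := by rw [Real.exp_add]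
      _ ≤ _ := by
          rw [Real.exp_le_exp, ha]
          have : 2 * κ * (39 / 10) ≤ 2 * κ * (4288095348327 / 2 ^ 40) := by
            apply mul_le_mul_of_nonneg_left _ (by positivity)
            norm_num
          nlinarith
  · have hb' : t.strip = false := by simpa using hb
    rw [hb', cond_false] at h
    obtain ⟨c, hc⟩ : ∃ c : ℝ, c = 8576190696653 / 2 ^ 40 - 2 * (N0 : ℝ) := ⟨_, rfl⟩
    have v1 : (zi (8576190696653 - 2 * (↑N0 * 1099511627776))).val = (c : ℂ) := by
      rw [zi_val, cv_rv, hc]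
      unfold rv
      push_cast
      norm_num
      ring
    obtain ⟨-, p, -⟩ := h
    simp only [E.ev] at p
    rw [v1, e7, e22, e16] at p
    have p' : (κ * t.sR N0 e κ + 1) * Real.exp (c * κ) < 1 := by
      have e1 : ((κ : ℂ) * (t.sR N0 e κ : ℂ) + 1) * exp ((c : ℂ) * (κ : ℂ)) =
          (((κ * t.sR N0 e κ + 1) * Real.exp (c * κ) : ℝ) : ℂ) := by
        push_cast
        ring
      rw [e1, Complex.norm_real, Real.norm_of_nonneg (by positivity)] at p
      exact p.trans THA_lt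
    unfold TD.RR TD.dK
    rw [hb', cond_false, kk_exp]
    have g1 : 1 + κ * t.sR N0 e κ < Real.exp (-(c * κ)) := by
      rw [Real.exp_neg, lt_inv_comm₀ (by positivity) (Real.exp_pos _), inv_eq_one_div,
        lt_div_iff₀ (by positivity)]
      linarith
    calc Real.exp (-(2 * κ * N0)) * (1 + κ * t.sR N0 e κ) <
          Real.exp (-(2 * κ * N0)) * Real.exp (-(c * κ)) :=
          mul_lt_mul_of_pos_left g1 (Real.exp_pos _)
      _ = Real.exp (-(2 * κ * N0) + -(c * κ)) := by rw [Real.exp_add]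
      _ ≤ _ := by
          rw [Real.exp_le_exp, hc]
          have : κ * (39 / 5) ≤ κ * (8576190696653 / 2 ^ 40) := by
            apply mul_le_mul_of_nonneg_left _ hκ.le
            norm_num
          nlinarith

/-- **The small conditions.** -/
theorem sf_of {t : TD} {N0 : ℕ} {be bb : ℕ × ℕ} (hC : CovD 0 [PS t N0] [be, bb]) {e κ s : ℝ}
    (he : 0 < e) (hκ : 0 < κ) (hN : 0 < N0) (hst : t.strip = true → κ ≤ 1 / 4 ∧ 4 ≤ N0)
    (h0 : |1 / e - (be.1 : ℝ) / 2 ^ 40| ≤ (be.2 : ℝ) / 2 ^ 40)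
    (h1 : |s - (bb.1 : ℝ) / 2 ^ 40| ≤ (bb.2 : ℝ) / 2 ^ 40) (hb : t.bv (1 / e) s = e * κ / 2) :
    SF t N0 e κ (39 / 10) := by
  obtain ⟨ops, ho, ha⟩ := hC [1 / e, s] [] (List.Forall₂.cons h0 (List.Forall₂.cons h1 .nil)) rfl
    (by simp)
  rw [List.mem_singleton] at ho
  subst ho
  have h := comp2 ha
  have e1 : ∀ A : List St, baseS t ++ [St.set (mreg 1 0) ((E.r 0).sub (E.c (zi t.ec))),
      St.set (mreg 0 1) (bif t.bc == 0 then E.r 4 else (E.r 4).sub (E.c (zi t.bc)))] ++
      monos [] t.Lt ++ smallS t N0 ++ A = baseS t ++ (monS t ++ (smallS t N0 ++ A)) := by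
    intro A
    simp only [monS, List.append_assoc]
  rw [e1] at h
  obtain ⟨τ, h, hB, -, -⟩ := base_spec (κ := κ) he rfl rfl hb h
  have h := sem_append _ _ _ h
  obtain ⟨τ1, h, hM, f1⟩ := mon_spec hB h
  have hB1 : BF e κ τ1 := hB.of_eq (f1 _ (by omega)) (f1 _ (by omega)) (f1 _ (by omega))
    (f1 _ (by omega)) (f1 _ (by omega)) (f1 _ (by omega)) (f1 _ (by omega))
  have h := sem_append _ _ _ h
  obtain ⟨τ2, h, -, -, hG, hS⟩ := small_spec he hκ N0 hB1 hM h
  exact ⟨hS.tp, hS.yp, hS.R1, ent_spec hκ hst (hG hN)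
    (Finset.sum_nonneg fun j hj => (hS.tp j (Finset.mem_range.1 hj)).le) h⟩

end Pool.Agent.helper63.NF
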