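import Pool.Agent.helper63.NF.SpecLast

/-!
# Meaning of the program of the first node
-/

namespace Pool.Agent.helper63.NF

open Complex
open Pool.Agent.helper31.IA (Z get)
open Pool.Agent.helper12.RS

/-- the functions of the first node -/
noncomputable def TD.L0 (t : TD) (e κ : ℝ) (p : ℂ) : ℂ :=
  Tb.ph e κ p * P3 t.tb.l0 (Tb.ph e κ p) (t.tb.de e) (t.tb.db e κ) +
    ((e * κ / 2 : ℝ) : ℂ) * P2 t.tb.q0 (t.tb.de e) (t.tb.db e κ)

noncomputable def TD.R0 (t : TD) (e κ : ℝ) (p : ℂ) : ℂ :=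
  t.tb.an0 e κ * Tb.u0 e κ p / (1 + t.tb.c0 * Tb.u0 e κ p)

noncomputable def TD.M0 (t : TD) (e κ : ℝ) (p : ℂ) : ℂ :=
  P3 t.tb.M0 (Tb.ph e κ p) (t.tb.de e) (t.tb.db e κ)

theorem sq_slit {z : ℂ} (h : 0 < z.re) : z * z ∈ slitPlane := by
  rw [Complex.mem_slitPlane_iff, Complex.mul_re, Complex.mul_im]
  by_cases h1 : z.im = 0
  · left
    rw [h1]
    nlinarith
  · right
    intro h2
    have h3 : z.re * z.im = 0 := by linarith
    rcases mul_eq_zero.1 h3 with h4 | h4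
    · exact h.ne' h4
    · exact h1 h4

theorem half_pow {z : ℂ} (h : z ≠ 0) : exp (1 / 2 * log z) = z ^ ((1 / 2 : ℝ) : ℂ) := by
  rw [Complex.cpow_def_of_ne_zero h]
  congr 1
  push_cast
  ring

/-- the first radicand from the values -/
theorem S0_form {e κ : ℝ} {T l χ a W Y s sq : ℂ}
    (hs : s = (Hh κ : ℂ) ^ 2 * (1 / 4)) (hY : (Hh κ : ℂ) * T = 2 * Y)
    (ha : a = exp (-((LA e κ : ℂ) + lF l χ) / e))
    (hW : W = exp ((lF l χ - lG l χ) / e))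
    (hsq : sq = (1 - 4 * (a * a * (s - Y * Y))) ^ ((1 / 2 : ℝ) : ℂ)) :
    S0 e κ T l χ = 4 * (W * (a * a * (s * W + 2 * (s - Y * Y)) + a * Y * sq)) + 1 := by
  have hHT : (Hh κ : ℂ) ^ 2 * T ^ 2 = 4 * (Y * Y) := by
    calc (Hh κ : ℂ) ^ 2 * T ^ 2 = ((Hh κ : ℂ) * T) ^ 2 := by ring
      _ = _ := by rw [hY]; ring
  have e1 : exp (-(2 * ((LA e κ : ℂ) + lF l χ)) / e) = a * a := by
    rw [ha, ← Complex.exp_add]
    congr 1
    ring
  have e2 : exp (-(2 * ((LA e κ : ℂ) + lG l χ)) / e) = a * a * (W * W) := by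
    rw [ha, hW, ← Complex.exp_add, ← Complex.exp_add, ← Complex.exp_add]
    congr 1
    ring
  have e3 : exp (-(2 * (LA e κ : ℂ) + lG l χ + lF l χ) / e) = a * a * W := by
    rw [ha, hW, ← Complex.exp_add, ← Complex.exp_add]
    congr 1
    ring
  have e4 : exp (-((LA e κ : ℂ) + lG l χ) / e) = a * W := by
    rw [ha, hW, ← Complex.exp_add]
    congr 1
    ring
  have e5 : (1 : ℂ) - (Hh κ : ℂ) ^ 2 * (a * a) * (1 - T ^ 2) = 1 - 4 * (a * a * (s - Y * Y)) := by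
    rw [hs]
    linear_combination (a * a) * hHT
  unfold S0
  rw [e1, e2, e3, e4, e5, ← hsq]
  linear_combination (2 * a * W * sq) * hY - (2 * a * a * W) * hHT -
    (4 * (W * (a * a * W + 2 * (a * a)))) * hs

theorem SH_form {e κ : ℝ} {T l χ a Y s sq : ℂ}
    (hs : s = (Hh κ : ℂ) ^ 2 * (1 / 4)) (hY : (Hh κ : ℂ) * T = 2 * Y)
    (ha : a = exp (-((LA e κ : ℂ) + lF l χ) / e))
    (hsq : sq = (1 - 4 * (a * a * (s - Y * Y))) ^ ((1 / 2 : ℝ) : ℂ)) :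
    Pool.Agent.helper12.RS.SH e κ T l χ = 4 * (a * a) * (2 * (Y * Y) - s) + 1 - 4 * (a * Y * sq) := by
  have hHT : (Hh κ : ℂ) ^ 2 * T ^ 2 = 4 * (Y * Y) := by
    calc (Hh κ : ℂ) ^ 2 * T ^ 2 = ((Hh κ : ℂ) * T) ^ 2 := by ring
      _ = _ := by rw [hY]; ring
  have e1 : exp (-(2 * ((LA e κ : ℂ) + lF l χ)) / e) = a * a := by
    rw [ha, ← Complex.exp_add]
    congr 1
    ring
  have e5 : (1 : ℂ) - (Hh κ : ℂ) ^ 2 * (a * a) * (1 - T ^ 2) = 1 - 4 * (a * a * (s - Y * Y)) := by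
    rw [hs]
    linear_combination (a * a) * hHT
  unfold Pool.Agent.helper12.RS.SH
  rw [e1, e5, ← hsq, ← ha]
  linear_combination (-2 * a * sq) * hY + (2 * a * a) * hHT + (4 * (a * a)) * hs

theorem MI_upd {L : List (ℕ × ℕ)} {u v : ℂ} {σ : ℕ → ℂ} (h : MI L u v σ) {i : ℕ} (hi : i < 128)
    (w : ℂ) : MI L u v (upd σ i w) :=
  ⟨by rw [upd_ne (mreg_ne_lt hi).symm, h.hu], by rw [upd_ne (mreg_ne_lt hi).symm, h.hv],
    fun a b hab => by rw [upd_ne (mreg_ne_lt hi).symm, h.hm a b hab]⟩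

/-- the registers after the block of the first node -/
structure ZR (t : TD) (e κ : ℝ) (p x : ℂ) (l χ a W Y s sq : ℂ) (σ : ℕ → ℂ) : Prop where
  f25 : σ 25 = Tb.ph e κ p
  phd : 1 + Tb.iv e κ p / 2 ≠ 0
  f26 : σ 26 = l
  f30 : σ 30 = t.tb.an0 e κ * Tb.u0 e κ p
  f31 : σ 31 = 1 + t.tb.c0 * Tb.u0 e κ p
  dne : 1 + t.tb.c0 * Tb.u0 e κ p ≠ 0
  hχ : χ = t.R0 e κ p * x
  f35 : σ 35 = lc l
  E : 0 < (1 + exp (-l)).re
  g : 1 - χ ∈ slitPlane
  F : 0 < (1 + exp (-l) * χ).re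
  f39 : σ 39 = log (1 + exp (-l) * χ)
  hs : s = (Hh κ : ℂ) ^ 2 * (1 / 4)
  hY : (Hh κ : ℂ) * tanh (κ * p) = 2 * Y
  ha : a = exp (-((LA e κ : ℂ) + lF l χ) / e)
  hW : W = exp ((lF l χ - lG l χ) / e)
  hsq : sq = (1 - 4 * (a * a * (s - Y * Y))) ^ ((1 / 2 : ℝ) : ℂ)
  hsl : 1 - 4 * (a * a * (s - Y * Y)) ∈ slitPlane
  f40 : σ 40 = s
  f41 : σ 41 = (LM e κ : ℂ)
  f43 : σ 43 = a
  f44 : σ 44 = W
  f45 : σ 45 = Y
  f46 : σ 46 = s - Y * Y
  f47 : σ 47 = Y * Y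
  f48 : σ 48 = a * a
  f50 : σ 50 = sq
  f51 : σ 51 = a * Y * sq

/-- **The block of the first node.** -/
theorem zeroS_spec {t : TD} {e κ : ℝ} (he : 0 < e) {σ : ℕ → ℂ} {Q : (ℕ → ℂ) → Prop} {v x p : ℂ}
    (hF : HF t e κ σ) (h2 : σ 2 = v) (h3 : σ 3 = x) (hv : Tb.iv e κ p = I * v)
    (h : Sem (zeroS t) σ Q) : ∃ τ, Q τ ∧ (∀ i, i < 24 ∨ 52 ≤ i → τ i = σ i) ∧
      ∃ l χ a W Y s sq, l = t.L0 e κ p ∧ ZR t e κ p x l χ a W Y s sq τ := by
  have he0 : (e : ℂ) ≠ 0 := by exact_mod_cast he.ne'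
  have e0 := hF.ep
  have e4 := hF.b
  have e7 := hF.k
  have e16 := hF.z4
  have e19 := hF.Mi1
  have e22 := hF.one
  obtain ⟨ep, hep⟩ : ∃ z, z = ((1 / e : ℝ) : ℂ) := ⟨_, rfl⟩
  obtain ⟨b, hb⟩ : ∃ z, z = ((e * κ / 2 : ℝ) : ℂ) := ⟨_, rfl⟩
  rw [← hep] at e0
  rw [← hb] at e4
  obtain ⟨-, h⟩ := sem_set h (x := I * v) (by
    show (⟨0, 0, 1099511627776, 0⟩ : Z).val * σ 2 = _
    rw [zI_val, h2])
  rw [← hv] at h
  obtain ⟨w, hw⟩ : ∃ z, z = Tb.iv e κ p := ⟨_, rfl⟩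
  rw [← hw] at h
  obtain ⟨φ, hφ⟩ : ∃ z, z = Tb.ph e κ p := ⟨_, rfl⟩
  obtain ⟨o1, h⟩ := sem_set h (x := φ) (by
    rw [hφ]
    unfold Tb.ph
    rw [← hw]
    simp only [E.ev, upd, Nat.reduceEqDiff, reduceIte, half_val]
    rw [e22, div_eq_mul_inv]
    congr 2
    ring)
  have phd : 1 + w / 2 ≠ 0 := by
    have o2 := o1.2.2
    simp only [E.ev, upd, Nat.reduceEqDiff, reduceIte, half_val] at o2
    rw [e22] at o2
    intro h0
    apply o2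
    linear_combination h0
  obtain ⟨l, hl⟩ : ∃ z, z = t.L0 e κ p := ⟨_, rfl⟩
  obtain ⟨-, h⟩ := sem_set h (x := l) (by
    have hM : MI t.L (t.tb.de e) (t.tb.db e κ) (upd (upd σ 24 w) 25 φ) :=
      MI_upd (MI_upd hF.mi (by omega) _) (by omega) _
    rw [hornE_ev, List.map_cons, horn_cons]
    have g1 := p2E_ev hM 0 t.q0
    have g2 : ((t.l0.map (p2E t.L 0)).map (E.ev (upd (upd σ 24 w) 25 φ))) =
        (c3 t.l0).map (fun r => P2 r (t.tb.de e) (t.tb.db e κ)) := by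
      unfold c3
      rw [List.map_map, List.map_map]
      apply List.map_congr_left
      intro r _
      show (p2E t.L 0 r).ev _ = P2 _ _ _
      rw [p2E_ev hM, cv_zero, zero_add]
    rw [cv_zero, zero_add] at g1
    rw [g2]
    show horn _ (upd (upd σ 24 w) 25 φ 25) * (upd (upd σ 24 w) 25 φ 25) +
      (p2E t.L 0 t.q0).ev _ * (upd (upd σ 24 w) 25 φ 4) = l
    rw [g1, upd_same, upd_ne (by omega), upd_ne (by omega), e4, hl]
    unfold TD.L0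
    rw [← hφ, ← hb]
    show P3 (c3 t.l0) φ _ _ * φ + P2 (c2 t.q0) _ _ * b = φ * P3 (c3 t.l0) φ _ _ + b * P2 (c2 t.q0) _ _
    ring)
  obtain ⟨g, hg⟩ : ∃ z, z = (Tb.gR e : ℂ) := ⟨_, rfl⟩
  obtain ⟨-, h⟩ := sem_set h (x := g) (by
    rw [hg]
    unfold Tb.gR
    simp only [E.ev, upd, Nat.reduceEqDiff, reduceIte, zi_val]
    rw [e0, hep, cv, cv]
    push_cast
    ring)
  obtain ⟨u, hu⟩ : ∃ z, z = Tb.u0 e κ p := ⟨_, rfl⟩
  obtain ⟨-, h⟩ := sem_set h (x := u) (by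
    rw [hu]
    unfold Tb.u0
    rw [← hφ, ← hg, ← hb]
    simp only [E.ev, upd, Nat.reduceEqDiff, reduceIte, four_val]
    rw [e4]
    ring)
  obtain ⟨A, hA⟩ : ∃ z, z = t.tb.an0 e κ := ⟨_, rfl⟩
  obtain ⟨-, h⟩ := sem_set h (x := A) (by
    have hM : MI t.L (t.tb.de e) (t.tb.db e κ) (upd (upd (upd (upd (upd σ 24 w) 25 φ) 26 l) 27 g) 28 u) :=
      MI_upd (MI_upd (MI_upd (MI_upd (MI_upd hF.mi (by omega) _) (by omega) _) (by omega) _) (by omega) _)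
        (by omega) _
    rw [aE_ev hM (by
      rw [upd_ne (by omega), upd_ne (by omega), upd_ne (by omega), upd_ne (by omega),
        upd_ne (by omega), e7]), hA]
    rfl)
  obtain ⟨-, h⟩ := sem_set h (x := A * u) (by simp [E.ev, upd])
  obtain ⟨d, hd⟩ : ∃ z, z = 1 + t.tb.c0 * u := ⟨_, rfl⟩
  obtain ⟨-, h⟩ := sem_set h (x := d) (by
    simp only [E.ev, upd, Nat.reduceEqDiff, reduceIte, zi_val]
    rw [e22, hd, add_comm]
    rfl)
  obtain ⟨-, p1, h⟩ := h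
  have dre : 0 < d.re := p1
  obtain ⟨-, h⟩ := sem_set h (x := A * u / d) (by
    simp only [E.ev, upd, Nat.reduceEqDiff, reduceIte]
    rw [div_eq_mul_inv])
  obtain ⟨r, hr⟩ : ∃ z, z = t.R0 e κ p := ⟨_, rfl⟩
  have hr' : A * u / d = r := by
    rw [hr, hd, hA, hu]
    rfl
  rw [hr'] at h
  obtain ⟨-, h⟩ := sem_set h (x := exp (-l)) (by simp [E.ev, upd])
  obtain ⟨-, h⟩ := sem_set h (x := 1 + exp (-l)) (by
    simp only [E.ev, upd, Nat.reduceEqDiff, reduceIte]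
    rw [e22, add_comm])
  obtain ⟨-, p2, h⟩ := h
  have Ere : 0 < (1 + exp (-l)).re := p2
  obtain ⟨-, h⟩ := sem_set h (x := lc l) (by
    simp only [E.ev, upd, Nat.reduceEqDiff, reduceIte]
    rfl)
  obtain ⟨χ, hχ⟩ : ∃ z, z = r * x := ⟨_, rfl⟩
  obtain ⟨-, h⟩ := sem_set h (x := χ) (by
    simp only [E.ev, upd, Nat.reduceEqDiff, reduceIte]
    rw [h3, hχ])
  obtain ⟨o3, h⟩ := sem_set h (x := log (1 - χ)) (by
    simp only [E.ev, upd, Nat.reduceEqDiff, reduceIte]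
    rw [e22])
  have gsl : 1 - χ ∈ slitPlane := by
    have o4 := o3.2
    simp only [E.ev, upd, Nat.reduceEqDiff, reduceIte] at o4
    rwa [e22] at o4
  obtain ⟨-, h⟩ := sem_set h (x := 1 + exp (-l) * χ) (by
    simp only [E.ev, upd, Nat.reduceEqDiff, reduceIte]
    rw [e22, add_comm])
  obtain ⟨-, p3, h⟩ := h
  have Fre : 0 < (1 + exp (-l) * χ).re := p3
  obtain ⟨-, h⟩ := sem_set h (x := log (1 + exp (-l) * χ)) (by simp [E.ev, upd])
  obtain ⟨s, hs⟩ : ∃ z, z = (Hh κ : ℂ) ^ 2 * (1 / 4) := ⟨_, rfl⟩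
  obtain ⟨-, h⟩ := sem_set h (x := s) (by
    simp only [E.ev, upd, Nat.reduceEqDiff, reduceIte, quart_val]
    rw [e16, hs, mul_comm])
  obtain ⟨-, h⟩ := sem_set h (x := (LM e κ : ℂ)) (by
    simp only [E.ev, upd, Nat.reduceEqDiff, reduceIte]
    rw [e19]
    unfold LM
    have g3 : (0 : ℝ) ≤ 1 + Real.exp (-(e * κ)) := by positivity
    rw [Complex.ofReal_log g3]
    push_cast
    rw [add_comm])
  obtain ⟨-, h⟩ := sem_set h (x := (LA e κ : ℂ)) (by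
    simp only [E.ev, upd, Nat.reduceEqDiff, reduceIte]
    rw [e4, hb, LA_eq]
    push_cast
    ring)
  obtain ⟨a, ha⟩ : ∃ z, z = exp (-((LA e κ : ℂ) + lF l χ) / e) := ⟨_, rfl⟩
  obtain ⟨-, h⟩ := sem_set h (x := a) (by
    simp only [E.ev, upd, Nat.reduceEqDiff, reduceIte]
    rw [e0, ha, hep]
    unfold lF
    congr 1
    push_cast
    field_simp
    ring)
  obtain ⟨W, hW⟩ : ∃ z, z = exp ((lF l χ - lG l χ) / e) := ⟨_, rfl⟩
  obtain ⟨-, h⟩ := sem_set h (x := W) (by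
    simp only [E.ev, upd, Nat.reduceEqDiff, reduceIte]
    rw [e0, hW, hep]
    unfold lF lG
    congr 1
    push_cast
    field_simp
    ring)
  obtain ⟨Y, hYd⟩ : ∃ z, z = (Real.sinh (κ / 2) : ℂ) * tanh (κ * p) := ⟨_, rfl⟩
  have hsh : (Hh κ : ℂ) = 2 * (Real.sinh (κ / 2) : ℂ) := by
    unfold Hh
    push_cast
    rfl
  have hY2 : (Hh κ : ℂ) * tanh (κ * p) = 2 * Y := by
    rw [hsh, hYd]
    ring
  have hYv : Y = w * (ep * g * (1 + 3 / 2 * s)) := by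
    have g4 : s = (Real.sinh (κ / 2) : ℂ) ^ 2 := by
      rw [hs, hsh]
      ring
    have g5 : ep * g * (1 + 3 / 2 * s) ≠ 0 := by
      have g6 : (0 : ℝ) < 1 / e * Tb.gR e * (1 + 3 / 2 * Real.sinh (κ / 2) ^ 2) := by
        have := Tb.gR_pos e
        positivity
      rw [g4, hep, hg]
      have g7 := Complex.ofReal_ne_zero.2 g6.ne'
      push_cast at g7 ⊢
      exact g7
    rw [hw]
    unfold Tb.iv
    rw [← hg, ← hep, ← g4, ← hYd]
    exact (div_mul_cancel₀ _ g5).symm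
  obtain ⟨-, h⟩ := sem_set h (x := Y) (by
    simp only [E.ev, upd, Nat.reduceEqDiff, reduceIte, zI_val, zi_val]
    rw [h2, e0, e22, hYv, show w = I * v by rw [hw, hv], cv]
    push_cast
    ring)
  obtain ⟨-, h⟩ := sem_set h (x := Y * Y) (by simp [E.ev, upd])
  obtain ⟨-, h⟩ := sem_set h (x := s - Y * Y) (by simp [E.ev, upd])
  obtain ⟨-, h⟩ := sem_set h (x := a * a) (by simp [E.ev, upd])
  obtain ⟨D, hD⟩ : ∃ z, z = 1 - 4 * (a * a * (s - Y * Y)) := ⟨_, rfl⟩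
  obtain ⟨o5, h⟩ := sem_set h (x := log D) (by
    simp only [E.ev, upd, Nat.reduceEqDiff, reduceIte, four_val]
    rw [e22, hD])
  have hsl : D ∈ slitPlane := by
    have o6 := o5.2
    simp only [E.ev, upd, Nat.reduceEqDiff, reduceIte, four_val] at o6
    rwa [e22, ← hD] at o6
  obtain ⟨sq, hsq⟩ : ∃ z, z = D ^ ((1 / 2 : ℝ) : ℂ) := ⟨_, rfl⟩
  obtain ⟨-, h⟩ := sem_set h (x := sq) (by
    simp only [E.ev, upd, Nat.reduceEqDiff, reduceIte, half_val]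
    rw [half_pow (slitPlane_ne_zero hsl), hsq])
  obtain ⟨-, h⟩ := sem_set h (x := a * Y * sq) (by simp [E.ev, upd])
  refine ⟨_, h, ?_, l, χ, a, W, Y, s, sq, hl, ?_⟩
  · intro i hi
    repeat rw [upd_ne (by omega)]
  · refine ⟨?_, ?_, ?_, ?_, ?_, ?_, ?_, ?_, Ere, gsl, Fre, ?_, hs, hY2, ha, hW, ?_, ?_, ?_, ?_,
      ?_, ?_, ?_, ?_, ?_, ?_, ?_, ?_⟩
    · simp [upd, hφ]
    · rw [← hw]; exact phd
    · simp [upd]
    · simp [upd, hA, hu]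
    · simp [upd, hd, hu]
    · rw [← hu, ← hd]; exact ne_of_re dre
    · rw [hχ, hr]
    · simp [upd]
    · simp [upd]
    · rw [hsq, hD]
    · rw [← hD]; exact hsl
    · simp [upd]
    · simp [upd]
    · simp [upd]
    · simp [upd]
    · simp [upd]
    · simp [upd]
    · simp [upd]
    · simp [upd]
    · simp [upd]
    · simp [upd]

end Pool.Agent.helper63.NF
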