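import Pool.Agent.helper63.NF.Prog
import Pool.Agent.helper63.NF.PolyEv

/-!
# The record of a table
-/

namespace Pool.Agent.helper63.NF

open Complex ComplexConjugate
open Pool.Agent.helper31.IA (Z get)
open Pool.Agent.helper12.RS

/-- coefficients -/
noncomputable def c1 (l : List ℤ) : List ℂ := l.map cv
noncomputable def c2 (l : List (List ℤ)) : List (List ℂ) := l.map (List.map cv)
noncomputable def c3 (l : List (List (List ℤ))) : List (List (List ℂ)) := l.map (List.map (List.map cv))

/-- the pair of poles -/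
noncomputable def PD.po (p : PD) : Pol where
  wr := cv p.wr
  wi := cv p.wi
  w1 := cv p.w1
  rho := p.rho.map (List.map fun n => (1 / 2) * cv n)
  sig := p.sig.map (List.map fun n => (-(1 / (2 * cv p.wi))) * cv n)

/-- **The record of a table.** -/
noncomputable def TD.tb (t : TD) : Tb where
  ec := cv t.ec
  bc := cv t.bc
  H := c3 t.H
  pol := t.pol.map PD.po
  M := fun n => c3 (nth [] t.M (n + 1))
  a := fun n => c2 (nth [] t.a (n + 1))
  j := fun n => cv (nth 0 t.j (n + 1))
  c := fun n => cv (nth 0 t.c (n + 1))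
  l0 := c3 t.l0
  q0 := c2 t.q0
  M0 := c3 (nth [] t.M 0)
  a0 := c2 (nth [] t.a 0)
  j0 := cv (nth 0 t.j 0)
  c0 := cv (nth 0 t.c 0)

/-- the coefficients of `t_n` -/
noncomputable def TD.tt (t : TD) (n : ℕ) : List (List ℂ) := c2 (nth [] t.t n)

theorem R1_map (k : ℂ) (hk : conj k = k) (l : List ℤ) : R1 (l.map fun n => k * cv n) := by
  intro c hc
  obtain ⟨n, -, rfl⟩ := List.mem_map.1 hc
  rw [map_mul, hk, cv_conj]

theorem R2_map (k : ℂ) (hk : conj k = k) (l : List (List ℤ)) :
    R2 (l.map (List.map fun n => k * cv n)) := by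
  intro c hc
  obtain ⟨n, -, rfl⟩ := List.mem_map.1 hc
  exact R1_map k hk n

theorem R1_c (l : List ℤ) : R1 (l.map cv) := by
  intro c hc
  obtain ⟨n, -, rfl⟩ := List.mem_map.1 hc
  exact cv_conj n

theorem R2_c (l : List (List ℤ)) : R2 (c2 l) := by
  intro c hc
  obtain ⟨n, -, rfl⟩ := List.mem_map.1 hc
  exact R1_c n

theorem R3_c (l : List (List (List ℤ))) : R3 (c3 l) := by
  intro c hc
  obtain ⟨n, -, rfl⟩ := List.mem_map.1 hc
  exact R2_c n

theorem PD.isReal (p : PD) : p.po.IsReal := by
  refine ⟨cv_conj _, cv_conj _, cv_conj _, R2_map _ ?_ _, R2_map _ ?_ _⟩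
  · exact conj_half
  · rw [map_neg, map_div₀, map_one, map_mul, cv_conj]
    congr 3
    exact Complex.conj_ofNat 2

theorem TD.isReal (t : TD) : t.tb.IsReal := by
  refine ⟨cv_conj _, cv_conj _, R3_c _, ?_, fun _ => R3_c _, fun _ => R2_c _, fun _ => cv_conj _,
    fun _ => cv_conj _, R3_c _, R2_c _, R3_c _, R2_c _, cv_conj _, cv_conj _⟩
  intro p hp
  cases h : t.pol with
  | none =>
    have : t.tb.pol = none := by
      show t.pol.map PD.po = none
      rw [h]; rfl
    rw [this] at hp
    cases hp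
  | some q =>
    have : t.tb.pol = some q.po := by
      show t.pol.map PD.po = _
      rw [h]; rfl
    rw [this, Option.some.injEq] at hp
    rw [← hp]
    exact q.isReal

theorem horn_smul (k : ℂ) (z : ℂ) : ∀ l : List ℂ, horn (l.map fun c => k * c) z = k * horn l z := by
  intro l
  induction l with
  | nil => exact (mul_zero k).symm
  | cons c t ih =>
    rw [List.map_cons, horn_cons, horn_cons, ih]
    ring

theorem P2_smul (k u v : ℂ) (l : List (List ℤ)) :
    P2 (l.map (List.map fun n => k * cv n)) u v = k * P2 (c2 l) u v := by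
  unfold P2 c2
  rw [← horn_smul, List.map_map, List.map_map, List.map_map]
  congr 1
  apply List.map_congr_left
  intro r _
  show horn (r.map fun n => k * cv n) v = k * horn (r.map cv) v
  rw [← horn_smul, List.map_map]
  rfl

/-- checks of a table -/
def TD.ok (t : TD) : Bool :=
  (match t.H with
    | [] => false
    | _ => true) &&
  (match t.pol with
    | none => true
    | some p => (p.wi * p.wi == p.wi2 * 1099511627776) && !(p.wi == 0))

theorem TD.ok_H {t : TD} (h : t.ok = true) : t.H ≠ [] := by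
  intro h0
  rw [TD.ok, h0] at h
  simp at h

theorem TD.ok_pol {t : TD} (h : t.ok = true) {p : PD} (hp : t.pol = some p) :
    cv p.wi * cv p.wi = cv p.wi2 ∧ cv p.wi ≠ 0 := by
  rw [TD.ok, hp, Bool.and_eq_true] at h
  have h1 := h.2
  rw [Bool.and_eq_true, beq_iff_eq] at h1
  obtain ⟨h2, h3⟩ := h1
  have h4 : p.wi ≠ 0 := by simpa using h3
  constructor
  · unfold cv
    rw [← ofReal_mul]
    congr 1
    have h5 : (p.wi : ℝ) * p.wi = p.wi2 * 1099511627776 := by exact_mod_cast h2
    field_simp
    linarith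
  · unfold cv
    rw [Ne, ofReal_eq_zero]
    have : (p.wi : ℝ) ≠ 0 := by exact_mod_cast h4
    positivity

/-- value of the pair of poles -/
theorem po_val {p : PD} (h : cv p.wi ≠ 0) (u y v : ℂ) : p.po.val u y v =
    (P2 (c2 p.rho) u v * p.po.z u y + P2 (c2 p.sig) u v) *
      (p.po.z u y * p.po.z u y + cv p.wi * cv p.wi)⁻¹ := by
  unfold Pol.val
  have h1 : P2 p.po.rho u v = (1 / 2) * P2 (c2 p.rho) u v := P2_smul _ _ _ _
  have h2 : P2 p.po.sig u v = (-(1 / (2 * cv p.wi))) * P2 (c2 p.sig) u v := P2_smul _ _ _ _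
  have h3 : p.po.wi = cv p.wi := rfl
  rw [h1, h2, h3]
  congr 1
  field_simp
  ring

end Pool.Agent.helper63.NF
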